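import Pool.Agent.H216R2.BB.Defs

/-! Task A7 (helper617): the Gram determinant of a zone-adapted family of polynomials. -/

open Polynomial Pool.Agent.H337R2

namespace Pool.Agent.H216R2.BB

noncomputable section

private lemma A7_expand (m : ℕ) (P : ℚ[X]) (h : P.natDegree < m) :
    P = ∑ k : Fin m, (P.coeff k) • (X ^ (k : ℕ) : ℚ[X]) := by
  conv_lhs => rw [P.as_sum_range' m h]
  rw [Fin.sum_univ_eq_sum_range (fun k => (P.coeff k) • (X ^ k : ℚ[X])) m]
  apply Finset.sum_congr rfl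
  intro k _
  rw [← Polynomial.C_mul_X_pow_eq_monomial, Polynomial.smul_eq_C_mul]

private lemma A7_gram (N : ℚ[X] →ₗ[ℚ] ℚ) (m : ℕ) {α : Type} [Fintype α] (P : α → ℚ[X])
    (h : ∀ a, (P a).natDegree < m) :
    (Matrix.of fun a b : α => N (P a * P b)) =
      (Matrix.of fun (a : α) (k : Fin m) => (P a).coeff (k : ℕ)) *
        (Matrix.of fun i j : Fin m => N (X ^ (i.1 + j.1))) *
        (Matrix.of fun (a : α) (k : Fin m) => (P a).coeff (k : ℕ)).transpose := by
  ext a b
  rw [Matrix.of_apply, Matrix.mul_apply]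
  conv_lhs => rw [A7_expand m (P a) (h a), A7_expand m (P b) (h b), Finset.mul_sum, map_sum]
  apply Finset.sum_congr rfl
  intro l _
  rw [Matrix.mul_apply, Matrix.transpose_apply, Matrix.of_apply, Finset.sum_mul, Finset.sum_mul,
    map_sum]
  apply Finset.sum_congr rfl
  intro k _
  rw [Matrix.of_apply, Matrix.of_apply, smul_mul_smul_comm, ← pow_add, map_smul, smul_eq_mul]
  ring

/-- division by a monic polynomial as a linear map -/
private def A7_div (Z : ℚ[X]) (hZ : Z.Monic) : ℚ[X] →ₗ[ℚ] ℚ[X] where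
  toFun P := P /ₘ Z
  map_add' P Q := by
    refine (div_modByMonic_unique (P /ₘ Z + Q /ₘ Z) (P %ₘ Z + Q %ₘ Z) hZ ⟨?_, ?_⟩).1
    · conv_rhs => rw [← modByMonic_add_div P Z, ← modByMonic_add_div Q Z]
      ring
    · exact lt_of_le_of_lt (degree_add_le _ _)
        (max_lt (degree_modByMonic_lt P hZ) (degree_modByMonic_lt Q hZ))
  map_smul' c P := by
    refine (div_modByMonic_unique (c • (P /ₘ Z)) (c • (P %ₘ Z)) hZ ⟨?_, ?_⟩).1
    · conv_rhs => rw [← modByMonic_add_div P Z]
      rw [smul_add, mul_smul_comm]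
    · exact lt_of_le_of_lt (degree_smul_le _ _) (degree_modByMonic_lt P hZ)

/-- the functionals -/
private def A7_phi (T : ℕ) (xs : ℕ → ℚ) (Z : ℚ[X]) (hZ : Z.Monic) (j : ℕ) : ℚ[X] →ₗ[ℚ] ℚ :=
  if j < T then Polynomial.leval (xs j) else (Polynomial.lcoeff ℚ (j - T)).comp (A7_div Z hZ)

private lemma A7_phi_lt (T : ℕ) (xs : ℕ → ℚ) (Z : ℚ[X]) (hZ : Z.Monic) (j : ℕ) (hj : j < T)
    (P : ℚ[X]) : A7_phi T xs Z hZ j P = P.eval (xs j) := by
  unfold A7_phi
  rw [if_pos hj]
  rfl

private lemma A7_phi_ge (T : ℕ) (xs : ℕ → ℚ) (Z : ℚ[X]) (hZ : Z.Monic) (j : ℕ) (hj : ¬ j < T)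
    (Q : ℚ[X]) : A7_phi T xs Z hZ j (Z * Q) = Q.coeff (j - T) := by
  unfold A7_phi
  rw [if_neg hj]
  change ((Z * Q) /ₘ Z).coeff (j - T) = Q.coeff (j - T)
  rw [mul_divByMonic_cancel_left _ hZ]

private lemma A7_CL (m T : ℕ) (xs : ℕ → ℚ) (Z : ℚ[X]) (hZ : Z.Monic) (P : ℕ → ℚ[X])
    (h : ∀ i < m, (P i).natDegree < m) :
    (Matrix.of fun i j : Fin m => A7_phi T xs Z hZ j (P i)) =
      (Matrix.of fun i k : Fin m => (P i).coeff (k : ℕ)) *
        (Matrix.of fun k j : Fin m => A7_phi T xs Z hZ j (X ^ (k : ℕ))) := by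
  ext i j
  rw [Matrix.of_apply, Matrix.mul_apply]
  conv_lhs => rw [A7_expand m (P i) (h i i.2), map_sum]
  apply Finset.sum_congr rfl
  intro k _
  rw [Matrix.of_apply, Matrix.of_apply, map_smul, smul_eq_mul]

private def A7_e (m T : ℕ) (hT : T ≤ m) : Fin T ≃ {i : Fin m // i.1 < T} where
  toFun i := ⟨⟨i.1, lt_of_lt_of_le i.2 hT⟩, i.2⟩
  invFun a := ⟨a.1.1, a.2⟩
  left_inv i := rfl
  right_inv a := rfl

private lemma A7_block (m T : ℕ) (hT : T ≤ m) (xs : ℕ → ℚ) (Z : ℚ[X]) (hZ : Z.Monic)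
    (hZ0 : ∀ j < T, Z.eval (xs j) = 0) (P Q : ℕ → ℚ[X])
    (hQ : ∀ j, T + j < m → (Q j).Monic ∧ (Q j).natDegree = j)
    (hP : ∀ i, T ≤ i → i < m → P i = Z * Q (i - T)) :
    (Matrix.of fun i j : Fin m => A7_phi T xs Z hZ j (P i)).det =
      (Matrix.of fun i j : Fin T => (P i).eval (xs j)).det := by
  rw [Matrix.twoBlockTriangular_det _ (fun i : Fin m => i.1 < T)]
  · have h2 : (Matrix.toSquareBlockProp (Matrix.of fun i j : Fin m => A7_phi T xs Z hZ j (P i))
        (fun i : Fin m => ¬ i.1 < T)).det = 1 := by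
      rw [Matrix.det_of_lowerTriangular]
      · apply Finset.prod_eq_one
        intro i _
        have hi1 : T ≤ i.1.1 := not_lt.1 i.2
        have hi2 := hQ (i.1.1 - T) (by have := i.1.2; omega)
        change A7_phi T xs Z hZ i.1 (P i.1) = 1
        rw [hP i.1.1 hi1 i.1.2, A7_phi_ge T xs Z hZ i.1 i.2]
        have h3 := hi2.1
        rw [Polynomial.Monic, Polynomial.leadingCoeff, hi2.2] at h3
        exact h3
      · intro i j hij
        have hi1 : T ≤ i.1.1 := not_lt.1 i.2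
        have hi2 := hQ (i.1.1 - T) (by have := i.1.2; omega)
        change A7_phi T xs Z hZ j.1 (P i.1) = 0
        rw [hP i.1.1 hi1 i.1.2, A7_phi_ge T xs Z hZ j.1 j.2]
        apply Polynomial.coeff_eq_zero_of_natDegree_lt
        rw [hi2.2]
        have h4 : i.1.1 < j.1.1 := hij
        omega
    rw [h2, mul_one, ← Matrix.det_submatrix_equiv_self (A7_e m T hT)]
    apply congrArg
    ext i j
    change A7_phi T xs Z hZ j.1 (P i.1) = (P i).eval (xs j)
    rw [A7_phi_lt T xs Z hZ j.1 j.2]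
  · intro i hi j hj
    rw [Matrix.of_apply, A7_phi_lt T xs Z hZ j.1 hj, hP i.1 (not_lt.1 hi) i.2, eval_mul,
      hZ0 j.1 hj, zero_mul]

private lemma A7_vander (T : ℕ) (xs : ℕ → ℚ) :
    (Matrix.vandermonde fun i : Fin T => xs i).det ^ 2 =
      |∏ i ∈ Finset.range T, ∏ l ∈ (Finset.range T).erase i, (xs i - xs l)| := by
  have h1 := Finset.prod_prod_Ioi_mul_eq_prod_prod_off_diag (fun i j : Fin T => |xs i - xs j|)
  have h2 : |∏ i ∈ Finset.range T, ∏ l ∈ (Finset.range T).erase i, (xs i - xs l)| =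
      ∏ i : Fin T, ∏ j ∈ {i}ᶜ, |xs j - xs i| := by
    rw [Finset.abs_prod, ← Fin.prod_univ_eq_prod_range
      (fun i => |∏ l ∈ (Finset.range T).erase i, (xs i - xs l)|)]
    apply Finset.prod_congr rfl
    intro i _
    rw [Finset.abs_prod]
    refine (Finset.prod_bij (fun (l : Fin T) _ => l.1) ?_ ?_ ?_ ?_).symm
    · intro l hl
      rw [Finset.mem_compl, Finset.mem_singleton] at hl
      rw [Finset.mem_erase, Finset.mem_range]
      exact ⟨fun h => hl (Fin.ext h), l.2⟩
    · intro a _ b _ hab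
      exact Fin.ext hab
    · intro b hb
      rw [Finset.mem_erase, Finset.mem_range] at hb
      refine ⟨⟨b, hb.2⟩, ?_, rfl⟩
      rw [Finset.mem_compl, Finset.mem_singleton]
      intro h
      exact hb.1 (congrArg Fin.val h)
    · intro l _
      exact abs_sub_comm _ _
  rw [h2, ← h1, Matrix.det_vandermonde, ← Finset.prod_pow]
  apply Finset.prod_congr rfl
  intro i _
  rw [← Finset.prod_pow]
  apply Finset.prod_congr rfl
  intro j _
  rw [abs_sub_comm (xs i) (xs j), ← sq, sq_abs]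

theorem A7_gram_zone (N : ℚ[X] →ₗ[ℚ] ℚ) (m T : ℕ) (xs : ℕ → ℚ)
    (hxs : ∀ i < T, ∀ j < T, i ≠ j → xs i ≠ xs j) (H : ℚ[X]) (hH : H.Monic) (hHd : H.natDegree + T = m)
    (G : ℕ → ℚ[X]) (hG : ∀ j, T + j < m → (G j).Monic ∧ (G j).natDegree = j)
    (P : ℕ → ℚ[X]) (hP1 : ∀ i < T, P i = (∏ l ∈ (Finset.range T).erase i, (X - C (xs l))) * H)
    (hP2 : ∀ i, T ≤ i → i < m → P i = (∏ l ∈ Finset.range T, (X - C (xs l))) * G (i - T)) :
    |(Matrix.of fun i j : Fin m => N (P i * P j)).det| =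
      |(Matrix.of fun i j : Fin m => N (X ^ (i.1 + j.1))).det| *
      |∏ i ∈ Finset.range T, ∏ l ∈ (Finset.range T).erase i, (xs i - xs l)| *
      (∏ i ∈ Finset.range T, H.eval (xs i)) ^ 2 := by
  have hT : T ≤ m := by omega
  set Z : ℚ[X] := ∏ l ∈ Finset.range T, (X - C (xs l)) with hZdef
  have hZ : Z.Monic := monic_prod_of_monic _ _ (fun l _ => monic_X_sub_C _)
  have hZd : Z.natDegree = T := by
    rw [hZdef, natDegree_prod_of_monic _ _ (fun l _ => monic_X_sub_C _)]
    simp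
  have hZ0 : ∀ j < T, Z.eval (xs j) = 0 := by
    intro j hj
    rw [hZdef, eval_prod]
    apply Finset.prod_eq_zero (Finset.mem_range.2 hj)
    simp
  have hZe : ∀ i < T, (∏ l ∈ (Finset.range T).erase i, (X - C (xs l)) : ℚ[X]).natDegree = T - 1 := by
    intro i hi
    rw [natDegree_prod_of_monic _ _ (fun l _ => monic_X_sub_C _)]
    simp [Finset.card_erase_of_mem (Finset.mem_range.2 hi)]
  have hPd : ∀ i < m, (P i).natDegree < m := by
    intro i hi
    by_cases hiT : i < T
    · rw [hP1 i hiT]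
      refine lt_of_le_of_lt natDegree_mul_le ?_
      rw [hZe i hiT]
      omega
    · rw [hP2 i (not_lt.1 hiT) hi]
      refine lt_of_le_of_lt natDegree_mul_le ?_
      rw [hZd, (hG (i - T) (by omega)).2]
      omega
  -- the family `X^i`, `Z X^(i-T)`
  set B : ℕ → ℚ[X] := fun i => if i < T then X ^ i else Z * X ^ (i - T) with hB
  have hB1 : ∀ i, (B i).Monic ∧ (B i).natDegree = i := by
    intro i
    rw [hB]
    by_cases hiT : i < T
    · simp only [if_pos hiT]
      exact ⟨monic_X_pow i, natDegree_X_pow i⟩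
    · simp only [if_neg hiT]
      refine ⟨hZ.mul (monic_X_pow _), ?_⟩
      rw [hZ.natDegree_mul (monic_X_pow _), hZd, natDegree_X_pow]
      omega
  have hCB : (Matrix.of fun (a : Fin m) (k : Fin m) => (B a).coeff (k : ℕ)).det = 1 := by
    rw [Matrix.det_of_lowerTriangular]
    · apply Finset.prod_eq_one
      intro i _
      rw [Matrix.of_apply]
      have h3 := (hB1 i).1
      rw [Polynomial.Monic, Polynomial.leadingCoeff, (hB1 i).2] at h3
      exact h3
    · intro i j hij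
      rw [Matrix.of_apply]
      apply Polynomial.coeff_eq_zero_of_natDegree_lt
      rw [(hB1 i).2]
      exact hij
  have hFB := A7_CL m T xs Z hZ B (fun i hi => by rw [(hB1 i).2]; exact hi)
  have hFP := A7_CL m T xs Z hZ P hPd
  have hdB := A7_block m T hT xs Z hZ hZ0 B (fun j => X ^ j)
    (fun j _ => ⟨monic_X_pow j, natDegree_X_pow j⟩) (fun i hi _ => by
      rw [hB]
      simp only [if_neg (not_lt.2 hi)])
  have hdP := A7_block m T hT xs Z hZ hZ0 P G hG hP2
  rw [hFB, Matrix.det_mul, hCB, one_mul] at hdB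
  rw [hFP, Matrix.det_mul, hdB] at hdP
  have hV : (Matrix.of fun i j : Fin T => (B i).eval (xs j)).det =
      (Matrix.vandermonde fun i : Fin T => xs i).det := by
    rw [← Matrix.det_transpose]
    apply congrArg
    ext i j
    rw [Matrix.transpose_apply, Matrix.of_apply, Matrix.vandermonde_apply, hB]
    simp only [if_pos j.2]
    simp
  have hD : (Matrix.of fun i j : Fin T => (P i).eval (xs j)).det =
      (∏ i ∈ Finset.range T, ∏ l ∈ (Finset.range T).erase i, (xs i - xs l)) *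
      (∏ i ∈ Finset.range T, H.eval (xs i)) := by
    have h1 : (Matrix.of fun i j : Fin T => (P i).eval (xs j)) =
        Matrix.diagonal (fun i : Fin T =>
          (∏ l ∈ (Finset.range T).erase i.1, (xs i - xs l)) * H.eval (xs i)) := by
      ext i j
      rw [Matrix.of_apply, hP1 i i.2, eval_mul, eval_prod]
      by_cases hij : i = j
      · subst hij
        rw [Matrix.diagonal_apply_eq]
        simp
      · rw [Matrix.diagonal_apply_ne _ hij]
        have h0 : ∏ l ∈ (Finset.range T).erase i.1, (X - C (xs l) : ℚ[X]).eval (xs j) = 0 := by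
          apply Finset.prod_eq_zero (i := j.1)
          · rw [Finset.mem_erase, Finset.mem_range]
            exact ⟨fun h => hij (Fin.ext h.symm), j.2⟩
          · simp
        rw [h0, zero_mul]
    rw [h1, Matrix.det_diagonal, Fin.prod_univ_eq_prod_range
      (fun i => (∏ l ∈ (Finset.range T).erase i, (xs i - xs l)) * H.eval (xs i)) T,
      Finset.prod_mul_distrib]
  rw [hV, hD] at hdP
  have hvan := A7_vander T xs
  have hDne : (∏ i ∈ Finset.range T, ∏ l ∈ (Finset.range T).erase i, (xs i - xs l)) ≠ 0 := by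
    rw [Finset.prod_ne_zero_iff]
    intro i hi
    rw [Finset.prod_ne_zero_iff]
    intro l hl
    rw [Finset.mem_erase] at hl
    exact sub_ne_zero.2 (hxs i (Finset.mem_range.1 hi) l (Finset.mem_range.1 hl.2) (Ne.symm hl.1))
  have hgram := A7_gram N m (fun i : Fin m => P i) (fun i => hPd i i.2)
  rw [hgram, Matrix.det_mul, Matrix.det_mul, Matrix.det_transpose]
  set c := (Matrix.of fun (a : Fin m) (k : Fin m) => (P a).coeff (k : ℕ)).det with hc
  set D := ∏ i ∈ Finset.range T, ∏ l ∈ (Finset.range T).erase i, (xs i - xs l) with hDd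
  set h := ∏ i ∈ Finset.range T, H.eval (xs i) with hh
  set v := (Matrix.vandermonde fun i : Fin T => xs i).det with hv
  have hcc : c ^ 2 = |D| * h ^ 2 := by
    have h5 : c ^ 2 * |D| = (|D| * h ^ 2) * |D| := by
      rw [← hvan]
      have h6 : v ^ 2 * v ^ 2 = D ^ 2 := by
        rw [hvan, abs_mul_abs_self]
        ring
      calc c ^ 2 * v ^ 2 = (c * v) ^ 2 := by ring
        _ = (D * h) ^ 2 := by rw [hdP]
        _ = (v ^ 2 * v ^ 2) * h ^ 2 := by rw [h6]; ring
        _ = v ^ 2 * h ^ 2 * v ^ 2 := by ring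
    exact mul_right_cancel₀ (abs_ne_zero.2 hDne) h5
  rw [mul_assoc, mul_assoc, ← hcc]
  rw [abs_mul, abs_mul]
  have h7 : |c| * |c| = c ^ 2 := by
    rw [abs_mul_abs_self]; ring
  rw [← h7]
  ring

end

end Pool.Agent.H216R2.BB
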