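import Pool.Agent.H216R2.BB.Defs

/-!
# B0k: the kernel `π / cosh (π y)` (helper640)
-/

open Polynomial Pool.Agent.H337R2

namespace Pool.Agent.H216R2.BB

open Complex in
lemma B0k_f (y : ℝ) (j : ℤ) : li (2 * (j : ℝ) + 1 / 2) y - li (2 * (j : ℝ) + 3 / 2) y =
    (1 / 2) * (1 / ((1 / 4 + y * I / 2) + (j : ℂ)) - 1 / ((3 / 4 + y * I / 2) + (j : ℂ))) := by
  unfold li
  push_cast
  rw [show (2 * (j : ℂ) + 1 / 2) + y * I = 2 * ((1 / 4 + y * I / 2) + (j : ℂ)) by ring,
    show (2 * (j : ℂ) + 3 / 2) + y * I = 2 * ((3 / 4 + y * I / 2) + (j : ℂ)) by ring,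
    mul_inv, mul_inv]
  ring

open Complex in
lemma B0k_mem (y : ℝ) (c : ℝ) (hc0 : 0 < c) (hc1 : c < 1) :
    ((c : ℂ) + y * I / 2) ∈ Complex.integerComplement := by
  rw [Complex.mem_integerComplement_iff]
  rintro ⟨n, hn⟩
  have h := congrArg Complex.re hn
  simp at h
  have h1 : (0 : ℝ) < n := by rw [h]; exact hc0
  have h2 : (n : ℝ) < 1 := by rw [h]; exact hc1
  have h3 : 0 < n := by exact_mod_cast h1
  have h4 : n < 1 := by exact_mod_cast h2
  omega

lemma B0k_summable (y : ℝ) :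
    Summable (fun j : ℤ => li (2 * (j : ℝ) + 1 / 2) y - li (2 * (j : ℝ) + 3 / 2) y) := by
  apply Summable.of_norm
  refine Summable.of_nonneg_of_le (fun _ => norm_nonneg _) (fun j => ?_)
    (summable_abs_sq.mul_left 8)
  have a1 : (|(j : ℝ)| + 1) / 2 ≤ |2 * (j : ℝ) + 1 / 2| := by
    rcases le_or_gt 0 j with h | h
    · have h' : (0 : ℝ) ≤ j := by exact_mod_cast h
      rw [abs_of_nonneg h', abs_of_pos (by linarith)]
      linarith
    · have h' : (j : ℝ) ≤ -1 := by exact_mod_cast (by omega : j ≤ -1)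
      rw [abs_of_neg (by linarith), abs_of_neg (by linarith)]
      linarith
  have a2 : (|(j : ℝ)| + 1) / 4 ≤ |2 * (j : ℝ) + 3 / 2| := by
    rcases le_or_gt 0 j with h | h
    · have h' : (0 : ℝ) ≤ j := by exact_mod_cast h
      rw [abs_of_nonneg h', abs_of_pos (by linarith)]
      linarith
    · have h' : (j : ℝ) ≤ -1 := by exact_mod_cast (by omega : j ≤ -1)
      rw [abs_of_neg (by linarith), abs_of_neg (by linarith)]
      linarith
  have h3 : 0 < |(j : ℝ)| + 1 := by positivity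
  have n1 : 2 * (j : ℝ) + 1 / 2 ≠ 0 := by
    intro h; rw [h, abs_zero] at a1; linarith
  have n2 : 2 * (j : ℝ) + 3 / 2 ≠ 0 := by
    intro h; rw [h, abs_zero] at a2; linarith
  have e1 : li (2 * (j : ℝ) + 1 / 2) y - li (2 * (j : ℝ) + 3 / 2) y =
      li (2 * (j : ℝ) + 1 / 2) y * li (2 * (j : ℝ) + 3 / 2) y := by
    have c1 := lf_ne n1 y
    have c2 := lf_ne n2 y
    unfold li
    rw [inv_sub_inv c1 c2, ← mul_inv, show (((2 * (j : ℝ) + 3 / 2 : ℝ) : ℂ) + y * Complex.I) -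
      (((2 * (j : ℝ) + 1 / 2 : ℝ) : ℂ) + y * Complex.I) = 1 by push_cast; ring, one_div]
  rw [e1, norm_mul]
  have b1 := norm_li_le_inv n1 y
  have b2 := norm_li_le_inv n2 y
  have b3 : |2 * (j : ℝ) + 1 / 2|⁻¹ ≤ 2 * (|(j : ℝ)| + 1)⁻¹ := by
    have : |2 * (j : ℝ) + 1 / 2|⁻¹ ≤ ((|(j : ℝ)| + 1) / 2)⁻¹ := inv_anti₀ (by positivity) a1
    rw [inv_div] at this
    rw [← div_eq_mul_inv]
    exact this
  have b4 : |2 * (j : ℝ) + 3 / 2|⁻¹ ≤ 4 * (|(j : ℝ)| + 1)⁻¹ := by
    have : |2 * (j : ℝ) + 3 / 2|⁻¹ ≤ ((|(j : ℝ)| + 1) / 4)⁻¹ := inv_anti₀ (by positivity) a2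
    rw [inv_div] at this
    rw [← div_eq_mul_inv]
    exact this
  calc _ ≤ (2 * (|(j : ℝ)| + 1)⁻¹) * (4 * (|(j : ℝ)| + 1)⁻¹) :=
        mul_le_mul (b1.trans b3) (b2.trans b4) (norm_nonneg _) (by positivity)
    _ = 8 * (1 / (|(j : ℝ)| + 1) ^ 2) := by
        rw [one_div, ← inv_pow]; ring

open Complex in
lemma B0k_trig (y : ℝ) :
    (1 / 2 : ℂ) * (Real.pi * cot (Real.pi * (1 / 4 + y * I / 2)) -
      Real.pi * cot (Real.pi * (3 / 4 + y * I / 2))) =
      ((Real.pi / Real.cosh (Real.pi * y) : ℝ) : ℂ) := by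
  set a : ℂ := Real.pi * (1 / 4 + y * I / 2) with ha
  have e1 : (Real.pi : ℂ) * (3 / 4 + y * I / 2) = a + Real.pi / 2 := by rw [ha]; ring
  have e2 : Complex.sin (2 * a) = Complex.cosh (Real.pi * y) := by
    have : 2 * a = (Real.pi * y : ℂ) * I + Real.pi / 2 := by rw [ha]; ring
    rw [this, Complex.sin_add_pi_div_two, Complex.cos_mul_I]
  have e3 : Complex.cosh (Real.pi * y) ≠ 0 := by
    rw [← Complex.ofReal_mul, ← Complex.ofReal_cosh]
    exact_mod_cast (Real.cosh_pos _).ne'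
  have e4 : Complex.sin (2 * a) = 2 * Complex.sin a * Complex.cos a := Complex.sin_two_mul a
  rw [e2] at e4
  have e5 : Complex.sin a ≠ 0 := by
    intro h; rw [h] at e4; apply e3; rw [e4]; ring
  have e6 : Complex.cos a ≠ 0 := by
    intro h; rw [h] at e4; apply e3; rw [e4]; ring
  rw [e1, Complex.cot, Complex.cot, Complex.sin_add_pi_div_two, Complex.cos_add_pi_div_two]
  push_cast
  rw [e4]
  field_simp
  linear_combination Complex.sin_sq_add_cos_sq a

open Complex in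
theorem B0_kernel (y : ℝ) :
    HasSum (fun j : ℤ => li (2 * (j : ℝ) + 1 / 2) y - li (2 * (j : ℝ) + 3 / 2) y)
      ((Real.pi / Real.cosh (Real.pi * y) : ℝ) : ℂ) := by
  set f : ℤ → ℂ := fun j => li (2 * (j : ℝ) + 1 / 2) y - li (2 * (j : ℝ) + 3 / 2) y with hf
  have hs : Summable f := B0k_summable y
  have h1 := hs.hasSum.nat_add_neg
  have h2 := (hasSum_nat_add_iff' (f := fun n : ℕ => f n + f (-n)) 1).2 h1
  have m1 : ((1 / 4 : ℂ) + y * I / 2) ∈ Complex.integerComplement := by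
    have := B0k_mem y (1 / 4) (by norm_num) (by norm_num)
    push_cast at this
    exact this
  have m2 : ((3 / 4 : ℂ) + y * I / 2) ∈ Complex.integerComplement := by
    have := B0k_mem y (3 / 4) (by norm_num) (by norm_num)
    push_cast at this
    exact this
  have s1 := (summable_cotTerm m1).hasSum
  have s2 := (summable_cotTerm m2).hasSum
  have t1 := cot_series_rep' m1
  have t2 := cot_series_rep' m2
  rw [← t1] at s1
  rw [← t2] at s2
  have h3 := (s1.sub s2).mul_left (1 / 2 : ℂ)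
  have h4 : (fun n : ℕ => f ((n + 1 : ℕ) : ℤ) + f (-((n + 1 : ℕ) : ℤ))) = fun n : ℕ => (1 / 2 : ℂ) *
      (cotTerm (1 / 4 + y * I / 2) n - cotTerm (3 / 4 + y * I / 2) n) := by
    funext n
    simp only [hf]
    rw [B0k_f, B0k_f]
    unfold cotTerm
    push_cast
    ring
  have h5 := h2.unique (h4 ▸ h3)
  have h6 : f 0 = (1 / 2) * (1 / (1 / 4 + y * I / 2) - 1 / (3 / 4 + y * I / 2)) := by
    have := B0k_f y 0
    simp only [Int.cast_zero, add_zero] at this
    simp only [hf, Int.cast_zero]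
    exact this
  have h7 : ∑' j, f j = ((Real.pi / Real.cosh (Real.pi * y) : ℝ) : ℂ) := by
    rw [← B0k_trig y]
    simp only [Finset.range_one, Finset.sum_singleton, Nat.cast_zero, neg_zero] at h5
    rw [h6] at h5
    linear_combination h5
  rw [← h7]
  exact hs.hasSum

end Pool.Agent.H216R2.BB
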