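import Pool.Agent.H216R2.BB.B0k

/-!
# The integral against `1 / cosh`
-/

open Polynomial Pool.Agent.H337R2 Filter Topology MeasureTheory

namespace Pool.Agent.H216R2.BB

noncomputable section

lemma B0s_cosh (x : ℝ) : 1 + x ^ 2 / 2 ≤ Real.cosh x := by
  have h1 : Real.cosh x = 1 + 2 * Real.sinh (x / 2) ^ 2 := by
    have h2 := Real.cosh_two_mul (x / 2)
    have h3 := Real.cosh_sq (x / 2)
    have h4 : 2 * (x / 2) = x := by ring
    rw [h4] at h2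
    rw [h2, h3]
    ring
  rw [h1]
  have h5 : (x / 2) ^ 2 ≤ Real.sinh (x / 2) ^ 2 := by
    rw [sq_le_sq]
    rcases le_total 0 (x / 2) with h | h
    · rw [abs_of_nonneg h, abs_of_nonneg (Real.sinh_nonneg_iff.2 h)]
      exact Real.self_le_sinh_iff.2 h
    · rw [abs_of_nonpos h, abs_of_nonpos (Real.sinh_nonpos_iff.2 h)]
      have := Real.sinh_le_self_iff.2 h
      linarith
  nlinarith

lemma B0s_cosh_inv (y : ℝ) : (Real.cosh (Real.pi * y))⁻¹ ≤ (1 + y ^ 2)⁻¹ := by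
  apply inv_anti₀ (by positivity)
  refine le_trans ?_ (B0s_cosh _)
  have h : (3 : ℝ) ≤ Real.pi := Real.pi_gt_three.le
  have h2 : (9 : ℝ) ≤ Real.pi ^ 2 := by nlinarith
  rw [mul_pow]
  nlinarith [sq_nonneg y]

lemma B0s_li_le_one {A : ℝ} (hA : 1 ≤ A) (y : ℝ) : ‖li A y‖ ≤ (Real.sqrt (1 + y ^ 2))⁻¹ := by
  unfold li
  rw [norm_inv, norm_lf]
  apply inv_anti₀ (by positivity)
  apply Real.sqrt_le_sqrt
  nlinarith

lemma B0s_sqrt_one (y : ℝ) : (Real.sqrt (1 + y ^ 2))⁻¹ ≤ 1 := by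
  apply inv_le_one_of_one_le₀
  rw [Real.one_le_sqrt]
  nlinarith [sq_nonneg y]

lemma B0s_li_pow {A : ℝ} (hA : 1 ≤ A) (y : ℝ) {i : ℕ} (hi : 1 ≤ i) :
    ‖li A y ^ i‖ ≤ (Real.sqrt (1 + y ^ 2))⁻¹ := by
  rw [norm_pow]
  calc ‖li A y‖ ^ i ≤ ((Real.sqrt (1 + y ^ 2))⁻¹) ^ i :=
        pow_le_pow_left₀ (norm_nonneg _) (B0s_li_le_one hA y) i
    _ ≤ ((Real.sqrt (1 + y ^ 2))⁻¹) ^ 1 :=
        pow_le_pow_of_le_one (by positivity) (B0s_sqrt_one y) hi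
    _ = _ := pow_one _

lemma B0s_integrable {A : ℝ} (hA : 1 ≤ A) {i : ℕ} (hi : 1 ≤ i) :
    Integrable (fun y : ℝ => li A y ^ i * (((Real.cosh (Real.pi * y))⁻¹ : ℝ) : ℂ)) := by
  refine Integrable.mono' integrable_inv_one_add_sq ?_ (Filter.Eventually.of_forall fun y => ?_)
  · apply Continuous.aestronglyMeasurable
    apply ((li_continuous (by linarith : A ≠ 0)).pow i).mul
    apply Complex.continuous_ofReal.comp
    apply Continuous.inv₀ (by fun_prop)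
    intro y
    exact (Real.cosh_pos _).ne'
  · rw [norm_mul, Complex.norm_real, Real.norm_eq_abs, abs_of_pos (inv_pos.2 (Real.cosh_pos _))]
    calc ‖li A y ^ i‖ * (Real.cosh (Real.pi * y))⁻¹ ≤ 1 * (1 + y ^ 2)⁻¹ := by
          apply mul_le_mul ((B0s_li_pow hA y hi).trans (B0s_sqrt_one y)) (B0s_cosh_inv y)
            (inv_pos.2 (Real.cosh_pos _)).le zero_le_one
      _ = _ := one_mul _

/-- the difference of two neighbours -/
lemma B0s_diff {V : ℝ} (hV : V ≠ 0) (hV1 : V + 1 ≠ 0) (y : ℝ) :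
    li V y - li (V + 1) y = li V y * li (V + 1) y := by
  unfold li
  have n1 : (V : ℂ) + y * Complex.I ≠ 0 := lf_ne hV y
  have n2 : ((V + 1 : ℝ) : ℂ) + y * Complex.I ≠ 0 := lf_ne hV1 y
  field_simp
  push_cast
  ring

lemma B0s_li_norm (V c y : ℝ) (hc : 0 < c) (h : c ≤ |V|) :
    ‖li V y‖ ≤ (Real.sqrt (c ^ 2 + y ^ 2))⁻¹ := by
  unfold li
  rw [norm_inv, norm_lf]
  apply inv_anti₀ (by positivity)
  apply Real.sqrt_le_sqrt
  have : c ^ 2 ≤ V ^ 2 := by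
    rw [← sq_abs V]
    exact pow_le_pow_left₀ hc.le h 2
  linarith

lemma B0s_V (j : ℤ) : (|(j : ℝ)| + 1) / 4 ≤ |2 * (j : ℝ) + 1 / 2| ∧
    (|(j : ℝ)| + 1) / 4 ≤ |2 * (j : ℝ) + 3 / 2| := by
  rcases le_or_gt 0 j with h | h
  · have h' : (0 : ℝ) ≤ j := by exact_mod_cast h
    rw [abs_of_nonneg h', abs_of_pos (by linarith), abs_of_pos (by linarith)]
    constructor <;> linarith
  · have h' : (j : ℝ) ≤ -1 := by exact_mod_cast (by omega : j ≤ -1)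
    rw [abs_of_neg (by linarith), abs_of_neg (by linarith), abs_of_neg (by linarith)]
    constructor <;> linarith

/-- domination -/
lemma B0s_dom {A : ℝ} (hA : 1 ≤ A) {i : ℕ} (hi : 1 ≤ i) (j : ℤ) (y : ℝ) :
    ‖li A y ^ i * (li (2 * (j : ℝ) + 1 / 2) y - li (2 * (j : ℝ) + 3 / 2) y)‖ ≤
      16 * (|(j : ℝ)| + 1) ^ (-(3 / 2) : ℝ) * (1 + ‖y‖ ^ 2) ^ (-(3 / 2) / 2 : ℝ) := by
  obtain ⟨h1, h2⟩ := B0s_V j
  obtain ⟨d, hd⟩ : ∃ d : ℝ, d = |(j : ℝ)| + 1 := ⟨_, rfl⟩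
  rw [← hd] at h1 h2 ⊢
  have hd1 : 1 ≤ d := by
    rw [hd]
    linarith [abs_nonneg (j : ℝ)]
  have hV : 2 * (j : ℝ) + 1 / 2 ≠ 0 := by
    intro h
    rw [h, abs_zero] at h1
    linarith
  have hV1 : 2 * (j : ℝ) + 3 / 2 ≠ 0 := by
    intro h
    rw [h, abs_zero] at h2
    linarith
  have e : 2 * (j : ℝ) + 3 / 2 = (2 * (j : ℝ) + 1 / 2) + 1 := by ring
  have hdiff : li (2 * (j : ℝ) + 1 / 2) y - li (2 * (j : ℝ) + 3 / 2) y =
      li (2 * (j : ℝ) + 1 / 2) y * li (2 * (j : ℝ) + 3 / 2) y := by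
    rw [e]
    exact B0s_diff hV (by rw [← e]; exact hV1) y
  rw [hdiff, norm_mul, norm_mul]
  have k1 := B0s_li_pow hA y hi
  have k2 := B0s_li_norm _ (d / 4) y (by positivity) h1
  have k3 := B0s_li_norm _ (d / 4) y (by positivity) h2
  have hs : 0 < (d / 4) ^ 2 + y ^ 2 := by positivity
  have k4 : ‖li (2 * (j : ℝ) + 1 / 2) y‖ * ‖li (2 * (j : ℝ) + 3 / 2) y‖ ≤
      ((d / 4) ^ 2 + y ^ 2)⁻¹ := by
    calc _ ≤ (Real.sqrt ((d / 4) ^ 2 + y ^ 2))⁻¹ * (Real.sqrt ((d / 4) ^ 2 + y ^ 2))⁻¹ :=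
          mul_le_mul k2 k3 (norm_nonneg _) (by positivity)
      _ = _ := by rw [← mul_inv, Real.mul_self_sqrt hs.le]
  have k5 : ((d / 4) ^ 2 + y ^ 2)⁻¹ ≤ 16 * (d ^ 2 + y ^ 2)⁻¹ := by
    rw [← div_eq_mul_inv, inv_le_comm₀ hs (by positivity), inv_div]
    rw [div_le_iff₀ (by norm_num)]
    nlinarith [sq_nonneg y]
  have hy : ‖y‖ ^ 2 = y ^ 2 := by rw [Real.norm_eq_abs, sq_abs]
  have h1y : (0 : ℝ) < 1 + y ^ 2 := by positivity
  have k6 : (d ^ 2 + y ^ 2)⁻¹ ≤ d ^ (-(3 / 2) : ℝ) * (1 + y ^ 2) ^ (-(1 / 4) : ℝ) := by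
    have hdy : (0 : ℝ) < d ^ 2 + y ^ 2 := by positivity
    have e1 : (d ^ 2 + y ^ 2)⁻¹ = (d ^ 2 + y ^ 2) ^ (-(3 / 4) : ℝ) *
        (d ^ 2 + y ^ 2) ^ (-(1 / 4) : ℝ) := by
      rw [← Real.rpow_add hdy, ← Real.rpow_neg_one]
      norm_num
    rw [e1]
    have e2 : d ^ (-(3 / 2) : ℝ) = (d ^ 2) ^ (-(3 / 4) : ℝ) := by
      rw [← Real.rpow_natCast d 2, ← Real.rpow_mul (by linarith)]
      norm_num
    rw [e2]
    apply mul_le_mul
    · apply Real.rpow_le_rpow_of_nonpos (by positivity) _ (by norm_num)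
      nlinarith [sq_nonneg y]
    · apply Real.rpow_le_rpow_of_nonpos (by positivity) _ (by norm_num)
      nlinarith
    · positivity
    · positivity
  have k7 : (Real.sqrt (1 + y ^ 2))⁻¹ = (1 + y ^ 2) ^ (-(1 / 2) : ℝ) := by
    rw [Real.sqrt_eq_rpow, ← Real.rpow_neg h1y.le]
  have k8 : (1 + ‖y‖ ^ 2) ^ (-(3 / 2) / 2 : ℝ) =
      (1 + y ^ 2) ^ (-(1 / 2) : ℝ) * (1 + y ^ 2) ^ (-(1 / 4) : ℝ) := by
    rw [hy, ← Real.rpow_add h1y]
    norm_num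
  rw [k8]
  rw [k7] at k1
  calc ‖li A y ^ i‖ * (‖li (2 * (j : ℝ) + 1 / 2) y‖ * ‖li (2 * (j : ℝ) + 3 / 2) y‖)
      ≤ (1 + y ^ 2) ^ (-(1 / 2) : ℝ) *
        (16 * (d ^ (-(3 / 2) : ℝ) * (1 + y ^ 2) ^ (-(1 / 4) : ℝ))) := by
        apply mul_le_mul k1 _ (by positivity) (by positivity)
        refine k4.trans (k5.trans ?_)
        exact mul_le_mul_of_nonneg_left k6 (by norm_num)
    _ = _ := by ring

lemma B0s_summable : Summable (fun j : ℤ => (|(j : ℝ)| + 1) ^ (-(3 / 2) : ℝ)) := by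
  have h1 : Summable (fun n : ℕ => ((n : ℝ) + 1) ^ (-(3 / 2) : ℝ)) := by
    have h2 : Summable (fun n : ℕ => (n : ℝ) ^ (-(3 / 2) : ℝ)) :=
      Real.summable_nat_rpow.2 (by norm_num)
    have h3 := (summable_nat_add_iff 1).2 h2
    refine h3.congr fun n => ?_
    push_cast
    rfl
  apply Summable.of_nat_of_neg
  · refine h1.congr fun n => ?_
    rw [Int.cast_natCast, abs_of_nonneg (Nat.cast_nonneg n)]
  · refine h1.congr fun n => ?_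
    rw [Int.cast_neg, Int.cast_natCast, abs_neg, abs_of_nonneg (Nat.cast_nonneg n)]

lemma B0s_term_int {A : ℝ} (hA : 1 ≤ A) {i : ℕ} (hi : 1 ≤ i) {V : ℝ} (hV : V ≠ 0) :
    Integrable (fun y : ℝ => li A y ^ i * li V y) := by
  have := li_prod_integrable (A := A) (V := V) (by linarith) hV (i := i) (b := 1) (by omega)
  simpa using this

lemma B0s_int_pos {A : ℝ} (hA : 1 ≤ A) {i : ℕ} (hi : 1 ≤ i) {V : ℝ} (hV : 0 < V) :
    ∫ y : ℝ, li A y ^ i * li V y = 0 := by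
  obtain ⟨i', rfl⟩ : ∃ i', i = i' + 1 := ⟨i - 1, by omega⟩
  have := J_pos (A := A) (V := V) (by linarith) hV i' i' 0 (by omega)
  simpa using this

lemma B0s_int_neg {A : ℝ} (hA : 1 ≤ A) {i : ℕ} (hi : 1 ≤ i) {V : ℝ} (hV : V < 0) :
    ∫ y : ℝ, li A y ^ i * li V y = -(2 * Real.pi) / ((A : ℂ) - V) ^ i := by
  obtain ⟨i', rfl⟩ : ∃ i', i = i' + 1 := ⟨i - 1, by omega⟩
  have := J_neg (A := A) (V := V) (by linarith) hV i' i' 0 (by omega)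
  simp only [zero_add, pow_one, add_zero, Nat.choose_self, Nat.cast_one, mul_one, mul_neg] at this
  rw [this]

/-- the terms of the series -/
lemma B0s_f_int {A : ℝ} (hA : 1 ≤ A) {i : ℕ} (hi : 1 ≤ i) (j : ℤ) :
    Integrable (fun y : ℝ =>
      li A y ^ i * (li (2 * (j : ℝ) + 1 / 2) y - li (2 * (j : ℝ) + 3 / 2) y)) := by
  obtain ⟨h1, h2⟩ := B0s_V j
  have hd : 0 ≤ |(j : ℝ)| := abs_nonneg _
  have hV : 2 * (j : ℝ) + 1 / 2 ≠ 0 := by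
    intro h
    rw [h, abs_zero] at h1
    linarith
  have hV1 : 2 * (j : ℝ) + 3 / 2 ≠ 0 := by
    intro h
    rw [h, abs_zero] at h2
    linarith
  have h := (B0s_term_int hA hi hV).sub (B0s_term_int hA hi hV1)
  refine h.congr (Filter.Eventually.of_forall fun y => ?_)
  simp only [Pi.sub_apply]
  ring

lemma B0s_f_eq {A : ℝ} (hA : 1 ≤ A) {i : ℕ} (hi : 1 ≤ i) (j : ℤ) :
    ∫ y : ℝ, li A y ^ i * (li (2 * (j : ℝ) + 1 / 2) y - li (2 * (j : ℝ) + 3 / 2) y) =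
      (∫ y : ℝ, li A y ^ i * li (2 * (j : ℝ) + 1 / 2) y) -
        ∫ y : ℝ, li A y ^ i * li (2 * (j : ℝ) + 3 / 2) y := by
  obtain ⟨h1, h2⟩ := B0s_V j
  have hd : 0 ≤ |(j : ℝ)| := abs_nonneg _
  have hV : 2 * (j : ℝ) + 1 / 2 ≠ 0 := by
    intro h
    rw [h, abs_zero] at h1
    linarith
  have hV1 : 2 * (j : ℝ) + 3 / 2 ≠ 0 := by
    intro h
    rw [h, abs_zero] at h2
    linarith
  rw [← integral_sub (B0s_term_int hA hi hV) (B0s_term_int hA hi hV1)]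
  apply integral_congr_ae
  refine Filter.Eventually.of_forall fun y => ?_
  simp only
  ring

lemma B0s_f_norm {A : ℝ} (hA : 1 ≤ A) {i : ℕ} (hi : 1 ≤ i) :
    Summable (fun j : ℤ => ∫ y : ℝ,
      ‖li A y ^ i * (li (2 * (j : ℝ) + 1 / 2) y - li (2 * (j : ℝ) + 3 / 2) y)‖) := by
  have hI : Integrable (fun y : ℝ => (1 + ‖y‖ ^ 2) ^ (-(3 / 2) / 2 : ℝ)) := by
    apply integrable_rpow_neg_one_add_norm_sq
    simp only [Module.finrank_self, Nat.cast_one]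
    norm_num
  have hs := (B0s_summable.mul_left 16).mul_right (∫ y : ℝ, (1 + ‖y‖ ^ 2) ^ (-(3 / 2) / 2 : ℝ))
  refine Summable.of_nonneg_of_le (fun j => integral_nonneg fun y => norm_nonneg _)
    (fun j => ?_) hs
  rw [← integral_const_mul]
  apply integral_mono (B0s_f_int hA hi j).norm (hI.const_mul _)
  intro y
  exact B0s_dom hA hi j y

lemma B0s_hasSum {A : ℝ} (hA : 1 ≤ A) {i : ℕ} (hi : 1 ≤ i) :
    HasSum (fun j : ℤ => ∫ y : ℝ,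
      li A y ^ i * (li (2 * (j : ℝ) + 1 / 2) y - li (2 * (j : ℝ) + 3 / 2) y))
      ((Real.pi : ℂ) * ∫ y : ℝ, li A y ^ i * (((Real.cosh (Real.pi * y))⁻¹ : ℝ) : ℂ)) := by
  have h := hasSum_integral_of_summable_integral_norm (fun j => B0s_f_int hA hi j)
    (B0s_f_norm hA hi)
  have e : (∫ y : ℝ, ∑' j : ℤ,
      li A y ^ i * (li (2 * (j : ℝ) + 1 / 2) y - li (2 * (j : ℝ) + 3 / 2) y)) =
      (Real.pi : ℂ) * ∫ y : ℝ, li A y ^ i * (((Real.cosh (Real.pi * y))⁻¹ : ℝ) : ℂ) := by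
    rw [← integral_const_mul]
    apply integral_congr_ae
    refine Filter.Eventually.of_forall fun y => ?_
    simp only
    rw [((B0_kernel y).mul_left (li A y ^ i)).tsum_eq]
    push_cast
    ring
  rw [e] at h
  exact h

lemma B0s_nat {A : ℝ} (hA : 1 ≤ A) {i : ℕ} (hi : 1 ≤ i) :
    HasSum (fun l : ℕ => (2 * (Real.pi : ℂ)) *
      (1 / ((A : ℂ) + 2 * l + 1 / 2) ^ i - 1 / ((A : ℂ) + 2 * l + 3 / 2) ^ i))
      ((Real.pi : ℂ) * ∫ y : ℝ, li A y ^ i * (((Real.cosh (Real.pi * y))⁻¹ : ℝ) : ℂ)) := by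
  have h := B0s_hasSum hA hi
  have hinj : Function.Injective (fun l : ℕ => (-1 - (l : ℤ))) := by
    intro a b hab
    simp only at hab
    omega
  rw [← hinj.hasSum_iff] at h
  · have e : ((fun j : ℤ => ∫ y : ℝ,
        li A y ^ i * (li (2 * (j : ℝ) + 1 / 2) y - li (2 * (j : ℝ) + 3 / 2) y)) ∘
        fun l : ℕ => (-1 - (l : ℤ))) = fun l : ℕ => (2 * (Real.pi : ℂ)) *
      (1 / ((A : ℂ) + 2 * l + 1 / 2) ^ i - 1 / ((A : ℂ) + 2 * l + 3 / 2) ^ i) := by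
      funext l
      have hl : (0 : ℝ) ≤ l := Nat.cast_nonneg l
      simp only [Function.comp]
      rw [B0s_f_eq hA hi]
      rw [B0s_int_neg hA hi (by push_cast; linarith), B0s_int_neg hA hi (by push_cast; linarith)]
      have e1 : (A : ℂ) - ((2 * ((-1 - (l : ℤ) : ℤ) : ℝ) + 1 / 2 : ℝ) : ℂ) =
          (A : ℂ) + 2 * l + 3 / 2 := by
        push_cast
        ring
      have e2 : (A : ℂ) - ((2 * ((-1 - (l : ℤ) : ℤ) : ℝ) + 3 / 2 : ℝ) : ℂ) =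
          (A : ℂ) + 2 * l + 1 / 2 := by
        push_cast
        ring
      rw [e1, e2]
      ring
    rw [e] at h
    exact h
  · intro j hj
    have hj0 : 0 ≤ j := by
      by_contra hneg
      apply hj
      refine ⟨(-1 - j).toNat, ?_⟩
      simp only
      omega
    have hj' : (0 : ℝ) ≤ j := by exact_mod_cast hj0
    rw [B0s_f_eq hA hi, B0s_int_pos hA hi (by linarith), B0s_int_pos hA hi (by linarith), sub_zero]

lemma B0s_bsZ (A i L : ℕ) : (((bsZ i ((A : ℤ) + ((2 * L : ℕ) : ℤ)) : ℚ) : ℝ) : ℂ) -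
    (((bsZ i (A : ℤ) : ℚ) : ℝ) : ℂ) = ∑ l ∈ Finset.range L, (-1) ^ A *
      (1 / ((((A : ℝ)) : ℂ) + 2 * l + 1 / 2) ^ i - 1 / ((((A : ℝ)) : ℂ) + 2 * l + 3 / 2) ^ i) := by
  induction L with
  | zero => simp
  | succ L ih =>
    rw [Finset.sum_range_succ, ← ih]
    have e : ((A : ℤ) + ((2 * (L + 1) : ℕ) : ℤ)) = ((A : ℤ) + ((2 * L : ℕ) : ℤ)) + 1 + 1 := by
      push_cast
      ring
    rw [e, bsZ_succ, bsZ_succ]
    have f1 : fz i ((A : ℤ) + ((2 * L : ℕ) : ℤ)) = (-1) ^ A / ((A : ℚ) + 2 * L + 1 / 2) ^ i := by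
      unfold fz
      have : ((A : ℤ) + ((2 * L : ℕ) : ℤ)).natAbs = A + 2 * L := by omega
      rw [this, pow_add, pow_mul]
      push_cast
      simp
    have f2 : fz i ((A : ℤ) + ((2 * L : ℕ) : ℤ) + 1) =
        -((-1) ^ A / ((A : ℚ) + 2 * L + 3 / 2) ^ i) := by
      unfold fz
      have : ((A : ℤ) + ((2 * L : ℕ) : ℤ) + 1).natAbs = A + 2 * L + 1 := by omega
      rw [this, pow_add, pow_add, pow_mul]
      have e3 : ((((A : ℤ) + ((2 * L : ℕ) : ℤ) + 1 : ℤ) : ℚ) + 1 / 2) =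
          (A : ℚ) + 2 * L + 3 / 2 := by
        push_cast
        ring
      rw [e3]
      simp
      ring
    rw [f1, f2]
    push_cast
    ring

/-- the integral against `1 / cosh` -/
theorem B0_sech {A i : ℕ} (hA : 1 ≤ A) (hi : 1 ≤ i) :
    Integrable (fun y : ℝ => li (A : ℝ) y ^ i * (((Real.cosh (Real.pi * y))⁻¹ : ℝ) : ℂ)) ∧
    ((lamB i - ((bsZ i (A : ℤ) : ℚ) : ℝ) : ℝ) : ℂ) =
      (1 / 2) * (-1) ^ A * ∫ y : ℝ, li (A : ℝ) y ^ i * (((Real.cosh (Real.pi * y))⁻¹ : ℝ) : ℂ) := by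
  have hA' : (1 : ℝ) ≤ A := by exact_mod_cast hA
  refine ⟨B0s_integrable hA' hi, ?_⟩
  obtain ⟨I, hI⟩ : ∃ I : ℂ, I = ∫ y : ℝ, li (A : ℝ) y ^ i *
    (((Real.cosh (Real.pi * y))⁻¹ : ℝ) : ℂ) := ⟨_, rfl⟩
  have h1 := (B0s_nat hA' hi).tendsto_sum_nat
  rw [← hI] at h1 ⊢
  have hpi : (Real.pi : ℂ) ≠ 0 := Complex.ofReal_ne_zero.2 Real.pi_ne_zero
  have hsq : ((-1 : ℂ) ^ A) * (-1) ^ A = 1 := by
    rw [← mul_pow]
    simp
  have h2 : Tendsto (fun L : ℕ => (((bsZ i ((A : ℤ) + ((2 * L : ℕ) : ℤ)) : ℚ) : ℝ) : ℂ) -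
      (((bsZ i (A : ℤ) : ℚ) : ℝ) : ℂ)) atTop (𝓝 ((1 / 2) * (-1) ^ A * I)) := by
    have h3 := h1.const_mul ((1 / 2) * (-1) ^ A / (Real.pi : ℂ))
    have e : (1 / 2) * (-1) ^ A / (Real.pi : ℂ) * ((Real.pi : ℂ) * I) = (1 / 2) * (-1) ^ A * I := by
      field_simp
    rw [e] at h3
    refine h3.congr fun L => ?_
    rw [B0s_bsZ, Finset.mul_sum]
    apply Finset.sum_congr rfl
    intro l _
    field_simp
  have h4 : Tendsto (fun L : ℕ => (((bsZ i ((A : ℤ) + ((2 * L : ℕ) : ℤ)) : ℚ) : ℝ) : ℂ) -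
      (((bsZ i (A : ℤ) : ℚ) : ℝ) : ℂ)) atTop
      (𝓝 ((lamB i : ℂ) - (((bsZ i (A : ℤ) : ℚ) : ℝ) : ℂ))) := by
    apply Tendsto.sub_const
    have h5 := lamB_spec hi (A : ℤ)
    have h6 : Tendsto (fun L : ℕ => 2 * L) atTop atTop :=
      tendsto_id.const_mul_atTop' (by norm_num)
    have h7 := h5.comp h6
    exact (Complex.continuous_ofReal.tendsto _).comp h7
  have h8 := tendsto_nhds_unique h4 h2
  rw [← h8]
  push_cast
  rfl

end

end Pool.Agent.H216R2.BB
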