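import Pool.Agent.H216R2.BB.Defs

/-!
# The symmetry `k ↦ 2n - k` of the partial fraction coefficients
-/

open Polynomial Pool.Agent.H337R2

namespace Pool.Agent.H216R2.BB

noncomputable section

/-- The reflection symmetry of partial fraction coefficients, odd case. -/
theorem pfc_reflect_odd (s : Finset ℕ) (μ : ℕ → ℕ) (P : ℚ[X]) (H : ℕ)
    (hsH : ∀ k ∈ s, k ≤ H ∧ H - k ∈ s) (hμ : ∀ k ∈ s, μ (H - k) = μ k)
    (hP : P.comp (-X - C (H : ℚ)) = -P) (hev : Odd (∑ m ∈ s, μ m)) {k : ℕ} (hk : k ∈ s)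
    {j : ℕ} (hj : j < μ k) :
    pfc s μ P (H - k) j = (-1) ^ (μ k - j) * pfc s μ P k j := by
  have hkH := (hsH k hk).1
  have hVV : VV (s.erase (H - k)) μ (-((H - k : ℕ) : ℚ))
      = (-1) ^ (∑ m ∈ s.erase k, μ m) * PowerSeries.rescale (-1 : ℚ) (VV (s.erase k) μ (-(k : ℚ))) := by
    unfold VV
    rw [map_prod, ← Finset.prod_pow_eq_pow_sum, ← Finset.prod_mul_distrib]
    symm
    apply Finset.prod_bij (fun m _ => H - m)
    · intro m hm
      rw [Finset.mem_erase] at hm ⊢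
      have := hsH m hm.2
      refine ⟨?_, this.2⟩
      intro h
      apply hm.1; omega
    · intro m1 hm1 m2 hm2 h
      rw [Finset.mem_erase] at hm1 hm2
      have := hsH m1 hm1.2
      have := hsH m2 hm2.2
      omega
    · intro m hm
      rw [Finset.mem_erase] at hm
      have := hsH m hm.2
      refine ⟨H - m, ?_, by omega⟩
      rw [Finset.mem_erase]
      refine ⟨?_, this.2⟩
      intro h
      apply hm.1; omega
    · intro m hm
      rw [Finset.mem_erase] at hm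
      have h1 := hsH m hm.2
      rw [hμ m hm.2, map_pow, ← mul_pow]
      congr 1
      have h2 : -((H - k : ℕ) : ℚ) + ((H - m : ℕ) : ℚ) = -(-(k : ℚ) + m) := by
        rw [Nat.cast_sub hkH, Nat.cast_sub h1.1]; ring
      rw [h2, iv_neg]
      simp
  have hT : TS (-((H - k : ℕ) : ℚ)) P = - PowerSeries.rescale (-1 : ℚ) (TS (-(k : ℚ)) P) := by
    have h2 : -((H - k : ℕ) : ℚ) = -(H : ℚ) - (-(k : ℚ)) := by
      rw [Nat.cast_sub hkH]; ring
    rw [h2, TS_reflect, hP, map_neg, map_neg]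
  have hsum : ∑ m ∈ s, μ m = μ k + ∑ m ∈ s.erase k, μ m := (Finset.add_sum_erase s μ hk).symm
  unfold pfc
  rw [hVV, hT]
  have h3 : -(PowerSeries.rescale (-1 : ℚ)) (TS (-(k : ℚ)) P) * ((-1) ^ (∑ m ∈ s.erase k, μ m) *
      (PowerSeries.rescale (-1 : ℚ)) (VV (s.erase k) μ (-(k : ℚ))))
      = PowerSeries.C (-(-1 : ℚ) ^ (∑ m ∈ s.erase k, μ m)) * PowerSeries.rescale (-1 : ℚ)
        (TS (-(k : ℚ)) P * VV (s.erase k) μ (-(k : ℚ))) := by
    rw [map_mul, map_neg, map_pow]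
    simp only [map_neg, map_one]
    ring
  rw [h3, PowerSeries.coeff_C_mul, PowerSeries.coeff_rescale]
  rw [hsum] at hev
  have h4 : -((-1 : ℚ)) ^ (∑ m ∈ s.erase k, μ m) * (-1) ^ j = (-1) ^ (μ k - j) := by
    have h5 : Odd ((∑ m ∈ s.erase k, μ m) + j + (μ k - j)) := by
      convert hev using 1; omega
    have h6 : ((-1 : ℚ)) ^ ((∑ m ∈ s.erase k, μ m) + j + (μ k - j)) = -1 := h5.neg_one_pow
    rw [pow_add, pow_add] at h6
    rcases neg_one_pow_eq_or ℚ (μ k - j) with h | h <;> rw [h] at h6 ⊢ <;> linarith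
  calc _ = (-(-1 : ℚ) ^ (∑ m ∈ s.erase k, μ m) * (-1) ^ j) *
        (PowerSeries.coeff j) (TS (-(k : ℚ)) P * VV (s.erase k) μ (-(k : ℚ))) := by ring
    _ = _ := by rw [h4]

lemma PPE_comp (n : ℕ) (Q : ℚ[X]) :
    (PPn n * EE n Q).comp (-X - C ((2 * n : ℕ) : ℚ)) = -(PPn n * EE n Q) := by
  have h1 : (PPn n).comp (-X - C ((2 * n : ℕ) : ℚ)) = - PPn n := by
    unfold PPn
    simp only [mul_comp, add_comp, C_comp, X_comp]
    have : (C 2 : ℚ[X]) = 2 := rfl
    rw [this]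
    ring
  have h2 : (EE n Q).comp (-X - C ((2 * n : ℕ) : ℚ)) = EE n Q := by
    unfold EE
    rw [comp_assoc]
    congr 1
    unfold xp
    simp only [mul_comp, add_comp, C_comp, X_comp]
    ring
  rw [mul_comp, h1, h2, neg_mul]

lemma sB_refl (n : ℕ) : ∀ k ∈ sB n, k ≤ 2 * n ∧ 2 * n - k ∈ sB n := by
  intro k hk
  unfold sB at hk ⊢
  rw [Finset.mem_range] at hk ⊢
  omega

lemma sum_m5 (n : ℕ) : Odd (∑ m ∈ sB n, m5 m) := by
  unfold sB m5
  rw [Finset.sum_const, Finset.card_range, smul_eq_mul]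
  exact ⟨5 * n + 2, by ring⟩

/-- the symmetry of the coefficients -/
theorem pa_reflect (n : ℕ) (Q : ℚ[X]) {k : ℕ} (hk : k ∈ sB n) {i : ℕ} (hi : 1 ≤ i) :
    pa (sB n) m5 (PPn n * EE n Q) (2 * n - k) i =
      (-1) ^ i * pa (sB n) m5 (PPn n * EE n Q) k i := by
  unfold pa
  have hm : ∀ k, m5 k = 5 := fun _ => rfl
  rw [hm, hm]
  split_ifs with h
  · rw [pfc_reflect_odd (sB n) m5 _ (2 * n) (sB_refl n) (fun _ _ => rfl) (PPE_comp n Q) (sum_m5 n) hk
      (by rw [hm]; omega), hm]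
    rw [show 5 - (5 - i) = i by omega]
  · simp

theorem B1_sym (n : ℕ) (Q : ℚ[X]) {i : ℕ} (hi : Odd i) :
    ∑ k ∈ sB n, (-1) ^ k * pa (sB n) m5 (PPn n * EE n Q) k i = 0 := by
  have h1 : ∑ k ∈ sB n, (-1) ^ k * pa (sB n) m5 (PPn n * EE n Q) k i
      = ∑ k ∈ sB n, (-1) ^ (2 * n - k) * pa (sB n) m5 (PPn n * EE n Q) (2 * n - k) i := by
    apply Finset.sum_bij (fun m _ => 2 * n - m)
    · intro m hm; exact (sB_refl n m hm).2
    · intro m1 hm1 m2 hm2 h
      have := sB_refl n m1 hm1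
      have := sB_refl n m2 hm2
      omega
    · intro m hm
      have := sB_refl n m hm
      exact ⟨2 * n - m, this.2, by omega⟩
    · intro m hm
      have := sB_refl n m hm
      rw [show 2 * n - (2 * n - m) = m by omega]
  have h2 : ∀ k ∈ sB n, (-1) ^ (2 * n - k) * pa (sB n) m5 (PPn n * EE n Q) (2 * n - k) i
      = - ((-1) ^ k * pa (sB n) m5 (PPn n * EE n Q) k i) := by
    intro k hk
    have hs : ((-1 : ℚ)) ^ (2 * n - k) = (-1) ^ k := by
      have hkH := (sB_refl n k hk).1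
      have h5 : Even ((2 * n - k) + k) := ⟨n, by omega⟩
      have h6 : ((-1 : ℚ)) ^ ((2 * n - k) + k) = 1 := h5.neg_one_pow
      rw [pow_add] at h6
      rcases neg_one_pow_eq_or ℚ k with h | h <;> rw [h] at h6 ⊢ <;> linarith
    rw [hs, pa_reflect n Q hk hi.pos, hi.neg_one_pow]
    ring
  rw [Finset.sum_congr rfl h2, Finset.sum_neg_distrib] at h1
  linarith

end

end Pool.Agent.H216R2.BB
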