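import Pool.Agent.H216R2.BB.B0s
import Pool.Agent.H216R2.BB.B1s

/-!
# The linear form: finite sum and integral over the line `Re t = T`
-/

open MeasureTheory Filter Topology Complex Polynomial Pool.Agent.H337R2

namespace Pool.Agent.H216R2.BB

noncomputable section

/-- partial fractions at a complex point -/
theorem B1_pf (s : Finset ℕ) (P : ℚ[X]) (hdeg : P.degree < (QQ s m5).degree) (z : ℂ)
    (hz : ∀ k ∈ s, z + (k : ℂ) ≠ 0) :
    aeval z P / aeval z (QQ s m5) =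
      ∑ k ∈ s, ∑ i ∈ Finset.Icc 1 5, ((pa s m5 P k i : ℚ) : ℂ) * ((z + k)⁻¹) ^ i := by
  have hQ : aeval z (QQ s m5) ≠ 0 := by
    unfold QQ
    rw [map_prod, Finset.prod_ne_zero_iff]
    intro m hm
    rw [map_pow, map_add, aeval_X, aeval_C]
    apply pow_ne_zero
    have := hz m hm
    simpa using this
  rw [div_eq_iff hQ]
  conv_lhs => rw [pf_identity s m5 P hdeg]
  rw [map_sum, Finset.sum_mul]
  apply Finset.sum_congr rfl
  intro k hk
  rw [map_sum, Finset.sum_mul]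
  refine Finset.sum_nbij' (fun j => 5 - j) (fun i => 5 - i) ?_ ?_ ?_ ?_ ?_
  · intro j hj
    have : j < 5 := Finset.mem_range.1 hj
    exact Finset.mem_Icc.2 ⟨by omega, by omega⟩
  · intro i hi
    have := Finset.mem_Icc.1 hi
    exact Finset.mem_range.2 (show 5 - i < 5 by omega)
  · intro j hj
    have : j < 5 := Finset.mem_range.1 hj
    show 5 - (5 - j) = j
    omega
  · intro i hi
    have := Finset.mem_Icc.1 hi
    show 5 - (5 - i) = i
    omega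
  · intro j hj
    have hj5 : j < 5 := Finset.mem_range.1 hj
    rw [QQ_erase s m5 hk, map_mul, map_mul, map_mul, map_pow, map_pow, map_add, aeval_X, aeval_C,
      aeval_C]
    have e1 : (algebraMap ℚ ℂ) (k : ℚ) = (k : ℂ) := by simp
    have e2 : (algebraMap ℚ ℂ) (pfc s m5 P k j) = ((pfc s m5 P k j : ℚ) : ℂ) := rfl
    have e4 : pa s m5 P k (5 - j) = pfc s m5 P k j := by
      unfold pa
      have h5 : 5 - j ≤ m5 k := Nat.sub_le 5 j
      rw [if_pos h5]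
      congr 1
      show 5 - (5 - j) = j
      omega
    rw [e1, e2, e4]
    have hzk := hz k hk
    have e3 : (z + (k : ℂ)) ^ m5 k = (z + k) ^ (5 - j) * (z + k) ^ j := by
      rw [← pow_add, Nat.sub_add_cancel hj5.le]
      rfl
    rw [e3, inv_pow]
    field_simp

theorem B1_xp_natDegree (n : ℕ) : (xp n).natDegree ≤ 2 := by
  unfold xp
  refine (Polynomial.natDegree_mul_le).trans ?_
  have h1 : (X : ℚ[X]).natDegree ≤ 1 := Polynomial.natDegree_X_le
  have h2 : (X + C ((2 * n : ℕ) : ℚ) : ℚ[X]).natDegree ≤ 1 := by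
    rw [Polynomial.natDegree_X_add_C]
  omega

theorem B1_PPn_natDegree (n : ℕ) : (PPn n).natDegree ≤ 1 := by
  unfold PPn
  refine (Polynomial.natDegree_C_mul_le _ _).trans ?_
  compute_degree

theorem B1_deg {n : ℕ} (hn : 2 ≤ n) (Q : ℚ[X]) (hQ : Q.natDegree ≤ 5 * n - 7) :
    (PPn n * EE n Q).degree < (QQ (sB n) m5).degree := by
  apply Polynomial.degree_lt_degree
  have h1 : (QQ (sB n) m5).natDegree = 5 * (2 * n + 1) := by
    rw [QQ_natDegree]
    unfold m5 sB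
    rw [Finset.sum_const, Finset.card_range, smul_eq_mul, mul_comm]
  have h2 : (EE n Q).natDegree ≤ (7 + (5 * n - 7)) * 2 := by
    unfold EE
    refine (Polynomial.natDegree_comp_le).trans ?_
    refine Nat.mul_le_mul ?_ (B1_xp_natDegree n)
    refine (Polynomial.natDegree_mul_le).trans ?_
    rw [Polynomial.natDegree_X_pow]
    omega
  have h3 : (PPn n * EE n Q).natDegree ≤ (PPn n).natDegree + (EE n Q).natDegree :=
    Polynomial.natDegree_mul_le
  have h4 := B1_PPn_natDegree n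
  omega

theorem B1_aeval_EE (n T : ℕ) (Q : ℚ[X]) (y : ℝ) :
    aeval (zt T y) (EE n Q) = xz n T y ^ 7 * aeval (xz n T y) Q := by
  unfold EE
  have h1 : aeval (zt T y) (xp n) = xz n T y := by
    unfold xp xz
    rw [map_mul, map_add, aeval_X, aeval_C]
    simp
  rw [Polynomial.aeval_comp, h1, map_mul, map_pow, aeval_X]

theorem B1_eval_EE (n t : ℕ) (Q : ℚ[X]) :
    (EE n Q).eval ((t : ℚ) + 1 / 2) = xh n t ^ 7 * Q.eval (xh n t) := by
  unfold EE
  have h1 : (xp n).eval ((t : ℚ) + 1 / 2) = xh n t := by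
    unfold xp xh
    rw [eval_mul, eval_add, eval_X, eval_C]
    push_cast
    ring
  rw [Polynomial.eval_comp, h1, eval_mul, eval_pow, eval_X]

/-- the value at the half integers -/
theorem B1_Rv (n t : ℕ) (Q : ℚ[X]) :
    Rv (sB n) m5 (PPn n * EE n Q) ((t : ℚ) + 1 / 2) = wh n t * Q.eval (xh n t) := by
  rw [Rv_val, eval_mul, B1_eval_EE]
  have h1 : (PPn n).eval ((t : ℚ) + 1 / 2) = ((2 * n).factorial : ℚ) ^ 5 * (2 * t + 1 + 2 * n) := by
    unfold PPn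
    rw [eval_mul, eval_add, eval_mul, eval_C, eval_C, eval_X, eval_C]
    push_cast
    ring
  have h2 : ∏ m ∈ sB n, (((t : ℚ) + 1 / 2 + m)⁻¹) ^ m5 m =
      ((∏ k ∈ Finset.range (2 * n + 1), ((t : ℚ) + k + 1 / 2)) ^ 5)⁻¹ := by
    unfold sB m5
    rw [Finset.prod_pow, Finset.prod_inv_distrib, inv_pow]
    congr 2
    apply Finset.prod_congr rfl
    intro m _
    ring
  rw [h1, h2]
  unfold wh
  ring

/-- the finite part -/
theorem B1_fin {n : ℕ} (hn : 2 ≤ n) (T : ℕ) (Q : ℚ[X]) (hQ : Q.natDegree ≤ 5 * n - 7) :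
    ∑ t ∈ Finset.range T, (-1) ^ t * wh n t * Q.eval (xh n t) =
      ∑ i ∈ Finset.Icc 1 5, ∑ k ∈ sB n, (-1) ^ k * (pa (sB n) m5 (PPn n * EE n Q) k i *
        (bsZ i ((k : ℤ) + T) - bsZ i (k : ℤ))) := by
  have h1 : ∀ t ∈ Finset.range T, (-1 : ℚ) ^ t * wh n t * Q.eval (xh n t) =
      ∑ i ∈ Finset.Icc 1 5, ∑ k ∈ sB n, (-1) ^ k * (pa (sB n) m5 (PPn n * EE n Q) k i *
        fz i ((k : ℤ) + t)) := by
    intro t _
    rw [mul_assoc, ← B1_Rv, Rv_eq (sB n) m5 _ (B1_deg hn Q hQ) _ (fun m _ => by positivity) 5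
      (fun _ _ => le_rfl), Finset.mul_sum, Finset.sum_comm]
    apply Finset.sum_congr rfl
    intro k _
    rw [Finset.mul_sum]
    apply Finset.sum_congr rfl
    intro i _
    unfold fz
    have e1 : ((((k : ℤ) + t : ℤ) : ℚ) + 1 / 2) = ((t : ℚ) + 1 / 2 + k) := by push_cast; ring
    have e2 : ((k : ℤ) + t).natAbs = k + t := by omega
    have e3 : (-1 : ℚ) ^ k * (-1) ^ (k + t) = (-1) ^ t := by
      rw [pow_add, ← mul_assoc, ← mul_pow]
      simp
    rw [e1, e2, ← e3]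
    ring
  rw [Finset.sum_congr rfl h1, Finset.sum_comm]
  apply Finset.sum_congr rfl
  intro i _
  rw [Finset.sum_comm]
  apply Finset.sum_congr rfl
  intro k _
  rw [← Finset.mul_sum, ← Finset.mul_sum, sum_fz]

/-- the linear form minus the finite part -/
theorem B1_real (hsym : ∀ (n : ℕ) (Q : ℚ[X]) {i : ℕ}, Odd i →
      ∑ k ∈ sB n, (-1) ^ k * pa (sB n) m5 (PPn n * EE n Q) k i = 0)
    {n T : ℕ} (hn : 2 ≤ n) (u : ℕ → ℚ) (h2 : lamB 2 = (u 2 : ℝ))
    (h4 : lamB 4 = (u 4 : ℝ)) (Q : ℚ[X]) (hQ : Q.natDegree ≤ 5 * n - 7) :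
    ((NL n u Q - ∑ t ∈ Finset.range T, (-1) ^ t * wh n t * Q.eval (xh n t) : ℚ) : ℝ) =
      ∑ i ∈ Finset.Icc 1 5, ∑ k ∈ sB n, ((-1) ^ k * (pa (sB n) m5 (PPn n * EE n Q) k i : ℝ)) *
        (lamB i - ((bsZ i ((k : ℤ) + T) : ℚ) : ℝ)) := by
  rw [NL_apply, B1_fin hn T Q hQ]
  unfold xf
  rw [← Finset.sum_sub_distrib]
  rw [Rat.cast_sum]
  apply Finset.sum_congr rfl
  intro i hi
  have e1 : (∑ k ∈ sB n, (-1) ^ k * pa (sB n) m5 (PPn n * EE n Q) k i) * u i -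
      ∑ k ∈ sB n, (-1) ^ k * (pa (sB n) m5 (PPn n * EE n Q) k i * bsZ i (k : ℤ)) -
      ∑ k ∈ sB n, (-1) ^ k * (pa (sB n) m5 (PPn n * EE n Q) k i *
        (bsZ i ((k : ℤ) + T) - bsZ i (k : ℤ))) =
      (∑ k ∈ sB n, (-1) ^ k * pa (sB n) m5 (PPn n * EE n Q) k i) * u i -
      ∑ k ∈ sB n, (-1) ^ k * (pa (sB n) m5 (PPn n * EE n Q) k i * bsZ i ((k : ℤ) + T)) := by
    rw [sub_sub, ← Finset.sum_add_distrib]
    congr 1
    apply Finset.sum_congr rfl
    intro k _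
    ring
  rw [e1]
  have e2 : (((∑ k ∈ sB n, (-1) ^ k * pa (sB n) m5 (PPn n * EE n Q) k i) * u i : ℚ) : ℝ) =
      ((∑ k ∈ sB n, (-1) ^ k * pa (sB n) m5 (PPn n * EE n Q) k i : ℚ) : ℝ) * lamB i := by
    rcases Nat.even_or_odd i with h | h
    · rw [Finset.mem_Icc] at hi
      have h24 : i = 2 ∨ i = 4 := by
        obtain ⟨c, hc⟩ := h
        omega
      rcases h24 with rfl | rfl
      · rw [h2, Rat.cast_mul]
      · rw [h4, Rat.cast_mul]
    · rw [hsym n Q h]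
      simp
  rw [Rat.cast_sub, e2]
  push_cast
  rw [Finset.sum_mul, ← Finset.sum_sub_distrib]
  apply Finset.sum_congr rfl
  intro k _
  ring

theorem B1_split_of (hsech : ∀ {A i : ℕ}, 1 ≤ A → 1 ≤ i →
      Integrable (fun y : ℝ => li (A : ℝ) y ^ i * (((Real.cosh (Real.pi * y))⁻¹ : ℝ) : ℂ)) ∧
      ((lamB i - ((bsZ i (A : ℤ) : ℚ) : ℝ) : ℝ) : ℂ) =
        (1 / 2) * (-1) ^ A * ∫ y : ℝ, li (A : ℝ) y ^ i * (((Real.cosh (Real.pi * y))⁻¹ : ℝ) : ℂ))
    (hsym : ∀ (n : ℕ) (Q : ℚ[X]) {i : ℕ}, Odd i →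
      ∑ k ∈ sB n, (-1) ^ k * pa (sB n) m5 (PPn n * EE n Q) k i = 0)
    {n T : ℕ} (hn : 2 ≤ n) (hT : 1 ≤ T) (u : ℕ → ℚ) (h2 : lamB 2 = (u 2 : ℝ))
    (h4 : lamB 4 = (u 4 : ℝ)) (Q : ℚ[X]) (hQ : Q.natDegree ≤ 5 * n - 7) :
    (((NL n u Q - ∑ t ∈ Finset.range T, (-1) ^ t * wh n t * Q.eval (xh n t) : ℚ) : ℝ) : ℂ) =
      (1 / 2) * (-1) ^ T * ∫ y : ℝ, Rn n T y * xz n T y ^ 7 * aeval (xz n T y) Q *
        (((Real.cosh (Real.pi * y))⁻¹ : ℝ) : ℂ) := by
  rw [B1_real hsym hn u h2 h4 Q hQ]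
  set P := PPn n * EE n Q with hP
  set ch : ℝ → ℂ := fun y => (((Real.cosh (Real.pi * y))⁻¹ : ℝ) : ℂ) with hch
  -- the integrand as a sum
  have hint : ∀ y : ℝ, Rn n T y * xz n T y ^ 7 * aeval (xz n T y) Q * ch y =
      ∑ i ∈ Finset.Icc 1 5, ∑ k ∈ sB n, ((pa (sB n) m5 P k i : ℚ) : ℂ) *
        (li ((k + T : ℕ) : ℝ) y ^ i * ch y) := by
    intro y
    have hz : ∀ k ∈ sB n, zt T y + (k : ℂ) ≠ 0 := by
      intro k _
      have e : zt T y + (k : ℂ) = (((k + T : ℕ) : ℝ) : ℂ) + y * I := by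
        unfold zt; push_cast; ring
      rw [e]
      exact lf_ne (by positivity) y
    have h1 := B1_pf (sB n) P (B1_deg hn Q hQ) (zt T y) hz
    have h3 : Rn n T y * xz n T y ^ 7 * aeval (xz n T y) Q =
        aeval (zt T y) P / aeval (zt T y) (QQ (sB n) m5) := by
      rw [hP, map_mul, B1_aeval_EE]
      unfold Rn
      ring
    rw [h3, h1, Finset.sum_comm, Finset.sum_mul]
    apply Finset.sum_congr rfl
    intro i _
    rw [Finset.sum_mul]
    apply Finset.sum_congr rfl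
    intro k _
    have e : (zt T y + (k : ℂ))⁻¹ = li ((k + T : ℕ) : ℝ) y := by
      unfold li zt
      push_cast
      congr 1
      ring
    rw [e]
    ring
  have hI : (∫ y : ℝ, Rn n T y * xz n T y ^ 7 * aeval (xz n T y) Q *
      (((Real.cosh (Real.pi * y))⁻¹ : ℝ) : ℂ)) = ∫ y : ℝ, ∑ i ∈ Finset.Icc 1 5, ∑ k ∈ sB n,
        ((pa (sB n) m5 P k i : ℚ) : ℂ) * (li ((k + T : ℕ) : ℝ) y ^ i * ch y) :=
    integral_congr_ae (Filter.Eventually.of_forall hint)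
  rw [hI, integral_finsetSum]
  · rw [Complex.ofReal_sum, Finset.mul_sum]
    apply Finset.sum_congr rfl
    intro i hi
    have hi1 : 1 ≤ i := (Finset.mem_Icc.1 hi).1
    rw [integral_finsetSum]
    · rw [Complex.ofReal_sum, Finset.mul_sum]
      apply Finset.sum_congr rfl
      intro k _
      obtain ⟨-, h5⟩ := hsech (A := k + T) (i := i) (by omega) hi1
      rw [integral_const_mul, Complex.ofReal_mul]
      have e1 : (((k + T : ℕ) : ℤ)) = (k : ℤ) + T := by push_cast; ring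
      rw [e1] at h5
      have e3 : (∫ y : ℝ, li ((k + T : ℕ) : ℝ) y ^ i * ch y) =
        ∫ y : ℝ, li ((k + T : ℕ) : ℝ) y ^ i * (((Real.cosh (Real.pi * y))⁻¹ : ℝ) : ℂ) := rfl
      rw [h5, e3]
      generalize (∫ y : ℝ, li ((k + T : ℕ) : ℝ) y ^ i * (((Real.cosh (Real.pi * y))⁻¹ : ℝ) : ℂ)) = JJ
      have e2 : ((-1 : ℂ)) ^ k * (-1) ^ (k + T) = (-1) ^ T := by
        rw [pow_add, ← mul_assoc, ← mul_pow]
        simp
      rw [← e2]
      push_cast
      ring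
    · intro k _
      exact ((hsech (A := k + T) (i := i) (by omega) hi1).1).const_mul _
  · intro i hi
    have hi1 : 1 ≤ i := (Finset.mem_Icc.1 hi).1
    apply integrable_finsetSum
    intro k _
    exact ((hsech (A := k + T) (i := i) (by omega) hi1).1).const_mul _

/-- the linear form minus the finite part is an integral over the line `Re t = T` -/
theorem B1_split {n T : ℕ} (hn : 2 ≤ n) (hT : 1 ≤ T) (u : ℕ → ℚ) (h2 : lamB 2 = (u 2 : ℝ))
    (h4 : lamB 4 = (u 4 : ℝ)) (Q : ℚ[X]) (hQ : Q.natDegree ≤ 5 * n - 7) :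
    (((NL n u Q - ∑ t ∈ Finset.range T, (-1) ^ t * wh n t * Q.eval (xh n t) : ℚ) : ℝ) : ℂ) =
      (1 / 2) * (-1) ^ T * ∫ y : ℝ, Rn n T y * xz n T y ^ 7 * aeval (xz n T y) Q *
        (((Real.cosh (Real.pi * y))⁻¹ : ℝ) : ℂ) :=
  B1_split_of (fun hA hi => B0_sech hA hi) (fun n Q _ hi => B1_sym n Q hi) hn hT u h2 h4 Q hQ

end

end Pool.Agent.H216R2.BB
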