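import Pool.Agent.H216R2.BB.Defs
import Pool.Agent.H216R2.BB.B1

/-!
# B2: bound of the difference by the weight on the line
-/

open Polynomial Pool.Agent.H337R2

namespace Pool.Agent.H216R2.BB

namespace B2L

open MeasureTheory

theorem inv_cosh_le (x : ℝ) : (Real.cosh x)⁻¹ ≤ 2 * Real.exp (-|x|) := by
  have h1 : Real.exp |x| / 2 ≤ Real.cosh x := by
    rw [← Real.cosh_abs, Real.cosh_eq]
    have := Real.exp_pos (-|x|)
    linarith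
  have h2 : 0 < Real.exp |x| / 2 := by positivity
  calc (Real.cosh x)⁻¹ ≤ (Real.exp |x| / 2)⁻¹ := inv_anti₀ h2 h1
    _ = 2 * Real.exp (-|x|) := by rw [Real.exp_neg]; field_simp

/-- the estimate of the integral -/
theorem int_bound (D : ℝ) (T : ℕ) (F : ℝ → ℂ) (B : ℝ)
    (hD : (D : ℂ) = (1 / 2) * (-1) ^ T * ∫ y : ℝ, F y * (((Real.cosh (Real.pi * y))⁻¹ : ℝ) : ℂ))
    (hB : ∀ y : ℝ, ‖F y‖ * Real.exp (-(Real.pi * |y|)) ≤ B * (1 + y ^ 2)⁻¹) : |D| ≤ 4 * B := by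
  have hB0 : 0 ≤ B := by
    have h := hB 0
    have h1 : 0 ≤ ‖F 0‖ * Real.exp (-(Real.pi * |0|)) := by positivity
    norm_num at h
    linarith [norm_nonneg (F 0)]
  have h1 : ‖∫ y : ℝ, F y * (((Real.cosh (Real.pi * y))⁻¹ : ℝ) : ℂ)‖ ≤
      ∫ y : ℝ, 2 * B * (1 + y ^ 2)⁻¹ := by
    apply norm_integral_le_of_norm_le
    · exact integrable_inv_one_add_sq.const_mul _
    · filter_upwards with y
      rw [norm_mul, Complex.norm_real, Real.norm_eq_abs,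
        abs_of_pos (inv_pos.2 (Real.cosh_pos _))]
      have h2 := inv_cosh_le (Real.pi * y)
      rw [abs_mul, abs_of_pos Real.pi_pos] at h2
      calc ‖F y‖ * (Real.cosh (Real.pi * y))⁻¹ ≤ ‖F y‖ * (2 * Real.exp (-(Real.pi * |y|))) :=
            mul_le_mul_of_nonneg_left h2 (norm_nonneg _)
        _ = 2 * (‖F y‖ * Real.exp (-(Real.pi * |y|))) := by ring
        _ ≤ 2 * (B * (1 + y ^ 2)⁻¹) := mul_le_mul_of_nonneg_left (hB y) (by norm_num)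
        _ = 2 * B * (1 + y ^ 2)⁻¹ := by ring
  rw [integral_const_mul, integral_univ_inv_one_add_sq] at h1
  have h2 : |D| = 1 / 2 * ‖∫ y : ℝ, F y * (((Real.cosh (Real.pi * y))⁻¹ : ℝ) : ℂ)‖ := by
    have h3 : |D| = ‖(D : ℂ)‖ := by rw [Complex.norm_real, Real.norm_eq_abs]
    rw [h3, hD, norm_mul, norm_mul, norm_pow, norm_neg, norm_one, one_pow, mul_one]
    norm_num
  rw [h2]
  have h4 : Real.pi ≤ 4 := Real.pi_le_four
  nlinarith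

end B2L

/-- B2 from the identity of B1 -/
theorem B2_NL_le_of {n T : ℕ} (u : ℕ → ℚ) (Q : ℚ[X])
    (hB1 : (((NL n u Q - ∑ t ∈ Finset.range T, (-1) ^ t * wh n t * Q.eval (xh n t) : ℚ) : ℝ) : ℂ) =
      (1 / 2) * (-1) ^ T * ∫ y : ℝ, Rn n T y * xz n T y ^ 7 * aeval (xz n T y) Q *
        (((Real.cosh (Real.pi * y))⁻¹ : ℝ) : ℂ)) (B : ℝ)
    (hB : ∀ y : ℝ, ‖Rn n T y‖ * ‖xz n T y‖ ^ 7 * ‖aeval (xz n T y) Q‖ * Real.exp (-(Real.pi * |y|)) ≤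
      B * (1 + y ^ 2)⁻¹) :
    |((NL n u Q - ∑ t ∈ Finset.range T, (-1) ^ t * wh n t * Q.eval (xh n t) : ℚ) : ℝ)| ≤ 4 * B := by
  refine B2L.int_bound _ T (fun y => Rn n T y * xz n T y ^ 7 * aeval (xz n T y) Q) B hB1 ?_
  intro y
  simp only [norm_mul, norm_pow]
  exact hB y

theorem B2_NL_le {n T : ℕ} (hn : 2 ≤ n) (hT : 1 ≤ T) (u : ℕ → ℚ) (h2 : lamB 2 = (u 2 : ℝ))
    (h4 : lamB 4 = (u 4 : ℝ)) (Q : ℚ[X]) (hQ : Q.natDegree ≤ 5 * n - 7) (B : ℝ)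
    (hB : ∀ y : ℝ, ‖Rn n T y‖ * ‖xz n T y‖ ^ 7 * ‖aeval (xz n T y) Q‖ * Real.exp (-(Real.pi * |y|)) ≤
      B * (1 + y ^ 2)⁻¹) :
    |((NL n u Q - ∑ t ∈ Finset.range T, (-1) ^ t * wh n t * Q.eval (xh n t) : ℚ) : ℝ)| ≤ 4 * B :=
  B2_NL_le_of u Q (B1_split hn hT u h2 h4 Q hQ) B hB

end Pool.Agent.H216R2.BB
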