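import Pool.Agent.H216R2.BB.Defs

/-!
Task C1: p-adic size of the partial fraction coefficients with an extra factor `E` in the numerator.
-/

open Polynomial Pool.Agent.H337R2

namespace Pool.Agent.H216R2.BB

noncomputable section

theorem C1_norm_pow (p : ℕ) [Fact p.Prime] (a : ℚ) (k : ℕ) :
    padicNorm p (a ^ k) = padicNorm p a ^ k := by
  induction k with
  | zero => simp
  | succ m ih => rw [pow_succ, pow_succ, padicNorm.mul, ih]

theorem C1_cnt {n p k : ℕ} (hk : k ≤ 2 * n) :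
    cnt p 0 (2 * n) k = 1 + ∑ m ∈ (sB n).erase k, (if (p : ℤ) ∣ (m : ℤ) - k then 1 else 0) := by
  have hk' : k ∈ sB n := by
    unfold sB
    rw [Finset.mem_range]
    omega
  have h1 : cnt p 0 (2 * n) k = ∑ m ∈ sB n, (if (p : ℤ) ∣ (m : ℤ) - k then 1 else 0) := by
    unfold cnt sB
    rw [Finset.card_filter]
    apply Finset.sum_congr _ (fun _ _ => rfl)
    ext m
    rw [Finset.mem_Icc, Finset.mem_range]
    omega
  rw [h1, ← Finset.add_sum_erase _ _ hk']
  simp only [sub_self, dvd_zero, if_true]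

theorem C1_PB_PPn {n p : ℕ} [Fact p.Prime] (k : ℕ) (ρ : ℚ) (hρ : 1 ≤ ρ) :
    PB p ρ (padicNorm p (((2 * n).factorial : ℕ) : ℚ) ^ 5) (TS (-(k : ℚ)) (PPn n)) := by
  have hρ0 : (0 : ℚ) ≤ ρ := zero_le_one.trans hρ
  have hcst : 0 ≤ padicNorm p (((2 * n).factorial : ℕ) : ℚ) ^ 5 :=
    pow_nonneg (padicNorm.nonneg _) _
  unfold PPn
  rw [(TS (-(k : ℚ))).map_mul, TS_C, map_add, map_mul, TS_C, TS_C, TS_X]
  have e : PowerSeries.C (2 : ℚ) * (PowerSeries.X + PowerSeries.C (-(k : ℚ))) +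
      PowerSeries.C (((2 * n : ℕ) : ℚ)) =
      PowerSeries.C 2 * PowerSeries.X + PowerSeries.C (2 * -(k : ℚ) + ((2 * n : ℕ) : ℚ)) := by
    rw [mul_add, ← map_mul, map_add]
    ring
  rw [e]
  have h1 : padicNorm p (((2 * n).factorial : ℕ) : ℚ) ^ 5 =
      padicNorm p (((2 * n).factorial : ℕ) : ℚ) ^ 5 * 1 := (mul_one _).symm
  rw [h1]
  apply PB.mul hρ0 hcst zero_le_one
  · exact PB.C hρ0 hcst (le_of_eq (C1_norm_pow p _ 5))
  · apply PB.lin hρ0 zero_le_one
    · have := padicNorm.of_int (p := p) ((2 * n : ℤ) - 2 * k)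
      push_cast at this
      rw [show (2 : ℚ) * -(k : ℚ) + ((2 * n : ℕ) : ℚ) = 2 * n - 2 * k by push_cast; ring]
      exact this
    · rw [one_mul]
      have := padicNorm.of_int (p := p) 2
      push_cast at this
      exact this.trans hρ

theorem C1_pa_mul {n p : ℕ} [Fact p.Prime] (hp2 : 4 * n < p ^ 2) (E : ℚ[X]) {k : ℕ}
    (hk : k ≤ 2 * n) (A : ℚ) (hA : 0 ≤ A) (hE : PB p (p : ℚ) A (TS (-(k : ℚ)) E)) (i : ℕ) :
    padicNorm p (pa (sB n) m5 (PPn n * E) k i) ≤ (p : ℚ) ^ (eB p n k - i : ℤ) * A := by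
  have hp0 : (0 : ℚ) ≤ p := p_pos'.le
  have hp1 : (1 : ℚ) ≤ p := p_one'
  have hpne : (p : ℚ) ≠ 0 := p_pos'.ne'
  have hF0 : 0 ≤ padicNorm p (((2 * n).factorial : ℕ) : ℚ) ^ 5 :=
    pow_nonneg (padicNorm.nonneg _) _
  unfold pa
  split_ifs with hi
  · have hPE := PB.mul hp0 hF0 hA (C1_PB_PPn (n := n) (p := p) k (p : ℚ) hp1) hE
    rw [← map_mul] at hPE
    have h1 := pfc_bound (p := p) (sB n) m5 (PPn n * E) k (p : ℚ) _
      (fun m => if (p : ℤ) ∣ (m : ℤ) - k then (p : ℚ) else 1) hp0 (by positivity)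
      hPE
      (by
        intro m hm _
        have hm1 : m < 2 * n + 1 := Finset.mem_range.1 (Finset.mem_of_mem_erase hm)
        have hmk : m ≠ k := Finset.ne_of_mem_erase hm
        have h2 := norm_small (p := p) (a := (m : ℤ) - k) (by omega) (by
          have h3 : ((4 * n : ℕ) : ℤ) < ((p ^ 2 : ℕ) : ℤ) := by exact_mod_cast hp2
          have h4 : (((p ^ 2 : ℕ) : ℤ)) = (p : ℤ) ^ 2 := by push_cast; ring
          rw [← h4, abs_lt]
          omega)
        push_cast at h2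
        rw [h2]
        split_ifs
        · simp
        · simp [(Fact.out : p.Prime).one_lt.le])
      (by
        intro m _
        split_ifs
        · exact hp0
        · exact zero_le_one) (m5 k - i)
    refine h1.trans (le_of_eq ?_)
    rw [prod_ite_pow]
    have h5 : ∑ m ∈ (sB n).erase k, m5 m * (if (p : ℤ) ∣ (m : ℤ) - k then 1 else 0) =
        5 * (cnt p 0 (2 * n) k - 1) := by
      rw [C1_cnt hk, Nat.add_sub_cancel_left]
      unfold m5
      rw [← Finset.mul_sum]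
    have hc1 : 1 ≤ cnt p 0 (2 * n) k := by
      rw [C1_cnt hk]
      omega
    rw [h5, norm_factorial (by omega : 2 * n < p ^ 2)]
    have hi5 : i ≤ 5 := hi
    have e1 : ((p : ℚ) ^ (-((2 * n / p : ℕ) : ℤ))) ^ 5 * A * (p : ℚ) ^ (5 * (cnt p 0 (2 * n) k - 1)) *
        (p : ℚ) ^ (m5 k - i) = (((p : ℚ) ^ (-((2 * n / p : ℕ) : ℤ))) ^ 5 *
        (p : ℚ) ^ (5 * (cnt p 0 (2 * n) k - 1)) * (p : ℚ) ^ (5 - i)) * A := by
      unfold m5
      ring
    rw [e1]
    congr 1
    rw [← zpow_natCast, ← zpow_natCast, ← zpow_natCast, ← zpow_mul, ← zpow_add₀ hpne,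
      ← zpow_add₀ hpne]
    congr 1
    unfold eB
    push_cast [Nat.cast_sub hc1, Nat.cast_sub hi5]
    ring
  · rw [padicNorm.zero]
    positivity

theorem C1_pa_mul_int {n p : ℕ} [Fact p.Prime] (E : ℚ[X]) {k : ℕ}
    (hk : k ≤ 2 * n) (A : ℚ) (hA : 0 ≤ A) (hE : PB p 1 A (TS (-(k : ℚ)) E)) (i : ℕ)
    (hno : ∀ k' ≤ 2 * n, k' ≠ k → ¬ (p : ℤ) ∣ (k' : ℤ) - k) :
    padicNorm p (pa (sB n) m5 (PPn n * E) k i) ≤ padicNorm p (((2 * n).factorial : ℕ) : ℚ) ^ 5 * A := by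
  have hF0 : 0 ≤ padicNorm p (((2 * n).factorial : ℕ) : ℚ) ^ 5 :=
    pow_nonneg (padicNorm.nonneg _) _
  unfold pa
  split_ifs with hi
  · have hPE := PB.mul zero_le_one hF0 hA (C1_PB_PPn (n := n) (p := p) k 1 le_rfl) hE
    rw [← map_mul] at hPE
    have h1 := pfc_bound (p := p) (sB n) m5 (PPn n * E) k 1 _
      (fun _ => 1) zero_le_one (by positivity) hPE
      (by
        intro m hm _
        have hm1 : m < 2 * n + 1 := Finset.mem_range.1 (Finset.mem_of_mem_erase hm)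
        have h2 := hno m (by omega) (Finset.ne_of_mem_erase hm)
        have h3 := (padicNorm.int_eq_one_iff (p := p) _).2 h2
        push_cast at h3
        rw [h3]; simp)
      (by intro m _; exact zero_le_one) (m5 k - i)
    simpa using h1
  · rw [padicNorm.zero]
    positivity

end

end Pool.Agent.H216R2.BB
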