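import Pool.Agent.H216R2.BB.C1

/-!
# C2: p-adic size of the linear form for medium and large primes
-/

open Polynomial Pool.Agent.H337R2

namespace Pool.Agent.H216R2.BB

noncomputable section

section C2

variable {p : ℕ} [hp : Fact p.Prime]

lemma c2_norm_sgn (k : ℕ) : padicNorm p ((-1 : ℚ) ^ k) = 1 := by
  rw [padicNorm_pow', padicNorm.neg, padicNorm.one, one_pow]

/-- the estimate of the linear form from the estimates of its terms -/
lemma c2_aux (n : ℕ) (q : ℕ) (u : ℕ → ℚ) (hu : UInt q u) (P : ℚ[X]) (W : ℚ) (hW : 0 ≤ W)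
    (h1 : ∀ i, 1 ≤ i → ∀ k ≤ 2 * n, padicNorm p (pa (sB n) m5 P k i) ≤ W)
    (h2 : ∀ k ≤ 2 * n, padicNorm p (∑ i ∈ Finset.Icc 1 5, pa (sB n) m5 P k i * bsZ i (k : ℤ)) ≤ W) :
    padicNorm p ((q : ℚ) * xf n u P) ≤ W := by
  have hq1 : padicNorm p (q : ℚ) ≤ 1 := padicNorm.of_nat q
  have e : (q : ℚ) * xf n u P =
      (∑ i ∈ Finset.Icc 1 5, ∑ k ∈ sB n, (-1) ^ k * pa (sB n) m5 P k i * ((q : ℚ) * u i)) -
        ∑ k ∈ sB n, (q : ℚ) * ((-1) ^ k * ∑ i ∈ Finset.Icc 1 5, pa (sB n) m5 P k i * bsZ i (k : ℤ)) := by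
    unfold xf
    rw [Finset.sum_sub_distrib, mul_sub, Finset.mul_sum, Finset.mul_sum]
    congr 1
    · apply Finset.sum_congr rfl
      intro i _
      rw [← Finset.sum_mul]
      ring
    · simp only [Finset.mul_sum]
      rw [Finset.sum_comm]
  rw [e]
  refine padicNorm.sub.trans (max_le ?_ ?_)
  · apply padicNorm.sum_le' _ hW
    intro i hi
    rw [Finset.mem_Icc] at hi
    have hqu : padicNorm p ((q : ℚ) * u i) ≤ 1 := by
      obtain ⟨z, hz⟩ := hu.2 i
      rw [hz]
      exact padicNorm.of_int z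
    apply padicNorm.sum_le' _ hW
    intro k hk
    have hk' : k ≤ 2 * n := by
      unfold sB at hk
      rw [Finset.mem_range] at hk
      omega
    rw [padicNorm.mul, padicNorm.mul, c2_norm_sgn, one_mul]
    calc _ ≤ W * 1 := mul_le_mul (h1 i hi.1 k hk') hqu (padicNorm.nonneg _) hW
      _ = W := mul_one W
  · apply padicNorm.sum_le' _ hW
    intro k hk
    have hk' : k ≤ 2 * n := by
      unfold sB at hk
      rw [Finset.mem_range] at hk
      omega
    rw [padicNorm.mul, padicNorm.mul, c2_norm_sgn, one_mul]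
    calc _ ≤ 1 * W := mul_le_mul hq1 (h2 k hk') (padicNorm.nonneg _) zero_le_one
      _ = W := one_mul W

/-- terms for which the left alternative holds -/
lemma c2_left {n : ℕ} (hp2 : 4 * n < p ^ 2) (E : ℚ[X]) (W : ℚ) {k : ℕ} (A : ℚ)
    (hA : 0 ≤ A) (hk : k ≤ 2 * n)
    (hE : PB p (p : ℚ) A (TS (-(k : ℚ)) E)) (h : (p : ℚ) ^ (eB p n k) * A ≤ W) (i : ℕ)
    (hi : 1 ≤ i) :
    padicNorm p (pa (sB n) m5 (PPn n * E) k i) ≤ W ∧
    padicNorm p (pa (sB n) m5 (PPn n * E) k i * bsZ i (k : ℤ)) ≤ W := by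
  have hp0 : (p : ℚ) ≠ 0 := p_pos'.ne'
  have hp1 : (1 : ℚ) ≤ p := p_one'
  have hpa := C1_pa_mul hp2 E hk A hA hE i
  constructor
  · refine hpa.trans (le_trans ?_ h)
    apply mul_le_mul_of_nonneg_right _ hA
    apply zpow_le_zpow_right₀ hp1
    have : (0 : ℤ) ≤ i := by positivity
    linarith
  · have h4 := bsZ_norm_med (p := p) i (k : ℤ) (by
      rw [abs_of_nonneg (by positivity)]
      have : 2 * k ≤ p ^ 2 := by omega
      exact_mod_cast this)
    rw [padicNorm.mul]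
    refine (mul_le_mul hpa h4 (padicNorm.nonneg _) (by positivity)).trans (le_trans (le_of_eq ?_) h)
    rw [← zpow_natCast (p : ℚ) i, mul_right_comm, ← zpow_add₀ hp0]
    congr 2
    ring

lemma c2_two_unit (hodd : p ≠ 2) : padicNorm p (2 : ℚ) = 1 :=
  two_unit (hp.out.odd_of_ne_two hodd)

/-- `bsZ i k` for `p < 2k < 3p` -/
lemma c2_bsZ (hodd : p ≠ 2) (i k : ℕ) (h1 : p < 2 * k) (h2 : 2 * k < 3 * p) :
    ∃ r : ℚ, padicNorm p r ≤ 1 ∧
      bsZ i (k : ℤ) = (-1) ^ ((p - 1) / 2) * (2 / (p : ℚ)) ^ i + r := by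
  have hp0 : (p : ℚ) ≠ 0 := p_pos'.ne'
  obtain ⟨w, hw⟩ := hp.out.odd_of_ne_two hodd
  have hl : (p - 1) / 2 = w := by omega
  rw [hl, bsZ_nat]
  have hwk : w ∈ Finset.range k := by
    rw [Finset.mem_range]; omega
  rw [← Finset.add_sum_erase _ _ hwk]
  refine ⟨∑ l ∈ (Finset.range k).erase w, (-1) ^ l / ((l : ℚ) + 1 / 2) ^ i, ?_, ?_⟩
  · apply padicNorm.sum_le' _ zero_le_one
    intro l hl
    rw [Finset.mem_erase, Finset.mem_range] at hl
    have e : ((-1 : ℚ)) ^ l / ((l : ℚ) + 1 / 2) ^ i = fz i (l : ℤ) := by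
      unfold fz
      simp
    rw [e]
    have h3 := fz_norm (p := p) i (l : ℤ) 1 (by
      have h4 : ¬ (p : ℤ) ∣ 2 * (l : ℤ) + 1 := by
        intro hd
        have hd' : p ∣ 2 * l + 1 := by exact_mod_cast hd
        obtain ⟨c, hc⟩ := hd'
        have hc3 : c < 3 := by
          by_contra hcon
          have : p * 3 ≤ p * c := Nat.mul_le_mul_left _ (by omega)
          omega
        interval_cases c
        · omega
        · apply hl.1; omega
        · omega
      have h5 := (padicNorm.int_eq_one_iff (p := p) (2 * (l : ℤ) + 1)).2 h4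
      rw [h5]; simp)
    rwa [one_pow] at h3
  · congr 1
    rw [hw]
    push_cast
    have h6 : (w : ℚ) + 1 / 2 = (2 / (2 * (w : ℚ) + 1))⁻¹ := by
      rw [inv_div]; ring
    rw [h6, inv_pow, div_inv_eq_mul]

end C2

theorem C2_entry {n p : ℕ} [Fact p.Prime] (hodd : p ≠ 2) (hp2 : 4 * n < p ^ 2) (q : ℕ) (u : ℕ → ℚ)
    (hu : UInt q u) (E : ℚ[X]) (hEd : E.natDegree ≤ 10 * n + 3) (W : ℚ) (A : ℕ → ℚ) (hA : ∀ k, 0 ≤ A k)
    (hE : ∀ k ≤ 2 * n, PB p (p : ℚ) (A k) (TS (-(k : ℚ)) E))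
    (hE1 : ∀ k ≤ 2 * n, PB p 1 1 (TS (-(k : ℚ)) E))
    (hc : padicNorm p (((2 * n).factorial : ℕ) : ℚ) ^ 5 ≤ W)
    (h : ∀ k ≤ 2 * n, (p : ℚ) ^ (eB p n k) * A k ≤ W ∨
      ((∀ k' ≤ 2 * n, k' ≠ k → ¬ (p : ℤ) ∣ (k' : ℤ) - k) ∧
        (2 * k < p ∨ (p < 2 * k ∧ 2 * k < 3 * p ∧ E.eval ((p : ℚ) / 2 - k) = 0)))) :
    padicNorm p ((q : ℚ) * xf n u (PPn n * E)) ≤ W := by
  have hW : 0 ≤ W := le_trans (pow_nonneg (padicNorm.nonneg _) 5) hc
  have hp0 : (p : ℚ) ≠ 0 := p_pos'.ne'
  obtain ⟨w, hw⟩ := (Fact.out : p.Prime).odd_of_ne_two hodd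
  have key1 : ∀ i, 1 ≤ i → ∀ k ≤ 2 * n, padicNorm p (pa (sB n) m5 (PPn n * E) k i) ≤ W := by
    intro i hi k hk
    rcases h k hk with h3 | ⟨h3, _⟩
    · exact (c2_left hp2 E W (A k) (hA k) hk (hE k hk) h3 i hi).1
    · refine (C1_pa_mul_int E hk 1 zero_le_one (hE1 k hk) i h3).trans ?_
      rw [mul_one]
      exact hc
  refine c2_aux n q u hu _ W hW key1 ?_
  intro k hk
  rcases h k hk with h3 | ⟨h3, h4⟩
  · apply padicNorm.sum_le' _ hW
    intro i hi
    rw [Finset.mem_Icc] at hi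
    exact (c2_left hp2 E W (A k) (hA k) hk (hE k hk) h3 i hi.1).2
  · rcases h4 with h4 | ⟨h4, h5, h6⟩
    · apply padicNorm.sum_le' _ hW
      intro i hi
      rw [Finset.mem_Icc] at hi
      rw [padicNorm.mul]
      have h7 := bsZ_norm_small (p := p) i (k : ℤ) (by
        rw [abs_of_nonneg (by positivity)]
        have : 2 * k < p + 1 := by omega
        exact_mod_cast this)
      calc _ ≤ W * 1 := mul_le_mul (key1 i hi.1 k hk) h7 (padicNorm.nonneg _) hW
        _ = W := mul_one W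
    · -- the defect case
      choose r hr1 hr2 using fun i : ℕ => c2_bsZ (p := p) hodd i k h4 h5
      have e : ∑ i ∈ Finset.Icc 1 5, pa (sB n) m5 (PPn n * E) k i * bsZ i (k : ℤ) =
          (-1) ^ ((p - 1) / 2) * (∑ i ∈ Finset.Icc 1 5, pa (sB n) m5 (PPn n * E) k i * (2 / (p : ℚ)) ^ i) +
          ∑ i ∈ Finset.Icc 1 5, pa (sB n) m5 (PPn n * E) k i * r i := by
        rw [Finset.mul_sum, ← Finset.sum_add_distrib]
        apply Finset.sum_congr rfl
        intro i _
        rw [hr2 i]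
        ring
      rw [e]
      refine padicNorm.nonarchimedean.trans (max_le ?_ ?_)
      · rw [padicNorm.mul, c2_norm_sgn, one_mul]
        -- the value at c = p/2 - k
        set c : ℚ := (p : ℚ) / 2 - k with hcdef
        have hcm : ∀ m : ℕ, c + (m : ℚ) = (((p : ℤ) + 2 * ((m : ℤ) - k) : ℤ) : ℚ) / 2 := by
          intro m
          rw [hcdef]
          push_cast
          ring
        have hcm0 : ∀ m : ℕ, c + (m : ℚ) ≠ 0 := by
          intro m
          rw [hcm m]
          have h7 : ((p : ℤ) + 2 * ((m : ℤ) - k) : ℤ) ≠ 0 := by omega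
          have h8 : (((p : ℤ) + 2 * ((m : ℤ) - k) : ℤ) : ℚ) ≠ 0 := by exact_mod_cast h7
          exact div_ne_zero h8 two_ne_zero
        have hdeg : (PPn n * E).degree < (QQ (sB n) m5).degree := by
          have h7 : (QQ (sB n) m5).natDegree = 10 * n + 5 := by
            rw [QQ_natDegree]
            unfold sB m5
            simp
            ring
          have h8 : (PPn n * E).natDegree ≤ 10 * n + 4 := by
            refine Polynomial.natDegree_mul_le.trans ?_
            have h9 : (PPn n).natDegree ≤ 1 := by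
              unfold PPn
              refine (Polynomial.natDegree_C_mul_le _ _).trans ?_
              compute_degree
            omega
          rw [Polynomial.degree_eq_natDegree (QQ_monic _ _).ne_zero, h7]
          refine lt_of_le_of_lt Polynomial.degree_le_natDegree ?_
          exact_mod_cast (by omega : (PPn n * E).natDegree < 10 * n + 5)
        have hRv := Rv_eq (sB n) m5 (PPn n * E) hdeg c (fun m _ => hcm0 m) 5 (fun _ _ => le_rfl)
        rw [Rv_val, Polynomial.eval_mul, h6, mul_zero, zero_mul] at hRv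
        have hks : k ∈ sB n := by
          unfold sB
          rw [Finset.mem_range]; omega
        rw [← Finset.add_sum_erase _ _ hks] at hRv
        have hkk : ∑ i ∈ Finset.Icc 1 5, pa (sB n) m5 (PPn n * E) k i / (c + (k : ℚ)) ^ i =
            ∑ i ∈ Finset.Icc 1 5, pa (sB n) m5 (PPn n * E) k i * (2 / (p : ℚ)) ^ i := by
          apply Finset.sum_congr rfl
          intro i _
          have : c + (k : ℚ) = (p : ℚ) / 2 := by rw [hcdef]; ring
          rw [this, div_eq_mul_inv, ← inv_pow, inv_div]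
        rw [hkk] at hRv
        have hfin : ∑ i ∈ Finset.Icc 1 5, pa (sB n) m5 (PPn n * E) k i * (2 / (p : ℚ)) ^ i =
            -∑ m ∈ (sB n).erase k, ∑ i ∈ Finset.Icc 1 5, pa (sB n) m5 (PPn n * E) m i / (c + (m : ℚ)) ^ i := by
          linarith
        rw [hfin, padicNorm.neg]
        apply padicNorm.sum_le' _ hW
        intro m hm
        rw [Finset.mem_erase] at hm
        have hm2 : m ≤ 2 * n := by
          have := hm.2
          unfold sB at this
          rw [Finset.mem_range] at this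
          omega
        apply padicNorm.sum_le' _ hW
        intro i hi
        rw [Finset.mem_Icc] at hi
        have hunit : padicNorm p (c + (m : ℚ)) = 1 := by
          rw [hcm m, padicNorm.div, c2_two_unit hodd, div_one]
          rw [padicNorm.int_eq_one_iff]
          intro hd
          have h7 : (p : ℤ) ∣ 2 * ((m : ℤ) - k) := (dvd_add_right (dvd_refl (p : ℤ))).1 hd
          have hco : IsCoprime (p : ℤ) 2 := by
            refine ⟨1, -(w : ℤ), ?_⟩
            rw [hw]; push_cast; ring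
          exact h3 m hm2 hm.1 (hco.dvd_of_dvd_mul_left h7)
        rw [padicNorm.div, padicNorm_pow', hunit, one_pow, div_one]
        exact key1 i hi.1 m hm2
      · apply padicNorm.sum_le' _ hW
        intro i hi
        rw [Finset.mem_Icc] at hi
        rw [padicNorm.mul]
        calc _ ≤ W * 1 := mul_le_mul (key1 i hi.1 k hk) (hr1 i) (padicNorm.nonneg _) hW
          _ = W := mul_one W

theorem C2_entry_all {n p : ℕ} [Fact p.Prime] (hodd : p ≠ 2) (hp2 : 4 * n < p ^ 2) (q : ℕ) (u : ℕ → ℚ)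
    (hu : UInt q u) (E : ℚ[X]) (W : ℚ) (hW : 0 ≤ W) (A : ℕ → ℚ) (hA : ∀ k, 0 ≤ A k)
    (hE : ∀ k ≤ 2 * n, PB p (p : ℚ) (A k) (TS (-(k : ℚ)) E))
    (h : ∀ k ≤ 2 * n, (p : ℚ) ^ (eB p n k) * A k ≤ W) :
    padicNorm p ((q : ℚ) * xf n u (PPn n * E)) ≤ W := by
  refine c2_aux n q u hu _ W hW ?_ ?_
  · intro i hi k hk
    exact (c2_left hp2 E W (A k) (hA k) hk (hE k hk) (h k hk) i hi).1
  · intro k hk
    apply padicNorm.sum_le' _ hW
    intro i hi
    rw [Finset.mem_Icc] at hi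
    exact (c2_left hp2 E W (A k) (hA k) hk (hE k hk) (h k hk) i hi.1).2

end

end Pool.Agent.H216R2.BB
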