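import Pool.Agent.H216R2.BB.Defs

open Polynomial Pool.Agent.H337R2

namespace Pool.Agent.H216R2.BB

noncomputable section

variable {p : ℕ} [hp : Fact p.Prime]

/-- `∏_{m ≠ k} |m - k|_p⁻¹`, the poles being `0, …, 2n` -/
lemma C3_prod {n k : ℕ} (hk : k ≤ 2 * n) :
    ∏ m ∈ (sB n).erase k, (padicNorm p ((m : ℚ) - k))⁻¹ =
      (padicNorm p ((k.factorial : ℕ) : ℚ))⁻¹ * (padicNorm p (((2 * n - k).factorial : ℕ) : ℚ))⁻¹ := by
  have h1 : (sB n).erase k = Finset.range k ∪ Finset.Ico (k + 1) (2 * n + 1) := by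
    ext m
    simp only [sB, Finset.mem_erase, Finset.mem_range, Finset.mem_union, Finset.mem_Ico]
    omega
  have hd : Disjoint (Finset.range k) (Finset.Ico (k + 1) (2 * n + 1)) := by
    rw [Finset.disjoint_left]
    intro a ha hb
    rw [Finset.mem_range] at ha
    rw [Finset.mem_Ico] at hb
    omega
  rw [h1, Finset.prod_union hd, Finset.prod_inv_distrib, Finset.prod_inv_distrib]
  congr 2
  · -- lower part
    rw [← Finset.prod_range_reflect]
    rw [← Finset.prod_range_add_one_eq_factorial, Nat.cast_prod]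
    rw [padicNorm_prod']
    apply Finset.prod_congr rfl
    intro j hj
    rw [Finset.mem_range] at hj
    have : (((k - 1 - j : ℕ) : ℚ) - k) = -((j + 1 : ℕ) : ℚ) := by
      rw [Nat.sub_sub, Nat.cast_sub (by omega : 1 + j ≤ k)]
      push_cast; ring
    rw [this, padicNorm.neg]
  · rw [Finset.prod_Ico_eq_prod_range]
    have h2 : 2 * n + 1 - (k + 1) = 2 * n - k := by omega
    rw [h2, ← Finset.prod_range_add_one_eq_factorial, Nat.cast_prod, padicNorm_prod']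
    apply Finset.prod_congr rfl
    intro j _
    congr 1
    push_cast; ring

lemma C3_fac {n k : ℕ} (hk : k ≤ 2 * n) :
    padicNorm p (((2 * n).factorial : ℕ) : ℚ) * ∏ m ∈ (sB n).erase k, (padicNorm p ((m : ℚ) - k))⁻¹ ≤ 1 := by
  rw [C3_prod hk]
  have h1 : (((2 * n).factorial : ℕ) : ℚ) = ((Nat.choose (2 * n) k : ℕ) : ℚ) * ((k.factorial : ℕ) : ℚ) *
      (((2 * n - k).factorial : ℕ) : ℚ) := by
    rw [← Nat.choose_mul_factorial_mul_factorial hk]
    push_cast; ring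
  have ha : padicNorm p ((k.factorial : ℕ) : ℚ) ≠ 0 :=
    padicNorm.nonzero (by exact_mod_cast Nat.factorial_ne_zero _)
  have hb : padicNorm p (((2 * n - k).factorial : ℕ) : ℚ) ≠ 0 :=
    padicNorm.nonzero (by exact_mod_cast Nat.factorial_ne_zero _)
  rw [h1, padicNorm.mul, padicNorm.mul]
  have h2 : padicNorm p ((Nat.choose (2 * n) k : ℕ) : ℚ) ≤ 1 := padicNorm.of_nat _
  calc _ = padicNorm p ((Nat.choose (2 * n) k : ℕ) : ℚ) *
        (padicNorm p ((k.factorial : ℕ) : ℚ) * (padicNorm p ((k.factorial : ℕ) : ℚ))⁻¹) *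
        (padicNorm p (((2 * n - k).factorial : ℕ) : ℚ) * (padicNorm p (((2 * n - k).factorial : ℕ) : ℚ))⁻¹) := by ring
    _ ≤ 1 := by rw [mul_inv_cancel₀ ha, mul_inv_cancel₀ hb]; simpa using h2

lemma C3_pa_crude {n : ℕ} (hn : 1 ≤ n) (E : ℚ[X]) (A : ℚ) (hA : 0 ≤ A) {k : ℕ} (hk : k ≤ 2 * n)
    (hE : PB p ((5 * n + 1 : ℕ) : ℚ) A (TS (-(k : ℚ)) E)) (i : ℕ) (hi1 : 1 ≤ i) :
    padicNorm p (pa (sB n) m5 (PPn n * E) k i) ≤ ((5 * n + 1 : ℕ) : ℚ) ^ 4 * A := by
  set M : ℚ := ((5 * n + 1 : ℕ) : ℚ) with hM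
  have hM1 : 1 ≤ M := by rw [hM]; exact_mod_cast (by omega : 1 ≤ 5 * n + 1)
  have hM0 : (0 : ℚ) ≤ M := by linarith
  unfold pa
  split_ifs with hi
  · have hF0 : 0 ≤ padicNorm p (((2 * n).factorial : ℕ) : ℚ) := padicNorm.nonneg _
    have hPB : PB p M (padicNorm p (((2 * n).factorial : ℕ) : ℚ) ^ 5 * 1 * A)
        (TS (-(k : ℚ)) (PPn n * E)) := by
      rw [map_mul]
      refine PB.mul hM0 (by positivity) hA ?_ hE
      unfold PPn
      rw [(TS (-(k : ℚ))).map_mul]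
      refine PB.mul hM0 (by positivity) zero_le_one ?_ ?_
      · rw [TS_C]
        refine PB.C hM0 (by positivity) (le_of_eq ?_)
        rw [padicNorm_pow']
      · have e2 : (C 2 * X + C ((2 * n : ℕ) : ℚ) : ℚ[X]) = 2 * X + C ((2 * n : ℕ) : ℚ) := rfl
        rw [e2, TS_lin2]
        refine PB.lin hM0 zero_le_one ?_ ?_
        · have := padicNorm.of_int (p := p) (2 * (n : ℤ) - 2 * k)
          push_cast at this
          rw [show (2 : ℚ) * -(k : ℚ) + ((2 * n : ℕ) : ℚ) = 2 * (n : ℚ) - 2 * k by push_cast; ring]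
          exact this
        · have := padicNorm.of_nat (p := p) 2
          push_cast at this
          rw [one_mul]
          exact this.trans hM1
    have h1 := pfc_bound (p := p) (sB n) m5 (PPn n * E) k M _
      (fun m => (padicNorm p ((m : ℚ) - k))⁻¹) hM0
      (by positivity) hPB
      (by
        intro m hm _
        have hmk := Finset.ne_of_mem_erase hm
        have hm2 := Finset.mem_of_mem_erase hm
        rw [sB, Finset.mem_range] at hm2
        refine ⟨le_rfl, ?_⟩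
        have h3 := norm_inv_le (p := p) (a := (m : ℤ) - k) (by omega) (M := M) (by
          push_cast
          rw [abs_le, hM]
          push_cast
          have h5 : (m : ℚ) ≤ 2 * n := by exact_mod_cast (by omega : m ≤ 2 * n)
          have h6 : (k : ℚ) ≤ 2 * n := by exact_mod_cast (by omega : k ≤ 2 * n)
          have h7 : (0 : ℚ) ≤ m := by positivity
          have h8 : (0 : ℚ) ≤ k := by positivity
          have h9 : (0 : ℚ) ≤ n := by positivity
          constructor <;> linarith)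
        push_cast at h3
        exact h3)
      (by
        intro m _
        exact inv_nonneg.2 (padicNorm.nonneg _)) (m5 k - i)
    refine h1.trans ?_
    have h4 : ∏ m ∈ (sB n).erase k, ((padicNorm p ((m : ℚ) - k))⁻¹) ^ m5 m =
        (∏ m ∈ (sB n).erase k, (padicNorm p ((m : ℚ) - k))⁻¹) ^ 5 := by
      rw [← Finset.prod_pow]
      rfl
    rw [h4]
    set Q : ℚ := ∏ m ∈ (sB n).erase k, (padicNorm p ((m : ℚ) - k))⁻¹ with hQ
    have hQ0 : 0 ≤ Q := Finset.prod_nonneg fun m _ => inv_nonneg.2 (padicNorm.nonneg _)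
    have h5 : padicNorm p (((2 * n).factorial : ℕ) : ℚ) * Q ≤ 1 := C3_fac hk
    have h6 : (padicNorm p (((2 * n).factorial : ℕ) : ℚ) * Q) ^ 5 ≤ 1 :=
      pow_le_one₀ (mul_nonneg hF0 hQ0) h5
    have h7 : m5 k - i ≤ 4 := by
      show 5 - i ≤ 4
      omega
    calc padicNorm p (((2 * n).factorial : ℕ) : ℚ) ^ 5 * 1 * A * Q ^ 5 * M ^ (m5 k - i)
        = (padicNorm p (((2 * n).factorial : ℕ) : ℚ) * Q) ^ 5 * (M ^ (m5 k - i) * A) := by ring
      _ ≤ 1 * (M ^ 4 * A) := by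
          apply mul_le_mul h6 _ (by positivity) zero_le_one
          exact mul_le_mul_of_nonneg_right (pow_le_pow_right₀ hM1 h7) hA
      _ = M ^ 4 * A := one_mul _
  · rw [padicNorm.zero]; positivity

lemma C3_gen (S : Finset ℕ) (M A : ℚ) (hM1 : 1 ≤ M) (hA : 0 ≤ A) (q : ℕ) (u0 : ℚ)
    (hui : padicNorm p ((q : ℚ) * u0) ≤ 1) (a h : ℕ → ℚ)
    (ha : ∀ k ∈ S, padicNorm p (a k) ≤ M ^ 4 * A) (hh : ∀ k ∈ S, padicNorm p (h k) ≤ M ^ 5) :
    padicNorm p ((q : ℚ) * ((∑ k ∈ S, (-1) ^ k * a k) * u0 - ∑ k ∈ S, (-1) ^ k * (a k * h k))) ≤ M ^ 16 * A := by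
  have hM0 : (0 : ℚ) ≤ M := by linarith
  have hW : 0 ≤ M ^ 16 * A := by positivity
  have hsgn : ∀ k : ℕ, padicNorm p ((-1 : ℚ) ^ k) = 1 := by
    intro k
    rcases neg_one_pow_eq_or ℚ k with h | h <;> rw [h] <;> simp
  have hq1 : padicNorm p (q : ℚ) ≤ 1 := padicNorm.of_nat q
  have h4 : M ^ 4 * A ≤ M ^ 16 * A :=
    mul_le_mul_of_nonneg_right (pow_le_pow_right₀ hM1 (by norm_num)) hA
  have h9 : M ^ 4 * A * M ^ 5 ≤ M ^ 16 * A := by
    calc M ^ 4 * A * M ^ 5 = M ^ 9 * A := by ring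
      _ ≤ M ^ 16 * A := mul_le_mul_of_nonneg_right (pow_le_pow_right₀ hM1 (by norm_num)) hA
  have hMA : 0 ≤ M ^ 4 * A := by positivity
  have e : (q : ℚ) * ((∑ k ∈ S, (-1) ^ k * a k) * u0 - ∑ k ∈ S, (-1) ^ k * (a k * h k)) =
      ∑ k ∈ S, (-1) ^ k * (a k * ((q : ℚ) * u0)) - ∑ k ∈ S, (-1) ^ k * ((q : ℚ) * (a k * h k)) := by
    rw [mul_sub, Finset.sum_mul, Finset.mul_sum, Finset.mul_sum]
    congr 1
    · apply Finset.sum_congr rfl; intro k _; ring
    · apply Finset.sum_congr rfl; intro k _; ring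
  rw [e]
  refine padicNorm.sub.trans (max_le ?_ ?_)
  · apply padicNorm.sum_le' _ hW
    intro k hk
    rw [padicNorm.mul, hsgn, one_mul, padicNorm.mul]
    have g1 := ha k hk
    have g0 : 0 ≤ padicNorm p (a k) := padicNorm.nonneg _
    calc padicNorm p (a k) * padicNorm p ((q : ℚ) * u0) ≤ padicNorm p (a k) * 1 :=
          mul_le_mul_of_nonneg_left hui g0
      _ ≤ M ^ 16 * A := by rw [mul_one]; exact g1.trans h4
  · apply padicNorm.sum_le' _ hW
    intro k hk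
    rw [padicNorm.mul, hsgn, one_mul, padicNorm.mul, padicNorm.mul]
    have g1 := ha k hk
    have g2 := hh k hk
    have g0 : 0 ≤ padicNorm p (a k) := padicNorm.nonneg _
    have g3 : 0 ≤ padicNorm p (h k) := padicNorm.nonneg _
    have g5 : padicNorm p (a k) * padicNorm p (h k) ≤ (M ^ 4 * A) * M ^ 5 :=
      mul_le_mul g1 g2 g3 hMA
    calc padicNorm p (q : ℚ) * (padicNorm p (a k) * padicNorm p (h k))
        ≤ 1 * (padicNorm p (a k) * padicNorm p (h k)) :=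
          mul_le_mul_of_nonneg_right hq1 (mul_nonneg g0 g3)
      _ ≤ (M ^ 4 * A) * M ^ 5 := by rw [one_mul]; exact g5
      _ ≤ M ^ 16 * A := h9

theorem C3_xf_crude {n p : ℕ} [Fact p.Prime] (hn : 1 ≤ n) (q : ℕ) (u : ℕ → ℚ) (hu : UInt q u)
    (E : ℚ[X]) (A : ℚ) (hA : 0 ≤ A)
    (hE : ∀ k ≤ 2 * n, PB p ((5 * n + 1 : ℕ) : ℚ) A (TS (-(k : ℚ)) E)) :
    padicNorm p ((q : ℚ) * xf n u (PPn n * E)) ≤ ((5 * n + 1 : ℕ) : ℚ) ^ 16 * A := by
  obtain ⟨hq, hu⟩ := hu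
  have hM1 : (1 : ℚ) ≤ ((5 * n + 1 : ℕ) : ℚ) := by exact_mod_cast (by omega : 1 ≤ 5 * n + 1)
  have hM0 : (0 : ℚ) ≤ ((5 * n + 1 : ℕ) : ℚ) := by positivity
  have hW : 0 ≤ ((5 * n + 1 : ℕ) : ℚ) ^ 16 * A := by positivity
  have hpa : ∀ i : ℕ, 1 ≤ i → ∀ k ∈ sB n, padicNorm p (pa (sB n) m5 (PPn n * E) k i) ≤
      ((5 * n + 1 : ℕ) : ℚ) ^ 4 * A := by
    intro i hi k hk
    have hk' : k ≤ 2 * n := by rw [sB, Finset.mem_range] at hk; omega
    exact C3_pa_crude hn E A hA hk' (hE k hk') i hi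
  have hh : ∀ i : ℕ, i ≤ 5 → ∀ k ∈ sB n, padicNorm p (bsZ i (k : ℤ)) ≤ ((5 * n + 1 : ℕ) : ℚ) ^ 5 := by
    intro i hi k hk
    have hk' : k ≤ 2 * n := by rw [sB, Finset.mem_range] at hk; omega
    have h5 := bsZ_norm_crude (p := p) i (k : ℤ) ((5 * n + 1 : ℕ) : ℚ) hM0 (by
      rw [abs_of_nonneg (Int.natCast_nonneg k)]
      exact_mod_cast (by omega : 2 * k ≤ 5 * n + 1))
    exact h5.trans (pow_le_pow_right₀ hM1 hi)
  unfold xf
  rw [Finset.mul_sum]
  apply padicNorm.sum_le' _ hW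
  intro i hi
  rw [Finset.mem_Icc] at hi
  have hui : padicNorm p ((q : ℚ) * u i) ≤ 1 := by
    obtain ⟨z, hz⟩ := hu i
    rw [hz]; exact padicNorm.of_int z
  exact C3_gen (p := p) (sB n) ((5 * n + 1 : ℕ) : ℚ) A hM1 hA q (u i)
    hui (fun k => pa (sB n) m5 (PPn n * E) k i) (fun k => bsZ i (k : ℤ))
    (hpa i hi.1) (hh i hi.2)

end

end Pool.Agent.H216R2.BB
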