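import Pool.Agent.H216R2.BB.Defs

/-!
# Polynomials with zeros at consecutive integers: degree and `p`-adic size

Adapted from `Pool.Agent.H336R2.HD.C4`.
-/

set_option linter.unusedVariables false

open Polynomial Pool.Agent.H337R2

namespace Pool.Agent.H216R2.BB

theorem C4_CP (n i : ℕ) : (CP n i).Monic ∧ (CP n i).natDegree = i := by
  unfold CP
  constructor
  · exact Polynomial.monic_prod_of_monic _ _ fun _ _ => Polynomial.monic_X_add_C _
  · rw [Polynomial.natDegree_prod_of_monic _ _ fun _ _ => Polynomial.monic_X_add_C _,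
      Finset.sum_congr rfl fun l _ => Polynomial.natDegree_X_add_C _]
    simp

lemma C4_PB_add {p : ℕ} [Fact p.Prime] {ρ A : ℚ} {f g : PowerSeries ℚ}
    (hf : PB p ρ A f) (hg : PB p ρ A g) : PB p ρ A (f + g) := by
  intro j
  rw [map_add]
  exact (padicNorm.nonarchimedean).trans (max_le (hf j) (hg j))

lemma C4_PB_neg {p : ℕ} [Fact p.Prime] {ρ A : ℚ} {f : PowerSeries ℚ}
    (hf : PB p ρ A f) : PB p ρ A (-f) := by
  intro j
  rw [map_neg, padicNorm.neg]
  exact hf j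

/-- `∏_{l<N} (X + a + l)` -/
noncomputable def fN (a : ℤ) (N : ℕ) : PowerSeries ℚ :=
  ∏ l ∈ Finset.range N, (PowerSeries.X + PowerSeries.C ((a : ℚ) + l))

lemma fN_shift' (a : ℤ) (N : ℕ) :
    fN (a + 1) (N + 1) = fN a (N + 1) + PowerSeries.C ((N + 1 : ℕ) : ℚ) * fN (a + 1) N := by
  unfold fN
  rw [Finset.prod_range_succ _ N, Finset.prod_range_succ' _ N]
  have h : ∀ l ∈ Finset.range N, (PowerSeries.X + PowerSeries.C ((a : ℚ) + ((l + 1 : ℕ) : ℚ))) =
      (PowerSeries.X + PowerSeries.C (((a + 1 : ℤ) : ℚ) + l) : PowerSeries ℚ) := by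
    intro l _
    push_cast
    congr 2
    ring
  rw [Finset.prod_congr rfl h]
  have h2 : (PowerSeries.X + PowerSeries.C (((a + 1 : ℤ) : ℚ) + N) : PowerSeries ℚ) =
      (PowerSeries.X + PowerSeries.C ((a : ℚ) + (0 : ℕ))) + PowerSeries.C ((N + 1 : ℕ) : ℚ) := by
    rw [add_assoc, ← map_add]
    congr 2
    push_cast
    ring
  rw [h2]
  ring

lemma norm_int_le {p : ℕ} [Fact p.Prime] (b : ℤ) : padicNorm p (b : ℚ) ≤ 1 := padicNorm.of_int b

lemma PB_linInt {p : ℕ} [Fact p.Prime] {ρ : ℚ} (hρ1 : 1 ≤ ρ) (b : ℤ) :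
    PB p ρ 1 (PowerSeries.X + PowerSeries.C (b : ℚ)) :=
  PB.linX (by linarith) zero_le_one (norm_int_le b) (by linarith)

lemma PB_fN {p M : ℕ} [Fact p.Prime] (ρ : ℚ) (hρ1 : 1 ≤ ρ)
    (hρ : ∀ l : ℕ, 1 ≤ l → l ≤ M → (padicNorm p (l : ℚ))⁻¹ ≤ ρ) (N : ℕ) (hN : N ≤ M) :
    ∀ a : ℤ, PB p ρ (padicNorm p ((N.factorial : ℕ) : ℚ)) (fN a N) := by
  have hρ0 : (0 : ℚ) ≤ ρ := by linarith
  have key : ∀ l : ℕ, 1 ≤ l → l ≤ M → 1 ≤ padicNorm p (l : ℚ) * ρ := by
    intro l h1 h2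
    have h3 : 0 < padicNorm p (l : ℚ) := by
      refine lt_of_le_of_ne (padicNorm.nonneg _) (Ne.symm (padicNorm.nonzero ?_))
      exact_mod_cast (by omega : l ≠ 0)
    have h4 := hρ l h1 h2
    calc (1 : ℚ) = padicNorm p (l : ℚ) * (padicNorm p (l : ℚ))⁻¹ := (mul_inv_cancel₀ h3.ne').symm
      _ ≤ _ := by gcongr
  induction N with
  | zero =>
    intro a
    have := PB.one (p := p) hρ0
    simpa [fN] using this
  | succ N ih =>
    have ih := ih (by omega)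
    have hfac : padicNorm p (((N + 1).factorial : ℕ) : ℚ) =
        padicNorm p ((N + 1 : ℕ) : ℚ) * padicNorm p ((N.factorial : ℕ) : ℚ) := by
      rw [Nat.factorial_succ, Nat.cast_mul, padicNorm.mul]
    -- the case `a = 0`
    have h0 : PB p ρ (padicNorm p (((N + 1).factorial : ℕ) : ℚ)) (fN 0 (N + 1)) := by
      have hprod : ∀ M' : ℕ, M' ≤ N → PB p ρ (padicNorm p ((M'.factorial : ℕ) : ℚ))
          (∏ l ∈ Finset.range M', (PowerSeries.X + PowerSeries.C (((l + 1 : ℕ) : ℚ)))) := by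
        intro M'
        induction M' with
        | zero => intro _; simpa using PB.one (p := p) hρ0
        | succ M' ihM =>
          intro hM
          rw [Finset.prod_range_succ, Nat.factorial_succ, Nat.cast_mul, padicNorm.mul, mul_comm
            (padicNorm p ((M' + 1 : ℕ) : ℚ))]
          exact PB.mul hρ0 (padicNorm.nonneg _) (padicNorm.nonneg _) (ihM (by omega))
            (PB.linX hρ0 (padicNorm.nonneg _) le_rfl (key (M' + 1) (by omega) (by omega)))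
      unfold fN
      rw [Finset.prod_range_succ', hfac, mul_comm (padicNorm p ((N + 1 : ℕ) : ℚ))]
      apply PB.mul hρ0 (padicNorm.nonneg _) (padicNorm.nonneg _)
      · have := hprod N le_rfl
        simpa using this
      · apply PB.linX hρ0 (padicNorm.nonneg _)
        · simp [padicNorm.nonneg]
        · exact key (N + 1) (by omega) (by omega)
    have hmul : ∀ a : ℤ, PB p ρ (padicNorm p (((N + 1).factorial : ℕ) : ℚ))
        (PowerSeries.C ((N + 1 : ℕ) : ℚ) * fN a N) := by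
      intro a
      rw [hfac]
      exact PB.mul hρ0 (padicNorm.nonneg _) (padicNorm.nonneg _)
        (PB.C hρ0 (padicNorm.nonneg _) le_rfl) (ih a)
    intro a
    induction a using Int.induction_on with
    | zero => exact h0
    | succ i hi =>
      rw [fN_shift']
      exact C4_PB_add hi (hmul _)
    | pred i hi =>
      have h := fN_shift' (-(i : ℤ) - 1) N
      rw [sub_add_cancel] at h
      have h2 : fN (-(i : ℤ) - 1) (N + 1) =
          fN (-(i : ℤ)) (N + 1) + -(PowerSeries.C ((N + 1 : ℕ) : ℚ) * fN (-(i : ℤ)) N) := by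
        rw [h]; ring
      rw [h2]
      exact C4_PB_add hi (C4_PB_neg (hmul _))

lemma prod_sym (b : ℤ) (i : ℕ) :
    ∏ l ∈ Finset.range (i + 1), ((PowerSeries.X + PowerSeries.C ((b - l : ℤ) : ℚ)) *
      (PowerSeries.X + PowerSeries.C ((b + l : ℤ) : ℚ))) =
    (PowerSeries.X + PowerSeries.C (b : ℚ)) * fN (b - i) (2 * i + 1) := by
  induction i with
  | zero =>
    simp [fN]
  | succ i ih =>
    rw [Finset.prod_range_succ, ih]
    have h : fN (b - ((i + 1 : ℕ) : ℤ)) (2 * (i + 1) + 1) =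
        (PowerSeries.X + PowerSeries.C ((b - ((i + 1 : ℕ) : ℤ) : ℤ) : ℚ)) * fN (b - i) (2 * i + 1) *
          (PowerSeries.X + PowerSeries.C ((b + ((i + 1 : ℕ) : ℤ) : ℤ) : ℚ)) := by
      unfold fN
      rw [show 2 * (i + 1) + 1 = (2 * i + 1 + 1) + 1 by ring, Finset.prod_range_succ,
        Finset.prod_range_succ' _ (2 * i + 1)]
      have h1 : ∀ l ∈ Finset.range (2 * i + 1),
          (PowerSeries.X + PowerSeries.C (((b - ((i + 1 : ℕ) : ℤ) : ℤ) : ℚ) + ((l + 1 : ℕ) : ℚ)) :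
            PowerSeries ℚ) = PowerSeries.X + PowerSeries.C (((b - (i : ℤ) : ℤ) : ℚ) + (l : ℚ)) := by
        intro l _
        push_cast
        congr 2
        ring
      rw [Finset.prod_congr rfl h1]
      have h2 : (PowerSeries.X + PowerSeries.C (((b - ((i + 1 : ℕ) : ℤ) : ℤ) : ℚ) +
          ((2 * i + 1 + 1 : ℕ) : ℚ)) : PowerSeries ℚ) =
          PowerSeries.X + PowerSeries.C ((b + ((i + 1 : ℕ) : ℤ) : ℤ) : ℚ) := by
        push_cast
        congr 2
        ring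
      rw [h2]
      have h3 : (PowerSeries.X + PowerSeries.C (((b - ((i + 1 : ℕ) : ℤ) : ℤ) : ℚ) +
          ((0 : ℕ) : ℚ)) : PowerSeries ℚ) =
          PowerSeries.X + PowerSeries.C ((b - ((i + 1 : ℕ) : ℤ) : ℤ) : ℚ) := by
        simp
      rw [h3]
      ring
    rw [h]
    ring

lemma TS_xp (n k : ℕ) : TS (-(k : ℚ)) (xp n) =
    (PowerSeries.X + PowerSeries.C ((-(k : ℤ) : ℤ) : ℚ)) *
      (PowerSeries.X + PowerSeries.C ((2 * n - (k : ℤ) : ℤ) : ℚ)) := by
  unfold xp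
  rw [map_mul, TS_X, TS_lin]
  push_cast
  congr 3
  ring

lemma TS_CP (n k i : ℕ) : TS (-(k : ℚ)) ((CP n i).comp (xp n)) =
    ∏ l ∈ Finset.range i, ((PowerSeries.X + PowerSeries.C (((n : ℤ) - k - l : ℤ) : ℚ)) *
      (PowerSeries.X + PowerSeries.C (((n : ℤ) - k + l : ℤ) : ℚ))) := by
  unfold CP
  rw [Polynomial.prod_comp, map_prod]
  apply Finset.prod_congr rfl
  intro l _
  rw [Polynomial.add_comp, Polynomial.X_comp, Polynomial.C_comp]
  have : xp n + C ((n : ℚ) ^ 2 - (l : ℚ) ^ 2) =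
      (X + C ((n : ℚ) - l)) * (X + C ((n : ℚ) + l)) := by
    unfold xp
    simp only [map_sub, map_add, map_mul, map_pow, Nat.cast_mul, Nat.cast_ofNat]
    have e1 : (C (2 : ℚ)) = 2 := rfl
    rw [e1]
    ring
  rw [this, map_mul, TS_lin, TS_lin]
  push_cast
  congr 3 <;> ring

lemma PB_CP {n p : ℕ} [Fact p.Prime] (ρ : ℚ) (hρ1 : 1 ≤ ρ)
    (hρ : ∀ l : ℕ, 1 ≤ l → l ≤ 5 * n → (padicNorm p (l : ℚ))⁻¹ ≤ ρ) (i : ℕ) (hi : 2 * i ≤ 5 * n)
    (k : ℕ) :
    PB p ρ (padicNorm p (((2 * i - 1).factorial : ℕ) : ℚ)) (TS (-(k : ℚ)) ((CP n i).comp (xp n))) := by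
  have hρ0 : (0 : ℚ) ≤ ρ := by linarith
  rw [TS_CP]
  rcases i with _ | i
  · simpa using PB.one (p := p) hρ0
  · have h := prod_sym ((n : ℤ) - k) i
    rw [h]
    have h2 := PB.mul hρ0 zero_le_one (padicNorm.nonneg _) (PB_linInt (p := p) hρ1 ((n : ℤ) - k))
      (PB_fN ρ hρ1 hρ (2 * i + 1) (by omega) ((n : ℤ) - k - i))
    rw [one_mul] at h2
    rw [show 2 * (i + 1) - 1 = 2 * i + 1 by omega]
    exact h2

theorem C4_CP_PB {n p : ℕ} [Fact p.Prime] (hn : 1 ≤ n) (ρ : ℚ) (hρ1 : 1 ≤ ρ)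
    (hρ : ∀ l : ℕ, 1 ≤ l → l ≤ 5 * n → (padicNorm p (l : ℚ))⁻¹ ≤ ρ) (i j : ℕ) (hi : 2 * i ≤ 5 * n)
    (hj : 2 * j ≤ 5 * n) (k : ℕ) :
    PB p ρ (padicNorm p (((2 * i - 1).factorial : ℕ) : ℚ) * padicNorm p (((2 * j - 1).factorial : ℕ) : ℚ))
      (TS (-(k : ℚ)) (EE n (CP n i * CP n j))) := by
  have hρ0 : (0 : ℚ) ≤ ρ := by linarith
  have h1 : TS (-(k : ℚ)) (EE n (CP n i * CP n j)) =
      (TS (-(k : ℚ)) (xp n)) ^ 7 * (TS (-(k : ℚ)) ((CP n i).comp (xp n)) *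
        TS (-(k : ℚ)) ((CP n j).comp (xp n))) := by
    unfold EE
    rw [Polynomial.mul_comp, Polynomial.mul_comp, Polynomial.pow_comp, Polynomial.X_comp, map_mul,
      map_mul, map_pow]
  rw [h1, TS_xp]
  have h2 : PB p ρ 1 (((PowerSeries.X + PowerSeries.C ((-(k : ℤ) : ℤ) : ℚ)) *
      (PowerSeries.X + PowerSeries.C ((2 * n - (k : ℤ) : ℤ) : ℚ))) ^ 7) := by
    have := PB.pow hρ0 (by norm_num) (PB.mul hρ0 zero_le_one zero_le_one (PB_linInt (p := p) hρ1 (-(k : ℤ)))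
      (PB_linInt (p := p) hρ1 (2 * n - (k : ℤ)))) 7
    simpa using this
  have h3 := PB.mul hρ0 (padicNorm.nonneg _) (padicNorm.nonneg _) (PB_CP ρ hρ1 hρ i hi k)
    (PB_CP ρ hρ1 hρ j hj k)
  have h4 := PB.mul hρ0 zero_le_one (mul_nonneg (padicNorm.nonneg _) (padicNorm.nonneg _)) h2 h3
  rwa [one_mul] at h4

end Pool.Agent.H216R2.BB
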