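import Pool.Agent.H216R2.BB.Defs

/-!
# The greedy algorithm (task D1)
-/

open Polynomial Pool.Agent.H337R2

namespace Pool.Agent.H216R2.BB

theorem D1_greedy' {K : Type} [DecidableEq K] (S : Finset K) (hS : S.Nonempty) (h : K → ℕ → ℤ) (μ : ℤ) (m : ℕ) :
    ∃ (κ : ℕ → K) (s : ℕ → ℤ), (∀ i, κ i ∈ S) ∧ (∀ i, μ ≤ s i) ∧
      (∑ i ∈ Finset.range m, s i ≤ m * μ + ∑ k ∈ S, ∑ j ∈ Finset.range m, max 0 (h k j - μ)) ∧
      ∀ k ∈ S, ∀ i, h k ((Finset.range i).filter fun l => κ l = k).card ≤ s i := by
  classical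
  have hpick : ∀ l : K → ℕ, ∃ k ∈ S, ∀ k' ∈ S, h k' (l k') ≤ h k (l k) :=
    fun l => Finset.exists_max_image S (fun k => h k (l k)) hS
  choose pick hp1 hp2 using hpick
  obtain ⟨L, hL0, hLs⟩ : ∃ L : ℕ → K → ℕ, (∀ k, L 0 k = 0) ∧
      ∀ i k, L (i + 1) k = L i k + if pick (L i) = k then 1 else 0 :=
    ⟨fun i => Nat.rec (motive := fun _ => K → ℕ) (fun _ => 0)
      (fun _ l k => l k + if pick l = k then 1 else 0) i, fun _ => rfl, fun _ _ => rfl⟩
  have hcount : ∀ i k, ((Finset.range i).filter fun l => pick (L l) = k).card = L i k := by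
    intro i k
    induction i with
    | zero => simp [hL0]
    | succ i ih =>
      rw [hLs, Finset.range_add_one, Finset.filter_insert]
      split_ifs with h
      · rw [Finset.card_insert_of_notMem (by simp), ih]
      · rw [ih, add_zero]
  have hLle : ∀ i k, L i k ≤ i := by
    intro i k
    rw [← hcount i k]
    exact (Finset.card_filter_le _ _).trans (by simp)
  let sq : ℕ → ℤ := fun i => max μ (h (pick (L i)) (L i (pick (L i))))
  refine ⟨fun i => pick (L i), sq, fun i => hp1 _, fun i => le_max_left _ _, ?_, ?_⟩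
  · have key : ∀ m' : ℕ, ∑ i ∈ Finset.range m', max μ (h (pick (L i)) (L i (pick (L i)))) =
        m' * μ + ∑ k ∈ S, ∑ j ∈ Finset.range (L m' k), max 0 (h k j - μ) := by
      intro m'
      induction m' with
      | zero => simp [hL0]
      | succ m' ih =>
        rw [Finset.sum_range_succ, ih]
        have h1 : ∑ k ∈ S, ∑ j ∈ Finset.range (L (m' + 1) k), max 0 (h k j - μ) =
            ∑ k ∈ S, ∑ j ∈ Finset.range (L m' k), max 0 (h k j - μ) +
              max 0 (h (pick (L m')) (L m' (pick (L m'))) - μ) := by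
          rw [← Finset.add_sum_erase S _ (hp1 (L m')), ← Finset.add_sum_erase S _ (hp1 (L m'))]
          rw [Finset.sum_congr rfl
            (g := fun k => ∑ j ∈ Finset.range (L m' k), max 0 (h k j - μ)) (fun k hk => ?_)]
          · have h3 : L (m' + 1) (pick (L m')) = L m' (pick (L m')) + 1 := by
              rw [hLs, if_pos rfl]
            rw [h3, Finset.sum_range_succ]
            ring
          · have h2 : pick (L m') ≠ k := (Finset.ne_of_mem_erase hk).symm
            simp only [hLs, if_neg h2, add_zero]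
        rw [h1]
        have h4 : max μ (h (pick (L m')) (L m' (pick (L m')))) =
            μ + max 0 (h (pick (L m')) (L m' (pick (L m'))) - μ) := by
          rcases le_total μ (h (pick (L m')) (L m' (pick (L m')))) with h | h
          · rw [max_eq_right h, max_eq_right (by linarith)]; ring
          · rw [max_eq_left h, max_eq_left (by linarith)]; ring
        rw [h4]
        push_cast
        ring
    show ∑ i ∈ Finset.range m, max μ (h (pick (L i)) (L i (pick (L i)))) ≤ _
    rw [key m]
    have : ∑ k ∈ S, ∑ j ∈ Finset.range (L m k), max 0 (h k j - μ) ≤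
        ∑ k ∈ S, ∑ j ∈ Finset.range m, max 0 (h k j - μ) := by
      refine Finset.sum_le_sum fun k _ => ?_
      refine Finset.sum_le_sum_of_subset_of_nonneg ?_ fun _ _ _ => le_max_left _ _
      exact Finset.range_subset_range.mpr (hLle m k)
    linarith
  · intro k hk i
    rw [hcount]
    exact (hp2 (L i) k hk).trans (le_max_right _ _)

theorem D1_TT_step (y : ℤ) : TT y - TT (y - 2) = max 0 y := by
  unfold TT
  by_cases h1 : 0 < y
  · by_cases h2 : 0 < y - 2
    · rw [if_pos h1, if_pos h2, max_eq_right h1.le]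
      have : (y + 1) ^ 2 = (y - 2 + 1) ^ 2 + y * 4 := by ring
      rw [this, Int.add_mul_ediv_right _ _ (by norm_num)]
      ring
    · rw [if_pos h1, if_neg h2, max_eq_right h1.le]
      obtain rfl | rfl : y = 1 ∨ y = 2 := by omega
      · norm_num
      · norm_num
  · have h2 : ¬ 0 < y - 2 := by omega
    rw [if_neg h1, if_neg h2, max_eq_left (by omega)]
    norm_num

theorem D1_TT_nonneg (y : ℤ) : 0 ≤ TT y := by
  unfold TT
  split_ifs
  · positivity
  · exact le_rfl

theorem D1_TT_sum (y : ℤ) (m : ℕ) : ∑ j ∈ Finset.range m, max 0 (y - 2 * (j : ℤ)) ≤ TT y := by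
  have key : ∀ m : ℕ, ∑ j ∈ Finset.range m, max 0 (y - 2 * (j : ℤ)) + TT (y - 2 * (m : ℤ)) = TT y := by
    intro m
    induction m with
    | zero => simp
    | succ m ih =>
      rw [Finset.sum_range_succ]
      have h2 := D1_TT_step (y - 2 * (m : ℤ))
      have h3 : y - 2 * ((m + 1 : ℕ) : ℤ) = y - 2 * (m : ℤ) - 2 := by push_cast; ring
      rw [h3]
      linarith
  linarith [key m, D1_TT_nonneg (y - 2 * (m : ℤ))]

end Pool.Agent.H216R2.BB
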