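import Pool.Agent.H216R2.BB.Defs
import Pool.Agent.H336R2.HD.D2

/-! Task D2: class pairs and the exponent `e_p`. -/

open Polynomial Pool.Agent.H337R2

namespace Pool.Agent.H216R2.BB

noncomputable section

lemma D2_mod1 {N p k : ℕ} (hp : 0 < p) (hk : k ≤ N) : (N + p - k % p) % p = (N - k) % p := by
  have h0 := Nat.mod_lt k hp
  have h1 : N + p - k % p = (N - k) + p * (k / p + 1) := by
    have := Nat.mod_add_div k p
    rw [mul_add, mul_one]
    omega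
  rw [h1, Nat.add_mul_mod_self_left]

lemma D2_mod2 {N p k : ℕ} (hp : 0 < p) (hk : k ≤ N) :
    (N + p - (N - k) % p) % p = k % p := by
  rw [D2_mod1 hp (Nat.sub_le _ _), Nat.sub_sub_self hk]

theorem D2_kap_mem {n p k : ℕ} (hp : 0 < p) (hk : k ≤ 2 * n) : kap n p k ∈ Kset n p := by
  unfold kap Kset
  rw [Finset.mem_filter, Finset.mem_range]
  refine ⟨(min_le_left _ _).trans_lt (Nat.mod_lt _ hp), ?_⟩
  rcases le_total (k % p) ((2 * n - k) % p) with h | h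
  · rw [min_eq_left h, D2_mod1 hp hk]
    exact h
  · rw [min_eq_right h, D2_mod2 hp hk]
    exact h

theorem D2_eB_kap {n p k : ℕ} (hp : 0 < p) (hk : k ≤ 2 * n) : eB p n (kap n p k) = eB p n k := by
  have h0 : cnt p 0 (2 * n) (kap n p k) = cnt p 0 (2 * n) k := by
    unfold kap
    rcases le_total (k % p) ((2 * n - k) % p) with h | h
    · rw [min_eq_left h]
      exact Pool.Agent.H336R2.HD.D2_cnt_congr (Nat.mod_mod _ _)
    · rw [min_eq_right h, Pool.Agent.H336R2.HD.D2_cnt_congr (Nat.mod_mod _ _),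
        Pool.Agent.H336R2.HD.D2_cnt_refl (Nat.zero_le _) le_rfl hk, Nat.sub_self, Nat.sub_zero]
  unfold eB
  rw [h0]

lemma D2_comp (n κ : ℕ) : (nd n κ).comp (xp n) =
    (X + C (κ : ℚ)) * (X + C (2 * (n : ℚ) - κ)) := by
  unfold nd xp
  rw [add_comp, X_comp, C_comp]
  have h : (C ((κ : ℚ) * (2 * n - κ)) : ℚ[X]) = C (κ : ℚ) * C (2 * (n : ℚ) - κ) := by
    rw [← C_mul]
  have h2 : (C ((2 * n : ℕ) : ℚ) : ℚ[X]) = C (κ : ℚ) + C (2 * (n : ℚ) - κ) := by
    rw [← C_add]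
    congr 1
    push_cast
    ring
  rw [h, h2]
  ring

lemma D2_PB_dvd {p : ℕ} [hp : Fact p.Prime] {z : ℤ} (h : (p : ℤ) ∣ z) :
    PB p (p : ℚ) (p : ℚ)⁻¹ (PowerSeries.X + PowerSeries.C (z : ℚ)) := by
  have hp0 : (0 : ℚ) < p := by exact_mod_cast hp.out.pos
  apply PB.linX hp0.le (inv_nonneg.2 hp0.le)
  · have h1 := (padicNorm.dvd_iff_norm_le (p := p) (n := 1) (z := z)).1 (by simpa using h)
    simpa using h1
  · rw [inv_mul_cancel₀ hp0.ne']

lemma D2_PB_int {p : ℕ} [hp : Fact p.Prime] (z : ℤ) :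
    PB p (p : ℚ) 1 (PowerSeries.X + PowerSeries.C (z : ℚ)) := by
  have hp0 : (1 : ℚ) ≤ p := by exact_mod_cast hp.out.one_le
  apply PB.linX (by linarith) zero_le_one (padicNorm.of_int z)
  rwa [one_mul]

lemma D2_dvd (p a : ℕ) : (p : ℤ) ∣ ((a % p : ℕ) : ℤ) - a := by
  refine ⟨-((a / p : ℕ) : ℤ), ?_⟩
  have := Nat.mod_add_div a p
  have h : ((a % p : ℕ) : ℤ) + p * ((a / p : ℕ) : ℤ) = a := by exact_mod_cast this
  linarith

/-- Taylor expansion of the node polynomial at a pole of its class pair -/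
theorem D2_nd {n p k κ : ℕ} [Fact p.Prime] (hk : k ≤ 2 * n) (hκ : kap n p k = κ) :
    PB p (p : ℚ) (p : ℚ)⁻¹ (TS (-(k : ℚ)) ((nd n κ).comp (xp n))) := by
  have hp0 : (0 : ℚ) < p := by exact_mod_cast (Fact.out : p.Prime).pos
  rw [D2_comp, map_mul, TS_lin, TS_lin]
  have e1 : (-(k : ℚ) + κ) = (((κ : ℤ) - k : ℤ) : ℚ) := by push_cast; ring
  have e2 : (-(k : ℚ) + (2 * (n : ℚ) - κ)) = ((2 * (n : ℤ) - κ - k : ℤ) : ℚ) := by
    push_cast; ring
  rw [e1, e2]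
  unfold kap at hκ
  rcases le_total (k % p) ((2 * n - k) % p) with h | h
  · rw [min_eq_left h] at hκ
    have h1 : (p : ℤ) ∣ (κ : ℤ) - k := by
      rw [← hκ]
      exact D2_dvd p k
    have := PB.mul hp0.le (inv_nonneg.2 hp0.le) zero_le_one (D2_PB_dvd h1)
      (D2_PB_int (p := p) (2 * (n : ℤ) - κ - k))
    rwa [mul_one] at this
  · rw [min_eq_right h] at hκ
    have h1 : (p : ℤ) ∣ 2 * (n : ℤ) - κ - k := by
      have h2 := D2_dvd p (2 * n - k)
      rw [hκ] at h2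
      have h3 : ((2 * n - k : ℕ) : ℤ) = 2 * (n : ℤ) - k := by omega
      rw [h3] at h2
      have h4 := (dvd_neg).2 h2
      have h5 : -((κ : ℤ) - (2 * (n : ℤ) - k)) = 2 * (n : ℤ) - κ - k := by ring
      rwa [h5] at h4
    have := PB.mul hp0.le zero_le_one (inv_nonneg.2 hp0.le) (D2_PB_int (p := p) ((κ : ℤ) - k))
      (D2_PB_dvd h1)
    rwa [one_mul] at this

end

end Pool.Agent.H216R2.BB
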