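import Pool.Agent.H216R2.BB.D3gen
import Pool.Agent.H216R2.BB.C2

/-!
# p-adic size of the Hankel determinant
-/

open Polynomial Pool.Agent.H337R2 Filter Topology

namespace Pool.Agent.H216R2.BB

noncomputable section

theorem D3_det_padic {n p : ℕ} [Fact p.Prime] (hodd : p ≠ 2) (hn : 1 ≤ n) (hp2 : 4 * n < p ^ 2) (q : ℕ)
    (u : ℕ → ℚ) (hu : UInt q u) (m : ℕ) (μ : ℤ) :
    padicNorm p ((q : ℚ) ^ m * DET n u m) ≤ (p : ℚ) ^ (m * μ + ∑ κ ∈ Kset n p, TT (eB p n κ - μ)) := by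
  have _ := hn
  exact D3_pre q u m μ fun E W hW A hA hE h => C2_entry_all hodd hp2 q u hu E W hW A hA hE h

end

end Pool.Agent.H216R2.BB
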