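import Pool.Agent.H216R2.BB.D1
import Pool.Agent.H216R2.BB.D2
import Pool.Agent.H336R2.HD.A1
import Pool.Agent.H336R2.HD.A3

/-!
# p-adic size of the Hankel determinant: general form
-/

open Polynomial Pool.Agent.H337R2 Filter Topology

namespace Pool.Agent.H216R2.BB

noncomputable section

/-- node polynomials -/
def D3_ND {K : Type} (node : K → ℚ[X]) (κ : ℕ → K) (i : ℕ) : ℚ[X] :=
  ∏ l ∈ Finset.range i, node (κ l)

lemma D3_ND_monic {K : Type} (node : K → ℚ[X])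
    (hmon : ∀ κ, (node κ).Monic ∧ (node κ).natDegree = 1) (κ : ℕ → K) (i : ℕ) :
    (D3_ND node κ i).Monic ∧ (D3_ND node κ i).natDegree = i := by
  unfold D3_ND
  refine ⟨Polynomial.monic_prod_of_monic _ _ fun l _ => (hmon _).1, ?_⟩
  rw [Polynomial.natDegree_prod_of_monic _ _ fun l _ => (hmon _).1]
  simp only [(hmon _).2, Finset.sum_const, Finset.card_range, smul_eq_mul, mul_one]

lemma D3_ND_PB {K : Type} {p : ℕ} [Fact p.Prime] (node : K → ℚ[X]) (n k : ℕ) (ρ : ℚ) (hρ : 0 ≤ ρ)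
    (A : K → ℚ) (κ : ℕ → K) (i : ℕ) (hA : ∀ l, 0 ≤ A (κ l))
    (h : ∀ l, PB p ρ (A (κ l)) (TS (-(k : ℚ)) ((node (κ l)).comp (xp n)))) :
    PB p ρ (∏ l ∈ Finset.range i, A (κ l)) (TS (-(k : ℚ)) ((D3_ND node κ i).comp (xp n))) := by
  unfold D3_ND
  rw [Polynomial.prod_comp, map_prod]
  exact PB.prod (p := p) (Finset.range i) (fun l => A (κ l)) _ hρ (fun l _ => hA l) (fun l _ => h l)

lemma D3_xp (p : ℕ) [Fact p.Prime] (ρ : ℚ) (hρ : 1 ≤ ρ) (n k : ℕ) :
    PB p ρ 1 (TS (-(k : ℚ)) (xp n)) := by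
  have hlin : ∀ z : ℤ, PB p ρ 1 (PowerSeries.X + PowerSeries.C (z : ℚ)) := fun z =>
    PB.linX (by linarith) zero_le_one (padicNorm.of_int z) (by linarith)
  unfold xp
  rw [map_mul, TS_X, TS_lin]
  have h1 := hlin (-(k : ℤ))
  have h2 := hlin (-(k : ℤ) + (2 * n : ℕ))
  have := PB.mul (by linarith) zero_le_one zero_le_one h1 h2
  simpa using this

lemma D3_EE (n : ℕ) (Q Q' : ℚ[X]) : EE n (Q * Q') = xp n ^ 7 * (Q.comp (xp n) * Q'.comp (xp n)) := by
  unfold EE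
  rw [Polynomial.mul_comp, Polynomial.mul_comp, Polynomial.X_pow_comp]

lemma D3_EE_PB {p : ℕ} [Fact p.Prime] (n k : ℕ) (ρ : ℚ) (hρ : 1 ≤ ρ) (Q Q' : ℚ[X]) (A B : ℚ)
    (hA : 0 ≤ A) (hB : 0 ≤ B) (h : PB p ρ A (TS (-(k : ℚ)) (Q.comp (xp n))))
    (h' : PB p ρ B (TS (-(k : ℚ)) (Q'.comp (xp n)))) :
    PB p ρ (A * B) (TS (-(k : ℚ)) (EE n (Q * Q'))) := by
  have hρ0 : (0 : ℚ) ≤ ρ := by linarith
  rw [D3_EE, map_mul, map_pow, map_mul]
  have h1 := PB.pow hρ0 zero_le_one (D3_xp p ρ hρ n k) 7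
  have h2 := PB.mul hρ0 hA hB h h'
  have h3 := PB.mul hρ0 (by positivity) (by positivity) h1 h2
  simpa using h3

/-- the determinant is small when the entries for greedy nodes are small -/
theorem D3_gen {K : Type} [DecidableEq K] (node : K → ℚ[X])
    (hmon : ∀ κ, (node κ).Monic ∧ (node κ).natDegree = 1) (S : Finset K) (hS : S.Nonempty)
    (h : K → ℕ → ℤ) (μ : ℤ) (m n p : ℕ) [Fact p.Prime] (q : ℕ) (u : ℕ → ℚ)
    (hentry : ∀ (κ : ℕ → K) (i j : ℕ) (si sj : ℤ), i < m → j < m → μ ≤ si → μ ≤ sj →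
      (∀ l, κ l ∈ S) →
      (∀ k ∈ S, h k ((Finset.range i).filter fun l => κ l = k).card ≤ si) →
      (∀ k ∈ S, h k ((Finset.range j).filter fun l => κ l = k).card ≤ sj) →
      padicNorm p ((q : ℚ) * xf n u (PPn n * EE n (D3_ND node κ i * D3_ND node κ j)))
        ≤ (p : ℚ) ^ ((si + sj) / 2)) :
    padicNorm p ((q : ℚ) ^ m * DET n u m) ≤
      (p : ℚ) ^ (m * μ + ∑ k ∈ S, ∑ j ∈ Finset.range m, max 0 (h k j - μ)) := by
  have hpp : p.Prime := Fact.out
  have hp0 : (0 : ℚ) < p := by exact_mod_cast hpp.pos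
  have hp1 : (1 : ℚ) ≤ p := by exact_mod_cast hpp.one_le
  obtain ⟨κ, s, hs0, hs1, hs2, hs3⟩ := D1_greedy' S hS h μ m
  have hmat : padicNorm p (Matrix.of fun i j : Fin m =>
      (q : ℚ) * NL n u (D3_ND node κ i * D3_ND node κ j)).det ≤
      ∏ i ∈ Finset.range m, (p : ℚ) ^ (s i) := by
    refine Pool.Agent.H336R2.HD.A3_padic_det p m _ (fun i => (p : ℚ) ^ (s i))
      (fun i => by positivity) fun i j => ?_
    rw [Matrix.of_apply, NL_apply]
    have hW := hentry κ i j (s i) (s j) i.2 j.2 (hs1 i) (hs1 j) hs0 (fun k hk => hs3 k hk i)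
      (fun k hk => hs3 k hk j)
    calc padicNorm p ((q : ℚ) * xf n u (PPn n * EE n (D3_ND node κ i * D3_ND node κ j))) ^ 2
        ≤ ((p : ℚ) ^ ((s i + s j) / 2)) ^ 2 := pow_le_pow_left₀ (padicNorm.nonneg _) hW 2
      _ = (p : ℚ) ^ ((s i + s j) / 2 * 2) := by
          rw [← zpow_natCast, ← zpow_mul]
          rfl
      _ ≤ (p : ℚ) ^ (s i + s j) := zpow_le_zpow_right₀ hp1 (by omega)
      _ = (p : ℚ) ^ (s i) * (p : ℚ) ^ (s j) := zpow_add₀ hp0.ne' _ _
  have hdet : (Matrix.of fun i j : Fin m =>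
      (q : ℚ) * NL n u (D3_ND node κ i * D3_ND node κ j)).det = (q : ℚ) ^ m * DET n u m := by
    have h1 : (Matrix.of fun i j : Fin m => (q : ℚ) * NL n u (D3_ND node κ i * D3_ND node κ j)) =
        (q : ℚ) • (Matrix.of fun i j : Fin m => NL n u (D3_ND node κ i * D3_ND node κ j)) := by
      ext i j
      simp
    rw [h1, Matrix.det_smul, Fintype.card_fin,
      Pool.Agent.H336R2.HD.A1_det_monic (NL n u) m (D3_ND node κ)
        (fun i _ => D3_ND_monic node hmon κ i)]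
    rfl
  rw [← hdet]
  refine le_trans hmat ?_
  have hprod : ∏ i ∈ Finset.range m, (p : ℚ) ^ (s i) = (p : ℚ) ^ (∑ i ∈ Finset.range m, s i) := by
    clear hmat hdet hs2 hentry
    induction m with
    | zero => simp
    | succ m ih => rw [Finset.prod_range_succ, Finset.sum_range_succ, zpow_add₀ hp0.ne', ih]
  rw [hprod]
  exact zpow_le_zpow_right₀ hp1 hs2

lemma D3_nd_monic (n κ : ℕ) : (nd n κ).Monic ∧ (nd n κ).natDegree = 1 := by
  unfold nd
  exact ⟨Polynomial.monic_X_add_C _, Polynomial.natDegree_X_add_C _⟩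

/-- the node polynomials are integral -/
lemma D3_nd_int {p : ℕ} [Fact p.Prime] (ρ : ℚ) (hρ : 1 ≤ ρ) (n k κ : ℕ) :
    PB p ρ 1 (TS (-(k : ℚ)) ((nd n κ).comp (xp n))) := by
  have hlin : ∀ z : ℤ, PB p ρ 1 (PowerSeries.X + PowerSeries.C (z : ℚ)) := fun z =>
    PB.linX (by linarith) zero_le_one (padicNorm.of_int z) (by linarith)
  rw [D2_comp]
  rw [map_mul, TS_lin, TS_lin]
  have h1 := hlin (-(k : ℤ) + κ)
  have h2 := hlin (-(k : ℤ) + (2 * n - κ))
  have := PB.mul (by linarith) zero_le_one zero_le_one h1 h2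
  simpa using this

/-- preliminary form, with the estimate of the entries as a hypothesis -/
theorem D3_pre {n p : ℕ} [Fact p.Prime] (q : ℕ) (u : ℕ → ℚ) (m : ℕ) (μ : ℤ)
    (hC2 : ∀ (E : ℚ[X]) (W : ℚ), 0 ≤ W → ∀ A : ℕ → ℚ, (∀ k, 0 ≤ A k) →
      (∀ k ≤ 2 * n, PB p (p : ℚ) (A k) (TS (-(k : ℚ)) E)) →
      (∀ k ≤ 2 * n, (p : ℚ) ^ (eB p n k) * A k ≤ W) →
      padicNorm p ((q : ℚ) * xf n u (PPn n * E)) ≤ W) :
    padicNorm p ((q : ℚ) ^ m * DET n u m) ≤ (p : ℚ) ^ (m * μ + ∑ κ ∈ Kset n p, TT (eB p n κ - μ)) := by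
  have hpp : p.Prime := Fact.out
  have hp0 : (0 : ℚ) < p := by exact_mod_cast hpp.pos
  have hp1 : (1 : ℚ) ≤ p := by exact_mod_cast hpp.one_le
  refine le_trans (D3_gen (nd n) (D3_nd_monic n) (Kset n p) ⟨_, D2_kap_mem (k := 0) hpp.pos (by omega)⟩
    (fun κ j => eB p n κ - 2 * (j : ℤ)) μ m n p q u ?_) ?_
  · intro κ i j si sj _ _ _ _ _ hsi hsj
    refine hC2 _ _ (by positivity)
      (fun k => (p : ℚ)⁻¹ ^ ((Finset.range i).filter fun l => κ l = kap n p k).card *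
          (p : ℚ)⁻¹ ^ ((Finset.range j).filter fun l => κ l = kap n p k).card)
      (fun k => by positivity) ?_ ?_
    · intro k hk
      have hnode : ∀ l, PB p (p : ℚ) (if κ l = kap n p k then (p : ℚ)⁻¹ else 1)
          (TS (-(k : ℚ)) ((nd n (κ l)).comp (xp n))) := by
        intro l
        split_ifs with hl
        · exact D2_nd hk hl.symm
        · exact D3_nd_int _ hp1 n k _
      have hb : ∀ i, PB p (p : ℚ) ((p : ℚ)⁻¹ ^ ((Finset.range i).filter fun l => κ l = kap n p k).card)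
          (TS (-(k : ℚ)) ((D3_ND (nd n) κ i).comp (xp n))) := by
        intro i
        have := D3_ND_PB (nd n) n k (p : ℚ) hp0.le
          (fun κ' => if κ' = kap n p k then (p : ℚ)⁻¹ else 1) κ i
          (fun l => by split_ifs <;> positivity) hnode
        rw [Finset.prod_ite, Finset.prod_const, Finset.prod_const_one, mul_one] at this
        exact this
      exact D3_EE_PB n k _ hp1 _ _ _ _ (by positivity) (by positivity) (hb i) (hb j)
    · intro k hk
      have hmem := D2_kap_mem (n := n) hpp.pos hk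
      have h2 := hsi _ hmem
      have h3 := hsj _ hmem
      rw [D2_eB_kap hpp.pos hk] at h2 h3
      set a := ((Finset.range i).filter fun l => κ l = kap n p k).card
      set b := ((Finset.range j).filter fun l => κ l = kap n p k).card
      have e : (p : ℚ) ^ (eB p n k) * ((p : ℚ)⁻¹ ^ a * (p : ℚ)⁻¹ ^ b) =
          (p : ℚ) ^ (eB p n k - a - b : ℤ) := by
        generalize eB p n k = z
        rw [zpow_sub₀ hp0.ne', zpow_sub₀ hp0.ne', zpow_natCast, zpow_natCast,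
          inv_pow, inv_pow, div_eq_mul_inv, div_eq_mul_inv, mul_assoc]
      rw [e]
      exact zpow_le_zpow_right₀ hp1 (by omega)
  · apply zpow_le_zpow_right₀ hp1
    have : ∑ k ∈ Kset n p, ∑ j ∈ Finset.range m, max 0 (eB p n k - 2 * (j : ℤ) - μ) ≤
        ∑ κ ∈ Kset n p, TT (eB p n κ - μ) := by
      refine Finset.sum_le_sum fun κ _ => ?_
      refine le_trans (le_of_eq ?_) (D1_TT_sum (eB p n κ - μ) m)
      exact Finset.sum_congr rfl fun j _ => by congr 1; ring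
    linarith

end

end Pool.Agent.H216R2.BB
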