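import Pool.Agent.H216R2.BB.D5gen
import Pool.Agent.H216R2.BB.C2

/-!
# p-adic size of the Hankel determinant, with defect nodes
-/

open Polynomial Pool.Agent.H337R2 Filter Topology

namespace Pool.Agent.H216R2.BB

noncomputable section

theorem D5_det_defect {n p : ℕ} [Fact p.Prime] (hodd : p ≠ 2) (hn : 8 ≤ n) (hp1 : n < p) (hp2 : 4 * n < p ^ 2)
    (q : ℕ) (u : ℕ → ℚ) (hu : UInt q u) (m : ℕ) (hm : 2 * m + 5 ≤ 5 * n) :
    padicNorm p ((q : ℚ) ^ m * DET n u m) ≤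
      (p : ℚ) ^ (-(5 * ((2 * n / p : ℕ) : ℤ)) * m + ∑ κ ∈ Sf n p, TT (eB p n κ + 5 * ((2 * n / p : ℕ) : ℤ)) +
        5 * ((Df n p).card : ℤ)) := by
  have _ := hn
  exact D5_pre hodd hp1 q u m hm fun E hEd W A hA hE hE1 hc h =>
    C2_entry hodd hp2 q u hu E hEd W A hA hE hE1 hc h

end

end Pool.Agent.H216R2.BB
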