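import Pool.Agent.H216R2.BB.D3gen

/-!
# p-adic size of the Hankel determinant, with defect nodes: general form
-/

open Polynomial Pool.Agent.H337R2 Filter Topology

namespace Pool.Agent.H216R2.BB

noncomputable section

/-- all the nodes: the dummy node, the class nodes, the defect nodes -/
def D5_node (n p : ℕ) : Option (ℕ ⊕ ℕ) → ℚ[X]
  | none => X
  | some (Sum.inl r) => nd n r
  | some (Sum.inr k) => dn n p k

/-- the exponents -/
def D5_h (n p : ℕ) (μ : ℤ) : Option (ℕ ⊕ ℕ) → ℕ → ℤ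
  | none => fun _ => μ
  | some (Sum.inl r) => fun j => eB p n r - 2 * (j : ℤ)
  | some (Sum.inr _) => fun j => if j = 0 then 5 + μ else μ

lemma D5_node_monic (n p : ℕ) (κ : Option (ℕ ⊕ ℕ)) :
    (D5_node n p κ).Monic ∧ (D5_node n p κ).natDegree = 1 := by
  rcases κ with _ | r | k
  · exact ⟨Polynomial.monic_X, Polynomial.natDegree_X⟩
  · exact D3_nd_monic n r
  · exact ⟨Polynomial.monic_X_sub_C _, Polynomial.natDegree_X_sub_C _⟩

lemma D5_half {p : ℕ} [Fact p.Prime] (hodd : p ≠ 2) (z : ℤ) : padicNorm p ((z : ℚ) / 2) ≤ 1 := by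
  have : Fact (Nat.Prime 2) := ⟨Nat.prime_two⟩
  have h2 : padicNorm p ((2 : ℕ) : ℚ) = 1 := padicNorm.padicNorm_of_prime_of_ne hodd
  rw [padicNorm.div]
  have h3 : padicNorm p (2 : ℚ) = 1 := by exact_mod_cast h2
  rw [h3, div_one]
  exact padicNorm.of_int z

lemma D5_dn_comp (n p k : ℕ) : (dn n p k).comp (xp n) =
    (X + C (-((p : ℚ) / 2 - k))) * (X + C ((p : ℚ) / 2 - k + 2 * n)) := by
  unfold dn xp
  rw [sub_comp, X_comp, C_comp, C_mul]
  have h2 : (C ((2 * n : ℕ) : ℚ) : ℚ[X]) = C (-((p : ℚ) / 2 - k)) + C ((p : ℚ) / 2 - k + 2 * n) := by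
    rw [← C_add]
    congr 1
    push_cast
    ring
  rw [h2]
  rw [C_neg]
  ring

/-- the defect nodes are integral -/
lemma D5_dn_int {p : ℕ} [Fact p.Prime] (hodd : p ≠ 2) (ρ : ℚ) (hρ : 1 ≤ ρ) (n k k' : ℕ) :
    PB p ρ 1 (TS (-(k : ℚ)) ((dn n p k').comp (xp n))) := by
  have hlin : ∀ z : ℤ, PB p ρ 1 (PowerSeries.X + PowerSeries.C ((z : ℚ) / 2)) := fun z =>
    PB.linX (by linarith) zero_le_one (D5_half hodd z) (by linarith)
  rw [D5_dn_comp, map_mul, TS_lin, TS_lin]
  have h1 := hlin (-(2 * (k : ℤ)) - p + 2 * k')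
  have h2 := hlin (-(2 * (k : ℤ)) + p - 2 * k' + 4 * n)
  have e1 : -(k : ℚ) + -((p : ℚ) / 2 - k') = ((-(2 * (k : ℤ)) - p + 2 * k' : ℤ) : ℚ) / 2 := by
    push_cast; ring
  have e2 : -(k : ℚ) + ((p : ℚ) / 2 - k' + 2 * n) =
      ((-(2 * (k : ℤ)) + p - 2 * k' + 4 * n : ℤ) : ℚ) / 2 := by
    push_cast; ring
  rw [e1, e2]
  have := PB.mul (by linarith) zero_le_one zero_le_one h1 h2
  rwa [mul_one] at this

lemma D5_node_int {p : ℕ} [Fact p.Prime] (hodd : p ≠ 2) (ρ : ℚ) (hρ : 1 ≤ ρ) (n k : ℕ)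
    (κ : Option (ℕ ⊕ ℕ)) : PB p ρ 1 (TS (-(k : ℚ)) ((D5_node n p κ).comp (xp n))) := by
  rcases κ with _ | r | k'
  · show PB p ρ 1 (TS (-(k : ℚ)) (X.comp (xp n)))
    rw [X_comp]
    exact D3_xp p ρ hρ n k
  · exact D3_nd_int ρ hρ n k r
  · exact D5_dn_int hodd ρ hρ n k k'

/-- a defect node kills the value at its point -/
lemma D5_eval {n p k : ℕ} (κ : ℕ → Option (ℕ ⊕ ℕ)) (i : ℕ) (l : ℕ) (hl : l < i)
    (h : κ l = some (Sum.inr k)) :
    ((D3_ND (D5_node n p) κ i).comp (xp n)).eval ((p : ℚ) / 2 - k) = 0 := by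
  unfold D3_ND
  rw [Polynomial.prod_comp, Polynomial.eval_prod]
  refine Finset.prod_eq_zero (Finset.mem_range.2 hl) ?_
  rw [h]
  show ((dn n p k).comp (xp n)).eval ((p : ℚ) / 2 - k) = 0
  rw [D5_dn_comp, Polynomial.eval_mul, Polynomial.eval_add, Polynomial.eval_X, Polynomial.eval_C,
    add_neg_cancel, zero_mul]

lemma D5_deg (n : ℕ) (Q : ℚ[X]) (d : ℕ) (hQ : Q.natDegree ≤ d) :
    (EE n Q).natDegree ≤ 14 + 2 * d := by
  unfold EE
  rw [Polynomial.natDegree_comp]
  have h1 : (xp n).natDegree ≤ 2 := by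
    unfold xp
    refine Polynomial.natDegree_mul_le.trans ?_
    rw [Polynomial.natDegree_X, Polynomial.natDegree_X_add_C]
  have h2 : (X ^ 7 * Q : ℚ[X]).natDegree ≤ 7 + d := by
    refine Polynomial.natDegree_mul_le.trans ?_
    rw [Polynomial.natDegree_X_pow]
    omega
  calc _ ≤ (7 + d) * 2 := Nat.mul_le_mul h2 h1
    _ = 14 + 2 * d := by ring

lemma D5_fact {n p : ℕ} [hp : Fact p.Prime] (hp1 : n < p) :
    padicNorm p (((2 * n).factorial : ℕ) : ℚ) ^ 5 ≤ (p : ℚ) ^ (-(5 * ((2 * n / p : ℕ) : ℤ))) := by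
  have hK : 2 * n / p ≤ 1 := by
    rw [← Nat.lt_succ_iff, Nat.div_lt_iff_lt_mul hp.out.pos]
    omega
  rcases Nat.le_one_iff_eq_zero_or_eq_one.1 hK with h | h
  · rw [h]
    simp only [Nat.cast_zero, mul_zero, neg_zero, zpow_zero]
    exact pow_le_one₀ (padicNorm.nonneg _) (padicNorm.of_nat _)
  · have hle : p ≤ 2 * n := by
      by_contra hc
      push Not at hc
      rw [Nat.div_eq_of_lt hc] at h
      exact absurd h (by norm_num)
    rw [h]
    have hd : (p : ℤ) ∣ (((2 * n).factorial : ℕ) : ℤ) := by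
      exact_mod_cast (Nat.dvd_factorial hp.out.pos hle)
    have h1 := (padicNorm.dvd_iff_norm_le (p := p) (n := 1)
      (z := (((2 * n).factorial : ℕ) : ℤ))).1 (by simpa using hd)
    have h2 : padicNorm p (((2 * n).factorial : ℕ) : ℚ) ≤ (p : ℚ)⁻¹ := by
      have e : ((((2 * n).factorial : ℕ) : ℤ) : ℚ) = (((2 * n).factorial : ℕ) : ℚ) := by
        push_cast; rfl
      rw [e] at h1
      simpa using h1
    have h3 := pow_le_pow_left₀ (padicNorm.nonneg _) h2 5
    refine h3.trans (le_of_eq ?_)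
    rw [Nat.cast_one, mul_one, zpow_neg, inv_pow]
    norm_cast

/-- an isolated pole -/
lemma D5_isol {n p k : ℕ} (hk : k ≤ 2 * n) (h1 : 2 * n < k + p) (h2 : k < p) :
    (∀ k' ≤ 2 * n, k' ≠ k → ¬ (p : ℤ) ∣ (k' : ℤ) - k) ∧
      eB p n k = 5 * (1 - ((2 * n / p : ℕ) : ℤ)) := by
  have h : ∀ k' ≤ 2 * n, k' ≠ k → ¬ (p : ℤ) ∣ (k' : ℤ) - k := by
    intro k' hk' hne hd
    have h3 : (k' : ℤ) - k = 0 := by
      apply Int.eq_zero_of_abs_lt_dvd hd
      rw [abs_lt]; omega
    omega
  refine ⟨h, ?_⟩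
  have h4 : cnt p 0 (2 * n) k = 1 := by
    unfold cnt
    rw [Finset.card_eq_one]
    refine ⟨k, ?_⟩
    ext m
    rw [Finset.mem_filter, Finset.mem_Icc, Finset.mem_singleton]
    constructor
    · rintro ⟨hm, hd⟩
      by_contra hne
      exact h m hm.2 hne hd
    · rintro rfl
      exact ⟨⟨Nat.zero_le _, hk⟩, by simp⟩
  unfold eB
  rw [h4]
  push_cast
  ring

/-- preliminary form, with the estimate of the entries as a hypothesis -/
theorem D5_pre {n p : ℕ} [Fact p.Prime] (hodd : p ≠ 2) (hp1 : n < p) (q : ℕ) (u : ℕ → ℚ)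
    (m : ℕ) (hm : 2 * m + 5 ≤ 5 * n)
    (hC2 : ∀ (E : ℚ[X]), E.natDegree ≤ 10 * n + 3 → ∀ (W : ℚ) (A : ℕ → ℚ), (∀ k, 0 ≤ A k) →
      (∀ k ≤ 2 * n, PB p (p : ℚ) (A k) (TS (-(k : ℚ)) E)) →
      (∀ k ≤ 2 * n, PB p 1 1 (TS (-(k : ℚ)) E)) →
      padicNorm p (((2 * n).factorial : ℕ) : ℚ) ^ 5 ≤ W →
      (∀ k ≤ 2 * n, (p : ℚ) ^ (eB p n k) * A k ≤ W ∨
        ((∀ k' ≤ 2 * n, k' ≠ k → ¬ (p : ℤ) ∣ (k' : ℤ) - k) ∧
          (2 * k < p ∨ (p < 2 * k ∧ 2 * k < 3 * p ∧ E.eval ((p : ℚ) / 2 - k) = 0)))) →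
      padicNorm p ((q : ℚ) * xf n u (PPn n * E)) ≤ W) :
    padicNorm p ((q : ℚ) ^ m * DET n u m) ≤
      (p : ℚ) ^ (-(5 * ((2 * n / p : ℕ) : ℤ)) * m + ∑ κ ∈ Sf n p, TT (eB p n κ + 5 * ((2 * n / p : ℕ) : ℤ)) +
        5 * ((Df n p).card : ℤ)) := by
  have hpp : p.Prime := Fact.out
  have hp0 : (0 : ℚ) < p := by exact_mod_cast hpp.pos
  have hp1' : (1 : ℚ) ≤ p := by exact_mod_cast hpp.one_le
  have hpodd : p % 2 = 1 := by
    rcases hpp.eq_two_or_odd with h | h
    · exact absurd h hodd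
    · exact h
  set μ : ℤ := -(5 * ((2 * n / p : ℕ) : ℤ)) with hμ
  set S : Finset (Option (ℕ ⊕ ℕ)) := Finset.insertNone ((Sf n p).disjSum (Df n p)) with hS
  refine le_trans (D3_gen (D5_node n p) (D5_node_monic n p) S ⟨none, by simp [hS]⟩
    (D5_h n p μ) μ m n p q u ?_) ?_
  · intro κ i j si sj hi hj hμi hμj _ hsi hsj
    refine hC2 _ ?_ _
      (fun k => (p : ℚ)⁻¹ ^ ((Finset.range i).filter fun l => κ l = some (Sum.inl (kap n p k))).card *
          (p : ℚ)⁻¹ ^ ((Finset.range j).filter fun l => κ l = some (Sum.inl (kap n p k))).card)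
      (fun k => by positivity) ?_ ?_ ?_ ?_
    · refine (D5_deg n _ (i + j) ?_).trans (by omega)
      refine Polynomial.natDegree_mul_le.trans ?_
      rw [(D3_ND_monic _ (D5_node_monic n p) κ i).2, (D3_ND_monic _ (D5_node_monic n p) κ j).2]
    · intro k hk
      have hnode : ∀ l, PB p (p : ℚ) (if κ l = some (Sum.inl (kap n p k)) then (p : ℚ)⁻¹ else 1)
          (TS (-(k : ℚ)) ((D5_node n p (κ l)).comp (xp n))) := by
        intro l
        split_ifs with hl
        · rw [hl]
          exact D2_nd hk rfl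
        · exact D5_node_int hodd _ hp1' n k _
      have hb : ∀ i, PB p (p : ℚ)
          ((p : ℚ)⁻¹ ^ ((Finset.range i).filter fun l => κ l = some (Sum.inl (kap n p k))).card)
          (TS (-(k : ℚ)) ((D3_ND (D5_node n p) κ i).comp (xp n))) := by
        intro i
        have := D3_ND_PB (D5_node n p) n k (p : ℚ) hp0.le
          (fun κ' => if κ' = some (Sum.inl (kap n p k)) then (p : ℚ)⁻¹ else 1) κ i
          (fun l => by split_ifs <;> positivity) hnode
        rw [Finset.prod_ite, Finset.prod_const, Finset.prod_const_one, mul_one] at this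
        exact this
      exact D3_EE_PB n k _ hp1' _ _ _ _ (by positivity) (by positivity) (hb i) (hb j)
    · intro k hk
      have hb : ∀ i, PB p (1 : ℚ) 1 (TS (-(k : ℚ)) ((D3_ND (D5_node n p) κ i).comp (xp n))) := by
        intro i
        have := D3_ND_PB (D5_node n p) n k (1 : ℚ) zero_le_one (fun _ => (1 : ℚ)) κ i
          (fun l => zero_le_one) (fun l => D5_node_int hodd 1 le_rfl n k _)
        rwa [Finset.prod_const_one] at this
      have := D3_EE_PB n k 1 le_rfl _ _ _ _ zero_le_one zero_le_one (hb i) (hb j)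
      rwa [mul_one] at this
    · refine (D5_fact hp1).trans (zpow_le_zpow_right₀ hp1' ?_)
      omega
    · intro k hk
      set a := ((Finset.range i).filter fun l => κ l = some (Sum.inl (kap n p k))).card with ha
      set b := ((Finset.range j).filter fun l => κ l = some (Sum.inl (kap n p k))).card with hb
      by_cases hc : k + p ≤ 2 * n ∨ p ≤ k ∨ (p < 2 * k ∧ p < 2 * (2 * n - k))
      · left
        have hmem : kap n p k ∈ Sf n p := by
          unfold Sf
          refine Finset.mem_image_of_mem _ (Finset.mem_filter.2 ⟨Finset.mem_range.2 (by omega), hc⟩)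
        have hmem' : some (Sum.inl (kap n p k)) ∈ S := by
          rw [hS, Finset.some_mem_insertNone, Finset.inl_mem_disjSum]
          exact hmem
        have h2 : eB p n (kap n p k) - 2 * (a : ℤ) ≤ si := hsi _ hmem'
        have h3 : eB p n (kap n p k) - 2 * (b : ℤ) ≤ sj := hsj _ hmem'
        rw [D2_eB_kap hpp.pos hk] at h2 h3
        have e : (p : ℚ) ^ (eB p n k) * ((p : ℚ)⁻¹ ^ a * (p : ℚ)⁻¹ ^ b) =
            (p : ℚ) ^ (eB p n k - a - b : ℤ) := by
          generalize eB p n k = z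
          rw [zpow_sub₀ hp0.ne', zpow_sub₀ hp0.ne', zpow_natCast, zpow_natCast,
            inv_pow, inv_pow, div_eq_mul_inv, div_eq_mul_inv, mul_assoc]
        rw [e]
        exact zpow_le_zpow_right₀ hp1' (by omega)
      · push Not at hc
        obtain ⟨hc1, hc2, hc3⟩ := hc
        obtain ⟨hiso, heB⟩ := D5_isol hk hc1 hc2
        by_cases h2k : 2 * k < p
        · exact Or.inr ⟨hiso, Or.inl h2k⟩
        · have h2k' : p < 2 * k := by omega
          have hc4 := hc3 h2k'
          have hc5 : 2 * (2 * n - k) < p := by omega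
          have hD : k ∈ Df n p := by
            unfold Df
            exact Finset.mem_filter.2 ⟨Finset.mem_range.2 (by omega), hc1, hc2, h2k', hc5⟩
          have hD' : some (Sum.inr k) ∈ S := by
            rw [hS, Finset.some_mem_insertNone, Finset.inr_mem_disjSum]
            exact hD
          by_cases hdef : (∃ l < i, κ l = some (Sum.inr k)) ∨ (∃ l < j, κ l = some (Sum.inr k))
          · right
            refine ⟨hiso, Or.inr ⟨h2k', by omega, ?_⟩⟩
            rw [D3_EE, Polynomial.eval_mul, Polynomial.eval_mul]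
            rcases hdef with ⟨l, hl, hl'⟩ | ⟨l, hl, hl'⟩
            · rw [D5_eval κ i l hl hl', zero_mul, mul_zero]
            · rw [D5_eval κ j l hl hl', mul_zero, mul_zero]
          · left
            push Not at hdef
            have z1 : ((Finset.range i).filter fun l => κ l = some (Sum.inr k)).card = 0 := by
              rw [Finset.card_eq_zero, Finset.filter_eq_empty_iff]
              intro l hl
              exact hdef.1 l (Finset.mem_range.1 hl)
            have z2 : ((Finset.range j).filter fun l => κ l = some (Sum.inr k)).card = 0 := by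
              rw [Finset.card_eq_zero, Finset.filter_eq_empty_iff]
              intro l hl
              exact hdef.2 l (Finset.mem_range.1 hl)
            have h2 : 5 + μ ≤ si := by
              have := hsi _ hD'
              rw [z1] at this
              exact this
            have h3 : 5 + μ ≤ sj := by
              have := hsj _ hD'
              rw [z2] at this
              exact this
            have hinv : (p : ℚ)⁻¹ ≤ 1 := inv_le_one_of_one_le₀ hp1'
            have hA1 : (p : ℚ)⁻¹ ^ a * (p : ℚ)⁻¹ ^ b ≤ 1 :=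
              mul_le_one₀ (pow_le_one₀ (by positivity) hinv) (by positivity)
                (pow_le_one₀ (by positivity) hinv)
            calc (p : ℚ) ^ (eB p n k) * ((p : ℚ)⁻¹ ^ a * (p : ℚ)⁻¹ ^ b)
                ≤ (p : ℚ) ^ (eB p n k) * 1 := mul_le_mul_of_nonneg_left hA1 (by positivity)
              _ = (p : ℚ) ^ (eB p n k) := mul_one _
              _ ≤ (p : ℚ) ^ ((si + sj) / 2) := by
                  apply zpow_le_zpow_right₀ hp1'
                  rw [heB]
                  omega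
  · apply zpow_le_zpow_right₀ hp1'
    rw [hS, Finset.sum_insertNone, Finset.sum_disjSum]
    have s0 : ∑ j ∈ Finset.range m, max 0 (D5_h n p μ none j - μ) = 0 := by
      refine Finset.sum_eq_zero fun j _ => ?_
      show max 0 (μ - μ) = 0
      simp
    have s1 : ∑ κ ∈ Sf n p, ∑ j ∈ Finset.range m, max 0 (D5_h n p μ (some (Sum.inl κ)) j - μ) ≤
        ∑ κ ∈ Sf n p, TT (eB p n κ + 5 * ((2 * n / p : ℕ) : ℤ)) := by
      refine Finset.sum_le_sum fun κ _ => ?_
      refine le_trans (le_of_eq ?_) (D1_TT_sum (eB p n κ + 5 * ((2 * n / p : ℕ) : ℤ)) m)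
      refine Finset.sum_congr rfl fun j _ => ?_
      show max 0 (eB p n κ - 2 * (j : ℤ) - μ) = _
      congr 1
      rw [hμ]; ring
    have s2 : ∑ κ ∈ Df n p, ∑ j ∈ Finset.range m, max 0 (D5_h n p μ (some (Sum.inr κ)) j - μ) ≤
        5 * ((Df n p).card : ℤ) := by
      rw [mul_comm, ← nsmul_eq_mul, ← Finset.sum_const]
      refine Finset.sum_le_sum fun κ _ => ?_
      show ∑ j ∈ Finset.range m, max 0 ((if j = 0 then 5 + μ else μ) - μ) ≤ 5
      have : ∀ j ∈ Finset.range m, max 0 ((if j = 0 then 5 + μ else μ) - μ) =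
          if j = 0 then (5 : ℤ) else 0 := by
        intro j _
        split_ifs
        · rw [add_sub_cancel_right]; norm_num
        · simp
      rw [Finset.sum_congr rfl this, Finset.sum_ite_eq']
      split_ifs <;> norm_num
    have e : (m : ℤ) * μ = μ * m := mul_comm _ _
    rw [s0, e]
    linarith

end

end Pool.Agent.H216R2.BB
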