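import Pool.Agent.H337R2.Bt5
import Pool.Agent.H337R2.Cx4
import Pool.Agent.H336R2.HD.Defs

/-!
# Hankel determinants of alternating linear forms in `1, β(2), β(4)`: definitions

`R(t) = (2n)!^5 (2t+2n) / ∏_{k=0}^{2n} (t+k)^5`, `x(t) = t (t+2n)`,
`N(Q) = ∑_{t ≥ 0} (-1)^t R(t+1/2) (x^7 Q(x))(t+1/2)`.
-/

open Polynomial Pool.Agent.H337R2

namespace Pool.Agent.H216R2.BB

noncomputable section

/-- the poles `0, …, 2n` -/
def sB (n : ℕ) : Finset ℕ := Finset.range (2 * n + 1)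

/-- all poles have order 5 -/
def m5 : ℕ → ℕ := fun _ => 5

/-- the numerator of `R` -/
def PPn (n : ℕ) : ℚ[X] := C (((2 * n).factorial : ℚ) ^ 5) * (C 2 * X + C ((2 * n : ℕ) : ℚ))

/-- `x(t) = t (t + 2 n)` -/
def xp (n : ℕ) : ℚ[X] := X * (X + C ((2 * n : ℕ) : ℚ))

/-- `x^7 Q(x)` as a polynomial in `t` -/
def EE (n : ℕ) (Q : ℚ[X]) : ℚ[X] := (X ^ 7 * Q).comp (xp n)

/-- the linear form as a function of the numerator (`u 2 = 4 β(2)`, `u 4 = 16 β(4)`) -/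
def xf (n : ℕ) (u : ℕ → ℚ) (P : ℚ[X]) : ℚ :=
  ∑ i ∈ Finset.Icc 1 5, ((∑ k ∈ sB n, (-1) ^ k * pa (sB n) m5 P k i) * u i -
    ∑ k ∈ sB n, (-1) ^ k * (pa (sB n) m5 P k i * bsZ i (k : ℤ)))

lemma pa_add (s : Finset ℕ) (μ : ℕ → ℕ) (P Q : ℚ[X]) (k i : ℕ) :
    pa s μ (P + Q) k i = pa s μ P k i + pa s μ Q k i := by
  unfold pa
  split_ifs
  · unfold pfc; rw [map_add, add_mul, map_add]
  · simp

lemma pa_C_mul (s : Finset ℕ) (μ : ℕ → ℕ) (c : ℚ) (P : ℚ[X]) (k i : ℕ) :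
    pa s μ (C c * P) k i = c * pa s μ P k i := by
  unfold pa
  split_ifs
  · unfold pfc; rw [(TS (-(k : ℚ))).map_mul, TS_C, mul_assoc, PowerSeries.coeff_C_mul]
  · simp

/-- `xf` as a linear map of the numerator -/
def xfL (n : ℕ) (u : ℕ → ℚ) : ℚ[X] →ₗ[ℚ] ℚ where
  toFun := xf n u
  map_add' P Q := by
    unfold xf
    rw [← Finset.sum_add_distrib]
    apply Finset.sum_congr rfl
    intro i _
    simp only [pa_add, mul_add, add_mul, Finset.sum_add_distrib]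
    ring
  map_smul' c P := by
    rw [Polynomial.smul_eq_C_mul]
    unfold xf
    simp only [pa_C_mul, RingHom.id_apply, smul_eq_mul]
    rw [Finset.mul_sum]
    apply Finset.sum_congr rfl
    intro i _
    rw [mul_sub]
    congr 1
    · rw [← mul_assoc, Finset.mul_sum]
      congr 1
      apply Finset.sum_congr rfl
      intro k _
      ring
    · rw [Finset.mul_sum]
      apply Finset.sum_congr rfl
      intro k _
      ring

/-- the functional `N(Q)` -/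
def NL (n : ℕ) (u : ℕ → ℚ) : ℚ[X] →ₗ[ℚ] ℚ where
  toFun Q := xfL n u (PPn n * EE n Q)
  map_add' P Q := by
    rw [← map_add]
    congr 1
    unfold EE
    rw [mul_add, Polynomial.add_comp, mul_add]
  map_smul' c P := by
    rw [RingHom.id_apply, ← map_smul]
    congr 1
    unfold EE
    rw [mul_smul_comm, Polynomial.smul_comp, mul_smul_comm]

lemma NL_apply (n : ℕ) (u : ℕ → ℚ) (Q : ℚ[X]) : NL n u Q = xf n u (PPn n * EE n Q) := rfl

/-- Hankel determinant -/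
def DET (n : ℕ) (u : ℕ → ℚ) (m : ℕ) : ℚ :=
  (Matrix.of fun i j : Fin m => NL n u (X ^ (i.1 + j.1))).det

/-- `q` is a common denominator of the `u i` -/
def UInt (q : ℕ) (u : ℕ → ℚ) : Prop := 0 < q ∧ ∀ i, ∃ z : ℤ, (q : ℚ) * u i = z

/-! ### p-adic part -/

/-- the exponent of the class of `k` modulo `p` -/
def eB (p n k : ℕ) : ℤ := 5 * ((cnt p 0 (2 * n) k : ℤ) - ((2 * n / p : ℕ) : ℤ))

/-- `T(y) = ⌊(y+1)²/4⌋` for `y > 0`, and `0` otherwise -/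
def TT (y : ℤ) : ℤ := if 0 < y then (y + 1) ^ 2 / 4 else 0

/-- representative of the class pair of `k` (for `k ≤ 2 n`) -/
def kap (n p k : ℕ) : ℕ := min (k % p) ((2 * n - k) % p)

/-- the set of class pairs -/
def Kset (n p : ℕ) : Finset ℕ := (Finset.range p).filter fun r => r ≤ (2 * n + p - r) % p

/-- poles alone in their class, with exactly one defect in the pair -/
def Df (n p : ℕ) : Finset ℕ :=
  (Finset.range (2 * n + 1)).filter fun k => 2 * n < k + p ∧ k < p ∧ p < 2 * k ∧ 2 * (2 * n - k) < p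

/-- the remaining class pairs which matter, for `n < p`: two poles in the class, or two defects -/
def Sf (n p : ℕ) : Finset ℕ :=
  ((Finset.range (2 * n + 1)).filter fun k => k + p ≤ 2 * n ∨ p ≤ k ∨ (p < 2 * k ∧ p < 2 * (2 * n - k))).image
    (kap n p)

/-- node at the pole class `r` -/
def nd (n r : ℕ) : ℚ[X] := X + C ((r : ℚ) * (2 * n - r))

/-- node at the defect of the pole `k`: the point `t = p/2 - k` -/
def dn (n p k : ℕ) : ℚ[X] := X - C (((p : ℚ) / 2 - k) * ((p : ℚ) / 2 - k + 2 * n))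

/-- polynomials with zeros at consecutive integers (in `t`), around `-n` -/
def CP (n i : ℕ) : ℚ[X] := ∏ l ∈ Finset.range i, (X + C ((n : ℚ) ^ 2 - (l : ℚ) ^ 2))

/-- `⌊25 K² / 4⌋` -/
def T5 (K : ℕ) : ℕ := 25 * K ^ 2 / 4

/-- exponent for `n/20 < p ≤ n` -/
def EA (n p : ℕ) : ℝ :=
  -(5 * ((2 * n / p : ℕ) : ℝ) - 1) * (5 / 2 * n)
    + (2 * n - ((2 * n / p : ℕ) : ℝ) * p) / 2 * (T5 (2 * n / p + 1) : ℝ)
    + ((((2 * n / p : ℕ) : ℝ) + 1) * p - 2 * n) / 2 * (T5 (2 * n / p) : ℝ)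

/-- exponent for `n < p < 2n` -/
def EB (n p : ℕ) : ℝ := if 3 * p < 4 * n then 17 / 2 * n - 6 * p else 33 / 2 * n - 12 * p

/-- exponent for `2n < p < 4n` -/
def EC (n p : ℕ) : ℝ := 10 * n - 5 / 2 * p

/-- the exponent -/
def EW (n p : ℕ) : ℝ := if p ≤ n then EA n p else if p < 2 * n then EB n p else if p < 4 * n then EC n p else 0

/-- the range of `j` -/
abbrev J : Finset ℕ := Finset.Icc 1 100

/-- the prime sums -/
abbrev PS := Pool.Agent.H336R2.HD.PS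

abbrev tn := Pool.Agent.H336R2.HD.tn

/-- the cell `2/(K+1) < p/n < 2/K` -/
abbrev cell (K n : ℕ) : Finset ℕ := PS (((2 / ((K : ℚ) + 1) : ℚ)) : ℝ) (((2 / (K : ℚ) : ℚ)) : ℝ) n

/-- the limit on the cell `2/(K+1) < p/n < 2/K` -/
def LAc (K : ℕ) : ℚ :=
  (-(5 * K - 1) * (5 / 2) + T5 (K + 1) - T5 K) * (2 / K - 2 / (K + 1)) +
    (-(K / 2) * T5 (K + 1) + (K + 1) / 2 * T5 K) * ((2 / K) ^ 2 - (2 / (K + 1)) ^ 2) / 2

/-- limit of the tents -/
def LU : ℚ := ∑ j ∈ J, Pool.Agent.H336R2.HD.It 5 j (1 / 20) 5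

/-! ### archimedean part -/

/-- `x` at the half integer `l + 1/2` -/
def xh (n l : ℕ) : ℚ := ((l : ℚ) + 1 / 2) * ((l : ℚ) + 1 / 2 + 2 * n)

/-- `R x^7` at the half integer `l + 1/2` -/
def wh (n l : ℕ) : ℚ :=
  ((2 * n).factorial : ℚ) ^ 5 * (2 * l + 1 + 2 * n) /
    (∏ k ∈ Finset.range (2 * n + 1), ((l : ℚ) + k + 1 / 2)) ^ 5 * xh n l ^ 7

/-- the zone polynomial -/
def ZZ (n T : ℕ) : ℚ[X] := ∏ l ∈ Finset.range T, (X - C (xh n l))

/-- the zone polynomial without the factor `l` -/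
def ZE (n T l : ℕ) : ℚ[X] := ∏ l' ∈ (Finset.range T).erase l, (X - C (xh n l'))

/-- product of the differences of the zone points (over ordered pairs) -/
def VD (n T : ℕ) : ℚ := ∏ l ∈ Finset.range T, (ZE n T l).eval (xh n l)

/-- the line `Re t = T` -/
def zt (T : ℕ) (y : ℝ) : ℂ := ((T : ℝ) : ℂ) + y * Complex.I

/-- `R` on the line -/
def Rn (n T : ℕ) (y : ℝ) : ℂ := aeval (zt T y) (PPn n) / aeval (zt T y) (QQ (sB n) m5)

/-- `x` on the line -/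
def xz (n T : ℕ) (y : ℝ) : ℂ := zt T y * (zt T y + ((2 * n : ℕ) : ℂ))

/-- the four nodes `g1 ± i g2`, the exponents `sg` and the constants `tb` -/
def g1 : ℕ → ℚ
  | 0 => 232 / 100
  | 1 => 230 / 100
  | 2 => 231 / 100
  | _ => 226 / 100

def g2 : ℕ → ℚ
  | 0 => 12 / 100
  | 1 => 37 / 100
  | 2 => 68 / 100
  | _ => 74 / 100

def sg : ℕ → ℕ
  | 0 => 3
  | 1 => 3
  | 2 => 3
  | _ => 5

def tb : ℕ → ℕ
  | 0 => 0
  | 1 => 1
  | 2 => 11
  | 3 => 22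
  | _ => 56

/-- `q(x)`, with zeros (in `t`, scaled) at `-n ± a n ± i b n` -/
def qb (n : ℕ) (a b : ℚ) : ℚ[X] :=
  (X + C ((n : ℚ) ^ 2)) ^ 2 - C (2 * (a ^ 2 - b ^ 2) * (n : ℚ) ^ 2) * (X + C ((n : ℚ) ^ 2))
    + C ((a ^ 2 + b ^ 2) ^ 2 * (n : ℚ) ^ 4)

/-- `|q|²` on the line `Re = 7/3` (from the centre), as a function of `v = η²` -/
def Gb (a b : ℚ) (v : ℝ) : ℝ :=
  ((v + (7 / 3 - (a : ℝ)) ^ 2 + (b : ℝ) ^ 2) ^ 2 - 4 * (b : ℝ) ^ 2 * v) *
  ((v + (7 / 3 + (a : ℝ)) ^ 2 + (b : ℝ) ^ 2) ^ 2 - 4 * (b : ℝ) ^ 2 * v)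

/-- the factors `(c, e)` of the comparison product `∏ (1 + v/c²)^e` -/
def FX : List (ℚ × ℕ) :=
  [(33/24, 7), (35/24, 7), (37/24, 7), (39/24, 7), (41/24, 7), (43/24, 7), (45/24, 7), (47/24, 7),
   (50/24, 14), (54/24, 14), (58/24, 14), (62/24, 14), (66/24, 14), (70/24, 14), (74/24, 14), (78/24, 14),
   (5, 16), (6, 32), (8, 64), (12, 128), (20, 256), (36, 512), (68, 1024), (132, 2048), (260, 4096)]

/-- comparison product -/
def FXp (v : ℝ) : ℝ := (FX.map fun x => (1 + v / (x.1 : ℝ) ^ 2) ^ x.2).prod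

/-- value on the line at `y = 0` -/
def Phi0 : ℝ := 10 * Real.log 2 + 28 / 3 * Real.log (4 / 3) - 70 / 3 * Real.log (10 / 3)
  + 28 / 3 * Real.log (14 / 3) - 16 / 3

/-- the polynomial `H` of the zone rows -/
def HH (n N : ℕ) : ℚ[X] := ∏ b ∈ Finset.range 4, qb n (g1 b) (g2 b) ^ (sg b * N)

/-- `a²/2 log a - 3a²/4` -/
def SS (a : ℝ) : ℝ := a ^ 2 / 2 * Real.log a - 3 / 4 * a ^ 2

/-- the zone constant -/
def ZT : ℝ := 7 * SS (4 / 3) + SS (14 / 3) - 7 * SS (10 / 3) + 6 * SS 2 + 20 / 3 * (2 * Real.log 2 - 2)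

/-- the loss factor in the zone -/
def kz (N l : ℕ) : ℝ := if l < 24 * N then 0 else 3 / 5

/-- the diagonal entry of the zone row `l` -/
def Dz (n N l : ℕ) : ℝ :=
  |((wh n l : ℚ) : ℝ)| * (((ZE n (32 * N) l).eval (xh n l) * (HH n N).eval (xh n l) : ℚ) : ℝ) ^ 2

/-- the size of the last contour bound -/
def BN (n N : ℕ) : ℝ := (n : ℝ) ^ (128 * N) * Real.exp (n * Phi0) * (n : ℝ) ^ (112 * N) * 2 ^ (56 * N)

/-- the weight on the line `Re t = 32 N` -/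
def wt (n N : ℕ) (y : ℝ) : ℝ :=
  ‖Rn n (32 * N) y‖ * ‖xz n (32 * N) y‖ ^ 7 * Real.exp (-(Real.pi * |y|)) * (1 + y ^ 2)

/-! ### non-vanishing -/

/-- local power series at the pole `j ∈ {0, 1}` -/
def ser (j e : ℕ) : PowerSeries ℚ :=
  (∏ b ∈ (Finset.range 2).erase j, iv ((b : ℚ) - j) ^ 5) * (PowerSeries.X + PowerSeries.C (-(j : ℚ))) ^ e

/-- local functional, values on monomials -/
def Fm (e : ℕ) : ℚ :=
  - ∑ j ∈ Finset.range 2, ∑ i ∈ Finset.Icc 1 5, (-1) ^ j *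
    (PowerSeries.coeff (5 - i) (ser j e) * (bsZ i (j : ℤ) + (-1) ^ i * bsZ i ((2 - j : ℕ) : ℤ)))

end

end Pool.Agent.H216R2.BB
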