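import Pool.Agent.H216R2.BB.E3Apre
import Pool.Agent.H216R2.BB.E1

open Polynomial Pool.Agent.H337R2

namespace Pool.Agent.H216R2.BB

theorem E3_A : ∃ K0 : ℝ, ∀ n p m : ℕ, p.Prime → p ≠ 2 → n < 20 * p → p ≤ n → 2 * m + 5 = 5 * n →
    ((((m : ℤ) * (1 - 5 * ((2 * n / p : ℕ) : ℤ)) +
      ∑ κ ∈ Kset n p, TT (eB p n κ - (1 - 5 * ((2 * n / p : ℕ) : ℤ))) : ℤ)) : ℝ) ≤ EA n p + K0 :=
  E3_A_of (fun hp hp2 f M hM hf hfM => E1_Kset_sum hp hp2 f M hM hf hfM)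
    (fun hp hr => E2_cnt hp hr)

end Pool.Agent.H216R2.BB
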