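import Pool.Agent.H216R2.BB.Defs

open Polynomial Pool.Agent.H337R2

namespace Pool.Agent.H216R2.BB

lemma TT_val1 (K : ℕ) : TT (5 - (1 - 5 * (K : ℤ))) = (T5 (K + 1) : ℤ) := by
  unfold TT T5
  rw [if_pos (by omega)]
  push_cast
  congr 1
  ring

lemma TT_val2 (K : ℕ) (hK : 1 ≤ K) : TT (0 - (1 - 5 * (K : ℤ))) = (T5 K : ℤ) := by
  unfold TT T5
  rw [if_pos (by omega)]
  push_cast
  congr 1
  ring

lemma T5_mono {a b : ℕ} (h : a ≤ b) : T5 a ≤ T5 b := by
  unfold T5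
  apply Nat.div_le_div_right
  nlinarith

/-- `E3_A` from the two statements of the task E1 -/
theorem E3_A_of
    (hE1 : ∀ {n p : ℕ} (_ : p.Prime) (_ : p ≠ 2) (f : ℕ → ℤ) (M : ℤ) (_ : 0 ≤ M)
      (_ : ∀ r < p, f r = f ((2 * n + p - r) % p)) (_ : ∀ r < p, f r ≤ M),
      2 * ∑ r ∈ Kset n p, f r ≤ ∑ r ∈ Finset.range p, f r + M)
    (hE2 : ∀ {n p r : ℕ} (_ : 0 < p) (_ : r < p),
      cnt p 0 (2 * n) r = if r ≤ 2 * n % p then 2 * n / p + 1 else 2 * n / p) :
    ∃ K0 : ℝ, ∀ n p m : ℕ, p.Prime → p ≠ 2 → n < 20 * p → p ≤ n → 2 * m + 5 = 5 * n →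
    ((((m : ℤ) * (1 - 5 * ((2 * n / p : ℕ) : ℤ)) +
      ∑ κ ∈ Kset n p, TT (eB p n κ - (1 - 5 * ((2 * n / p : ℕ) : ℤ))) : ℤ)) : ℝ) ≤ EA n p + K0 := by
  refine ⟨11000, ?_⟩
  intro n p m hp hp2 hn20 hpn hm
  have hp0 : 0 < p := hp.pos
  set K := 2 * n / p with hK
  set ρ := 2 * n % p with hρ
  have hdm : p * K + ρ = 2 * n := Nat.div_add_mod (2 * n) p
  have hρp : ρ < p := Nat.mod_lt _ hp0
  have hK1 : 1 ≤ K := by
    rw [hK, Nat.le_div_iff_mul_le hp0]; omega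
  have hK39 : K ≤ 39 := by
    have : K < 40 := by
      rw [hK, Nat.div_lt_iff_lt_mul hp0]; omega
    omega
  set f : ℕ → ℤ := fun r => if r ≤ ρ then (T5 (K + 1) : ℤ) else (T5 K : ℤ) with hf
  have hval : ∀ r < p, TT (eB p n r - (1 - 5 * (K : ℤ))) = f r := by
    intro r hr
    unfold eB
    rw [hE2 hp0 hr, hf]
    simp only [← hρ, ← hK]
    split_ifs with h
    · have e : 5 * (((K + 1 : ℕ) : ℤ) - (K : ℤ)) = 5 := by push_cast; ring
      rw [e]; exact TT_val1 K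
    · have e : 5 * ((K : ℤ) - (K : ℤ)) = 0 := by ring
      rw [e]; exact TT_val2 K hK1
  have hsum : ∑ κ ∈ Kset n p, TT (eB p n κ - (1 - 5 * (K : ℤ))) = ∑ κ ∈ Kset n p, f κ := by
    apply Finset.sum_congr rfl
    intro r hr
    apply hval
    unfold Kset at hr
    rw [Finset.mem_filter, Finset.mem_range] at hr
    exact hr.1
  rw [hsum]
  have hT : T5 (K + 1) ≤ 10000 := by
    refine (T5_mono (show K + 1 ≤ 40 by omega)).trans ?_
    unfold T5; norm_num
  have hTT : T5 K ≤ T5 (K + 1) := T5_mono (by omega)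
  have hrefl : ∀ r < p, f r = f ((2 * n + p - r) % p) := by
    intro r hr
    simp only [hf]
    by_cases h : r ≤ ρ
    · have e : (2 * n + p - r) % p = ρ - r := by
        have : 2 * n + p - r = (ρ - r) + p * (K + 1) := by
          rw [mul_add]; omega
        rw [this, Nat.add_mul_mod_self_left, Nat.mod_eq_of_lt (by omega)]
      rw [e, if_pos h, if_pos (by omega)]
    · have e : (2 * n + p - r) % p = ρ + p - r := by
        have : 2 * n + p - r = (ρ + p - r) + p * K := by omega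
        rw [this, Nat.add_mul_mod_self_left, Nat.mod_eq_of_lt (by omega)]
      rw [e, if_neg h, if_neg (by omega)]
  have hle : ∀ r < p, f r ≤ 10000 := by
    intro r _
    simp only [hf]
    split_ifs
    · exact_mod_cast hT
    · exact_mod_cast hTT.trans hT
  have key := hE1 hp hp2 f 10000 (by norm_num) hrefl hle
  have hrange : ∑ r ∈ Finset.range p, f r = ((ρ : ℤ) + 1) * T5 (K + 1) + ((p : ℤ) - ρ - 1) * T5 K := by
    have h1 : Finset.range p = Finset.range (ρ + 1) ∪ Finset.Ico (ρ + 1) p := by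
      ext x; simp only [Finset.mem_range, Finset.mem_union, Finset.mem_Ico]; omega
    have hd : Disjoint (Finset.range (ρ + 1)) (Finset.Ico (ρ + 1) p) := by
      rw [Finset.disjoint_left]; intro x; simp only [Finset.mem_range, Finset.mem_Ico]; omega
    rw [h1, Finset.sum_union hd]
    have e1 : ∑ r ∈ Finset.range (ρ + 1), f r = ∑ r ∈ Finset.range (ρ + 1), (T5 (K + 1) : ℤ) := by
      apply Finset.sum_congr rfl
      intro x hx
      rw [Finset.mem_range] at hx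
      simp only [hf]
      rw [if_pos (by omega)]
    have e2 : ∑ r ∈ Finset.Ico (ρ + 1) p, f r = ∑ r ∈ Finset.Ico (ρ + 1) p, (T5 K : ℤ) := by
      apply Finset.sum_congr rfl
      intro x hx
      rw [Finset.mem_Ico] at hx
      simp only [hf]
      rw [if_neg (by omega)]
    rw [e1, e2, Finset.sum_const, Finset.sum_const, Finset.card_range, Nat.card_Ico, nsmul_eq_mul,
      nsmul_eq_mul]
    have e3 : ((p - (ρ + 1) : ℕ) : ℤ) = (p : ℤ) - ρ - 1 := by
      rw [Nat.cast_sub (by omega)]; push_cast; ring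
    rw [e3]; push_cast; ring
  rw [hrange] at key
  have keyR : 2 * ((∑ κ ∈ Kset n p, f κ : ℤ) : ℝ) ≤
      ((ρ : ℝ) + 1) * T5 (K + 1) + ((p : ℝ) - ρ - 1) * T5 K + 10000 := by
    exact_mod_cast key
  have hdmR : (p : ℝ) * K + ρ = 2 * n := by exact_mod_cast hdm
  have hmR : 2 * (m : ℝ) + 5 = 5 * n := by exact_mod_cast hm
  have hTR : (T5 (K + 1) : ℝ) ≤ 10000 := by exact_mod_cast hT
  have hT0 : (0 : ℝ) ≤ T5 K := Nat.cast_nonneg _
  have hK39R : (K : ℝ) ≤ 39 := by exact_mod_cast hK39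
  unfold EA
  simp only [← hK]
  push_cast
  have hS : ((∑ κ ∈ Kset n p, (f κ : ℝ))) = ((∑ κ ∈ Kset n p, f κ : ℤ) : ℝ) := by push_cast; rfl
  rw [hS]
  set A : ℝ := (T5 (K + 1) : ℝ) with hA
  set B : ℝ := (T5 K : ℝ) with hB
  set S : ℝ := ((∑ κ ∈ Kset n p, f κ : ℤ) : ℝ) with hSS
  have hρR : (ρ : ℝ) = 2 * n - p * K := by linarith
  have hmR2 : (m : ℝ) = (5 * n - 5) / 2 := by linarith
  rw [hρR] at keyR
  rw [hmR2]
  nlinarith [keyR, hTR, hT0, hK39R]

end Pool.Agent.H216R2.BB
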