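import Pool.Agent.H216R2.BB.Defs

/-! Task E3B. -/

open Polynomial Pool.Agent.H337R2

namespace Pool.Agent.H216R2.BB

noncomputable section

lemma E3B_cnt {n p r : ℕ} (h1 : n < p) (h2 : p < 2 * n) (hr : r < p) :
    (cnt p 0 (2 * n) r : ℤ) = if r ≤ 2 * n - p then 2 else 1 := by
  have hp : 0 < p := by omega
  have hp' : (0 : ℤ) < p := by exact_mod_cast hp
  rw [cnt_eq p 0 (2 * n) r hp (by omega)]
  have e1 : ((0 : ℕ) : ℤ) - 1 - r = (p - 1 - r) + p * (-1) := by push_cast; ring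
  have e2 : (((0 : ℕ) : ℤ) - 1 - r) / p = -1 := by
    rw [e1, Int.add_mul_ediv_left _ _ hp'.ne', Int.ediv_eq_zero_of_lt (by omega) (by omega)]
    ring
  rw [e2]
  split_ifs with h
  · have e3 : (((2 * n : ℕ) : ℤ) - r) = (2 * n - r - p) + p * 1 := by push_cast; ring
    rw [e3, Int.add_mul_ediv_left _ _ hp'.ne', Int.ediv_eq_zero_of_lt (by omega) (by omega)]
    ring
  · rw [Int.ediv_eq_zero_of_lt (by push_cast; omega) (by push_cast; omega)]
    ring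

lemma E3B_div {n p : ℕ} (h1 : n < p) (h2 : p < 2 * n) : 2 * n / p = 1 :=
  Nat.div_eq_of_lt_le (by omega) (by omega)

/-- the terms of the sum -/
lemma E3B_term {n p κ : ℕ} (h1 : n < p) (h2 : p < 2 * n) (hκ : κ < p) :
    TT (eB p n κ + 5 * ((2 * n / p : ℕ) : ℤ)) = if κ ≤ 2 * n - p then 30 else 9 := by
  unfold eB
  rw [E3B_cnt h1 h2 hκ, E3B_div h1 h2]
  split_ifs <;> simp [TT]

lemma E3B_odd {n p : ℕ} (hp : p.Prime) (h8 : 8 ≤ n) (h1 : n < p) : p % 2 = 1 := by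
  rcases hp.eq_two_or_odd with h | h
  · omega
  · exact h

/-- elements of `Sf` -/
lemma E3B_Sf {n p κ : ℕ} (hodd : p % 2 = 1) (h1 : n < p) (h2 : p < 2 * n) (hκ : κ ∈ Sf n p) :
    κ < p ∧ ((κ ≤ 2 * n - p ∧ 2 * κ + 1 ≤ 2 * n - p) ∨ (2 * n - p < κ ∧ p < 2 * κ ∧ κ ≤ n)) := by
  unfold Sf at hκ
  simp only [Finset.mem_image, Finset.mem_filter, Finset.mem_range] at hκ
  obtain ⟨k, ⟨hk, hk2⟩, rfl⟩ := hκ
  unfold kap
  have hp : 0 < p := by omega
  have hlt : min (k % p) ((2 * n - k) % p) < p := lt_of_le_of_lt (min_le_left _ _) (Nat.mod_lt _ hp)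
  refine ⟨hlt, ?_⟩
  by_cases ha : k + p ≤ 2 * n
  · left
    have hk' : k % p = k := Nat.mod_eq_of_lt (by omega)
    have hk'' : (2 * n - k) % p = 2 * n - k - p := by
      rw [Nat.mod_eq_sub_mod (by omega), Nat.mod_eq_of_lt (by omega)]
    rw [hk', hk'']
    omega
  · by_cases hb : p ≤ k
    · left
      have hk' : k % p = k - p := by
        rw [Nat.mod_eq_sub_mod (by omega), Nat.mod_eq_of_lt (by omega)]
      have hk'' : (2 * n - k) % p = 2 * n - k := Nat.mod_eq_of_lt (by omega)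
      rw [hk', hk'']
      omega
    · right
      have hk' : k % p = k := Nat.mod_eq_of_lt (by omega)
      have hk'' : (2 * n - k) % p = 2 * n - k := Nat.mod_eq_of_lt (by omega)
      rw [hk', hk'']
      omega

lemma E3B_card1 {n p : ℕ} (hodd : p % 2 = 1) (h1 : n < p) (h2 : p < 2 * n) :
    2 * ((Sf n p).filter (fun κ => κ ≤ 2 * n - p)).card ≤ 2 * n - p + 1 := by
  have hsub : (Sf n p).filter (fun κ => κ ≤ 2 * n - p) ⊆ Finset.range ((2 * n - p + 1) / 2) := by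
    intro κ hκ
    rw [Finset.mem_filter] at hκ
    have h := (E3B_Sf hodd h1 h2 hκ.1).2
    rw [Finset.mem_range]
    omega
  have := Finset.card_le_card hsub
  rw [Finset.card_range] at this
  omega

lemma E3B_card2 {n p : ℕ} (hodd : p % 2 = 1) (h1 : n < p) (h2 : p < 2 * n) :
    ((Sf n p).filter (fun κ => ¬ κ ≤ 2 * n - p)).card + max (2 * n - p) (p / 2) ≤ n := by
  have hsub : (Sf n p).filter (fun κ => ¬ κ ≤ 2 * n - p) ⊆
      Finset.Ioc (max (2 * n - p) (p / 2)) n := by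
    intro κ hκ
    rw [Finset.mem_filter] at hκ
    have h := (E3B_Sf hodd h1 h2 hκ.1).2
    rw [Finset.mem_Ioc]
    omega
  have := Finset.card_le_card hsub
  rw [Nat.card_Ioc] at this
  omega

lemma E3B_card3 {n p : ℕ} (hodd : p % 2 = 1) (h1 : n < p) (h2 : p < 2 * n) :
    2 * (Df n p).card ≤ 3 * p - 4 * n := by
  have hsub : Df n p ⊆ Finset.Ico ((4 * n - p + 1) / 2) p := by
    intro k hk
    unfold Df at hk
    rw [Finset.mem_filter, Finset.mem_range] at hk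
    rw [Finset.mem_Ico]
    omega
  have := Finset.card_le_card hsub
  rw [Nat.card_Ico] at this
  omega

lemma E3B_sum {n p : ℕ} (hodd : p % 2 = 1) (h1 : n < p) (h2 : p < 2 * n) :
    ∑ κ ∈ Sf n p, TT (eB p n κ + 5 * ((2 * n / p : ℕ) : ℤ)) =
      30 * (((Sf n p).filter (fun κ => κ ≤ 2 * n - p)).card : ℤ) +
      9 * (((Sf n p).filter (fun κ => ¬ κ ≤ 2 * n - p)).card : ℤ) := by
  rw [Finset.sum_congr rfl (fun κ hκ => E3B_term h1 h2 (E3B_Sf hodd h1 h2 hκ).1),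
    Finset.sum_ite]
  simp only [Finset.sum_const, nsmul_eq_mul]
  ring

theorem E3_B : ∃ K0 : ℝ, ∀ n p m : ℕ, p.Prime → 8 ≤ n → n < p → p < 2 * n → 2 * m + 5 = 5 * n →
    (((-(5 * ((2 * n / p : ℕ) : ℤ)) * m + ∑ κ ∈ Sf n p, TT (eB p n κ + 5 * ((2 * n / p : ℕ) : ℤ)) +
        5 * ((Df n p).card : ℤ) : ℤ)) : ℝ) ≤ EB n p + K0 := by
  refine ⟨40, ?_⟩
  intro n p m hp h8 h1 h2 hm
  have hodd := E3B_odd hp h8 h1
  have hc1 := E3B_card1 hodd h1 h2
  have hc2 := E3B_card2 hodd h1 h2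
  have hc3 := E3B_card3 hodd h1 h2
  rw [E3B_sum hodd h1 h2, E3B_div h1 h2]
  set A := ((Sf n p).filter (fun κ => κ ≤ 2 * n - p)).card
  set B := ((Sf n p).filter (fun κ => ¬ κ ≤ 2 * n - p)).card
  set D := (Df n p).card
  have hp3 : 3 * p ≠ 4 * n := by
    intro h
    omega
  unfold EB
  split_ifs with h
  · have h3 : (2 * (-(5 * ((1 : ℕ) : ℤ)) * m + (30 * (A : ℤ) + 9 * (B : ℤ)) + 5 * (D : ℤ)) : ℤ) ≤
        17 * n - 12 * p + 80 := by
      push_cast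
      omega
    have h4 : ((2 * (-(5 * ((1 : ℕ) : ℤ)) * m + (30 * (A : ℤ) + 9 * (B : ℤ)) + 5 * (D : ℤ)) : ℤ) : ℝ) ≤
        ((17 * n - 12 * p + 80 : ℤ) : ℝ) := by exact_mod_cast h3
    push_cast at h4 ⊢
    linarith
  · have h3 : (2 * (-(5 * ((1 : ℕ) : ℤ)) * m + (30 * (A : ℤ) + 9 * (B : ℤ)) + 5 * (D : ℤ)) : ℤ) ≤
        33 * n - 24 * p + 80 := by
      push_cast
      omega
    have h4 : ((2 * (-(5 * ((1 : ℕ) : ℤ)) * m + (30 * (A : ℤ) + 9 * (B : ℤ)) + 5 * (D : ℤ)) : ℤ) : ℝ) ≤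
        ((33 * n - 24 * p + 80 : ℤ) : ℝ) := by exact_mod_cast h3
    push_cast at h4 ⊢
    linarith

end

end Pool.Agent.H216R2.BB
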