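import Pool.Agent.H216R2.BB.Defs

/-! # E3_C: the class sum for `2n < p < 4n` -/

open Polynomial Pool.Agent.H337R2

namespace Pool.Agent.H216R2.BB

theorem E3_C : ∃ K0 : ℝ, ∀ n p m : ℕ, p.Prime → 8 ≤ n → 2 * n < p → p < 4 * n →
    (((-(5 * ((2 * n / p : ℕ) : ℤ)) * m + ∑ κ ∈ Sf n p, TT (eB p n κ + 5 * ((2 * n / p : ℕ) : ℤ)) +
        5 * ((Df n p).card : ℤ) : ℤ)) : ℝ) ≤ EC n p + K0 := by
  refine ⟨10, ?_⟩
  intro n p m hp hn h2 h4
  have hdiv : 2 * n / p = 0 := Nat.div_eq_of_lt h2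
  have hSf : Sf n p = ∅ := by
    unfold Sf
    rw [Finset.image_eq_empty, Finset.filter_eq_empty_iff]
    intro k hk
    rw [Finset.mem_range] at hk
    omega
  have hDf : (Df n p).card ≤ 2 * n - p / 2 + 1 := by
    have hsub : Df n p ⊆ Finset.Icc (p / 2) (2 * n) := by
      intro k hk
      unfold Df at hk
      rw [Finset.mem_filter, Finset.mem_range] at hk
      rw [Finset.mem_Icc]
      omega
    refine (Finset.card_le_card hsub).trans ?_
    rw [Nat.card_Icc]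
    omega
  rw [hSf, hdiv]
  unfold EC
  have h5 : 2 * ((Df n p).card : ℤ) ≤ 4 * n - p + 3 := by omega
  have h6 : (2 : ℝ) * ((Df n p).card : ℝ) ≤ 4 * n - p + 3 := by exact_mod_cast h5
  push_cast
  simp only [Finset.sum_empty]
  linarith

end Pool.Agent.H216R2.BB
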