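import Pool.Agent.H216R2.BB.E4a
import Pool.Agent.H216R2.BB.D3
import Pool.Agent.H216R2.BB.D5
import Pool.Agent.H216R2.BB.E3A
import Pool.Agent.H216R2.BB.E3B
import Pool.Agent.H216R2.BB.E3C

/-! Task E4 (helper394): p-adic size of the determinant, all primes `p > n/20`. -/

open Polynomial Pool.Agent.H337R2

namespace Pool.Agent.H216R2.BB

noncomputable section

/-- p-adic size of the determinant, all primes `p > n/20` -/
theorem E4_padic : ∃ K0 : ℝ, 0 ≤ K0 ∧ ∀ n m : ℕ, 8 ≤ n → 2 * m + 5 = 5 * n → ∀ p : ℕ, p.Prime → n < 20 * p →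
    5 * n < p ^ 2 → ∀ (q : ℕ) (u : ℕ → ℚ), UInt q u →
    ((padicNorm p ((q : ℚ) ^ m * DET n u m) : ℚ) : ℝ) ≤
      if p < 4 * n then (p : ℝ) ^ (EW n p + K0) else 1 := by
  refine E4_of ?_ ?_ E3_A E3_B E3_C
  · intro n p _ hodd hn hp2 q u hu m μ
    exact D3_det_padic hodd hn hp2 q u hu m μ
  · intro n p _ hodd hn hp1 hp2 q u hu m hm
    exact D5_det_defect hodd hn hp1 hp2 q u hu m hm

end

end Pool.Agent.H216R2.BB
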