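import Pool.Agent.H216R2.BB.Defs

/-! Task E4 (helper394): p-adic size of the determinant, all primes `p > n/20`;
version with the results D3, D5, E3 as hypotheses. -/

open Polynomial Pool.Agent.H337R2

namespace Pool.Agent.H216R2.BB

noncomputable section

/-- the statement of `D3_det_padic` -/
def E4_D3S : Prop := ∀ (n p : ℕ) [Fact p.Prime], p ≠ 2 → 1 ≤ n → 4 * n < p ^ 2 → ∀ (q : ℕ)
    (u : ℕ → ℚ), UInt q u → ∀ (m : ℕ) (μ : ℤ),
    padicNorm p ((q : ℚ) ^ m * DET n u m) ≤ (p : ℚ) ^ (m * μ + ∑ κ ∈ Kset n p, TT (eB p n κ - μ))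

/-- the statement of `D5_det_defect` -/
def E4_D5S : Prop := ∀ (n p : ℕ) [Fact p.Prime], p ≠ 2 → 8 ≤ n → n < p → 4 * n < p ^ 2 →
    ∀ (q : ℕ) (u : ℕ → ℚ), UInt q u → ∀ m : ℕ, 2 * m + 5 ≤ 5 * n →
    padicNorm p ((q : ℚ) ^ m * DET n u m) ≤
      (p : ℚ) ^ (-(5 * ((2 * n / p : ℕ) : ℤ)) * m + ∑ κ ∈ Sf n p, TT (eB p n κ + 5 * ((2 * n / p : ℕ) : ℤ)) +
        5 * ((Df n p).card : ℤ))

theorem E4_to_rpow {p : ℕ} (hp : 1 ≤ p) {x : ℚ} {z : ℤ} {E : ℝ} (h : x ≤ (p : ℚ) ^ z)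
    (hz : (z : ℝ) ≤ E) : (x : ℝ) ≤ (p : ℝ) ^ E := by
  have hp1 : (1 : ℝ) ≤ (p : ℝ) := by exact_mod_cast hp
  have h1 : (x : ℝ) ≤ (((p : ℚ) ^ z : ℚ) : ℝ) := by exact_mod_cast h
  refine h1.trans ?_
  rw [Rat.cast_zpow, Rat.cast_natCast, ← Real.rpow_intCast]
  exact Real.rpow_le_rpow_of_exponent_le hp1 hz

theorem E4_of (hD3 : E4_D3S) (hD5 : E4_D5S)
    (hA : ∃ K0 : ℝ, ∀ n p m : ℕ, p.Prime → p ≠ 2 → n < 20 * p → p ≤ n → 2 * m + 5 = 5 * n →
      ((((m : ℤ) * (1 - 5 * ((2 * n / p : ℕ) : ℤ)) +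
        ∑ κ ∈ Kset n p, TT (eB p n κ - (1 - 5 * ((2 * n / p : ℕ) : ℤ))) : ℤ)) : ℝ) ≤ EA n p + K0)
    (hB : ∃ K0 : ℝ, ∀ n p m : ℕ, p.Prime → 8 ≤ n → n < p → p < 2 * n → 2 * m + 5 = 5 * n →
      (((-(5 * ((2 * n / p : ℕ) : ℤ)) * m + ∑ κ ∈ Sf n p, TT (eB p n κ + 5 * ((2 * n / p : ℕ) : ℤ)) +
        5 * ((Df n p).card : ℤ) : ℤ)) : ℝ) ≤ EB n p + K0)
    (hC : ∃ K0 : ℝ, ∀ n p m : ℕ, p.Prime → 8 ≤ n → 2 * n < p → p < 4 * n →
      (((-(5 * ((2 * n / p : ℕ) : ℤ)) * m + ∑ κ ∈ Sf n p, TT (eB p n κ + 5 * ((2 * n / p : ℕ) : ℤ)) +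
        5 * ((Df n p).card : ℤ) : ℤ)) : ℝ) ≤ EC n p + K0) :
    ∃ K0 : ℝ, 0 ≤ K0 ∧ ∀ n m : ℕ, 8 ≤ n → 2 * m + 5 = 5 * n → ∀ p : ℕ, p.Prime → n < 20 * p →
    5 * n < p ^ 2 → ∀ (q : ℕ) (u : ℕ → ℚ), UInt q u →
    ((padicNorm p ((q : ℚ) ^ m * DET n u m) : ℚ) : ℝ) ≤
      if p < 4 * n then (p : ℝ) ^ (EW n p + K0) else 1 := by
  obtain ⟨KA, hKA⟩ := hA
  obtain ⟨KB, hKB⟩ := hB
  obtain ⟨KC, hKC⟩ := hC
  refine ⟨max (max KA KB) (max KC 0), (le_max_right KC 0).trans (le_max_right _ _), ?_⟩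
  intro n m hn hm p hp hnp hp2 q u hu
  have : Fact p.Prime := ⟨hp⟩
  have hp1 : 1 ≤ p := hp.one_lt.le
  have hodd : p ≠ 2 := by
    rintro rfl
    omega
  by_cases h1 : p ≤ n
  · -- p ≤ n
    rw [if_pos (by omega)]
    have h3 := hD3 n p hodd (by omega) (by omega) q u hu m (1 - 5 * ((2 * n / p : ℕ) : ℤ))
    refine E4_to_rpow hp1 h3 ?_
    have h4 := hKA n p m hp hodd hnp h1 hm
    refine h4.trans ?_
    rw [EW, if_pos h1]
    have : KA ≤ max (max KA KB) (max KC 0) := (le_max_left KA KB).trans (le_max_left _ _)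
    linarith
  · have h3 := hD5 n p hodd hn (by omega) (by omega) q u hu m (by omega)
    by_cases h2 : p < 2 * n
    · rw [if_pos (by omega)]
      refine E4_to_rpow hp1 h3 ?_
      have h4 := hKB n p m hp hn (by omega) h2 hm
      refine h4.trans ?_
      rw [EW, if_neg h1, if_pos h2]
      have : KB ≤ max (max KA KB) (max KC 0) := (le_max_right KA KB).trans (le_max_left _ _)
      linarith
    · have h2n : 2 * n < p := by
        rcases Nat.lt_or_ge (2 * n) p with h | h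
        · exact h
        · exfalso
          have h5 : p = 2 * n := by omega
          have h6 : 2 ∣ p := ⟨n, h5⟩
          rcases (Nat.dvd_prime hp).1 h6 with h7 | h7
          · omega
          · exact hodd h7.symm
      by_cases h4n : p < 4 * n
      · rw [if_pos h4n]
        refine E4_to_rpow hp1 h3 ?_
        have h4 := hKC n p m hp hn h2n h4n
        refine h4.trans ?_
        rw [EW, if_neg h1, if_neg h2, if_pos h4n]
        have : KC ≤ max (max KA KB) (max KC 0) := (le_max_left KC 0).trans (le_max_right _ _)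
        linarith
      · rw [if_neg h4n]
        have h20 : 2 * n / p = 0 := Nat.div_eq_of_lt (by omega)
        have hSf : Sf n p = ∅ := by
          rw [Sf, Finset.image_eq_empty, Finset.filter_eq_empty_iff]
          intro k hk
          rw [Finset.mem_range] at hk
          omega
        have hDf : Df n p = ∅ := by
          rw [Df, Finset.filter_eq_empty_iff]
          intro k hk
          rw [Finset.mem_range] at hk
          omega
        rw [h20, hSf, hDf] at h3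
        have h4 : padicNorm p ((q : ℚ) ^ m * DET n u m) ≤ 1 := by
          simpa using h3
        exact_mod_cast h4

end

end Pool.Agent.H216R2.BB
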