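import Pool.Agent.H216R2.BB.Defs
import Pool.Agent.H336R2.HD.F1

/-!
# F1: sums over primes (`F1_id`, `F2_cell`)
-/

open Filter Topology Finset

namespace Pool.Agent.H216R2.BB

theorem F1_id (lo hi : ℚ) (h0 : 0 < lo) (h1 : lo ≤ hi) (h2 : hi ≤ 12) :
    Tendsto (fun n : ℕ => (∑ p ∈ PS lo hi n, (p : ℝ) * Real.log p) / (n : ℝ) ^ 2) atTop
      (𝓝 ((((hi ^ 2 - lo ^ 2) / 2 : ℚ)) : ℝ)) := by
  have h := Pool.Agent.H336R2.HD.M_tendsto (lo : ℝ) (hi : ℝ) (by exact_mod_cast h0)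
    (by exact_mod_cast h1) (by exact_mod_cast h2)
  have e : ((((hi ^ 2 - lo ^ 2) / 2 : ℚ)) : ℝ) = ((hi : ℝ) ^ 2 - (lo : ℝ) ^ 2) / 2 := by
    push_cast
    ring
  rw [e]
  exact h

theorem F1_mem {a b : ℝ} {n p : ℕ} (h : p ∈ PS a b n) : a * n < p ∧ (p : ℝ) < b * n := by
  classical
  unfold PS Pool.Agent.H336R2.HD.PS at h
  rw [mem_filter] at h
  exact h.2.2

/-- the quotient is constant on the cell -/
theorem F1_cell_div {K n p : ℕ} (hK : 2 ≤ K) (h : p ∈ cell K n) : 2 * n / p = K := by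
  obtain ⟨h1, h2⟩ := F1_mem h
  push_cast at h1 h2
  have hK0 : (0 : ℝ) < K := by
    have : 0 < K := by omega
    exact_mod_cast this
  have h1' : 2 * (n : ℝ) < (K + 1) * p := by
    rw [div_mul_eq_mul_div, div_lt_iff₀ (by positivity)] at h1
    linarith
  have h2' : (K : ℝ) * p < 2 * n := by
    rw [div_mul_eq_mul_div, lt_div_iff₀ hK0] at h2
    linarith
  have a1 : 2 * n < (K + 1) * p := by exact_mod_cast h1'
  have a2 : K * p < 2 * n := by exact_mod_cast h2'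
  have hp : 0 < p := by
    rcases Nat.eq_zero_or_pos p with rfl | hp
    · omega
    · exact hp
  apply Nat.div_eq_of_lt_le
  · exact a2.le
  · exact a1

theorem F2_cell (K : ℕ) (hK : 2 ≤ K) (hK2 : K ≤ 39) :
    Tendsto (fun n : ℕ => (∑ p ∈ cell K n, EA n p * Real.log p) / (n : ℝ) ^ 2)
      atTop (𝓝 ((LAc K : ℚ) : ℝ)) := by
  have hKq : (2 : ℚ) ≤ K := by exact_mod_cast hK
  have hK0 : (0 : ℚ) < K := by linarith
  have lo0 : (0 : ℚ) < 2 / ((K : ℚ) + 1) := by positivity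
  have lohi : (2 / ((K : ℚ) + 1) : ℚ) ≤ 2 / (K : ℚ) :=
    div_le_div_of_nonneg_left (by norm_num) hK0 (by linarith)
  have hi12 : (2 / (K : ℚ) : ℚ) ≤ 12 := by
    rw [div_le_iff₀ hK0]
    linarith
  have hc := (Pool.Agent.H336R2.HD.F1_const (2 / ((K : ℚ) + 1)) (2 / (K : ℚ)) lo0 lohi hi12).const_mul
    (-(5 * (K : ℝ) - 1) * (5 / 2) + (T5 (K + 1) : ℝ) - (T5 K : ℝ))
  have hi := (F1_id (2 / ((K : ℚ) + 1)) (2 / (K : ℚ)) lo0 lohi hi12).const_mul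
    (-((K : ℝ) / 2) * (T5 (K + 1) : ℝ) + ((K : ℝ) + 1) / 2 * (T5 K : ℝ))
  have h := hc.add hi
  have e : ((LAc K : ℚ) : ℝ) =
      (-(5 * (K : ℝ) - 1) * (5 / 2) + (T5 (K + 1) : ℝ) - (T5 K : ℝ)) *
        (((2 / (K : ℚ) - 2 / ((K : ℚ) + 1) : ℚ)) : ℝ) +
      (-((K : ℝ) / 2) * (T5 (K + 1) : ℝ) + ((K : ℝ) + 1) / 2 * (T5 K : ℝ)) *
        (((((2 / (K : ℚ)) ^ 2 - (2 / ((K : ℚ) + 1)) ^ 2) / 2 : ℚ)) : ℝ) := by
    unfold LAc
    push_cast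
    ring
  rw [e]
  refine h.congr fun n => ?_
  have key : ∑ p ∈ cell K n, EA n p * Real.log p =
      (-(5 * (K : ℝ) - 1) * (5 / 2) + (T5 (K + 1) : ℝ) - (T5 K : ℝ)) *
        (∑ p ∈ cell K n, (n : ℝ) * Real.log p) +
      (-((K : ℝ) / 2) * (T5 (K + 1) : ℝ) + ((K : ℝ) + 1) / 2 * (T5 K : ℝ)) *
        (∑ p ∈ cell K n, (p : ℝ) * Real.log p) := by
    rw [mul_sum, mul_sum, ← sum_add_distrib]
    refine sum_congr rfl fun p hp => ?_
    have hd := F1_cell_div hK hp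
    unfold EA
    rw [hd]
    ring
  rw [key]
  ring

end Pool.Agent.H216R2.BB
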