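import Pool.Agent.H216R2.BB.Defs
import Pool.Agent.H336R2.HD.F1

/-!
# `F2_B`, `F2_C` (helper601)
-/

open Filter Topology

namespace Pool.Agent.H216R2.BB

namespace F2aux

/-- `∑ p log p` (the same as `F1_id`) -/
theorem id_lim (lo hi : ℚ) (h0 : 0 < lo) (h1 : lo ≤ hi) (h2 : hi ≤ 12) :
    Tendsto (fun n : ℕ => (∑ p ∈ PS lo hi n, (p : ℝ) * Real.log p) / (n : ℝ) ^ 2) atTop
      (𝓝 ((((hi ^ 2 - lo ^ 2) / 2 : ℚ)) : ℝ)) := by
  have hc := (Pool.Agent.H336R2.HD.F1_const lo hi h0 h1 h2).const_mul 12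
  have ht := Pool.Agent.H336R2.HD.F1_tent 12 1 le_rfl lo hi h0 h1 h2
  have hs := hc.sub ht
  have hlim : (12 : ℝ) * ((hi - lo : ℚ) : ℝ) - ((Pool.Agent.H336R2.HD.It 12 1 lo hi : ℚ) : ℝ)
      = (((hi ^ 2 - lo ^ 2) / 2 : ℚ) : ℝ) := by
    have h3 : Pool.Agent.H336R2.HD.It 12 1 lo hi = 12 * (hi - lo) - (hi ^ 2 - lo ^ 2) / 2 := by
      unfold Pool.Agent.H336R2.HD.It
      have h4 : min hi (((12 : ℕ) : ℚ) / ((1 : ℕ) : ℚ)) = hi := by
        apply min_eq_left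
        push_cast
        linarith
      simp only [h4, max_eq_right h1]
      push_cast
      ring
    rw [h3]
    push_cast
    ring
  rw [hlim] at hs
  refine hs.congr fun n => ?_
  rw [← mul_div_assoc, ← sub_div, Finset.mul_sum, ← Finset.sum_sub_distrib]
  congr 1
  apply Finset.sum_congr rfl
  intro p hp
  have hp2 : p < 12 * n := by
    classical
    unfold PS Pool.Agent.H336R2.HD.PS at hp
    have h5 := (Finset.mem_filter.1 hp).2.2.2
    have h6 : (hi : ℝ) ≤ 12 := by exact_mod_cast h2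
    have h7 : (p : ℝ) < ((12 * n : ℕ) : ℝ) := by
      push_cast
      exact h5.trans_le (mul_le_mul_of_nonneg_right h6 (by positivity))
    exact_mod_cast h7
  have h8 : Pool.Agent.H336R2.HD.tn (12 * n) 1 p = 12 * (n : ℝ) - p := by
    unfold Pool.Agent.H336R2.HD.tn
    rw [one_mul, Nat.cast_sub hp2.le]
    push_cast
    ring
  rw [h8]
  ring

theorem const_lim (lo hi : ℚ) (h0 : 0 < lo) (h1 : lo ≤ hi) (h2 : hi ≤ 12) :
    Tendsto (fun n : ℕ => (∑ p ∈ PS lo hi n, (n : ℝ) * Real.log p) / (n : ℝ) ^ 2) atTop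
      (𝓝 (((hi - lo : ℚ)) : ℝ)) :=
  Pool.Agent.H336R2.HD.F1_const lo hi h0 h1 h2

theorem EB_eq (n p : ℕ) : EB n p = 33 / 2 * n - 12 * p - 2 * tn (4 * n) 3 p := by
  unfold EB tn Pool.Agent.H336R2.HD.tn
  split_ifs with h
  · rw [Nat.cast_sub h.le]
    push_cast
    ring
  · rw [Nat.sub_eq_zero_of_le (not_lt.1 h)]
    push_cast
    ring

end F2aux

open F2aux

theorem F2_B : Tendsto (fun n : ℕ => (∑ p ∈ PS 1 2 n, EB n p * Real.log p) / (n : ℝ) ^ 2) atTop (𝓝 (-11 / 6)) := by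
  have hc := (const_lim 1 2 (by norm_num) (by norm_num) (by norm_num)).const_mul (33 / 2)
  have hi := (id_lim 1 2 (by norm_num) (by norm_num) (by norm_num)).const_mul 12
  have ht := (Pool.Agent.H336R2.HD.F1_tent 4 3 (by norm_num) 1 2 (by norm_num) (by norm_num)
    (by norm_num)).const_mul 2
  have hs := (hc.sub hi).sub ht
  have h3 : Pool.Agent.H336R2.HD.It 4 3 1 2 = 1 / 6 := by
    unfold Pool.Agent.H336R2.HD.It
    norm_num [max_def, min_def]
  have hlim : (33 / 2 : ℝ) * (((2 - 1 : ℚ)) : ℝ) - 12 * ((((2 ^ 2 - 1 ^ 2) / 2 : ℚ)) : ℝ)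
      - 2 * ((Pool.Agent.H336R2.HD.It 4 3 1 2 : ℚ) : ℝ) = -11 / 6 := by
    rw [h3]
    push_cast
    norm_num
  rw [hlim] at hs
  refine hs.congr fun n => ?_
  simp only [Rat.cast_one, Rat.cast_ofNat]
  rw [← mul_div_assoc, ← mul_div_assoc, ← mul_div_assoc, ← sub_div, ← sub_div, Finset.mul_sum,
    Finset.mul_sum, Finset.mul_sum, ← Finset.sum_sub_distrib, ← Finset.sum_sub_distrib]
  congr 1
  apply Finset.sum_congr rfl
  intro p _
  rw [EB_eq]
  ring

theorem F2_C : Tendsto (fun n : ℕ => (∑ p ∈ PS 2 4 n, EC n p * Real.log p) / (n : ℝ) ^ 2) atTop (𝓝 5) := by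
  have hc := (const_lim 2 4 (by norm_num) (by norm_num) (by norm_num)).const_mul 10
  have hi := (id_lim 2 4 (by norm_num) (by norm_num) (by norm_num)).const_mul (5 / 2)
  have hs := hc.sub hi
  have hlim : (10 : ℝ) * (((4 - 2 : ℚ)) : ℝ) - 5 / 2 * ((((4 ^ 2 - 2 ^ 2) / 2 : ℚ)) : ℝ) = 5 := by
    push_cast
    norm_num
  rw [hlim] at hs
  refine hs.congr fun n => ?_
  simp only [Rat.cast_ofNat]
  rw [← mul_div_assoc, ← mul_div_assoc, ← sub_div, Finset.mul_sum,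
    Finset.mul_sum, ← Finset.sum_sub_distrib]
  congr 1
  apply Finset.sum_congr rfl
  intro p _
  unfold EC
  ring

end Pool.Agent.H216R2.BB
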