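import Pool.Agent.H216R2.BB.Defs
import Pool.Agent.H336R2.HD.F1

/-! `F2_U` and `F3_numeric`. -/

open Filter Topology

namespace Pool.Agent.H216R2.BB

noncomputable section

theorem F2_U : Tendsto (fun n : ℕ => (∑ p ∈ PS (1 / 20) 5 n, (∑ j ∈ J, tn (5 * n) j p) * Real.log p) / (n : ℝ) ^ 2)
    atTop (𝓝 (LU : ℝ)) := by
  have T : ∀ j ∈ J, Tendsto (fun n : ℕ => (∑ p ∈ PS (1 / 20) 5 n, tn (5 * n) j p * Real.log p) / (n : ℝ) ^ 2) atTop
      (𝓝 ((Pool.Agent.H336R2.HD.It 5 j (1 / 20) 5 : ℚ) : ℝ)) := by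
    intro j hj
    have h := Pool.Agent.H336R2.HD.F1_tent 5 j (Finset.mem_Icc.mp hj).1 (1 / 20) 5 (by norm_num) (by norm_num)
      (by norm_num)
    have e1 : (((1 / 20 : ℚ)) : ℝ) = 1 / 20 := by norm_num
    have e2 : (((5 : ℚ)) : ℝ) = 5 := by norm_num
    rw [e1, e2] at h
    exact h
  have H := tendsto_finset_sum J T
  unfold LU
  rw [Rat.cast_sum]
  refine H.congr ?_
  intro n
  rw [← Finset.sum_div]
  congr 1
  rw [Finset.sum_comm]
  apply Finset.sum_congr rfl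
  intro p _
  rw [Finset.sum_mul]

end

theorem F3_numeric : ∑ K ∈ Finset.Icc 2 39, LAc K + LU ≤ 16739 / 1000 := by
  decide +kernel

end Pool.Agent.H216R2.BB
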