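import Pool.Agent.H216R2.BB.Defs
import Pool.Agent.H336R2.HD.G1a

/-! Comparison of `R ZZ²` on the line `Re t = T` with the product over all half integers. -/

open Polynomial Pool.Agent.H337R2

namespace Pool.Agent.H216R2.BB

noncomputable section

lemma G1r_nsq (T : ℕ) (y a : ℝ) : ‖zt T y + (a : ℂ)‖ ^ 2 = ((T : ℝ) + a) ^ 2 + y ^ 2 := by
  have h : zt T y + (a : ℂ) = (((T : ℝ) + a : ℝ) : ℂ) + (y : ℂ) * Complex.I := by
    unfold zt
    push_cast
    ring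
  rw [h, Complex.sq_norm, Complex.normSq_add_mul_I]

lemma G1r_PP (n T : ℕ) (y : ℝ) :
    ‖aeval (zt T y) (PPn n)‖ ^ 2 =
      (((2 * n).factorial : ℝ) ^ 5) ^ 2 * (4 * (((T : ℝ) + n) ^ 2 + y ^ 2)) := by
  have h : aeval (zt T y) (PPn n) = (((2 * n).factorial : ℝ) ^ 5 : ℝ) * (2 * (zt T y + ((n : ℝ) : ℂ))) := by
    unfold PPn
    simp only [map_mul, map_add, aeval_X, aeval_C, eq_ratCast]
    push_cast
    ring
  rw [h, norm_mul, norm_mul, mul_pow, mul_pow, G1r_nsq, Complex.norm_real, Real.norm_eq_abs, sq_abs]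
  norm_num

lemma G1r_QQ (n T : ℕ) (y : ℝ) :
    ‖aeval (zt T y) (QQ (sB n) m5)‖ ^ 2 =
      ∏ k ∈ Finset.range (2 * n + 1), (((T : ℝ) + k) ^ 2 + y ^ 2) ^ 5 := by
  unfold QQ
  simp only [map_prod, map_pow, map_add, aeval_X, aeval_C, norm_prod, norm_pow, map_natCast]
  unfold sB
  rw [← Finset.prod_pow]
  refine Finset.prod_congr rfl fun k _ => ?_
  have := G1r_nsq T y (k : ℝ)
  rw [← this, ← pow_mul, ← pow_mul]
  simp [m5]

lemma G1r_ZZ (n T : ℕ) (y : ℝ) :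
    ‖aeval (xz n T y) (ZZ n T)‖ ^ 2 =
      (∏ l ∈ Finset.range T, (((T : ℝ) - l - 1 / 2) ^ 2 + y ^ 2)) *
      ∏ l ∈ Finset.range T, (((T : ℝ) + 2 * n + l + 1 / 2) ^ 2 + y ^ 2) := by
  unfold ZZ
  rw [map_prod, norm_prod, ← Finset.prod_pow, ← Finset.prod_mul_distrib]
  refine Finset.prod_congr rfl fun l _ => ?_
  have h : aeval (xz n T y) (X - C (xh n l) : ℚ[X]) =
      (zt T y + ((-(l : ℝ) - 1 / 2 : ℝ) : ℂ)) * (zt T y + ((2 * n + l + 1 / 2 : ℝ) : ℂ)) := by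
    simp only [map_sub, aeval_X, aeval_C, eq_ratCast]
    unfold xz xh
    push_cast
    ring
  rw [h, norm_mul, mul_pow, G1r_nsq, G1r_nsq]
  congr 1 <;> ring

lemma G1r_fac (a y : ℝ) (ha : a ≠ 0) : a ^ 2 + y ^ 2 = (a ^ 2 + 0 ^ 2) * (1 + y ^ 2 / a ^ 2) := by
  have : a ^ 2 ≠ 0 := pow_ne_zero 2 ha
  field_simp
  ring

/-- comparison with the product over all half integers -/
theorem G1_ratio {n T : ℕ} (hn : 1 ≤ n) (hT : 1 ≤ T) (y : ℝ) (M : ℕ) (hM : 2 * T + 2 * n ≤ M) :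
    (‖Rn n T y‖ * ‖aeval (xz n T y) (ZZ n T)‖ ^ 2 * Real.exp (-(Real.pi * |y|))) ^ 2 *
      ((∏ m ∈ Finset.Ioc T (T + 2 * n), (1 + y ^ 2 / ((m : ℝ) - 1 / 2) ^ 2) ^ 7) *
       (∏ m ∈ Finset.Ioc (2 * T + 2 * n) M, (1 + y ^ 2 / ((m : ℝ) - 1 / 2) ^ 2) ^ 2)) ≤
    (‖Rn n T 0‖ * ‖aeval (xz n T 0) (ZZ n T)‖ ^ 2) ^ 2 * (1 + y ^ 2) := by
  have hT' : (1 : ℝ) ≤ T := by exact_mod_cast hT
  set w : ℕ → ℝ := fun m => 1 + y ^ 2 / ((m : ℝ) - 1 / 2) ^ 2 with hw
  have hw' : ∀ m : ℕ, 1 + y ^ 2 / ((m : ℝ) - 1 / 2) ^ 2 = w m := fun m => rfl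
  have hwpos : ∀ m, 0 < w m := fun m => by simp only [hw]; positivity
  simp only [hw', Finset.prod_pow]
  set W1 := ∏ m ∈ Finset.Ioc 0 T, w m with hW1
  set W2 := ∏ m ∈ Finset.Ioc T (T + 2 * n), w m with hW2
  set W3 := ∏ m ∈ Finset.Ioc (T + 2 * n) (2 * T + 2 * n), w m with hW3
  set W4 := ∏ m ∈ Finset.Ioc (2 * T + 2 * n) M, w m with hW4
  have hpos : ∀ s : Finset ℕ, 0 < ∏ m ∈ s, w m := fun s =>
    Finset.prod_pos fun m _ => hwpos m
  have hHM : HM y M = W1 * W2 * W3 * W4 := by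
    have h1 : HM y M = ∏ m ∈ Finset.Ioc 0 M, w m := Pool.Agent.H336R2.HD.G1a_HM y M
    rw [h1, hW1, hW2, hW3, hW4,
      Finset.prod_Ioc_consecutive _ (by omega) (by omega),
      Finset.prod_Ioc_consecutive _ (by omega) (by omega),
      Finset.prod_Ioc_consecutive _ (by omega) (by omega)]
  have hW1p : 0 < W1 := hpos _
  have hW2p : 0 < W2 := hpos _
  have hW3p : 0 < W3 := hpos _
  have hW4p : 0 < W4 := hpos _
  have hE : Real.exp (-(Real.pi * |y|)) ^ 2 * (W1 * W2 * W3 * W4) ^ 2 ≤ 1 := by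
    have h1 := HM_le y M
    rw [hHM] at h1
    have h2 : 0 ≤ W1 * W2 * W3 * W4 := by positivity
    have h3 : (W1 * W2 * W3 * W4) ^ 2 ≤ Real.exp (Real.pi * |y|) ^ 2 :=
      pow_le_pow_left₀ h2 h1 2
    calc Real.exp (-(Real.pi * |y|)) ^ 2 * (W1 * W2 * W3 * W4) ^ 2
        ≤ Real.exp (-(Real.pi * |y|)) ^ 2 * Real.exp (Real.pi * |y|) ^ 2 :=
          mul_le_mul_of_nonneg_left h3 (by positivity)
      _ = 1 := by
          rw [← mul_pow, ← Real.exp_add, neg_add_cancel, Real.exp_zero, one_pow]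
  -- the zone polynomial
  have hZ : ‖aeval (xz n T y) (ZZ n T)‖ ^ 2 = ‖aeval (xz n T 0) (ZZ n T)‖ ^ 2 * (W1 * W3) := by
    rw [G1r_ZZ, G1r_ZZ]
    have h1 : ∏ l ∈ Finset.range T, (((T : ℝ) - l - 1 / 2) ^ 2 + y ^ 2) =
        (∏ l ∈ Finset.range T, (((T : ℝ) - l - 1 / 2) ^ 2 + 0 ^ 2)) * W1 := by
      have h2 : W1 = ∏ l ∈ Finset.range T, w (T - l) := by
        rw [hW1]
        refine Finset.prod_nbij' (fun m => T - m) (fun l => T - l) ?_ ?_ ?_ ?_ ?_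
        · intro m hm; rw [Finset.mem_Ioc] at hm; rw [Finset.mem_range]; omega
        · intro l hl; rw [Finset.mem_range] at hl; rw [Finset.mem_Ioc]; omega
        · intro m hm; rw [Finset.mem_Ioc] at hm; omega
        · intro l hl; rw [Finset.mem_range] at hl; omega
        · intro m hm
          rw [Finset.mem_Ioc] at hm
          congr 1
          omega
      rw [h2, ← Finset.prod_mul_distrib]
      refine Finset.prod_congr rfl fun l hl => ?_
      rw [Finset.mem_range] at hl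
      have h3 : ((T - l : ℕ) : ℝ) = (T : ℝ) - l := Nat.cast_sub hl.le
      have h4 : (l : ℝ) + 1 ≤ T := by exact_mod_cast hl
      have h5 : ((T : ℝ) - l - 1 / 2) ≠ 0 := by
        have : (0 : ℝ) < (T : ℝ) - l - 1 / 2 := by linarith
        exact this.ne'
      simp only [hw, h3]
      exact G1r_fac _ y h5
    have h2 : ∏ l ∈ Finset.range T, (((T : ℝ) + 2 * n + l + 1 / 2) ^ 2 + y ^ 2) =
        (∏ l ∈ Finset.range T, (((T : ℝ) + 2 * n + l + 1 / 2) ^ 2 + 0 ^ 2)) * W3 := by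
      have h2 : W3 = ∏ l ∈ Finset.range T, w (T + 2 * n + l + 1) := by
        rw [hW3]
        refine Finset.prod_nbij' (fun m => m - (T + 2 * n + 1)) (fun l => T + 2 * n + l + 1) ?_ ?_ ?_ ?_ ?_
        · intro m hm; rw [Finset.mem_Ioc] at hm; rw [Finset.mem_range]; omega
        · intro l hl; rw [Finset.mem_range] at hl; rw [Finset.mem_Ioc]; omega
        · intro m hm; rw [Finset.mem_Ioc] at hm; omega
        · intro l hl; rw [Finset.mem_range] at hl; omega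
        · intro m hm
          rw [Finset.mem_Ioc] at hm
          congr 1
          omega
      rw [h2, ← Finset.prod_mul_distrib]
      refine Finset.prod_congr rfl fun l _ => ?_
      have h5 : ((T : ℝ) + 2 * n + l + 1 / 2) ≠ 0 := by positivity
      have h6 : (((T + 2 * n + l + 1 : ℕ) : ℝ) - 1 / 2) = (T : ℝ) + 2 * n + l + 1 / 2 := by
        push_cast; ring
      simp only [hw, h6]
      exact G1r_fac _ y h5
    rw [h1, h2]
    ring
  -- the rational function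
  have hR : ‖Rn n T y‖ ^ 2 * W2 ^ 5 ≤ ‖Rn n T 0‖ ^ 2 * (1 + y ^ 2) := by
    unfold Rn
    rw [norm_div, norm_div, div_pow, div_pow, G1r_PP, G1r_PP, G1r_QQ, G1r_QQ]
    set q0 := ∏ k ∈ Finset.range (2 * n + 1), (((T : ℝ) + k) ^ 2 + 0 ^ 2) ^ 5 with hq0
    set qy := ∏ k ∈ Finset.range (2 * n + 1), (((T : ℝ) + k) ^ 2 + y ^ 2) ^ 5 with hqy
    have hq0p : 0 < q0 := Finset.prod_pos fun k _ => by positivity
    have hqyp : 0 < qy := Finset.prod_pos fun k _ => by positivity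
    have h1 : q0 * W2 ^ 5 ≤ qy := by
      have h2 : W2 = ∏ k ∈ Finset.range (2 * n), w (T + k + 1) := by
        rw [hW2]
        refine Finset.prod_nbij' (fun m => m - (T + 1)) (fun l => T + l + 1) ?_ ?_ ?_ ?_ ?_
        · intro m hm; rw [Finset.mem_Ioc] at hm; rw [Finset.mem_range]; omega
        · intro l hl; rw [Finset.mem_range] at hl; rw [Finset.mem_Ioc]; omega
        · intro m hm; rw [Finset.mem_Ioc] at hm; omega
        · intro l hl; rw [Finset.mem_range] at hl; omega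
        · intro m hm
          rw [Finset.mem_Ioc] at hm
          congr 1
          omega
      rw [hq0, hqy, Finset.prod_range_succ, Finset.prod_range_succ, h2, ← Finset.prod_pow]
      have h3 : (∏ k ∈ Finset.range (2 * n), (((T : ℝ) + k) ^ 2 + 0 ^ 2) ^ 5) *
          ∏ k ∈ Finset.range (2 * n), w (T + k + 1) ^ 5 ≤
          ∏ k ∈ Finset.range (2 * n), (((T : ℝ) + k) ^ 2 + y ^ 2) ^ 5 := by
        rw [← Finset.prod_mul_distrib]
        refine Finset.prod_le_prod (fun k _ => ?_) fun k _ => ?_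
        · have := hwpos (T + k + 1)
          positivity
        · rw [← mul_pow]
          refine pow_le_pow_left₀ (by have := hwpos (T + k + 1); positivity) ?_ 5
          have h4 : (0 : ℝ) < (T : ℝ) + k := by positivity
          have h5 : (((T + k + 1 : ℕ) : ℝ) - 1 / 2) = (T : ℝ) + k + 1 / 2 := by push_cast; ring
          simp only [hw, h5]
          have h6 : ((T : ℝ) + k) ^ 2 * (y ^ 2 / ((T : ℝ) + k + 1 / 2) ^ 2) ≤ y ^ 2 := by
            rw [mul_div_assoc', div_le_iff₀ (by positivity), mul_comm]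
            refine mul_le_mul_of_nonneg_left ?_ (sq_nonneg y)
            exact pow_le_pow_left₀ h4.le (by linarith) 2
          nlinarith [h6]
      have h4 : (((T : ℝ) + (2 * n : ℕ)) ^ 2 + 0 ^ 2) ^ 5 ≤ (((T : ℝ) + (2 * n : ℕ)) ^ 2 + y ^ 2) ^ 5 :=
        pow_le_pow_left₀ (by positivity) (by nlinarith [sq_nonneg y]) 5
      calc (∏ x ∈ Finset.range (2 * n), (((T : ℝ) + x) ^ 2 + 0 ^ 2) ^ 5) *
            (((T : ℝ) + (2 * n : ℕ)) ^ 2 + 0 ^ 2) ^ 5 * ∏ x ∈ Finset.range (2 * n), w (T + x + 1) ^ 5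
          = ((∏ k ∈ Finset.range (2 * n), (((T : ℝ) + k) ^ 2 + 0 ^ 2) ^ 5) *
          ∏ k ∈ Finset.range (2 * n), w (T + k + 1) ^ 5) * (((T : ℝ) + (2 * n : ℕ)) ^ 2 + 0 ^ 2) ^ 5 := by ring
        _ ≤ _ := by
          refine mul_le_mul h3 h4 (by positivity) (Finset.prod_nonneg fun k _ => by positivity)
    have h2 : ((T : ℝ) + n) ^ 2 + y ^ 2 ≤ (((T : ℝ) + n) ^ 2 + 0 ^ 2) * (1 + y ^ 2) := by
      have h3 : (1 : ℝ) ≤ ((T : ℝ) + n) ^ 2 := by
        have : (0 : ℝ) ≤ n := Nat.cast_nonneg n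
        nlinarith
      nlinarith [mul_le_mul_of_nonneg_right h3 (sq_nonneg y)]
    rw [div_mul_eq_mul_div, div_mul_eq_mul_div, div_le_div_iff₀ hqyp hq0p]
    calc (((2 * n).factorial : ℝ) ^ 5) ^ 2 * (4 * (((T : ℝ) + n) ^ 2 + y ^ 2)) * W2 ^ 5 * q0
        = ((((2 * n).factorial : ℝ) ^ 5) ^ 2 * (4 * (((T : ℝ) + n) ^ 2 + y ^ 2))) * (q0 * W2 ^ 5) := by ring
      _ ≤ ((((2 * n).factorial : ℝ) ^ 5) ^ 2 * (4 * ((((T : ℝ) + n) ^ 2 + 0 ^ 2) * (1 + y ^ 2)))) * qy := by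
          refine mul_le_mul ?_ h1 (by positivity) (by positivity)
          refine mul_le_mul_of_nonneg_left ?_ (by positivity)
          linarith
      _ = _ := by ring
  set Ry := ‖Rn n T y‖ with hRy
  set R0 := ‖Rn n T 0‖ with hR0
  rw [hZ]
  set Z0 := ‖aeval (xz n T 0) (ZZ n T)‖ ^ 2 with hZ0
  set e := Real.exp (-(Real.pi * |y|)) with he
  calc (Ry * (Z0 * (W1 * W3)) * e) ^ 2 * (W2 ^ 7 * W4 ^ 2)
      = (Ry ^ 2 * W2 ^ 5) * (Z0 ^ 2 * (e ^ 2 * (W1 * W2 * W3 * W4) ^ 2)) := by ring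
    _ ≤ (R0 ^ 2 * (1 + y ^ 2)) * (Z0 ^ 2 * 1) := by
        refine mul_le_mul hR ?_ (by positivity) (by positivity)
        exact mul_le_mul_of_nonneg_left hE (by positivity)
    _ = _ := by ring

end

end Pool.Agent.H216R2.BB
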