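import Pool.Agent.H216R2.BB.Defs

/-! Task G1z: the value on the line `Re t = 32 N` at `y = 0`. -/

open Polynomial Pool.Agent.H337R2

namespace Pool.Agent.H216R2.BB

noncomputable section

namespace G1zAux

/-- `x log x - x` -/
def Fx (x : ℝ) : ℝ := x * Real.log x - x

lemma Fx_mono {a b : ℝ} (ha : 1 ≤ a) (hab : a ≤ b) : Fx a ≤ Fx b := by
  have ha0 : 0 < a := by linarith
  have hb0 : 0 < b := by linarith
  have h1 : 1 - (b / a)⁻¹ ≤ Real.log (b / a) := Real.one_sub_inv_le_log_of_pos (by positivity)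
  rw [Real.log_div hb0.ne' ha0.ne', inv_div] at h1
  have h2 : b * (1 - a / b) ≤ b * (Real.log b - Real.log a) := mul_le_mul_of_nonneg_left h1 hb0.le
  have h3 : b * (1 - a / b) = b - a := by field_simp
  rw [h3] at h2
  have h4 : 0 ≤ (b - a) * Real.log a := mul_nonneg (by linarith) (Real.log_nonneg ha)
  unfold Fx
  nlinarith

lemma Fx_sub {a b : ℝ} (ha : 0 < a) (hab : a ≤ b) : Fx b - Fx a ≤ (b - a) * Real.log b := by
  have hb0 : 0 < b := by linarith
  have h1 : Real.log (b / a) ≤ b / a - 1 := Real.log_le_sub_one_of_pos (by positivity)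
  rw [Real.log_div hb0.ne' ha.ne'] at h1
  have h2 : a * (Real.log b - Real.log a) ≤ a * (b / a - 1) := mul_le_mul_of_nonneg_left h1 ha.le
  have h3 : a * (b / a - 1) = b - a := by field_simp
  rw [h3] at h2
  unfold Fx
  nlinarith

lemma Fx_mul {c x : ℝ} (hc : 0 < c) (hx : 0 < x) :
    Fx (c * x) = c * x * Real.log c + c * x * Real.log x - c * x := by
  unfold Fx
  rw [Real.log_mul hc.ne' hx.ne']
  ring

lemma fac_lower (a : ℕ) (ha : 1 ≤ a) : Real.exp (Fx a) ≤ (a.factorial : ℝ) := by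
  have ha0 : (0 : ℝ) < a := by exact_mod_cast ha
  have h := Real.pow_div_factorial_le_exp (a : ℝ) ha0.le a
  rw [div_le_iff₀ (by positivity)] at h
  have e : Real.exp (Fx a) * Real.exp a = (a : ℝ) ^ a := by
    rw [← Real.exp_add]
    unfold Fx
    rw [show (a : ℝ) * Real.log a - a + a = a * Real.log a by ring, Real.exp_nat_mul,
      Real.exp_log ha0]
  have h2 : Real.exp (Fx a) * Real.exp a ≤ (a.factorial : ℝ) * Real.exp a := by
    rw [e, mul_comm (a.factorial : ℝ)]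
    exact h
  exact le_of_mul_le_mul_right h2 (Real.exp_pos _)

lemma fac_upper (a : ℕ) (ha : 1 ≤ a) :
    (a.factorial : ℝ) ≤ Real.exp 1 * a * Real.exp (Fx a) := by
  induction a, ha using Nat.le_induction with
  | base =>
    simp [Fx, ← Real.exp_add]
  | succ a ha ih =>
    have ha0 : (0 : ℝ) < a := by exact_mod_cast ha
    rw [Nat.factorial_succ]
    push_cast
    have h1 : Fx a + Real.log a ≤ Fx ((a : ℝ) + 1) := by
      have h2 : 1 - (((a : ℝ) + 1) / a)⁻¹ ≤ Real.log (((a : ℝ) + 1) / a) :=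
        Real.one_sub_inv_le_log_of_pos (by positivity)
      rw [Real.log_div (by positivity) ha0.ne', inv_div] at h2
      have h3 : ((a : ℝ) + 1) * (1 - a / ((a : ℝ) + 1)) ≤
          ((a : ℝ) + 1) * (Real.log ((a : ℝ) + 1) - Real.log a) :=
        mul_le_mul_of_nonneg_left h2 (by positivity)
      have h4 : ((a : ℝ) + 1) * (1 - a / ((a : ℝ) + 1)) = 1 := by field_simp; ring
      rw [h4] at h3
      unfold Fx
      nlinarith
    have h6 : (a : ℝ) * Real.exp (Fx a) = Real.exp (Fx a + Real.log a) := by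
      rw [Real.exp_add, Real.exp_log ha0]; ring
    have h8 : (a : ℝ) * Real.exp (Fx a) ≤ Real.exp (Fx ((a : ℝ) + 1)) := by
      rw [h6]
      exact Real.exp_le_exp.2 h1
    calc ((a : ℝ) + 1) * (a.factorial : ℝ) ≤ ((a : ℝ) + 1) * (Real.exp 1 * a * Real.exp (Fx a)) :=
          mul_le_mul_of_nonneg_left ih (by positivity)
      _ = Real.exp 1 * ((a : ℝ) + 1) * ((a : ℝ) * Real.exp (Fx a)) := by ring
      _ ≤ Real.exp 1 * ((a : ℝ) + 1) * Real.exp (Fx ((a : ℝ) + 1)) :=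
          mul_le_mul_of_nonneg_left h8 (by positivity)

lemma zt_zero (T : ℕ) : zt T 0 = algebraMap ℚ ℂ (T : ℚ) := by
  unfold zt
  simp

lemma xz_zero (n T : ℕ) : xz n T 0 = algebraMap ℚ ℂ ((T : ℚ) * ((T : ℚ) + ((2 * n : ℕ) : ℚ))) := by
  unfold xz
  rw [zt_zero]
  simp

lemma norm_Rn_zero (n T : ℕ) : ‖Rn n T 0‖ =
    |(((PPn n).eval (T : ℚ) : ℚ) : ℝ)| / |(((QQ (sB n) m5).eval (T : ℚ) : ℚ) : ℝ)| := by
  unfold Rn
  rw [zt_zero, aeval_algebraMap_apply, aeval_algebraMap_apply, norm_div]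
  simp only [coe_aeval_eq_eval, eq_ratCast, Complex.norm_ratCast]

lemma eval_PPn (n T : ℕ) : (((PPn n).eval (T : ℚ) : ℚ) : ℝ) =
    ((2 * n).factorial : ℝ) ^ 5 * (2 * T + 2 * n) := by
  unfold PPn
  simp

lemma prod_asc (T M : ℕ) : (∏ k ∈ Finset.range (M + 1), ((T : ℝ) + k)) * (T.factorial : ℝ) =
    T * ((T + M).factorial : ℝ) := by
  induction M with
  | zero => simp
  | succ M ih =>
    rw [Finset.prod_range_succ, mul_right_comm, ih, ← add_assoc, Nat.factorial_succ]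
    push_cast
    ring

lemma prod_asc' (a M : ℕ) : (∏ l ∈ Finset.range M, ((a : ℝ) + l + 1)) * (a.factorial : ℝ) =
    ((a + M).factorial : ℝ) := by
  induction M with
  | zero => simp
  | succ M ih =>
    rw [Finset.prod_range_succ, mul_right_comm, ih, ← add_assoc, Nat.factorial_succ]
    push_cast
    ring

lemma prod_desc (T : ℕ) : ∏ l ∈ Finset.range T, ((T : ℝ) - l) = (T.factorial : ℝ) := by
  rw [← Finset.prod_range_add_one_eq_factorial, ← Finset.prod_range_reflect]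
  push_cast
  apply Finset.prod_congr rfl
  intro l hl
  rw [Finset.mem_range] at hl
  rw [Nat.cast_sub (by omega), Nat.cast_sub (by omega)]
  push_cast
  ring

lemma eval_QQ (n T : ℕ) : (((QQ (sB n) m5).eval (T : ℚ) : ℚ) : ℝ) =
    (∏ k ∈ Finset.range (2 * n + 1), ((T : ℝ) + k)) ^ 5 := by
  unfold QQ sB m5
  rw [eval_prod]
  simp only [eval_pow, eval_add, eval_X, eval_C]
  push_cast
  rw [Finset.prod_pow]

lemma norm_ZZ (n T : ℕ) : ‖aeval (xz n T 0) (ZZ n T)‖ =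
    |∏ l ∈ Finset.range T, (((T : ℝ) - l - 1 / 2) * ((T : ℝ) + l + 1 / 2 + 2 * n))| := by
  rw [xz_zero, aeval_algebraMap_apply]
  simp only [coe_aeval_eq_eval, eq_ratCast, Complex.norm_ratCast]
  congr 1
  unfold ZZ xh
  rw [eval_prod]
  push_cast
  apply Finset.prod_congr rfl
  intro l _
  simp only [eval_sub, eval_X, eval_C]
  push_cast
  ring

lemma ZZ_le (n T : ℕ) : ‖aeval (xz n T 0) (ZZ n T)‖ * ((T + 2 * n).factorial : ℝ) ≤
    (T.factorial : ℝ) * ((2 * T + 2 * n).factorial : ℝ) := by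
  rw [norm_ZZ, Finset.prod_mul_distrib]
  have h1 : ∀ l ∈ Finset.range T, (0 : ℝ) ≤ (T : ℝ) - l - 1 / 2 := by
    intro l hl
    have : ((l + 1 : ℕ) : ℝ) ≤ T := by exact_mod_cast Finset.mem_range.1 hl
    push_cast at this
    linarith
  have h2 : ∀ l ∈ Finset.range T, (0 : ℝ) ≤ (T : ℝ) + l + 1 / 2 + 2 * n := by
    intro l _
    positivity
  have h3 : ∏ l ∈ Finset.range T, ((T : ℝ) - l - 1 / 2) ≤ (T.factorial : ℝ) := by
    rw [← prod_desc]
    exact Finset.prod_le_prod h1 (fun l _ => by linarith)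
  have h4 : (∏ l ∈ Finset.range T, ((T : ℝ) + l + 1 / 2 + 2 * n)) * ((T + 2 * n).factorial : ℝ) ≤
      ((2 * T + 2 * n).factorial : ℝ) := by
    have h5 := prod_asc' (T + 2 * n) T
    rw [show T + 2 * n + T = 2 * T + 2 * n by ring] at h5
    rw [← h5]
    apply mul_le_mul_of_nonneg_right _ (by positivity)
    apply Finset.prod_le_prod h2
    intro l _
    push_cast
    linarith
  have h5 := Finset.prod_nonneg h1
  have h6 := Finset.prod_nonneg h2
  rw [abs_of_nonneg (mul_nonneg h5 h6), mul_assoc]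
  exact mul_le_mul h3 h4 (by positivity) (by positivity)

lemma Rn_le (n T : ℕ) (hT : 1 ≤ T) : ‖Rn n T 0‖ * ((T + 2 * n).factorial : ℝ) ^ 5 ≤
    ((2 * n).factorial : ℝ) ^ 5 * (2 * T + 2 * n) * (T.factorial : ℝ) ^ 5 := by
  have hT0 : (0 : ℝ) < T := by exact_mod_cast hT
  have hT1 : (1 : ℝ) ≤ T := by exact_mod_cast hT
  rw [norm_Rn_zero, eval_PPn, eval_QQ]
  have h1 := prod_asc T (2 * n)
  have hpos : 0 < ∏ k ∈ Finset.range (2 * n + 1), ((T : ℝ) + k) :=
    Finset.prod_pos (fun k _ => by positivity)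
  rw [abs_of_nonneg (by positivity), abs_of_nonneg (by positivity)]
  rw [div_mul_eq_mul_div, div_le_iff₀ (by positivity)]
  have h2 : ((T + 2 * n).factorial : ℝ) ≤
      (∏ k ∈ Finset.range (2 * n + 1), ((T : ℝ) + k)) * (T.factorial : ℝ) := by
    rw [h1]
    have h0 : (0 : ℝ) ≤ ((T + 2 * n).factorial : ℝ) := by positivity
    nlinarith
  have h3 := pow_le_pow_left₀ (by positivity) h2 5
  rw [mul_pow] at h3
  calc ((2 * n).factorial : ℝ) ^ 5 * (2 * T + 2 * n) * ((T + 2 * n).factorial : ℝ) ^ 5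
      ≤ ((2 * n).factorial : ℝ) ^ 5 * (2 * T + 2 * n) *
        ((∏ k ∈ Finset.range (2 * n + 1), ((T : ℝ) + k)) ^ 5 * (T.factorial : ℝ) ^ 5) :=
        mul_le_mul_of_nonneg_left h3 (by positivity)
    _ = _ := by ring

/-- the main real inequality -/
lemma main_ineq (N : ℕ) (hN : 1 ≤ N) (n : ℕ) (hn : n = 24 * N + 1) :
    5 * Fx ((2 * n : ℕ) : ℝ) + 7 * Fx ((32 * N : ℕ) : ℝ) +
      2 * Fx ((2 * (32 * N) + 2 * n : ℕ) : ℝ) - 7 * Fx ((32 * N + 2 * n : ℕ) : ℝ) ≤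
      n * Phi0 + (128 * N : ℕ) * Real.log n + 6 * Real.log n + 10 * Real.log (10 / 3 * n) := by
  have hNr : (1 : ℝ) ≤ N := by exact_mod_cast hN
  have hnr : (n : ℝ) = 24 * N + 1 := by rw [hn]; push_cast; ring
  have hn0 : (0 : ℝ) < n := by rw [hnr]; linarith
  have hn1 : (1 : ℝ) ≤ n := by rw [hnr]; linarith
  have hlog : 0 ≤ Real.log n := Real.log_nonneg hn1
  have hlog2 : 0 ≤ Real.log (10 / 3 * (n : ℝ)) := Real.log_nonneg (by linarith)
  have e1 : Fx ((2 * n : ℕ) : ℝ) = 2 * n * Real.log 2 + 2 * n * Real.log n - 2 * n := by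
    push_cast
    exact Fx_mul (by norm_num) hn0
  have e2 : Fx ((32 * N : ℕ) : ℝ) ≤ Fx (4 / 3 * (n : ℝ)) := by
    apply Fx_mono
    · push_cast; linarith
    · push_cast; rw [hnr]; linarith
  have e3 : Fx ((2 * (32 * N) + 2 * n : ℕ) : ℝ) ≤ Fx (14 / 3 * (n : ℝ)) := by
    apply Fx_mono
    · push_cast; linarith
    · push_cast; rw [hnr]; linarith
  have e4 : Fx (10 / 3 * (n : ℝ)) - Fx ((32 * N + 2 * n : ℕ) : ℝ) ≤
      (10 / 3 * (n : ℝ) - ((32 * N + 2 * n : ℕ) : ℝ)) * Real.log (10 / 3 * (n : ℝ)) := by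
    apply Fx_sub
    · push_cast; linarith
    · push_cast; rw [hnr]; linarith
  have e5 : 10 / 3 * (n : ℝ) - ((32 * N + 2 * n : ℕ) : ℝ) = 4 / 3 := by
    push_cast; rw [hnr]; ring
  rw [e5] at e4
  rw [Fx_mul (by norm_num) hn0] at e2 e3 e4
  rw [e1]
  have e6 : ((128 * N : ℕ) : ℝ) = 16 / 3 * n - 16 / 3 := by
    push_cast; rw [hnr]; ring
  rw [e6]
  unfold Phi0
  nlinarith

end G1zAux

open G1zAux

theorem G1_zero : ∃ (C : ℝ) (K : ℕ), 0 < C ∧ ∀ N : ℕ, 1 ≤ N → ∀ n : ℕ, n = 24 * N + 1 →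
    ‖Rn n (32 * N) 0‖ * ‖aeval (xz n (32 * N) 0) (ZZ n (32 * N))‖ ^ 2 ≤
      C * (n : ℝ) ^ K * (n : ℝ) ^ (128 * N) * Real.exp (n * Phi0) := by
  refine ⟨Real.exp 1 ^ 14 * 2 ^ 12 * 5 ^ 3 * (10 / 3) ^ 10, 31, by positivity, ?_⟩
  intro N hN n hn
  have hNr : (1 : ℝ) ≤ N := by exact_mod_cast hN
  have hnr : (n : ℝ) = 24 * N + 1 := by rw [hn]; push_cast; ring
  have hn0 : (0 : ℝ) < n := by rw [hnr]; linarith
  have hR := Rn_le n (32 * N) (by omega)
  have hZ := ZZ_le n (32 * N)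
  have hmain := main_ineq N hN n hn
  have f1 := fac_upper (2 * n) (by omega)
  have f2 := fac_upper (32 * N) (by omega)
  have f3 := fac_upper (2 * (32 * N) + 2 * n) (by omega)
  have f4 := fac_lower (32 * N + 2 * n) (by omega)
  set R := ‖Rn n (32 * N) 0‖
  set Z := ‖aeval (xz n (32 * N) 0) (ZZ n (32 * N))‖
  set A : ℝ := ((32 * N).factorial : ℝ) with hA
  set B : ℝ := ((32 * N + 2 * n).factorial : ℝ) with hB
  set D : ℝ := ((2 * (32 * N) + 2 * n).factorial : ℝ) with hD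
  set E : ℝ := ((2 * n).factorial : ℝ) with hE
  have hA0 : 0 < A := by positivity
  have hB0 : 0 < B := by positivity
  have hD0 : 0 < D := by positivity
  have hE0 : 0 < E := by positivity
  have hR0 : 0 ≤ R := norm_nonneg _
  have hZ0 : 0 ≤ Z := norm_nonneg _
  set x1 := Fx ((2 * n : ℕ) : ℝ)
  set x2 := Fx ((32 * N : ℕ) : ℝ)
  set x3 := Fx ((2 * (32 * N) + 2 * n : ℕ) : ℝ)
  set x4 := Fx ((32 * N + 2 * n : ℕ) : ℝ)
  have g1 : E ≤ Real.exp 1 * (2 * n) * Real.exp x1 := by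
    refine f1.trans (le_of_eq ?_)
    push_cast; ring
  have g2 : A ≤ Real.exp 1 * (2 * n) * Real.exp x2 := by
    refine f2.trans ?_
    apply mul_le_mul_of_nonneg_right _ (Real.exp_pos _).le
    apply mul_le_mul_of_nonneg_left _ (Real.exp_pos _).le
    push_cast; rw [hnr]; linarith
  have h5n : (2 * ((32 * N : ℕ) : ℝ) + 2 * n) ≤ 5 * n := by
    push_cast; rw [hnr]; linarith
  have g3 : D ≤ Real.exp 1 * (5 * n) * Real.exp x3 := by
    refine f3.trans ?_
    apply mul_le_mul_of_nonneg_right _ (Real.exp_pos _).le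
    apply mul_le_mul_of_nonneg_left _ (Real.exp_pos _).le
    push_cast at h5n ⊢; linarith
  have key : R * Z ^ 2 * B ^ 7 ≤ E ^ 5 * (5 * n) * A ^ 7 * D ^ 2 := by
    have h1 : Z ^ 2 * B ^ 2 ≤ A ^ 2 * D ^ 2 := by
      rw [← mul_pow, ← mul_pow]
      exact pow_le_pow_left₀ (by positivity) hZ 2
    have h2 : R * B ^ 5 ≤ E ^ 5 * (5 * n) * A ^ 5 := by
      refine hR.trans ?_
      apply mul_le_mul_of_nonneg_right _ (by positivity)
      apply mul_le_mul_of_nonneg_left h5n (by positivity)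
    calc R * Z ^ 2 * B ^ 7 = (R * B ^ 5) * (Z ^ 2 * B ^ 2) := by ring
      _ ≤ (E ^ 5 * (5 * n) * A ^ 5) * (A ^ 2 * D ^ 2) :=
        mul_le_mul h2 h1 (by positivity) (by positivity)
      _ = _ := by ring
  have key2 : R * Z ^ 2 * Real.exp x4 ^ 7 ≤
      (Real.exp 1 * (2 * n) * Real.exp x1) ^ 5 * (5 * n) * (Real.exp 1 * (2 * n) * Real.exp x2) ^ 7 *
        (Real.exp 1 * (5 * n) * Real.exp x3) ^ 2 := by
    calc R * Z ^ 2 * Real.exp x4 ^ 7 ≤ R * Z ^ 2 * B ^ 7 := by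
          apply mul_le_mul_of_nonneg_left _ (by positivity)
          exact pow_le_pow_left₀ (Real.exp_pos _).le f4 7
      _ ≤ _ := key
      _ ≤ _ := by gcongr
  have key3 : R * Z ^ 2 ≤ Real.exp 1 ^ 14 * 2 ^ 12 * 5 ^ 3 * (n : ℝ) ^ 15 *
      Real.exp (5 * x1 + 7 * x2 + 2 * x3 - 7 * x4) := by
    have h1 : Real.exp (5 * x1 + 7 * x2 + 2 * x3 - 7 * x4) * Real.exp x4 ^ 7 =
        Real.exp x1 ^ 5 * Real.exp x2 ^ 7 * Real.exp x3 ^ 2 := by
      rw [← Real.exp_nat_mul, ← Real.exp_nat_mul, ← Real.exp_nat_mul, ← Real.exp_nat_mul,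
        ← Real.exp_add, ← Real.exp_add, ← Real.exp_add]
      congr 1
      push_cast
      ring
    have h2 : 0 < Real.exp x4 ^ 7 := by positivity
    refine le_of_mul_le_mul_right ?_ h2
    refine key2.trans (le_of_eq ?_)
    rw [mul_assoc _ (Real.exp _) (Real.exp x4 ^ 7), h1]
    ring
  refine key3.trans ?_
  have h6 : Real.exp (5 * x1 + 7 * x2 + 2 * x3 - 7 * x4) ≤
      Real.exp (n * Phi0) * (n : ℝ) ^ (128 * N) * (n : ℝ) ^ 6 * (10 / 3 * (n : ℝ)) ^ 10 := by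
    have h7 : Real.exp (n * Phi0 + (128 * N : ℕ) * Real.log n + 6 * Real.log n +
        10 * Real.log (10 / 3 * n)) =
        Real.exp (n * Phi0) * (n : ℝ) ^ (128 * N) * (n : ℝ) ^ 6 * (10 / 3 * (n : ℝ)) ^ 10 := by
      have q1 : Real.exp ((128 * N : ℕ) * Real.log n) = (n : ℝ) ^ (128 * N) := by
        rw [Real.exp_nat_mul, Real.exp_log hn0]
      have q2 : Real.exp (6 * Real.log n) = (n : ℝ) ^ 6 := by
        rw [show (6 : ℝ) = ((6 : ℕ) : ℝ) by norm_num, Real.exp_nat_mul, Real.exp_log hn0]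
      have q3 : Real.exp (10 * Real.log (10 / 3 * n)) = (10 / 3 * (n : ℝ)) ^ 10 := by
        rw [show (10 : ℝ) * Real.log (10 / 3 * n) = ((10 : ℕ) : ℝ) * Real.log (10 / 3 * n) by
          norm_num, Real.exp_nat_mul, Real.exp_log (by positivity)]
      rw [Real.exp_add, Real.exp_add, Real.exp_add, q1, q2, q3]
    rw [← h7]
    exact Real.exp_le_exp.2 hmain
  calc _ ≤ Real.exp 1 ^ 14 * 2 ^ 12 * 5 ^ 3 * (n : ℝ) ^ 15 *
      (Real.exp (n * Phi0) * (n : ℝ) ^ (128 * N) * (n : ℝ) ^ 6 * (10 / 3 * (n : ℝ)) ^ 10) :=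
        mul_le_mul_of_nonneg_left h6 (by positivity)
    _ = _ := by ring

end

end Pool.Agent.H216R2.BB
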