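import Pool.Agent.H216R2.BB.G1mpre
import Pool.Agent.H216R2.BB.G1r
import Pool.Agent.H216R2.BB.G1z

/-! The archimedean comparison `G1_main`. -/

open Polynomial Pool.Agent.H337R2

namespace Pool.Agent.H216R2.BB

noncomputable section

theorem G1_main : ∃ (C : ℝ) (K : ℕ), 0 < C ∧ ∀ N : ℕ, 1 ≤ N → ∀ n : ℕ, n = 24 * N + 1 → ∀ y : ℝ,
    ‖Rn n (32 * N) y‖ * ‖xz n (32 * N) y‖ ^ 7 * ‖aeval (xz n (32 * N) y) (ZZ n (32 * N))‖ ^ 2 *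
      Real.exp (-(Real.pi * |y|)) * (1 + y ^ 2) ^ 5 * FXp ((y / n) ^ 2) ^ N ≤
      C * (n : ℝ) ^ K * (n : ℝ) ^ (128 * N) * Real.exp (n * Phi0) :=
  G1_main_of G1_zero G1_ratio

end

end Pool.Agent.H216R2.BB
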