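import Pool.Agent.H216R2.BB.Defs
import Pool.Agent.H336R2.HD.G1a

/-! The archimedean comparison `G1_main` (with `G1_zero` and `G1_ratio` as hypotheses). -/

open Polynomial Pool.Agent.H337R2
open Pool.Agent.H336R2.HD (G1_block)

namespace Pool.Agent.H216R2.BB

noncomputable section

/-- `∏_{a < m ≤ b} (1 + y²/(m-1/2)²)` -/
def PF1 (y : ℝ) (a b : ℕ) : ℝ := ∏ m ∈ Finset.Ioc a b, (1 + y ^ 2 / ((m : ℝ) - 1 / 2) ^ 2)

lemma one_le_PF1 (y : ℝ) (a b : ℕ) : 1 ≤ PF1 y a b := by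
  unfold PF1
  calc (1 : ℝ) = ∏ m ∈ Finset.Ioc a b, (1 : ℝ) := by simp
    _ ≤ _ := Finset.prod_le_prod (by intros; norm_num) (by
      intro m _
      have : 0 ≤ y ^ 2 / ((m : ℝ) - 1 / 2) ^ 2 := by positivity
      linarith)

lemma PF1_split (y : ℝ) {a b c : ℕ} (hab : a ≤ b) (hbc : b ≤ c) :
    PF1 y a b * PF1 y b c = PF1 y a c :=
  Finset.prod_Ioc_consecutive _ hab hbc

/-- admissible chains of blocks `(A, L, c)` -/
def good (n : ℕ) (b : ℕ) : ℕ → List (ℕ × ℕ × ℚ) → Prop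
  | a, [] => a ≤ b
  | a, x :: t => a ≤ x.1 ∧ 1 ≤ x.2.1 ∧ (0 : ℝ) < (x.2.2 : ℝ) ∧ (x.1 : ℝ) + x.2.1 / 2 ≤ (x.2.2 : ℝ) * n ∧
      good n b (x.1 + x.2.1) t

lemma good_le (n b : ℕ) (l : List (ℕ × ℕ × ℚ)) : ∀ a, good n b a l → a ≤ b := by
  induction l with
  | nil => intro a h; exact h
  | cons x t ih =>
    intro a h
    obtain ⟨h1, h2, h3, h4, h5⟩ := h
    have := ih _ h5
    omega

/-- lower bound of a chain -/
def cpr (g : ℚ → ℝ) (l : List (ℕ × ℕ × ℚ)) : ℝ := (l.map fun x => g x.2.2 ^ x.2.1).prod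

lemma cpr_nonneg (g : ℚ → ℝ) (hg : ∀ q, 0 ≤ g q) (l : List (ℕ × ℕ × ℚ)) : 0 ≤ cpr g l := by
  unfold cpr
  apply List.prod_nonneg
  intro z hz
  obtain ⟨w, _, rfl⟩ := List.mem_map.mp hz
  exact pow_nonneg (hg _) _

lemma chain (n : ℕ) (hn : 1 ≤ n) (y : ℝ) (g : ℚ → ℝ) (hg : ∀ q : ℚ, g q = 1 + (y / n) ^ 2 / (q : ℝ) ^ 2)
    (b : ℕ) (l : List (ℕ × ℕ × ℚ)) : ∀ a, good n b a l → cpr g l ≤ PF1 y a b := by
  have hg0 : ∀ q, 0 ≤ g q := fun q => by rw [hg]; positivity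
  induction l with
  | nil => intro a h; simpa [cpr] using one_le_PF1 y a b
  | cons x t ih =>
    intro a h
    obtain ⟨h1, h2, h3, h4, h5⟩ := h
    have h6 := good_le _ _ _ _ h5
    have hn' : (0 : ℝ) < n := by exact_mod_cast hn
    have hcons : cpr g (x :: t) = g x.2.2 ^ x.2.1 * cpr g t := by
      simp [cpr]
    rw [hcons, ← PF1_split y (h1.trans (Nat.le_add_right x.1 x.2.1)) h6,
      ← PF1_split y h1 (Nat.le_add_right _ _)]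
    have hA : g x.2.2 ^ x.2.1 ≤ PF1 y x.1 (x.1 + x.2.1) := by
      refine le_trans ?_ (G1_block x.1 x.2.1 (y ^ 2) (sq_nonneg y) h2)
      apply pow_le_pow_left₀ (hg0 _)
      rw [hg]
      have h7 : (y / n) ^ 2 / (x.2.2 : ℝ) ^ 2 = y ^ 2 / ((x.2.2 : ℝ) * n) ^ 2 := by
        field_simp
      rw [h7]
      have h8 : (1 : ℝ) ≤ x.2.1 := by exact_mod_cast h2
      have h9 : (0 : ℝ) < (x.1 : ℝ) + x.2.1 / 2 := by positivity
      gcongr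
    have hB := ih _ h5
    have hC : 0 ≤ cpr g t := cpr_nonneg g hg0 t
    have hD := one_le_PF1 y a x.1
    have hE := one_le_PF1 y x.1 (x.1 + x.2.1)
    calc g x.2.2 ^ x.2.1 * cpr g t
        ≤ PF1 y x.1 (x.1 + x.2.1) * PF1 y (x.1 + x.2.1) b :=
          mul_le_mul hA hB hC (by linarith)
      _ ≤ PF1 y a x.1 * PF1 y x.1 (x.1 + x.2.1) * PF1 y (x.1 + x.2.1) b := by
          apply mul_le_mul_of_nonneg_right _ (by linarith [one_le_PF1 y (x.1 + x.2.1) b])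
          nlinarith

/-- chain 1 -/
def ch1 (N : ℕ) : List (ℕ × ℕ × ℚ) :=
  [(32 * N, 2 * N, 33/24), (34 * N, 2 * N, 35/24), (36 * N, 2 * N, 37/24), (38 * N, 2 * N, 39/24), (40 * N, 2 * N, 41/24), (42 * N, 2 * N, 43/24), (44 * N, 2 * N, 45/24), (46 * N, 2 * N, 47/24), (48 * N, 4 * N, 50/24), (52 * N, 4 * N, 54/24), (56 * N, 4 * N, 58/24), (60 * N, 4 * N, 62/24), (64 * N, 4 * N, 66/24), (68 * N, 4 * N, 70/24), (72 * N, 4 * N, 74/24), (76 * N, 4 * N, 78/24)]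

/-- chain 2 -/
def ch2 (N : ℕ) : List (ℕ × ℕ × ℚ) :=
  [(112 * N + 2, 16 * N, 5), (128 * N + 2, 32 * N, 6), (160 * N + 2, 64 * N, 8), (224 * N + 2, 128 * N, 12), (352 * N + 2, 256 * N, 20), (608 * N + 2, 512 * N, 36), (1120 * N + 2, 1024 * N, 68), (2144 * N + 2, 2048 * N, 132), (4192 * N + 2, 4096 * N, 260), (8288 * N + 2, 30, 346)]

lemma good1 {n N : ℕ} (hN : 1 ≤ N) (hn : n = 24 * N + 1) : good n (32 * N + 2 * n) (32 * N) (ch1 N) := by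
  have h1 : (1 : ℝ) ≤ N := by exact_mod_cast hN
  have h2 : (n : ℝ) = 24 * N + 1 := by rw [hn]; push_cast; ring
  simp only [ch1, good]
  refine ⟨by omega, by omega, by norm_num, ?_, by omega, by omega, by norm_num, ?_, by omega, by omega, by norm_num, ?_, by omega, by omega, by norm_num, ?_, by omega, by omega, by norm_num, ?_, by omega, by omega, by norm_num, ?_, by omega, by omega, by norm_num, ?_, by omega, by omega, by norm_num, ?_, by omega, by omega, by norm_num, ?_, by omega, by omega, by norm_num, ?_, by omega, by omega, by norm_num, ?_, by omega, by omega, by norm_num, ?_, by omega, by omega, by norm_num, ?_, by omega, by omega, by norm_num, ?_, by omega, by omega, by norm_num, ?_, by omega, by omega, by norm_num, ?_, by omega⟩ <;>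
    push_cast <;> rw [h2] <;> linarith

lemma good2 {n N : ℕ} (hN : 1 ≤ N) (hn : n = 24 * N + 1) : good n (8288 * N + 32) (2 * (32 * N) + 2 * n) (ch2 N) := by
  have h1 : (1 : ℝ) ≤ N := by exact_mod_cast hN
  have h2 : (n : ℝ) = 24 * N + 1 := by rw [hn]; push_cast; ring
  simp only [ch2, good]
  refine ⟨by omega, by omega, by norm_num, ?_, by omega, by omega, by norm_num, ?_, by omega, by omega, by norm_num, ?_, by omega, by omega, by norm_num, ?_, by omega, by omega, by norm_num, ?_, by omega, by omega, by norm_num, ?_, by omega, by omega, by norm_num, ?_, by omega, by omega, by norm_num, ?_, by omega, by omega, by norm_num, ?_, by omega, by omega, by norm_num, ?_, by omega⟩ <;>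
    push_cast <;> rw [h2] <;> linarith

lemma key_prod (g : ℚ → ℝ) (N : ℕ) :
    cpr g (ch1 N) ^ 7 * cpr g (ch2 N) ^ 2 =
    ((FX.map fun x => g x.1 ^ x.2).prod ^ N) ^ 2 * g 346 ^ 60 := by
  simp only [cpr, ch1, ch2, FX, List.map_cons, List.map_nil, List.prod_cons, List.prod_nil]
  ring

lemma xz_sq_le {n N : ℕ} (hn : n = 24 * N + 1) (y : ℝ) :
    ‖xz n (32 * N) y‖ ^ 2 ≤ 64 * (n : ℝ) ^ 4 * (1 + y ^ 2) ^ 2 := by
  have hn' : (1 : ℝ) ≤ n := by rw [hn]; push_cast; linarith [Nat.cast_nonneg (α := ℝ) N]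
  have hN0 : (0 : ℝ) ≤ N := Nat.cast_nonneg N
  have hnN : (n : ℝ) = 24 * N + 1 := by rw [hn]; push_cast; ring
  have h1 : ‖zt (32 * N) y‖ ^ 2 = (32 * (N : ℝ)) ^ 2 + y ^ 2 := by
    rw [← Complex.normSq_eq_norm_sq, Complex.normSq_apply]
    simp [zt]
    ring
  have h2 : ‖zt (32 * N) y + ((2 * n : ℕ) : ℂ)‖ ^ 2 = (32 * (N : ℝ) + 2 * n) ^ 2 + y ^ 2 := by
    rw [← Complex.normSq_eq_norm_sq, Complex.normSq_apply]
    simp [zt]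
    ring
  unfold xz
  rw [norm_mul, mul_pow, h1, h2]
  have hy : y ^ 2 ≤ (n : ℝ) ^ 2 * y ^ 2 := by
    have := mul_le_mul_of_nonneg_right (one_le_pow₀ hn' : (1 : ℝ) ≤ (n : ℝ) ^ 2) (sq_nonneg y)
    linarith
  have h3 : (32 * (N : ℝ)) ^ 2 + y ^ 2 ≤ 4 * (n : ℝ) ^ 2 * (1 + y ^ 2) := by
    have : (32 * (N : ℝ)) ^ 2 ≤ (2 * n) ^ 2 := by
      apply pow_le_pow_left₀ (by positivity)
      rw [hnN]; linarith
    nlinarith [sq_nonneg y]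
  have h4 : (32 * (N : ℝ) + 2 * n) ^ 2 + y ^ 2 ≤ 16 * (n : ℝ) ^ 2 * (1 + y ^ 2) := by
    have : (32 * (N : ℝ) + 2 * n) ^ 2 ≤ (4 * n) ^ 2 := by
      apply pow_le_pow_left₀ (by positivity)
      rw [hnN]; linarith
    nlinarith [sq_nonneg y]
  calc ((32 * (N : ℝ)) ^ 2 + y ^ 2) * ((32 * (N : ℝ) + 2 * n) ^ 2 + y ^ 2)
      ≤ (4 * (n : ℝ) ^ 2 * (1 + y ^ 2)) * (16 * (n : ℝ) ^ 2 * (1 + y ^ 2)) :=
        mul_le_mul h3 h4 (by positivity) (by positivity)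
    _ = _ := by ring

lemma g346_ge {n : ℕ} (hn : 1 ≤ n) (y : ℝ) :
    1 + y ^ 2 ≤ (346 * (n : ℝ)) ^ 2 * (1 + (y / n) ^ 2 / (346 : ℝ) ^ 2) := by
  have hn' : (1 : ℝ) ≤ n := by exact_mod_cast hn
  have h1 : (346 * (n : ℝ)) ^ 2 * (1 + (y / n) ^ 2 / (346 : ℝ) ^ 2) = (346 * (n : ℝ)) ^ 2 + y ^ 2 := by
    field_simp
  rw [h1]
  nlinarith

lemma abs_aux (E F g Y s r : ℝ) (hE : 0 ≤ E) (hF : 0 ≤ F) (hY : 1 ≤ Y) (hs : 0 ≤ s)
    (hA : E * (F * g ^ 60) ≤ r ^ 2 * Y) (hB : Y ≤ s ^ 2 * g) :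
    E * F * Y ^ 24 ≤ r ^ 2 * s ^ 120 := by
  have hY0 : 0 < Y := by linarith
  have hB' : Y ^ 60 ≤ (s ^ 2 * g) ^ 60 := pow_le_pow_left₀ hY0.le hB _
  have hT : 0 ≤ E * F := mul_nonneg hE hF
  have h3 : E * F * Y ^ 60 ≤ s ^ 120 * (r ^ 2 * Y) := by
    calc E * F * Y ^ 60 ≤ E * F * (s ^ 2 * g) ^ 60 :=
          mul_le_mul_of_nonneg_left hB' hT
      _ = s ^ 120 * (E * (F * g ^ 60)) := by
          have e1 : (s ^ 2 * g) ^ 60 = s ^ 120 * g ^ 60 := by rw [mul_pow, ← pow_mul]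
          rw [e1]
          generalize s ^ 120 = S
          generalize g ^ 60 = G
          ring
      _ ≤ _ := mul_le_mul_of_nonneg_left hA (pow_nonneg hs _)
  have h4 : E * F * Y ^ 24 * Y ≤ r ^ 2 * s ^ 120 * Y := by
    calc E * F * Y ^ 24 * Y = E * F * Y ^ 25 := by ring
      _ ≤ E * F * Y ^ 60 := mul_le_mul_of_nonneg_left (pow_le_pow_right₀ hY (by norm_num)) hT
      _ ≤ _ := h3
      _ = _ := by ring
  exact le_of_mul_le_mul_right h4 hY0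

/-- `G1_main` from `G1_zero` and `G1_ratio` -/
theorem G1_main_of
    (hzero : ∃ (C : ℝ) (K : ℕ), 0 < C ∧ ∀ N : ℕ, 1 ≤ N → ∀ n : ℕ, n = 24 * N + 1 →
      ‖Rn n (32 * N) 0‖ * ‖aeval (xz n (32 * N) 0) (ZZ n (32 * N))‖ ^ 2 ≤
        C * (n : ℝ) ^ K * (n : ℝ) ^ (128 * N) * Real.exp (n * Phi0))
    (hratio : ∀ {n T : ℕ} (_ : 1 ≤ n) (_ : 1 ≤ T) (y : ℝ) (M : ℕ) (_ : 2 * T + 2 * n ≤ M),
      (‖Rn n T y‖ * ‖aeval (xz n T y) (ZZ n T)‖ ^ 2 * Real.exp (-(Real.pi * |y|))) ^ 2 *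
      ((∏ m ∈ Finset.Ioc T (T + 2 * n), (1 + y ^ 2 / ((m : ℝ) - 1 / 2) ^ 2) ^ 7) *
       (∏ m ∈ Finset.Ioc (2 * T + 2 * n) M, (1 + y ^ 2 / ((m : ℝ) - 1 / 2) ^ 2) ^ 2)) ≤
      (‖Rn n T 0‖ * ‖aeval (xz n T 0) (ZZ n T)‖ ^ 2) ^ 2 * (1 + y ^ 2)) :
    ∃ (C : ℝ) (K : ℕ), 0 < C ∧ ∀ N : ℕ, 1 ≤ N → ∀ n : ℕ, n = 24 * N + 1 → ∀ y : ℝ,
    ‖Rn n (32 * N) y‖ * ‖xz n (32 * N) y‖ ^ 7 * ‖aeval (xz n (32 * N) y) (ZZ n (32 * N))‖ ^ 2 *
      Real.exp (-(Real.pi * |y|)) * (1 + y ^ 2) ^ 5 * FXp ((y / n) ^ 2) ^ N ≤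
      C * (n : ℝ) ^ K * (n : ℝ) ^ (128 * N) * Real.exp (n * Phi0) := by
  obtain ⟨C, K, hC, h0⟩ := hzero
  refine ⟨8 ^ 7 * 346 ^ 60 * C, K + 74, by positivity, ?_⟩
  intro N hN n hnN y
  have hn : 1 ≤ n := by omega
  have hn' : (1 : ℝ) ≤ n := by exact_mod_cast hn
  obtain ⟨g, hg⟩ : ∃ g : ℚ → ℝ, ∀ q : ℚ, g q = 1 + (y / n) ^ 2 / (q : ℝ) ^ 2 := ⟨_, fun _ => rfl⟩
  have hg0 : ∀ q, 0 ≤ g q := fun q => by rw [hg]; positivity
  have hR := hratio (n := n) (T := 32 * N) hn (by omega) y (8288 * N + 32) (by omega)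
  simp only [Finset.prod_pow] at hR
  change (‖Rn n (32 * N) y‖ * ‖aeval (xz n (32 * N) y) (ZZ n (32 * N))‖ ^ 2 * Real.exp (-(Real.pi * |y|))) ^ 2 *
      (PF1 y (32 * N) (32 * N + 2 * n) ^ 7 * PF1 y (2 * (32 * N) + 2 * n) (8288 * N + 32) ^ 2) ≤
      (‖Rn n (32 * N) 0‖ * ‖aeval (xz n (32 * N) 0) (ZZ n (32 * N))‖ ^ 2) ^ 2 * (1 + y ^ 2) at hR
  have k1 := chain n hn y g hg _ _ _ (good1 hN hnN)
  have k2 := chain n hn y g hg _ _ _ (good2 hN hnN)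
  have n1 := cpr_nonneg g hg0 (ch1 N)
  have n2 := cpr_nonneg g hg0 (ch2 N)
  have p1 := n1.trans k1
  have p2 := n2.trans k2
  have hS : cpr g (ch1 N) ^ 7 * cpr g (ch2 N) ^ 2 ≤
      PF1 y (32 * N) (32 * N + 2 * n) ^ 7 * PF1 y (2 * (32 * N) + 2 * n) (8288 * N + 32) ^ 2 := by
    gcongr
  rw [key_prod] at hS
  have hF : FXp ((y / n) ^ 2) = (FX.map fun x => g x.1 ^ x.2).prod := by
    simp only [FXp, hg]
  rw [← hF] at hS
  have hF0 : 0 ≤ FXp ((y / n) ^ 2) := by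
    rw [hF]
    apply List.prod_nonneg
    intro z hz
    obtain ⟨w, _, rfl⟩ := List.mem_map.mp hz
    exact pow_nonneg (hg0 _) _
  have hg346 : 1 + y ^ 2 ≤ (346 * (n : ℝ)) ^ 2 * g 346 := by
    rw [hg]
    have := g346_ge hn y
    push_cast
    exact this
  have hx := xz_sq_le hnN y
  have hR0 : 0 ≤ ‖Rn n (32 * N) 0‖ * ‖aeval (xz n (32 * N) 0) (ZZ n (32 * N))‖ ^ 2 := by positivity
  have hx0 : 0 ≤ ‖xz n (32 * N) y‖ := norm_nonneg _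
  have h1' := h0 N hN n hnN
  -- main inequality, squared
  have hmain : (‖Rn n (32 * N) y‖ * ‖aeval (xz n (32 * N) y) (ZZ n (32 * N))‖ ^ 2 *
      Real.exp (-(Real.pi * |y|))) ^ 2 * (FXp ((y / n) ^ 2) ^ N) ^ 2 * (1 + y ^ 2) ^ 24 ≤
      (‖Rn n (32 * N) 0‖ * ‖aeval (xz n (32 * N) 0) (ZZ n (32 * N))‖ ^ 2) ^ 2 * (346 * (n : ℝ)) ^ 120 := by
    have hA : (‖Rn n (32 * N) y‖ * ‖aeval (xz n (32 * N) y) (ZZ n (32 * N))‖ ^ 2 *
        Real.exp (-(Real.pi * |y|))) ^ 2 * ((FXp ((y / n) ^ 2) ^ N) ^ 2 * g 346 ^ 60) ≤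
        (‖Rn n (32 * N) 0‖ * ‖aeval (xz n (32 * N) 0) (ZZ n (32 * N))‖ ^ 2) ^ 2 * (1 + y ^ 2) :=
      (mul_le_mul_of_nonneg_left hS (sq_nonneg _)).trans hR
    exact abs_aux _ _ _ _ _ _ (by positivity) (by positivity) (le_add_of_nonneg_right (sq_nonneg y))
      (by positivity) hA hg346
  have hsq : (‖Rn n (32 * N) y‖ * ‖xz n (32 * N) y‖ ^ 7 * ‖aeval (xz n (32 * N) y) (ZZ n (32 * N))‖ ^ 2 *
      Real.exp (-(Real.pi * |y|)) * (1 + y ^ 2) ^ 5 *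
      FXp ((y / n) ^ 2) ^ N) ^ 2 ≤ ((8 * (n : ℝ) ^ 2) ^ 7 * (346 * (n : ℝ)) ^ 60 *
        (‖Rn n (32 * N) 0‖ * ‖aeval (xz n (32 * N) 0) (ZZ n (32 * N))‖ ^ 2)) ^ 2 := by
    have hx7 : (‖xz n (32 * N) y‖ ^ 2) ^ 7 ≤ (64 * (n : ℝ) ^ 4 * (1 + y ^ 2) ^ 2) ^ 7 :=
      pow_le_pow_left₀ (by positivity) hx _
    generalize ‖Rn n (32 * N) 0‖ * ‖aeval (xz n (32 * N) 0) (ZZ n (32 * N))‖ ^ 2 = r0 at hmain ⊢
    generalize FXp ((y / n) ^ 2) ^ N = F at hmain ⊢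
    generalize Real.exp (-(Real.pi * |y|)) = e at hmain ⊢
    generalize 1 + y ^ 2 = Y at hmain hx7 ⊢
    generalize ‖Rn n (32 * N) y‖ = r at hmain ⊢
    generalize ‖aeval (xz n (32 * N) y) (ZZ n (32 * N))‖ = a at hmain ⊢
    generalize ‖xz n (32 * N) y‖ = x at hx7 ⊢
    calc (r * x ^ 7 * a ^ 2 * e * Y ^ 5 * F) ^ 2 = ((r * a ^ 2 * e) ^ 2 * F ^ 2 * Y ^ 10) * (x ^ 2) ^ 7 := by ring
      _ ≤ ((r * a ^ 2 * e) ^ 2 * F ^ 2 * Y ^ 10) * (64 * (n : ℝ) ^ 4 * Y ^ 2) ^ 7 :=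
          mul_le_mul_of_nonneg_left hx7 (by positivity)
      _ = (8 * (n : ℝ) ^ 2) ^ 14 * ((r * a ^ 2 * e) ^ 2 * F ^ 2 * Y ^ 24) := by ring
      _ ≤ (8 * (n : ℝ) ^ 2) ^ 14 * (r0 ^ 2 * (346 * (n : ℝ)) ^ 120) :=
          mul_le_mul_of_nonneg_left hmain (by positivity)
      _ = _ := by ring
  have hfin := (le_abs_self _).trans (abs_le_of_sq_le_sq hsq (by positivity))
  calc ‖Rn n (32 * N) y‖ * ‖xz n (32 * N) y‖ ^ 7 * ‖aeval (xz n (32 * N) y) (ZZ n (32 * N))‖ ^ 2 *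
      Real.exp (-(Real.pi * |y|)) * (1 + y ^ 2) ^ 5 * FXp ((y / n) ^ 2) ^ N
      ≤ (8 * (n : ℝ) ^ 2) ^ 7 * (346 * (n : ℝ)) ^ 60 *
        (‖Rn n (32 * N) 0‖ * ‖aeval (xz n (32 * N) 0) (ZZ n (32 * N))‖ ^ 2) := hfin
    _ ≤ (8 * (n : ℝ) ^ 2) ^ 7 * (346 * (n : ℝ)) ^ 60 *
        (C * (n : ℝ) ^ K * (n : ℝ) ^ (128 * N) * Real.exp (n * Phi0)) :=
        mul_le_mul_of_nonneg_left h1' (by positivity)
    _ = 8 ^ 7 * 346 ^ 60 * C * (n : ℝ) ^ (K + 74) * (n : ℝ) ^ (128 * N) * Real.exp (n * Phi0) := by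
        generalize (n : ℝ) ^ (128 * N) = Q
        generalize Real.exp (n * Phi0) = E
        rw [mul_pow, mul_pow, ← pow_mul, pow_add]; ring

end

end Pool.Agent.H216R2.BB
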