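import Pool.Agent.H216R2.BB.Defs
import Pool.Agent.H336R2.HD.G2

/-!
# `G2`: the quadratic factors on the line
-/

open Polynomial Pool.Agent.H337R2

namespace Pool.Agent.H216R2.BB

noncomputable section

namespace G2

open Pool.Agent.H336R2.HD.G2 (factor_norm factor_mono)

lemma g1_bd (b : ℕ) : (0 : ℚ) ≤ g1 b ∧ g1 b ≤ 232 / 100 := by
  unfold g1
  split <;> norm_num

lemma qb_eq {n N : ℕ} (hn : (n : ℂ) ≠ 0) (y : ℝ) (a c : ℚ) :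
    aeval (xz n (32 * N) y) (qb n a c) = (n : ℂ) ^ 4 *
      ((((((32 * N : ℕ) : ℝ) / n + 1 - (a : ℝ) : ℝ) : ℂ) + ((y / n : ℝ) : ℂ) * Complex.I) ^ 2 + ((c : ℝ) : ℂ) ^ 2) *
      ((((((32 * N : ℕ) : ℝ) / n + 1 + (a : ℝ) : ℝ) : ℂ) + ((y / n : ℝ) : ℂ) * Complex.I) ^ 2 + ((c : ℝ) : ℂ) ^ 2) := by
  have e0 : ∀ q : ℚ, (algebraMap ℚ ℂ) q = ((q : ℝ) : ℂ) := by
    intro q
    simp
  unfold qb
  simp only [map_add, map_sub, map_mul, map_pow, aeval_X, aeval_C]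
  have e1 : xz n (32 * N) y + (n : ℂ) ^ 2 =
      ((n : ℂ) * (((((32 * N : ℕ) : ℝ) / n + 1 : ℝ) : ℂ) + ((y / n : ℝ) : ℂ) * Complex.I)) ^ 2 := by
    unfold xz zt
    push_cast
    field_simp
    ring
  have e2 : xz n (32 * N) y + (algebraMap ℚ ℂ) (n : ℚ) ^ 2 =
      ((n : ℂ) * (((((32 * N : ℕ) : ℝ) / n + 1 : ℝ) : ℂ) + ((y / n : ℝ) : ℂ) * Complex.I)) ^ 2 := by
    rw [← e1]
    simp
  rw [e2]
  simp only [e0]
  push_cast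
  ring

end G2

open Pool.Agent.H336R2.HD.G2 (factor_norm factor_mono) in
theorem G2_qb {n N : ℕ} (hN : 100 ≤ N) (hn : n = 24 * N + 1) (y : ℝ) (b : ℕ) :
    ‖aeval (xz n (32 * N) y) (qb n (g1 b) (g2 b))‖ ^ 2 ≤ (n : ℝ) ^ 8 * Gb (g1 b) (g2 b) ((y / n) ^ 2) := by
  obtain ⟨ha0, ha1⟩ := G2.g1_bd b
  have hNr : (100 : ℝ) ≤ N := by exact_mod_cast hN
  have hnr : (n : ℝ) = 24 * N + 1 := by rw [hn]; push_cast; ring
  have hn0 : (0 : ℝ) < n := by rw [hnr]; linarith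
  have hnc : (n : ℂ) ≠ 0 := by exact_mod_cast hn0.ne'
  rw [G2.qb_eq hnc y (g1 b) (g2 b)]
  rw [norm_mul, norm_mul, mul_pow, mul_pow, factor_norm, factor_norm, norm_pow, Complex.norm_natCast,
    ← pow_mul]
  unfold Gb
  have hA0 : (0 : ℝ) ≤ ((g1 b : ℚ) : ℝ) := by exact_mod_cast ha0
  have hA1 : ((g1 b : ℚ) : ℝ) ≤ 232 / 100 := by
    have : ((g1 b : ℚ) : ℝ) ≤ ((232 / 100 : ℚ) : ℝ) := by exact_mod_cast ha1
    refine this.trans (le_of_eq ?_)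
    norm_num
  set a : ℝ := ((g1 b : ℚ) : ℝ) with ha
  set c : ℝ := ((g2 b : ℚ) : ℝ) with hc
  set v : ℝ := (y / n) ^ 2 with hv
  have hv0 : 0 ≤ v := sq_nonneg _
  have ht0 : ((32 * N : ℕ) : ℝ) / n + 1 ≤ 7 / 3 := by
    have : ((32 * N : ℕ) : ℝ) / n ≤ 4 / 3 := by
      rw [div_le_iff₀ hn0, hnr]; push_cast; linarith
    linarith
  have ht1 : 232 / 100 ≤ ((32 * N : ℕ) : ℝ) / n + 1 := by
    have : 132 / 100 ≤ ((32 * N : ℕ) : ℝ) / n := by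
      rw [le_div_iff₀ hn0, hnr]; push_cast; linarith
    linarith
  set t : ℝ := ((32 * N : ℕ) : ℝ) / n + 1 with ht
  have h1 : (t - a) ^ 2 ≤ (7 / 3 - a) ^ 2 := by
    apply pow_le_pow_left₀ _ _ 2
    · linarith
    · linarith
  have h2 : (t + a) ^ 2 ≤ (7 / 3 + a) ^ 2 := by
    apply pow_le_pow_left₀ _ _ 2
    · linarith
    · linarith
  have k1 := factor_mono v c _ _ hv0 (sq_nonneg (t - a)) h1
  have k2 := factor_mono v c _ _ hv0 (sq_nonneg (t + a)) h2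
  have p1 : 0 ≤ (v + (t - a) ^ 2 + c ^ 2) ^ 2 - 4 * c ^ 2 * v := by
    rw [hv, ← factor_norm]; positivity
  have p2 : 0 ≤ (v + (t + a) ^ 2 + c ^ 2) ^ 2 - 4 * c ^ 2 * v := by
    rw [hv, ← factor_norm]; positivity
  have k3 := mul_le_mul k1 k2 p2 (p1.trans k1)
  calc _ = (n : ℝ) ^ 8 * (((v + (t - a) ^ 2 + c ^ 2) ^ 2 - 4 * c ^ 2 * v) *
        ((v + (t + a) ^ 2 + c ^ 2) ^ 2 - 4 * c ^ 2 * v)) := by ring
    _ ≤ _ := mul_le_mul_of_nonneg_left k3 (by positivity)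

end

end Pool.Agent.H216R2.BB
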