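import Pool.Agent.H216R2.BB.Defs

/-! `G5_ZE`. -/

open Polynomial

namespace Pool.Agent.H216R2.BB

noncomputable section

lemma G5e_diff (l : ℕ) : ∏ i ∈ Finset.range l, |(l : ℚ) - i| = (l.factorial : ℚ) := by
  rw [← Finset.prod_range_reflect, ← Finset.prod_range_add_one_eq_factorial]
  push_cast
  apply Finset.prod_congr rfl
  intro i hi
  rw [Finset.mem_range] at hi
  have : ((l - 1 - i : ℕ) : ℚ) = (l : ℚ) - 1 - i := by
    rw [Nat.sub_sub, Nat.cast_sub (by omega)]
    push_cast; ring
  rw [this]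
  have h2 : (l : ℚ) - ((l : ℚ) - 1 - i) = i + 1 := by ring
  rw [h2]
  exact abs_of_nonneg (by positivity)

lemma G5e_prod {T l : ℕ} (hl : l < T) :
    ∏ l' ∈ (Finset.range T).erase l, |(l : ℚ) - l'| = (l.factorial : ℚ) * ((T - 1 - l).factorial : ℚ) := by
  induction T, hl using Nat.le_induction with
  | base =>
    have h : (Finset.range (l + 1)).erase l = Finset.range l := by
      rw [Finset.range_add_one, Finset.erase_insert Finset.notMem_range_self]
    simp only [Nat.succ_eq_add_one]
    rw [h, G5e_diff]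
    simp
  | succ T hT ih =>
    have h : (Finset.range (T + 1)).erase l = insert T ((Finset.range T).erase l) := by
      ext x
      simp only [Finset.mem_erase, Finset.mem_insert, Finset.mem_range]
      have := Nat.succ_le_iff.1 hT
      omega
    have hT' : l < T := hT
    rw [h, Finset.prod_insert (by simp), ih]
    have h1 : T + 1 - 1 - l = (T - 1 - l) + 1 := by omega
    rw [h1, Nat.factorial_succ]
    have h2 : |(l : ℚ) - T| = ((T - 1 - l + 1 : ℕ) : ℚ) := by
      have : ((T - 1 - l + 1 : ℕ) : ℚ) = (T : ℚ) - l := by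
        have h3 : T - 1 - l + 1 = T - l := by omega
        rw [h3, Nat.cast_sub hT'.le]
      rw [this, abs_sub_comm]
      exact abs_of_nonneg (by have : (l : ℚ) < T := by exact_mod_cast hT'
                              linarith)
    rw [h2]
    push_cast
    ring

lemma G5e_prod2 (n T l : ℕ) :
    (∏ l' ∈ Finset.range T, ((l : ℚ) + l' + 1 + 2 * n)) * ((l + 2 * n).factorial : ℚ) =
      ((l + T + 2 * n).factorial : ℚ) := by
  induction T with
  | zero => simp
  | succ T ih =>
    rw [Finset.prod_range_succ]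
    have h : l + (T + 1) + 2 * n = (l + T + 2 * n) + 1 := by ring
    rw [h, Nat.factorial_succ, Nat.cast_mul, ← ih]
    push_cast
    ring

theorem G5_ZE {n T l : ℕ} (hl : l < T) :
    |(ZE n T l).eval (xh n l)| = (l.factorial : ℚ) * ((T - 1 - l).factorial : ℚ) * ((l + T + 2 * n).factorial : ℚ) /
      (((l + 2 * n).factorial : ℚ) * (2 * l + 1 + 2 * n)) := by
  have h0 : (ZE n T l).eval (xh n l) =
      ∏ l' ∈ (Finset.range T).erase l, (((l : ℚ) - l') * ((l : ℚ) + l' + 1 + 2 * n)) := by
    unfold ZE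
    rw [Polynomial.eval_prod]
    apply Finset.prod_congr rfl
    intro l' _
    simp only [eval_sub, eval_X, eval_C, xh]
    ring
  rw [h0, Finset.abs_prod]
  simp only [abs_mul]
  rw [Finset.prod_mul_distrib, G5e_prod hl]
  have h1 : ∏ l' ∈ (Finset.range T).erase l, |(l : ℚ) + l' + 1 + 2 * n| =
      ∏ l' ∈ (Finset.range T).erase l, ((l : ℚ) + l' + 1 + 2 * n) := by
    apply Finset.prod_congr rfl
    intro l' _
    exact abs_of_nonneg (by positivity)
  have h2 : (∏ l' ∈ (Finset.range T).erase l, ((l : ℚ) + l' + 1 + 2 * n)) * ((l : ℚ) + l + 1 + 2 * n) =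
      ∏ l' ∈ Finset.range T, ((l : ℚ) + l' + 1 + 2 * n) :=
    Finset.prod_erase_mul _ _ (Finset.mem_range.2 hl)
  have h3 := G5e_prod2 n T l
  have hf : ((l + 2 * n).factorial : ℚ) ≠ 0 := by exact_mod_cast Nat.factorial_ne_zero _
  have hp : (2 * (l : ℚ) + 1 + 2 * n) ≠ 0 := by positivity
  rw [h1, eq_div_iff (mul_ne_zero hf hp), ← h3, ← h2]
  ring

end

end Pool.Agent.H216R2.BB
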