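import Pool.Agent.H216R2.BB.Defs
import Pool.Agent.H336R2.HD.F6

/-! Task G5s (helper398): superfactorials. -/

open Filter Topology Pool.Agent.H336R2.HD

namespace Pool.Agent.H216R2.BB

noncomputable section

lemma G5s_fact_le (l : ℕ) (hl : 1 ≤ l) :
    Real.log (l.factorial : ℝ) ≤ 1 + Real.log l + ((l : ℝ) * Real.log l - l) := by
  induction l, hl using Nat.le_induction with
  | base => simp
  | succ l hl ih =>
    have hl0 : (0 : ℝ) < l := by exact_mod_cast hl
    have hf : (0 : ℝ) < l.factorial := by exact_mod_cast l.factorial_pos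
    have e : ((l + 1).factorial : ℝ) = ((l : ℝ) + 1) * l.factorial := by
      rw [Nat.factorial_succ]; push_cast; ring
    rw [e, Real.log_mul (by positivity) hf.ne']
    push_cast
    have h1 : 1 - (l : ℝ) / (l + 1) ≤ Real.log (((l : ℝ) + 1) / l) := by
      have h := Real.one_sub_inv_le_log_of_pos (show (0 : ℝ) < ((l : ℝ) + 1) / l by positivity)
      rwa [inv_div] at h
    rw [Real.log_div (by positivity) hl0.ne'] at h1
    have h2 : ((l : ℝ) + 1) * (1 - (l : ℝ) / (l + 1)) = 1 := by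
      field_simp
      ring
    have h3 : ((l : ℝ) + 1) * (1 - (l : ℝ) / (l + 1)) ≤
        ((l : ℝ) + 1) * (Real.log ((l : ℝ) + 1) - Real.log l) :=
      mul_le_mul_of_nonneg_left h1 (by positivity)
    rw [h2] at h3
    linarith

lemma G5s_mvt_low {a b : ℝ} (ha : 1 ≤ a) (hab : a ≤ b) :
    (b - a) * (a * Real.log a - a) ≤ F6_F b - F6_F a := by
  rcases hab.eq_or_lt with h | h
  · subst h
    simp
  · have hc : ContinuousOn F6_F (Set.Icc a b) := fun x hx =>
      (F6_deriv (by linarith [hx.1])).continuousAt.continuousWithinAt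
    obtain ⟨c, hc1, hc2⟩ := exists_hasDerivAt_eq_slope F6_F (fun x => x * Real.log x - x) h hc
      (fun x hx => F6_deriv (by linarith [hx.1]))
    have h1 := F6_mono (x := a) (b := c) ha hc1.1.le
    rw [hc2, le_div_iff₀ (by linarith)] at h1
    linarith

/-- two-sided bounds for the superfactorial -/
lemma G5s_low (M : ℕ) :
    F6_F (M + 1) - F6_F 1 ≤ ∑ l ∈ Finset.range (M + 2), Real.log (l.factorial : ℝ) := by
  induction M with
  | zero => simp [Finset.sum_range_succ]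
  | succ M ih =>
    rw [Finset.sum_range_succ]
    have h2 := F6_log_fact (M + 2) (by omega)
    have h3 := F6_mvt (a := (M : ℝ) + 1) (b := (M : ℝ) + 2) (by
      have : (0 : ℝ) ≤ M := Nat.cast_nonneg M
      linarith) (by linarith)
    push_cast at h2 ⊢
    have e : ((M : ℝ) + 1 + 1) = M + 2 := by ring
    rw [e]
    have e2 : ((M : ℝ) + 2 - (M + 1)) = 1 := by ring
    rw [e2] at h3
    linarith

lemma G5s_upp (M : ℕ) :
    ∑ l ∈ Finset.range (M + 1), Real.log (l.factorial : ℝ) ≤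
      F6_F (M + 1) - F6_F 1 + M * (1 + Real.log (M + 1)) := by
  induction M with
  | zero => simp
  | succ M ih =>
    rw [Finset.sum_range_succ]
    have h2 := G5s_fact_le (M + 1) (by omega)
    have h3 := G5s_mvt_low (a := (M : ℝ) + 1) (b := (M : ℝ) + 2) (by
      have : (0 : ℝ) ≤ M := Nat.cast_nonneg M
      linarith) (by linarith)
    have hM : (0 : ℝ) ≤ M := Nat.cast_nonneg M
    push_cast at h2 ⊢
    have e : ((M : ℝ) + 1 + 1) = M + 2 := by ring
    rw [e]
    have e2 : ((M : ℝ) + 2 - (M + 1)) = 1 := by ring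
    rw [e2] at h3
    have h4 : Real.log ((M : ℝ) + 1) ≤ Real.log (M + 2) := Real.log_le_log (by linarith) (by linarith)
    have h5 : (M : ℝ) * (1 + Real.log (M + 1)) ≤ M * (1 + Real.log (M + 2)) :=
      mul_le_mul_of_nonneg_left (by linarith) hM
    linarith

lemma G5s_xlog_mono {x y : ℝ} (hx : 1 ≤ x) (hy : x ≤ y) : x * Real.log x ≤ y * Real.log y :=
  mul_le_mul hy (Real.log_le_log (by linarith) hy) (Real.log_nonneg hx) (by linarith)

/-- closeness of `F` at two points up to `X` -/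
lemma G5s_close {x y X D : ℝ} (hx : 1 ≤ x) (hy : 1 ≤ y) (hxX : x ≤ X) (hyX : y ≤ X)
    (hD : |x - y| ≤ D) : |F6_F x - F6_F y| ≤ D * (X * Real.log X + X) := by
  have key : ∀ {a b : ℝ}, 1 ≤ a → a ≤ b → b ≤ X → |F6_F b - F6_F a| ≤ (b - a) * (X * Real.log X + X) := by
    intro a b ha hab hb
    have h1 := F6_mvt ha hab
    have h2 := G5s_mvt_low ha hab
    have h3 := G5s_xlog_mono (x := b) (y := X) (by linarith) hb
    have h4 : 0 ≤ a * Real.log a := mul_nonneg (by linarith) (Real.log_nonneg ha)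
    have h5 : 0 ≤ X * Real.log X := mul_nonneg (by linarith) (Real.log_nonneg (by linarith))
    rw [abs_le]
    constructor
    · nlinarith
    · nlinarith
  rcases le_total x y with h | h
  · rw [abs_sub_comm]
    have h1 := key hx h hyX
    have h5 : 0 ≤ X * Real.log X := mul_nonneg (by linarith) (Real.log_nonneg (by linarith))
    refine h1.trans (mul_le_mul_of_nonneg_right ?_ (by linarith))
    rw [abs_sub_comm] at hD
    exact (le_abs_self _).trans hD
  · have h1 := key hy h hxX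
    have h5 : 0 ≤ X * Real.log X := mul_nonneg (by linarith) (Real.log_nonneg (by linarith))
    refine h1.trans (mul_le_mul_of_nonneg_right ?_ (by linarith))
    exact (le_abs_self _).trans hD

/-- bookkeeping -/
lemma G5s_combine {S F0 F1 Fc Y Z Z2 K E : ℝ} (hlow : F1 - -(3 / 4) ≤ S)
    (hupp : S ≤ F0 - -(3 / 4) + Z) (hcl : |F0 - Fc| ≤ K * Y) (hcl2 : |F1 - F0| ≤ 1 * Y)
    (hZ : Z ≤ Z2) (hfin : (K + 1) * Y + 1 ≤ E) (hZY : Z2 = Y) : |S - Fc| ≤ E := by
  subst hZY
  rw [abs_le] at hcl hcl2 ⊢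
  constructor
  · linarith [hcl.1, hcl2.1]
  · linarith [hcl.2, hcl2.2]

/-- bookkeeping -/
lemma G5s_fin {K ε n2 Y X : ℝ} (hK1 : 2 ≤ K) (hε : 0 < ε) (hn2 : 0 ≤ n2)
    (hE : Y ≤ ε / (4 * K) * n2) (hE3 : X ≤ ε / (8 * K) * n2) (hX1 : 1 ≤ X) :
    (K + 1) * (Y + X) + 1 ≤ ε * n2 := by
  have hK0 : 0 < K := by linarith
  have h5 : Y + X ≤ 3 * ε / (8 * K) * n2 := by
    have e : 3 * ε / (8 * K) * n2 = ε / (4 * K) * n2 + ε / (8 * K) * n2 := by
      field_simp
      ring
    rw [e]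
    linarith
  have h6 : (K + 1) * (Y + X) ≤ (K + 1) * (3 * ε / (8 * K) * n2) :=
    mul_le_mul_of_nonneg_left h5 (by linarith)
  have h9 : 0 ≤ ε * n2 := by positivity
  have h7 : (K + 1) * (3 * ε / (8 * K) * n2) ≤ 9 / 16 * (ε * n2) := by
    have e : (K + 1) * (3 * ε / (8 * K) * n2) = (3 / 8 + 3 / (8 * K)) * (ε * n2) := by
      field_simp
    rw [e]
    have h8 : 3 / (8 * K) ≤ 3 / 16 := by
      rw [div_le_div_iff₀ (by positivity) (by norm_num)]
      linarith
    exact mul_le_mul_of_nonneg_right (by linarith) h9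
  have h10 : 1 ≤ ε / 16 * n2 := by
    have h11 : ε / (8 * K) * n2 ≤ ε / 16 * n2 := by
      refine mul_le_mul_of_nonneg_right ?_ hn2
      exact div_le_div_of_nonneg_left hε.le (by norm_num) (by linarith)
    linarith
  have e2 : ε / 16 * n2 = 1 / 16 * (ε * n2) := by ring
  rw [e2] at h10
  linarith

theorem G5_super (a b : ℕ) (ha : 1 ≤ a) : ∀ ε : ℝ, 0 < ε → ∀ᶠ N : ℕ in atTop, ∀ n : ℕ, n = 24 * N + 1 →
    |∑ l ∈ Finset.range (a * N + b), Real.log (l.factorial : ℝ) -
      (((a : ℝ) / 24) ^ 2 / 2 * Real.log n + SS ((a : ℝ) / 24)) * (n : ℝ) ^ 2| ≤ ε * (n : ℝ) ^ 2 := by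
  intro ε hε
  set K : ℝ := (a : ℝ) + b + 1 with hK
  have haR : (1 : ℝ) ≤ a := by exact_mod_cast ha
  have hbR : (0 : ℝ) ≤ b := Nat.cast_nonneg b
  have hK1 : 2 ≤ K := by rw [hK]; linarith
  have hK0 : 0 < K := by linarith
  have hlog : Tendsto (fun x : ℝ => Real.log x / x) atTop (𝓝 0) := by
    have := Real.isLittleO_log_id_atTop.tendsto_div_nhds_zero
    simpa using this
  have hn24 : Tendsto (fun N : ℕ => ((24 * N + 1 : ℕ) : ℝ)) atTop atTop := by
    refine tendsto_natCast_atTop_atTop.comp ?_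
    refine tendsto_atTop_mono (fun N => ?_) tendsto_id
    simp only [id]
    omega
  have hX : Tendsto (fun N : ℕ => K * ((24 * N + 1 : ℕ) : ℝ)) atTop atTop :=
    hn24.const_mul_atTop hK0
  set δ : ℝ := ε / (4 * K ^ 3) with hδ
  have hδ0 : 0 < δ := by positivity
  have hl2 := (hlog.comp hX).eventually (gt_mem_nhds hδ0)
  have hl3 := hn24.eventually (eventually_gt_atTop (8 * K ^ 2 / ε))
  filter_upwards [hl2, hl3, eventually_ge_atTop 24] with N h1 h2 hN n hn
  subst hn
  set n : ℕ := 24 * N + 1 with hn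
  have hnR : (n : ℝ) = 24 * (N : ℝ) + 1 := by rw [hn]; push_cast; ring
  have hNR : (24 : ℝ) ≤ N := by exact_mod_cast hN
  have hn0 : (0 : ℝ) < n := by rw [hnR]; linarith
  set X : ℝ := K * (n : ℝ) with hXd
  have hlX : Real.log X < δ * X := by
    have h9 : Real.log X / X < δ := h1
    rwa [div_lt_iff₀ (by positivity)] at h9
  have hnN : (N : ℝ) ≤ n := by rw [hnR]; linarith
  have hn1 : (1 : ℝ) ≤ n := by rw [hnR]; linarith
  have hX1 : 1 ≤ X := by rw [hXd]; nlinarith
  -- the point M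
  set M : ℕ := a * N + b with hM
  have hMR : (M : ℝ) = a * N + b := by rw [hM]; push_cast; ring
  have hM1 : 24 ≤ M := by
    rw [hM]; nlinarith
  have hM1R : (24 : ℝ) ≤ M := by exact_mod_cast hM1
  have hMX : (M : ℝ) ≤ X := by
    rw [hMR, hXd, hK]
    nlinarith [mul_nonneg hbR (sub_nonneg.mpr hn1), mul_le_mul_of_nonneg_left hnN (by linarith : (0:ℝ) ≤ a)]
  -- the point c n
  set c : ℝ := (a : ℝ) / 24 with hc
  have hc0 : 0 < c := by rw [hc]; positivity
  have hcn1 : 1 ≤ c * n := by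
    rw [hc, hnR]
    nlinarith
  have hcnX : c * n ≤ X := by
    rw [hXd]
    refine mul_le_mul_of_nonneg_right ?_ hn0.le
    rw [hc, hK]; linarith
  have hFc : F6_F (c * n) = (c ^ 2 / 2 * Real.log n + SS c) * (n : ℝ) ^ 2 := by
    unfold F6_F SS
    rw [Real.log_mul hc0.ne' hn0.ne']
    ring
  rw [← hFc]
  -- distances
  have hD1 : |(M : ℝ) - c * n| ≤ K := by
    rw [hMR, hc, hnR]
    have e : (a : ℝ) * N + b - a / 24 * (24 * N + 1) = b - a / 24 := by ring
    rw [e, abs_le, hK]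
    constructor <;> linarith
  have hcl := G5s_close (by linarith : (1 : ℝ) ≤ M) hcn1 hMX hcnX hD1
  have hD2 : |((M : ℝ) - 1) - M| ≤ 1 := by
    rw [abs_le]; constructor <;> linarith
  have hcl2 := G5s_close (by linarith : (1 : ℝ) ≤ (M : ℝ) - 1) (by linarith : (1 : ℝ) ≤ (M : ℝ))
    (by linarith) hMX hD2
  obtain ⟨M', hM'⟩ : ∃ M', M = M' + 2 := ⟨M - 2, by omega⟩
  have hM'R : (M' : ℝ) = M - 2 := by rw [hM']; push_cast; ring
  have hlow := G5s_low M'
  rw [← hM'] at hlow
  have hupp := G5s_upp (M' + 1)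
  have e1 : M' + 1 + 1 = M := by omega
  rw [e1] at hupp
  push_cast at hupp
  rw [hM'R] at hlow hupp
  have e2 : (M : ℝ) - 2 + 1 = M - 1 := by ring
  have e3 : (M : ℝ) - 2 + 1 + 1 = M := by ring
  rw [e2] at hlow
  rw [e3, e2] at hupp
  have hF1 : F6_F 1 = -(3 / 4) := by
    unfold F6_F
    rw [Real.log_one]; ring
  rw [hF1] at hlow hupp
  have hlM : Real.log M ≤ Real.log X := Real.log_le_log (by linarith) hMX
  have hlX0 : 0 ≤ Real.log X := Real.log_nonneg hX1
  have hlM0 : 0 ≤ Real.log M := Real.log_nonneg (by linarith)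
  have hupp2 : ((M : ℝ) - 1) * (1 + Real.log M) ≤ X * (1 + Real.log X) :=
    mul_le_mul (by linarith) (by linarith) (by linarith) (by linarith)
  -- final
  have hE : X * Real.log X ≤ X * (δ * X) := mul_le_mul_of_nonneg_left hlX.le (by linarith)
  have hE2 : X * (δ * X) = ε / (4 * K) * (n : ℝ) ^ 2 := by
    rw [hXd, hδ]
    field_simp
  have hE3 : X ≤ ε / (8 * K) * (n : ℝ) ^ 2 := by
    have h3 : 8 * K ^ 2 / ε < (n : ℝ) := h2
    rw [div_lt_iff₀ hε] at h3
    rw [hXd]
    have e : ε / (8 * K) * (n : ℝ) ^ 2 = K * n * ((n * ε) / (8 * K ^ 2)) := by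
      field_simp
    rw [e]
    have h4 : 1 ≤ (n * ε) / (8 * K ^ 2) := by
      rw [le_div_iff₀ (by positivity)]
      linarith
    exact le_mul_of_one_le_right (mul_pos hK0 hn0).le h4
  have hKK : (K + 1) * (X * Real.log X + X) + 1 ≤ ε * (n : ℝ) ^ 2 :=
    G5s_fin hK1 hε (sq_nonneg _) (hE.trans_eq hE2) hE3 hX1
  exact G5s_combine hlow hupp hcl hcl2 hupp2 hKK (by ring)

end

end Pool.Agent.H216R2.BB
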