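import Pool.Agent.H216R2.BB.G5pre
import Pool.Agent.H216R2.BB.G5s
import Pool.Agent.H216R2.BB.G5e

/-! Task G5: the size of the zone determinant. -/

open Filter Topology Polynomial

namespace Pool.Agent.H216R2.BB

theorem G5_zone : ∀ ε : ℝ, 0 < ε → ∀ᶠ N : ℕ in atTop, ∀ n : ℕ, n = 24 * N + 1 →
    Real.log (∏ l ∈ Finset.range (32 * N), |((wh n l : ℚ) : ℝ)|) + Real.log |((VD n (32 * N) : ℚ) : ℝ)| ≤
      32 / 9 * (n : ℝ) ^ 2 * Real.log n + (ZT + ε) * (n : ℝ) ^ 2 :=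
  G5_zone_of G5_super (fun _ _ _ hl => G5_ZE hl)

end Pool.Agent.H216R2.BB
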