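import Pool.Agent.H216R2.BB.Defs

/-! Task G5 (preliminary part): the size of the zone determinant, from the superfactorial
asymptotics and the formula for the zone polynomials at the zone points. -/

open Filter Topology Polynomial

namespace Pool.Agent.H216R2.BB

noncomputable section

/-- `S(M) = ∑_{l<M} log l!` -/
def G5_S (M : ℕ) : ℝ := ∑ l ∈ Finset.range M, Real.log (l.factorial : ℝ)

lemma G5_log_fact (m : ℕ) (hm : 1 ≤ m) :
    Real.log (m.factorial : ℝ) ≤ m * Real.log m - m + 1 + Real.log m := by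
  induction m, hm using Nat.le_induction with
  | base => simp
  | succ m hm ih =>
    have hm0 : (0 : ℝ) < m := by exact_mod_cast hm
    have hm1 : (0 : ℝ) < (m : ℝ) + 1 := by linarith
    have hf : ((m.factorial : ℕ) : ℝ) ≠ 0 := by exact_mod_cast (Nat.factorial_pos m).ne'
    rw [Nat.factorial_succ]
    push_cast
    rw [Real.log_mul hm1.ne' hf]
    have h1 : 1 / ((m : ℝ) + 1) ≤ Real.log (m + 1) - Real.log m := by
      rw [← Real.log_div hm1.ne' hm0.ne']
      have h := Real.one_sub_inv_le_log_of_pos (show 0 < ((m : ℝ) + 1) / m by positivity)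
      rw [inv_div] at h
      have e : 1 - (m : ℝ) / (m + 1) = 1 / (m + 1) := by
        field_simp
        ring
      rwa [e] at h
    have h2 : 1 ≤ ((m : ℝ) + 1) * (Real.log (m + 1) - Real.log m) := by
      have := mul_le_mul_of_nonneg_left h1 hm1.le
      rwa [mul_one_div_cancel hm1.ne'] at this
    linarith

/-- reflection -/
lemma G5_reflect (T : ℕ) :
    ∑ l ∈ Finset.range T, Real.log ((T - 1 - l).factorial : ℝ) = G5_S T := by
  unfold G5_S
  exact Finset.sum_range_reflect (fun l => Real.log (l.factorial : ℝ)) T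

/-- shift -/
lemma G5_shift (T m : ℕ) :
    ∑ l ∈ Finset.range T, Real.log ((l + m).factorial : ℝ) = G5_S (T + m) - G5_S m := by
  unfold G5_S
  rw [add_comm T m, Finset.sum_range_add]
  simp only [add_comm m]
  ring

/-- the product of the shifted half integers -/
lemma G5_prod (n l : ℕ) :
    ((l + 2 * n).factorial : ℝ) ≤
      2 * (l.factorial : ℝ) * ∏ k ∈ Finset.range (2 * n + 1), ((l : ℝ) + k + 1 / 2) := by
  have key : ∀ m : ℕ, ((l + m).factorial : ℝ) ≤
      2 * (l.factorial : ℝ) * ∏ k ∈ Finset.range (m + 1), ((l : ℝ) + k + 1 / 2) := by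
    intro m
    induction m with
    | zero =>
      have h1 : (0 : ℝ) < l.factorial := by exact_mod_cast Nat.factorial_pos l
      have h2 : (0 : ℝ) ≤ l := Nat.cast_nonneg l
      simp
      nlinarith
    | succ m ih =>
      rw [Finset.prod_range_succ, ← mul_assoc, ← add_assoc, Nat.factorial_succ]
      have h1 : (0 : ℝ) ≤ (l + m).factorial := Nat.cast_nonneg _
      have h2 : (0 : ℝ) ≤ (l : ℝ) + m := by positivity
      push_cast
      rw [mul_comm]
      exact mul_le_mul ih (by linarith) (by linarith) (h1.trans ih)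
  exact key (2 * n)

/-- a bound for one row -/
lemma G5_row {n T l : ℕ} (hn : 1 ≤ n) (hT : T ≤ 2 * n) (hl : l < T)
    (hE : |(ZE n T l).eval (xh n l)| = (l.factorial : ℚ) * ((T - 1 - l).factorial : ℚ) * ((l + T + 2 * n).factorial : ℚ) /
      (((l + 2 * n).factorial : ℚ) * (2 * l + 1 + 2 * n))) :
    Real.log |((wh n l : ℚ) : ℝ)| + Real.log |(((ZE n T l).eval (xh n l) : ℚ) : ℝ)| ≤
      5 * Real.log ((2 * n).factorial : ℝ) + 6 * Real.log (l.factorial : ℝ) +
        Real.log ((T - 1 - l).factorial : ℝ) + Real.log ((l + (T + 2 * n)).factorial : ℝ) -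
        6 * Real.log ((l + 2 * n).factorial : ℝ) + 14 * Real.log n + 26 * Real.log 2 := by
  have hn0 : (0 : ℝ) < n := by exact_mod_cast hn
  have hl0 : (0 : ℝ) ≤ l := Nat.cast_nonneg l
  have hlT : (l : ℝ) + 1 ≤ 2 * n := by
    have : l + 1 ≤ 2 * n := by omega
    exact_mod_cast this
  have hF : (0 : ℝ) < ((2 * n).factorial : ℝ) := by exact_mod_cast Nat.factorial_pos _
  have hA : (0 : ℝ) < (l.factorial : ℝ) := by exact_mod_cast Nat.factorial_pos _
  have hB : (0 : ℝ) < ((T - 1 - l).factorial : ℝ) := by exact_mod_cast Nat.factorial_pos _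
  have hD : (0 : ℝ) < ((l + (T + 2 * n)).factorial : ℝ) := by exact_mod_cast Nat.factorial_pos _
  have hE0 : (0 : ℝ) < ((l + 2 * n).factorial : ℝ) := by exact_mod_cast Nat.factorial_pos _
  have hc : (0 : ℝ) < 2 * l + 1 + 2 * n := by positivity
  have hP : (0 : ℝ) < ∏ k ∈ Finset.range (2 * n + 1), ((l : ℝ) + k + 1 / 2) :=
    Finset.prod_pos fun k _ => by positivity
  have hX : (0 : ℝ) < ((l : ℝ) + 1 / 2) * ((l : ℝ) + 1 / 2 + 2 * n) := by positivity
  -- the weight
  have hw : |((wh n l : ℚ) : ℝ)| = ((2 * n).factorial : ℝ) ^ 5 * (2 * l + 1 + 2 * n) /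
      (∏ k ∈ Finset.range (2 * n + 1), ((l : ℝ) + k + 1 / 2)) ^ 5 *
      (((l : ℝ) + 1 / 2) * ((l : ℝ) + 1 / 2 + 2 * n)) ^ 7 := by
    rw [abs_of_nonneg]
    · unfold wh xh
      push_cast
      rfl
    · unfold wh xh
      push_cast
      positivity
  -- the zone polynomial
  have hz : |(((ZE n T l).eval (xh n l) : ℚ) : ℝ)| = (l.factorial : ℝ) * ((T - 1 - l).factorial : ℝ) *
      ((l + (T + 2 * n)).factorial : ℝ) / (((l + 2 * n).factorial : ℝ) * (2 * l + 1 + 2 * n)) := by
    rw [← Rat.cast_abs, hE, add_assoc l T]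
    push_cast
    rfl
  have lw : Real.log |((wh n l : ℚ) : ℝ)| = 5 * Real.log ((2 * n).factorial : ℝ) +
      Real.log (2 * l + 1 + 2 * n) -
      5 * Real.log (∏ k ∈ Finset.range (2 * n + 1), ((l : ℝ) + k + 1 / 2)) +
      7 * Real.log (((l : ℝ) + 1 / 2) * ((l : ℝ) + 1 / 2 + 2 * n)) := by
    rw [hw, Real.log_mul (by positivity) (by positivity), Real.log_div (by positivity) (by positivity),
      Real.log_mul (by positivity) (by positivity), Real.log_pow, Real.log_pow, Real.log_pow]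
    push_cast
    ring
  have lz : Real.log |(((ZE n T l).eval (xh n l) : ℚ) : ℝ)| = Real.log (l.factorial : ℝ) +
      Real.log ((T - 1 - l).factorial : ℝ) + Real.log ((l + (T + 2 * n)).factorial : ℝ) -
      (Real.log ((l + 2 * n).factorial : ℝ) + Real.log (2 * l + 1 + 2 * n)) := by
    rw [hz, Real.log_div (by positivity) (by positivity), Real.log_mul (by positivity) (by positivity),
      Real.log_mul (by positivity) (by positivity), Real.log_mul (by positivity) (by positivity)]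
  have lP : Real.log ((l + 2 * n).factorial : ℝ) ≤ Real.log 2 + Real.log (l.factorial : ℝ) +
      Real.log (∏ k ∈ Finset.range (2 * n + 1), ((l : ℝ) + k + 1 / 2)) := by
    have h := Real.log_le_log hE0 (G5_prod n l)
    rwa [Real.log_mul (by positivity) (by positivity), Real.log_mul (by positivity) (by positivity)] at h
  have lX : Real.log (((l : ℝ) + 1 / 2) * ((l : ℝ) + 1 / 2 + 2 * n)) ≤ 3 * Real.log 2 + 2 * Real.log n := by
    have h : ((l : ℝ) + 1 / 2) * ((l : ℝ) + 1 / 2 + 2 * n) ≤ 2 ^ 3 * (n : ℝ) ^ 2 := by nlinarith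
    have h' := Real.log_le_log hX h
    have e : Real.log (2 ^ 3 * (n : ℝ) ^ 2) = 3 * Real.log 2 + 2 * Real.log n := by
      rw [Real.log_mul (by positivity) (by positivity), Real.log_pow, Real.log_pow]
      push_cast
      ring
    rwa [e] at h'
  rw [lw, lz]
  linarith

/-- the sum of the row bounds -/
lemma G5_total {n T : ℕ} (hn : 1 ≤ n) (hT : T ≤ 2 * n)
    (hE : ∀ l < T, |(ZE n T l).eval (xh n l)| = (l.factorial : ℚ) * ((T - 1 - l).factorial : ℚ) *
      ((l + T + 2 * n).factorial : ℚ) / (((l + 2 * n).factorial : ℚ) * (2 * l + 1 + 2 * n))) :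
    Real.log (∏ l ∈ Finset.range T, |((wh n l : ℚ) : ℝ)|) + Real.log |((VD n T : ℚ) : ℝ)| ≤
      7 * G5_S T + (G5_S (T + (T + 2 * n)) - G5_S (T + 2 * n)) - 6 * (G5_S (T + 2 * n) - G5_S (2 * n)) +
        T * (5 * Real.log ((2 * n).factorial : ℝ) + 14 * Real.log n + 26 * Real.log 2) := by
  have hn0 : (0 : ℝ) < n := by exact_mod_cast hn
  have hw0 : ∀ l ∈ Finset.range T, |((wh n l : ℚ) : ℝ)| ≠ 0 := by
    intro l _
    have hP : (0 : ℝ) < ∏ k ∈ Finset.range (2 * n + 1), ((l : ℝ) + k + 1 / 2) :=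
      Finset.prod_pos fun k _ => by positivity
    have hF : (0 : ℝ) < ((2 * n).factorial : ℝ) := by exact_mod_cast Nat.factorial_pos _
    unfold wh xh
    push_cast
    positivity
  have hz0 : ∀ l ∈ Finset.range T, |(((ZE n T l).eval (xh n l) : ℚ) : ℝ)| ≠ 0 := by
    intro l hl
    rw [← Rat.cast_abs, hE l (Finset.mem_range.1 hl)]
    have h1 : (0 : ℝ) < (l.factorial : ℝ) := by exact_mod_cast Nat.factorial_pos _
    have h2 : (0 : ℝ) < ((T - 1 - l).factorial : ℝ) := by exact_mod_cast Nat.factorial_pos _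
    have h3 : (0 : ℝ) < ((l + T + 2 * n).factorial : ℝ) := by exact_mod_cast Nat.factorial_pos _
    have h4 : (0 : ℝ) < ((l + 2 * n).factorial : ℝ) := by exact_mod_cast Nat.factorial_pos _
    push_cast
    positivity
  have hV : |((VD n T : ℚ) : ℝ)| = ∏ l ∈ Finset.range T, |(((ZE n T l).eval (xh n l) : ℚ) : ℝ)| := by
    unfold VD
    push_cast
    rw [Finset.abs_prod]
  rw [hV, Real.log_prod hw0, Real.log_prod hz0, ← Finset.sum_add_distrib]
  refine (Finset.sum_le_sum fun l hl => G5_row hn hT (Finset.mem_range.1 hl)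
    (hE l (Finset.mem_range.1 hl))).trans (le_of_eq ?_)
  simp only [Finset.sum_add_distrib, Finset.sum_sub_distrib, ← Finset.mul_sum, Finset.sum_const,
    Finset.card_range, nsmul_eq_mul]
  rw [G5_reflect, G5_shift, G5_shift]
  unfold G5_S
  ring

/-- the superfactorial asymptotics (task G5s) -/
def G5_HS : Prop := ∀ (a b : ℕ), 1 ≤ a → ∀ ε : ℝ, 0 < ε → ∀ᶠ N : ℕ in atTop, ∀ n : ℕ, n = 24 * N + 1 →
    |∑ l ∈ Finset.range (a * N + b), Real.log (l.factorial : ℝ) -
      (((a : ℝ) / 24) ^ 2 / 2 * Real.log n + SS ((a : ℝ) / 24)) * (n : ℝ) ^ 2| ≤ ε * (n : ℝ) ^ 2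

/-- the zone polynomials at the zone points (task G5e) -/
def G5_HE : Prop := ∀ (n T l : ℕ), l < T →
    |(ZE n T l).eval (xh n l)| = (l.factorial : ℚ) * ((T - 1 - l).factorial : ℚ) * ((l + T + 2 * n).factorial : ℚ) /
      (((l + 2 * n).factorial : ℚ) * (2 * l + 1 + 2 * n))

theorem G5_zone_of (hS : G5_HS) (hE : G5_HE) : ∀ ε : ℝ, 0 < ε → ∀ᶠ N : ℕ in atTop, ∀ n : ℕ, n = 24 * N + 1 →
    Real.log (∏ l ∈ Finset.range (32 * N), |((wh n l : ℚ) : ℝ)|) + Real.log |((VD n (32 * N) : ℚ) : ℝ)| ≤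
      32 / 9 * (n : ℝ) ^ 2 * Real.log n + (ZT + ε) * (n : ℝ) ^ 2 := by
  intro ε hε
  have hδ : 0 < ε / 42 := by positivity
  have h32 := hS 32 0 (by norm_num) (ε / 42) hδ
  have h112 := hS 112 2 (by norm_num) (ε / 42) hδ
  have h80 := hS 80 2 (by norm_num) (ε / 42) hδ
  have h48 := hS 48 2 (by norm_num) (ε / 42) hδ
  have hlog : Tendsto (fun x : ℝ => Real.log x / x) atTop (𝓝 0) := by
    have := Real.isLittleO_log_id_atTop.tendsto_div_nhds_zero
    simpa using this
  have ht : Tendsto (fun N : ℕ => (24 * (N : ℝ) + 1)) atTop atTop :=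
    tendsto_atTop_add_const_right _ _ (tendsto_natCast_atTop_atTop.const_mul_atTop (by norm_num))
  have hl1 := (hlog.comp ht).eventually (gt_mem_nhds (show (0 : ℝ) < ε / 240 by positivity))
  have hl2 := ht.eventually (eventually_gt_atTop (300 / ε))
  filter_upwards [h32, h112, h80, h48, hl1, hl2, eventually_ge_atTop 1] with N e32 e112 e80 e48 g1 g2 hN n hn
  have e32 := e32 n hn
  have e112 := e112 n hn
  have e80 := e80 n hn
  have e48 := e48 n hn
  have hn1 : 1 ≤ n := by omega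
  have hnr : (n : ℝ) = 24 * N + 1 := by
    rw [hn]
    push_cast
    ring
  have hN1 : (1 : ℝ) ≤ N := by exact_mod_cast hN
  have hn25 : (25 : ℝ) ≤ n := by rw [hnr]; linarith
  have hn0 : (0 : ℝ) < n := by linarith
  have a1 : (((32 : ℕ) : ℝ) / 24) = 4 / 3 := by norm_num
  have a2 : (((112 : ℕ) : ℝ) / 24) = 14 / 3 := by norm_num
  have a3 : (((80 : ℕ) : ℝ) / 24) = 10 / 3 := by norm_num
  have a4 : (((48 : ℕ) : ℝ) / 24) = 2 := by norm_num
  rw [a1] at e32
  rw [a2] at e112
  rw [a3] at e80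
  rw [a4] at e48
  have b1 : 32 * N + 0 = 32 * N := by ring
  have b2 : 112 * N + 2 = 32 * N + (32 * N + 2 * n) := by omega
  have b3 : 80 * N + 2 = 32 * N + 2 * n := by omega
  have b4 : 48 * N + 2 = 2 * n := by omega
  rw [b1] at e32
  rw [b2] at e112
  rw [b3] at e80
  rw [b4] at e48
  change |G5_S (32 * N) - _| ≤ _ at e32
  change |G5_S (32 * N + (32 * N + 2 * n)) - _| ≤ _ at e112
  change |G5_S (32 * N + 2 * n) - _| ≤ _ at e80
  change |G5_S (2 * n) - _| ≤ _ at e48
  rw [abs_le] at e32 e112 e80 e48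
  have tot := G5_total (T := 32 * N) hn1 (by omega) (fun l hl => hE n (32 * N) l hl)
  refine tot.trans ?_
  have hfac := G5_log_fact (2 * n) (by omega)
  have h2n : Real.log ((2 * n : ℕ) : ℝ) = Real.log 2 + Real.log n := by
    push_cast
    rw [Real.log_mul (by norm_num) hn0.ne']
  rw [h2n] at hfac
  push_cast at hfac
  have hL2 : Real.log 2 ≤ 1 := by
    have := Real.log_two_lt_d9
    linarith
  have hL20 : 0 ≤ Real.log 2 := Real.log_nonneg (by norm_num)
  have hLn : 1 ≤ Real.log n := by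
    rw [Real.le_log_iff_exp_le hn0]
    have := Real.exp_one_lt_d9
    linarith
  have hg1 : Real.log n ≤ ε / 240 * n := by
    have : Real.log (24 * (N : ℝ) + 1) / (24 * (N : ℝ) + 1) < ε / 240 := g1
    rw [← hnr, div_lt_iff₀ hn0] at this
    exact this.le
  have hg2 : 300 ≤ ε * n := by
    rw [← hnr, div_lt_iff₀ hε] at g2
    linarith
  set L := Real.log (n : ℝ) with hL
  set F := Real.log ((2 * n).factorial : ℝ) with hF
  have hT : ((32 * N : ℕ) : ℝ) ≤ 4 / 3 * n := by
    push_cast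
    rw [hnr]
    linarith
  have hT0 : (0 : ℝ) ≤ ((32 * N : ℕ) : ℝ) := Nat.cast_nonneg _
  have c1 : ((32 * N : ℕ) : ℝ) * (5 * F + 14 * L + 26 * Real.log 2) ≤
      4 / 3 * n * (5 * (2 * n * (Real.log 2 + L) - 2 * n + 1 + (Real.log 2 + L)) + 14 * L + 26 * Real.log 2) := by
    have hpos : 0 ≤ 5 * (2 * (n : ℝ) * (Real.log 2 + L) - 2 * n + 1 + (Real.log 2 + L)) + 14 * L + 26 * Real.log 2 := by
      have : 0 ≤ 2 * (n : ℝ) * (Real.log 2 + L - 1) := by
        apply mul_nonneg (by linarith)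
        linarith
      nlinarith
    calc ((32 * N : ℕ) : ℝ) * (5 * F + 14 * L + 26 * Real.log 2) ≤
        ((32 * N : ℕ) : ℝ) * (5 * (2 * n * (Real.log 2 + L) - 2 * n + 1 + (Real.log 2 + L)) + 14 * L +
          26 * Real.log 2) := by
          apply mul_le_mul_of_nonneg_left _ hT0
          linarith
      _ ≤ _ := mul_le_mul_of_nonneg_right hT hpos
  have c2 : 4 / 3 * n * (5 * (1 + (Real.log 2 + L)) + 14 * L + 26 * Real.log 2) ≤ ε / 2 * (n : ℝ) ^ 2 := by
    have d1 : 4 / 3 * (5 * (1 + (Real.log 2 + L)) + 14 * L + 26 * Real.log 2) ≤ ε / 2 * n := by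
      nlinarith
    calc 4 / 3 * n * (5 * (1 + (Real.log 2 + L)) + 14 * L + 26 * Real.log 2) =
        (4 / 3 * (5 * (1 + (Real.log 2 + L)) + 14 * L + 26 * Real.log 2)) * n := by ring
      _ ≤ (ε / 2 * n) * n := mul_le_mul_of_nonneg_right d1 hn0.le
      _ = _ := by ring
  have hZ : (ZT + ε) * (n : ℝ) ^ 2 = (7 * SS (4 / 3) + SS (14 / 3) - 7 * SS (10 / 3) + 6 * SS 2 +
      20 / 3 * (2 * Real.log 2 - 2)) * (n : ℝ) ^ 2 + ε * (n : ℝ) ^ 2 := by
    unfold ZT
    ring
  rw [hZ]
  have f1 := e32.2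
  have f2 := e112.2
  have f3 := e80.1
  have f4 := e48.2
  have hexp : 4 / 3 * n * (5 * (2 * n * (Real.log 2 + L) - 2 * n + 1 + (Real.log 2 + L)) + 14 * L + 26 * Real.log 2) =
      20 / 3 * (2 * Real.log 2 - 2) * (n : ℝ) ^ 2 + 40 / 3 * (n : ℝ) ^ 2 * L +
      4 / 3 * n * (5 * (1 + (Real.log 2 + L)) + 14 * L + 26 * Real.log 2) := by ring
  rw [hexp] at c1
  nlinarith

end

end Pool.Agent.H216R2.BB
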