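import Pool.Agent.H216R2.BB.Defs
import Pool.Agent.H216R2.BB.G5e

open Polynomial Pool.Agent.H337R2

namespace Pool.Agent.H216R2.BB

noncomputable section

namespace G6a

lemma prodP_succ (n l : ℕ) :
    (∏ k ∈ Finset.range (2 * n + 1), (((l + 1 : ℕ) : ℚ) + k + 1 / 2)) * ((l : ℚ) + 1 / 2) =
      (∏ k ∈ Finset.range (2 * n + 1), ((l : ℚ) + k + 1 / 2)) * ((l : ℚ) + 2 * n + 3 / 2) := by
  have h1 := Finset.prod_range_succ (fun k : ℕ => ((l : ℚ) + k + 1 / 2)) (2 * n + 1)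
  have h2 := Finset.prod_range_succ' (fun k : ℕ => ((l : ℚ) + k + 1 / 2)) (2 * n + 1)
  rw [h1] at h2
  have h3 : ∀ k : ℕ, ((l : ℚ) + ((k + 1 : ℕ) : ℚ) + 1 / 2) = (((l + 1 : ℕ) : ℚ) + k + 1 / 2) := by
    intro k; push_cast; ring
  simp only [h3] at h2
  have h4 : ((l + 1 : ℕ) : ℚ) + ((2 * n : ℕ) : ℚ) + 1 / 2 = (l : ℚ) + 2 * n + 3 / 2 := by
    push_cast; ring
  rw [h4] at h2
  rw [h2]
  push_cast
  ring

lemma prodP_pos (n l : ℕ) : 0 < ∏ k ∈ Finset.range (2 * n + 1), ((l : ℚ) + k + 1 / 2) := by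
  apply Finset.prod_pos
  intro k _
  positivity

lemma xh_pos (n l : ℕ) : 0 < xh n l := by
  unfold xh; positivity

lemma wh_pos (n l : ℕ) : 0 < wh n l := by
  unfold wh
  have := prodP_pos n l
  have := xh_pos n l
  positivity

lemma wh_succ (n l : ℕ) :
    wh n (l + 1) * ((2 * l + 1 + 2 * n) * ((l : ℚ) + 2 * n + 3 / 2) ^ 5 * xh n l ^ 7) =
      wh n l * ((2 * l + 3 + 2 * n) * ((l : ℚ) + 1 / 2) ^ 5 * xh n (l + 1) ^ 7) := by
  have hP := prodP_succ n l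
  have h0 := prodP_pos n l
  have h1 := prodP_pos n (l + 1)
  unfold wh
  set P := ∏ k ∈ Finset.range (2 * n + 1), ((l : ℚ) + k + 1 / 2)
  set P' := ∏ k ∈ Finset.range (2 * n + 1), (((l + 1 : ℕ) : ℚ) + k + 1 / 2)
  have h5 : P' ^ 5 * ((l : ℚ) + 1 / 2) ^ 5 = P ^ 5 * ((l : ℚ) + 2 * n + 3 / 2) ^ 5 := by
    rw [← mul_pow, hP, mul_pow]
  have hP0 : P ^ 5 ≠ 0 := by positivity
  have hP1 : P' ^ 5 ≠ 0 := by positivity
  rw [div_mul_eq_mul_div, div_mul_eq_mul_div, div_mul_eq_mul_div, div_mul_eq_mul_div, div_eq_div_iff hP1 hP0]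
  push_cast
  have : ∀ A B C D E F : ℚ, True := fun _ _ _ _ _ _ => trivial
  calc _ = ((2 * n).factorial : ℚ) ^ 5 * (2 * (l + 1) + 1 + 2 * n) * xh n (l + 1) ^ 7 *
        (2 * l + 1 + 2 * n) * xh n l ^ 7 * (P ^ 5 * ((l : ℚ) + 2 * n + 3 / 2) ^ 5) := by ring
    _ = _ := by rw [← h5]; ring

/-- the value of `qb` at `xh n l` -/
lemma qb_eval (n l : ℕ) (a b : ℚ) : (qb n a b).eval (xh n l) =
    (((l : ℚ) + 1 / 2 + n) ^ 2 - (a ^ 2 - b ^ 2) * n ^ 2) ^ 2 + 4 * a ^ 2 * b ^ 2 * n ^ 4 := by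
  unfold qb xh
  simp only [eval_add, eval_sub, eval_mul, eval_pow, eval_X, eval_C]
  ring

lemma qb_mono {n l : ℕ} {a b : ℚ} (hab : 4 ≤ a ^ 2 - b ^ 2) (hl : (l : ℚ) + 3 / 2 ≤ n) :
    (qb n a b).eval (xh n (l + 1)) ≤ (qb n a b).eval (xh n l) := by
  rw [qb_eval, qb_eval]
  push_cast
  have h1 : ((l : ℚ) + 1 + 1 / 2 + n) ^ 2 ≤ (a ^ 2 - b ^ 2) * n ^ 2 := by
    have : ((l : ℚ) + 1 + 1 / 2 + n) ≤ 2 * n := by linarith
    have h0 : (0 : ℚ) ≤ (l : ℚ) + 1 + 1 / 2 + n := by positivity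
    nlinarith [mul_le_mul this this h0 (by positivity), sq_nonneg (n : ℚ)]
  have h2 : ((l : ℚ) + 1 / 2 + n) ^ 2 ≤ ((l : ℚ) + 1 + 1 / 2 + n) ^ 2 := by
    have h0 : (0 : ℚ) ≤ (l : ℚ) + 1 / 2 + n := by positivity
    nlinarith
  nlinarith

lemma qb_nonneg {n l : ℕ} {a b : ℚ} : 0 ≤ (qb n a b).eval (xh n l) := by
  rw [qb_eval]
  positivity

lemma HH_mono {n l N : ℕ} (hl : (l : ℚ) + 3 / 2 ≤ n) :
    0 ≤ (HH n N).eval (xh n (l + 1)) ∧ (HH n N).eval (xh n (l + 1)) ≤ (HH n N).eval (xh n l) := by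
  unfold HH
  rw [eval_prod, eval_prod]
  simp only [eval_pow]
  constructor
  · apply Finset.prod_nonneg
    intro b _
    exact pow_nonneg qb_nonneg _
  · apply Finset.prod_le_prod
    · intro b _
      exact pow_nonneg qb_nonneg _
    · intro b hb
      apply pow_le_pow_left₀ qb_nonneg
      apply qb_mono _ hl
      have : b < 4 := Finset.mem_range.1 hb
      interval_cases b <;> norm_num [g1, g2]

lemma ratio_le {L n T : ℚ} (hL : 1 / 2 ≤ L) (hn : 2401 ≤ n) (hLn : L + 1 ≤ n)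
    (hT : T ≤ 2 / 3 * (L + 2 * n + 1 / 2)) (hTl : (L + 1 / 2) ≤ 3 * (T - 1 / 2 - L)) (hT0 : 0 ≤ T) :
    ((L + 1) * (L + 1 + 2 * n)) ^ 7 * (L + n) * L ^ 5 * ((L + 1 / 2) * (L + T + 2 * n + 1 / 2)) ^ 2 ≤
      (L * (L + 2 * n)) ^ 7 * (L + n + 1) * (L + 2 * n + 1) ^ 5 *
        ((T - 1 / 2 - L) * (L + 2 * n + 1 / 2)) ^ 2 := by
  have hL0 : 0 < L := by linarith
  have hTL : 0 ≤ T - 1 / 2 - L := by linarith
  have e1 : (L + 1 / 2) ^ 2 ≤ 9 * (T - 1 / 2 - L) ^ 2 := by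
    calc (L + 1 / 2) ^ 2 ≤ (3 * (T - 1 / 2 - L)) ^ 2 := by
          apply pow_le_pow_left₀ (by linarith) hTl
      _ = _ := by ring
  have e2 : (L + T + 2 * n + 1 / 2) ^ 2 ≤ 25 / 9 * (L + 2 * n + 1 / 2) ^ 2 := by
    calc (L + T + 2 * n + 1 / 2) ^ 2 ≤ (5 / 3 * (L + 2 * n + 1 / 2)) ^ 2 := by
          apply pow_le_pow_left₀ (by linarith) (by linarith)
      _ = _ := by ring
  have e3 : (L + 1) ^ 5 ≤ 1 / 243 * (L + 2 * n + 1) ^ 5 := by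
    calc (L + 1) ^ 5 ≤ (1 / 3 * (L + 2 * n + 1)) ^ 5 := by
          apply pow_le_pow_left₀ (by linarith) (by linarith)
      _ = _ := by ring
  have e4 : (L + 1) ^ 2 ≤ 9 * L ^ 2 := by
    calc (L + 1) ^ 2 ≤ (3 * L) ^ 2 := by
          apply pow_le_pow_left₀ (by linarith) (by linarith)
      _ = _ := by ring
  have e5 : (L + 1 + 2 * n) ^ 7 ≤ 101 / 100 * (L + 2 * n) ^ 7 := by
    calc (L + 1 + 2 * n) ^ 7 ≤ (4803 / 4802 * (L + 2 * n)) ^ 7 := by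
          apply pow_le_pow_left₀ (by linarith) (by linarith)
      _ = (4803 / 4802) ^ 7 * (L + 2 * n) ^ 7 := by ring
      _ ≤ _ := by
          apply mul_le_mul_of_nonneg_right (by norm_num)
          apply pow_nonneg; linarith
  have e6 : L + n ≤ L + n + 1 := by linarith
  have p1 : 0 ≤ L + 2 * n + 1 := by linarith
  have p2 : 0 ≤ L + 2 * n := by linarith
  have p3 : 0 ≤ L + n := by linarith
  have p4 : 0 ≤ L + 2 * n + 1 / 2 := by linarith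
  have p5 : 0 ≤ L + T + 2 * n + 1 / 2 := by linarith
  have p6 : 0 ≤ L + n + 1 := by linarith
  have p7 : 0 ≤ L + 1 + 2 * n := by linarith
  calc ((L + 1) * (L + 1 + 2 * n)) ^ 7 * (L + n) * L ^ 5 * ((L + 1 / 2) * (L + T + 2 * n + 1 / 2)) ^ 2
      = L ^ 5 * ((L + 1) ^ 5 * ((L + 1) ^ 2 * ((L + 1 + 2 * n) ^ 7 * ((L + n) *
          ((L + 1 / 2) ^ 2 * (L + T + 2 * n + 1 / 2) ^ 2))))) := by ring
    _ ≤ L ^ 5 * ((1 / 243 * (L + 2 * n + 1) ^ 5) * ((9 * L ^ 2) * ((101 / 100 * (L + 2 * n) ^ 7) * ((L + n + 1) *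
          ((9 * (T - 1 / 2 - L) ^ 2) * (25 / 9 * (L + 2 * n + 1 / 2) ^ 2)))))) := by
        gcongr
    _ = (1 / 243 * 9 * (101 / 100) * 9 * (25 / 9)) * (L ^ 5 * L ^ 2 * (L + 2 * n) ^ 7 * (L + n + 1) * (L + 2 * n + 1) ^ 5 *
        ((T - 1 / 2 - L) * (L + 2 * n + 1 / 2)) ^ 2) := by ring
    _ ≤ 1 * (L ^ 5 * L ^ 2 * (L + 2 * n) ^ 7 * (L + n + 1) * (L + 2 * n + 1) ^ 5 *
        ((T - 1 / 2 - L) * (L + 2 * n + 1 / 2)) ^ 2) := by
        apply mul_le_mul_of_nonneg_right (by norm_num)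
        positivity
    _ = _ := by ring

/-- the formula for `ZE` (task G5e) -/
def SZE : Prop := ∀ {n T l : ℕ}, l < T →
    |(ZE n T l).eval (xh n l)| = (l.factorial : ℚ) * ((T - 1 - l).factorial : ℚ) * ((l + T + 2 * n).factorial : ℚ) /
      (((l + 2 * n).factorial : ℚ) * (2 * l + 1 + 2 * n))

lemma ZE_succ (h : SZE) {n T l : ℕ} (hl : l + 1 < T) :
    |(ZE n T (l + 1)).eval (xh n (l + 1))| * (((T : ℚ) - 1 - l) * ((l : ℚ) + 2 * n + 1) * (2 * l + 3 + 2 * n)) =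
      |(ZE n T l).eval (xh n l)| * (((l : ℚ) + 1) * ((l : ℚ) + T + 2 * n + 1) * (2 * l + 1 + 2 * n)) := by
  rw [h hl, h (lt_trans (Nat.lt_succ_self l) hl)]
  obtain ⟨d, rfl⟩ : ∃ d, T = l + 2 + d := ⟨T - (l + 2), by omega⟩
  have a1 : l + 2 + d - 1 - (l + 1) = d := by omega
  have a2 : l + 2 + d - 1 - l = d + 1 := by omega
  have a3 : l + 1 + (l + 2 + d) + 2 * n = (l + (l + 2 + d) + 2 * n) + 1 := by omega
  have a4 : l + 1 + 2 * n = (l + 2 * n) + 1 := by omega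
  rw [a1, a2, a3, a4, Nat.factorial_succ l, Nat.factorial_succ d, Nat.factorial_succ (l + (l + 2 + d) + 2 * n),
    Nat.factorial_succ (l + 2 * n)]
  have b1 : ((l + 2 * n).factorial : ℚ) ≠ 0 := by positivity
  have b2 : (2 * (l : ℚ) + 1 + 2 * n) ≠ 0 := by positivity
  have b3 : (2 * (l : ℚ) + 3 + 2 * n) ≠ 0 := by positivity
  have b4 : ((l : ℚ) + 2 * n + 1) ≠ 0 := by positivity
  push_cast
  have b5 : (2 * ((l : ℚ) + 1) + 1 + 2 * n) = 2 * (l : ℚ) + 3 + 2 * n := by ring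
  rw [b5]
  field_simp
  ring

/-- algebra: from the two ratio identities -/
lemma combine {W W' Z Z' H H' A B A2 B2 : ℚ} (hW : 0 < W) (hW' : 0 < W')
    (hA0 : 0 < A) (hA20 : 0 < A2) (hAB : B * B2 ^ 2 ≤ A * A2 ^ 2) (hw : W' * A = W * B) (hz : Z' * A2 = Z * B2)
    (H0 : 0 ≤ H') (H1 : H' ≤ H) : W' * (Z' ^ 2 * H' ^ 2) ≤ W * (Z ^ 2 * H ^ 2) := by
  have hH2 : H' ^ 2 ≤ H ^ 2 := pow_le_pow_left₀ H0 H1 2
  have e1 : (W' * Z' ^ 2) * (A * A2 ^ 2) = (W * Z ^ 2) * (B * B2 ^ 2) := by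
    calc (W' * Z' ^ 2) * (A * A2 ^ 2) = (W' * A) * (Z' * A2) ^ 2 := by ring
      _ = (W * B) * (Z * B2) ^ 2 := by rw [hw, hz]
      _ = _ := by ring
  have hq : 0 ≤ W * Z ^ 2 := by positivity
  have e2 : (W * Z ^ 2) * (B * B2 ^ 2) ≤ (W * Z ^ 2) * (A * A2 ^ 2) := mul_le_mul_of_nonneg_left hAB hq
  have e3 : (W' * Z' ^ 2) * (A * A2 ^ 2) ≤ (W * Z ^ 2) * (A * A2 ^ 2) := by rw [e1]; exact e2
  have hp : 0 < A * A2 ^ 2 := by positivity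
  have hWZ : W' * Z' ^ 2 ≤ W * Z ^ 2 := le_of_mul_le_mul_right e3 hp
  calc W' * (Z' ^ 2 * H' ^ 2) = (W' * Z' ^ 2) * H' ^ 2 := by ring
    _ ≤ (W * Z ^ 2) * H ^ 2 := mul_le_mul hWZ hH2 (by positivity) hq
    _ = _ := by ring

/-- the coefficients -/
lemma hAB_aux {l n T : ℚ} (hl0 : 0 ≤ l) (hn : 2401 ≤ n) (hLn : l + 3 / 2 ≤ n)
    (hT : T ≤ 2 / 3 * (l + 2 * n + 1)) (hTl : (l + 1) ≤ 3 * (T - 1 - l)) (hT0 : 0 ≤ T) :
    ((2 * l + 3 + 2 * n) * (l + 1 / 2) ^ 5 * ((l + 1 / 2 + 1) * (l + 1 / 2 + 1 + 2 * n)) ^ 7) *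
      ((l + 1) * (l + T + 2 * n + 1) * (2 * l + 1 + 2 * n)) ^ 2 ≤
    ((2 * l + 1 + 2 * n) * (l + 2 * n + 3 / 2) ^ 5 * ((l + 1 / 2) * (l + 1 / 2 + 2 * n)) ^ 7) *
      ((T - 1 - l) * (l + 2 * n + 1) * (2 * l + 3 + 2 * n)) ^ 2 := by
  have key := ratio_le (L := l + 1 / 2) (n := n) (T := T) (by linarith) hn (by linarith) (by linarith)
    (by linarith) hT0
  have c1 : (0 : ℚ) ≤ 2 * (2 * l + 1 + 2 * n) * (2 * l + 3 + 2 * n) := by
    have : 0 ≤ n := by linarith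
    positivity
  have h2 := mul_le_mul_of_nonneg_left key c1
  have a1 : l + 1 / 2 + T + 2 * n + 1 / 2 = l + T + 2 * n + 1 := by ring
  have a2 : l + 1 / 2 + 1 / 2 = l + 1 := by ring
  have a3 : l + 1 / 2 + 2 * n + 1 = l + 2 * n + 3 / 2 := by ring
  have a4 : T - 1 / 2 - (l + 1 / 2) = T - 1 - l := by ring
  have a5 : l + 1 / 2 + 2 * n + 1 / 2 = l + 2 * n + 1 := by ring
  have a6 : l + 1 / 2 + n = (2 * l + 1 + 2 * n) / 2 := by ring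
  have a7 : l + 1 / 2 + n + 1 = (2 * l + 3 + 2 * n) / 2 := by ring
  rw [a7, a6, a1, a2, a3, a4, a5] at h2
  generalize ((l + 1 / 2 + 1) * (l + 1 / 2 + 1 + 2 * n)) ^ 7 = X1 at h2 ⊢
  generalize ((l + 1 / 2) * (l + 1 / 2 + 2 * n)) ^ 7 = X2 at h2 ⊢
  generalize (l + 1 / 2) ^ 5 = X3 at h2 ⊢
  generalize (l + 2 * n + 3 / 2) ^ 5 = X4 at h2 ⊢
  generalize 2 * l + 1 + 2 * n = X5 at h2 ⊢
  generalize 2 * l + 3 + 2 * n = X6 at h2 ⊢
  rw [mul_pow (l + 1)] at h2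
  rw [mul_pow (T - 1 - l)] at h2
  rw [mul_pow ((l + 1) * (l + T + 2 * n + 1)), mul_pow (l + 1)]
  rw [mul_pow ((T - 1 - l) * (l + 2 * n + 1)), mul_pow (T - 1 - l)]
  generalize (l + 1) ^ 2 = X7 at h2 ⊢
  generalize (l + T + 2 * n + 1) ^ 2 = X8 at h2 ⊢
  generalize (T - 1 - l) ^ 2 = X9 at h2 ⊢
  generalize (l + 2 * n + 1) ^ 2 = X10 at h2 ⊢
  linarith

lemma Dz_mono (h : SZE) {n N l : ℕ} (hN : 100 ≤ N) (hn : n = 24 * N + 1) (hl : l < 24 * N) :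
    |wh n (l + 1)| * ((ZE n (32 * N) (l + 1)).eval (xh n (l + 1)) * (HH n N).eval (xh n (l + 1))) ^ 2 ≤
      |wh n l| * ((ZE n (32 * N) l).eval (xh n l) * (HH n N).eval (xh n l)) ^ 2 := by
  have hlq : (l : ℚ) + 1 ≤ 24 * N := by exact_mod_cast hl
  have hnq : (n : ℚ) = 24 * N + 1 := by rw [hn]; push_cast; ring
  have hNq : (100 : ℚ) ≤ N := by exact_mod_cast hN
  have hl0 : (0 : ℚ) ≤ l := by positivity
  rw [abs_of_pos (wh_pos n (l + 1)), abs_of_pos (wh_pos n l)]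
  obtain ⟨H0, H1⟩ := HH_mono (n := n) (l := l) (N := N) (by rw [hnq]; linarith)
  have hw := wh_succ n l
  have hz := ZE_succ h (n := n) (T := 32 * N) (l := l) (by omega)
  rw [mul_pow, mul_pow, ← sq_abs ((ZE n (32 * N) (l + 1)).eval (xh n (l + 1))),
    ← sq_abs ((ZE n (32 * N) l).eval (xh n l))]
  have hx : xh n l = ((l : ℚ) + 1 / 2) * ((l : ℚ) + 1 / 2 + 2 * n) := rfl
  have hx' : xh n (l + 1) = ((l : ℚ) + 1 / 2 + 1) * ((l : ℚ) + 1 / 2 + 1 + 2 * n) := by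
    unfold xh; push_cast; ring
  have hTc : (((32 * N : ℕ) : ℚ)) = 32 * N := by push_cast; ring
  rw [hTc] at hz
  have hAB := hAB_aux (l := (l : ℚ)) (n := n) (T := 32 * N) hl0 (by rw [hnq]; linarith)
    (by rw [hnq]; linarith) (by rw [hnq]; linarith) (by linarith) (by positivity)
  rw [← hx, ← hx'] at hAB
  have hxp := xh_pos n l
  have hwp := wh_pos n l
  have hwp' := wh_pos n (l + 1)
  generalize |(ZE n (32 * N) (l + 1)).eval (xh n (l + 1))| = Z' at hz ⊢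
  generalize |(ZE n (32 * N) l).eval (xh n l)| = Z at hz ⊢
  generalize (HH n N).eval (xh n (l + 1)) = H' at H0 H1 ⊢
  generalize (HH n N).eval (xh n l) = H at H1 ⊢
  generalize wh n (l + 1) = W' at hw hwp' ⊢
  generalize wh n l = W at hw hwp ⊢
  refine combine hwp hwp' ?_ ?_ hAB hw hz H0 H1
  · positivity
  · have hT : (0 : ℚ) < 32 * N - 1 - l := by linarith
    positivity

theorem G6a_mono_of (h : SZE) {n N l : ℕ} (hN : 100 ≤ N) (hn : n = 24 * N + 1) (hl : l < 24 * N) :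
    Dz n N (l + 1) ≤ Dz n N l := by
  have := Dz_mono h hN hn hl
  unfold Dz
  exact_mod_cast this

end G6a

/-- the diagonal entries of the zone rows decrease for `l < 24 N` -/
theorem G6a_mono {n N l : ℕ} (hN : 100 ≤ N) (hn : n = 24 * N + 1) (hl : l < 24 * N) :
    Dz n N (l + 1) ≤ Dz n N l :=
  G6a.G6a_mono_of (fun h => G5_ZE h) hN hn hl

end

end Pool.Agent.H216R2.BB
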