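import Pool.Agent.H216R2.BB.Defs
import Pool.Agent.H337R2.Stir
import Pool.Agent.H216R2.BB.G5e

set_option autoImplicit false

/-!
# G6b: the anchor `l = 24 N` of the zone
-/

open Polynomial Pool.Agent.H337R2

namespace Pool.Agent.H216R2.BB

noncomputable section

namespace G6b

/-- `|q_b|` at `2` -/
def q2 (b : ℕ) : ℚ := ((2 - g1 b) ^ 2 + g2 b ^ 2) * ((2 + g1 b) ^ 2 + g2 b ^ 2)

lemma q2_pos (b : ℕ) : 0 < q2 b := by
  unfold q2
  match b with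
  | 0 => norm_num [g1, g2]
  | 1 => norm_num [g1, g2]
  | 2 => norm_num [g1, g2]
  | k + 3 =>
    have h1 : g1 (k + 3) = 226 / 100 := rfl
    have h2 : g2 (k + 3) = 74 / 100 := rfl
    rw [h1, h2]; norm_num

lemma g1_ge (b : ℕ) : 2 ≤ g1 b := by
  match b with
  | 0 => norm_num [g1]
  | 1 => norm_num [g1]
  | 2 => norm_num [g1]
  | k + 3 =>
    have h1 : g1 (k + 3) = 226 / 100 := rfl
    rw [h1]; norm_num

lemma qb_eval (n l : ℕ) (a b : ℚ) : (qb n a b).eval (xh n l) =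
    (((l : ℚ) + 1 / 2 + n - a * n) ^ 2 + (b * n) ^ 2) * (((l : ℚ) + 1 / 2 + n + a * n) ^ 2 + (b * n) ^ 2) := by
  unfold qb xh
  simp only [eval_add, eval_sub, eval_mul, eval_pow, eval_X, eval_C]
  ring

lemma qb_low (N n b : ℕ) (hn : n = 24 * N + 1) :
    (n : ℚ) ^ 4 * q2 b * (1 - 1 / (8 * n)) ^ 2 ≤ (qb n (g1 b) (g2 b)).eval (xh n (24 * N)) := by
  rw [qb_eval]
  have hn0 : (0 : ℚ) < n := by rw [hn]; positivity
  have hN : ((24 * N : ℕ) : ℚ) = n - 1 := by rw [hn]; push_cast; ring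
  rw [hN]
  have h2 := g1_ge b
  unfold q2
  have hn1 : (1 : ℚ) ≤ n := by rw [hn]; push_cast; have : (0 : ℚ) ≤ N := by positivity
                               linarith
  have e1 : (n : ℚ) ^ 2 * ((2 - g1 b) ^ 2 + g2 b ^ 2) ≤ ((n : ℚ) - 1 + 1 / 2 + n - g1 b * n) ^ 2 + (g2 b * n) ^ 2 := by
    have : ((n : ℚ) * (g1 b - 2)) ^ 2 ≤ ((n : ℚ) * (g1 b - 2) + 1 / 2) ^ 2 := by
      have : 0 ≤ (n : ℚ) * (g1 b - 2) := mul_nonneg hn0.le (by linarith)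
      nlinarith
    nlinarith
  have h8 : (0 : ℚ) ≤ 1 - 1 / (8 * n) := by
    have : 1 / (8 * (n : ℚ)) ≤ 1 := by
      rw [div_le_one (by positivity)]; linarith
    linarith
  have e2 : (n : ℚ) ^ 2 * ((2 + g1 b) ^ 2 + g2 b ^ 2) * (1 - 1 / (8 * n)) ^ 2 ≤
      ((n : ℚ) - 1 + 1 / 2 + n + g1 b * n) ^ 2 + (g2 b * n) ^ 2 := by
    have h9 : (n : ℚ) * (2 + g1 b) * (1 - 1 / (8 * n)) = n * (2 + g1 b) - (2 + g1 b) / 8 := by
      field_simp
    have h10 : ((n : ℚ) * (2 + g1 b) * (1 - 1 / (8 * n))) ^ 2 ≤ ((n : ℚ) - 1 + 1 / 2 + n + g1 b * n) ^ 2 := by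
      apply pow_le_pow_left₀ (mul_nonneg (mul_nonneg hn0.le (by linarith)) h8)
      rw [h9]
      nlinarith
    have h11 : (n : ℚ) ^ 2 * g2 b ^ 2 * (1 - 1 / (8 * n)) ^ 2 ≤ (g2 b * n) ^ 2 := by
      have : (1 - 1 / (8 * (n : ℚ))) ^ 2 ≤ 1 := by
        apply pow_le_one₀ h8
        have : 0 ≤ 1 / (8 * (n : ℚ)) := by positivity
        linarith
      have h12 : 0 ≤ (n : ℚ) ^ 2 * g2 b ^ 2 := by positivity
      nlinarith
    nlinarith
  calc (n : ℚ) ^ 4 * (((2 - g1 b) ^ 2 + g2 b ^ 2) * ((2 + g1 b) ^ 2 + g2 b ^ 2)) * (1 - 1 / (8 * n)) ^ 2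
      = ((n : ℚ) ^ 2 * ((2 - g1 b) ^ 2 + g2 b ^ 2)) *
        ((n : ℚ) ^ 2 * ((2 + g1 b) ^ 2 + g2 b ^ 2) * (1 - 1 / (8 * n)) ^ 2) := by ring
    _ ≤ _ := mul_le_mul e1 e2 (by positivity) (by positivity)

lemma HH_low (N n : ℕ) (hN : 1 ≤ N) (hn : n = 24 * N + 1) :
    (n : ℚ) ^ (56 * N) * (∏ b ∈ Finset.range 4, q2 b ^ sg b) ^ N * (1 / 2) ≤ (HH n N).eval (xh n (24 * N)) := by
  unfold HH
  rw [eval_prod]
  have hn0 : (0 : ℚ) < n := by rw [hn]; positivity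
  have hn1 : (1 : ℚ) ≤ n := by rw [hn]; push_cast; have : (0 : ℚ) ≤ N := by positivity
                               linarith
  have h8 : (0 : ℚ) ≤ 1 - 1 / (8 * n) := by
    have : 1 / (8 * (n : ℚ)) ≤ 1 := by
      rw [div_le_one (by positivity)]; linarith
    linarith
  have h1 : ∏ b ∈ Finset.range 4, ((n : ℚ) ^ 4 * q2 b * (1 - 1 / (8 * n)) ^ 2) ^ (sg b * N) ≤
      ∏ b ∈ Finset.range 4, (qb n (g1 b) (g2 b) ^ (sg b * N)).eval (xh n (24 * N)) := by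
    apply Finset.prod_le_prod
    · intro b _
      have := q2_pos b
      positivity
    · intro b _
      rw [eval_pow]
      apply pow_le_pow_left₀ _ (qb_low N n b hn)
      have := q2_pos b
      positivity
  refine le_trans ?_ h1
  have h2 : ∏ b ∈ Finset.range 4, ((n : ℚ) ^ 4 * q2 b * (1 - 1 / (8 * n)) ^ 2) ^ (sg b * N) =
      (n : ℚ) ^ (56 * N) * (∏ b ∈ Finset.range 4, q2 b ^ sg b) ^ N * (1 - 1 / (8 * n)) ^ (28 * N) := by
    generalize (1 - 1 / (8 * (n : ℚ))) = c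
    simp only [Finset.prod_range_succ, Finset.prod_range_zero, sg, mul_pow, ← pow_mul]
    ring
  rw [h2]
  have h3 : (1 / 2 : ℚ) ≤ (1 - 1 / (8 * n)) ^ (28 * N) := by
    have h4 : 1 + ((28 * N : ℕ) : ℚ) * (-(1 / (8 * (n : ℚ)))) ≤ (1 + (-(1 / (8 * (n : ℚ))))) ^ (28 * N) := by
      apply one_add_mul_le_pow
      linarith
    have h5 : ((28 * N : ℕ) : ℚ) * (1 / (8 * (n : ℚ))) ≤ 1 / 2 := by
      rw [mul_one_div, div_le_iff₀ (by positivity)]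
      rw [hn]; push_cast
      have : (0 : ℚ) ≤ N := by positivity
      linarith
    have h6 : (1 + (-(1 / (8 * (n : ℚ))))) = 1 - 1 / (8 * n) := by ring
    rw [h6] at h4
    linarith
  apply mul_le_mul_of_nonneg_left h3
  have : 0 ≤ ∏ b ∈ Finset.range 4, q2 b ^ sg b := Finset.prod_nonneg fun b _ => by
    have := q2_pos b
    positivity
  positivity

lemma fac_lo (k : ℕ) : (k : ℝ) ^ k * Real.exp (-(k : ℝ)) ≤ (k.factorial : ℝ) := by
  have h := Real.pow_div_factorial_le_exp (k : ℝ) (by positivity) k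
  rw [div_le_iff₀ (by positivity)] at h
  rw [Real.exp_neg, ← div_eq_mul_inv, div_le_iff₀ (by positivity), mul_comm (k.factorial : ℝ)]
  exact h

lemma fac_hi (k : ℕ) : (k.factorial : ℝ) ≤ Real.exp 1 * (k + 1) * ((k : ℝ) ^ k * Real.exp (-(k : ℝ))) := by
  have h := fac_up k
  rw [exp_xl] at h
  rw [Real.exp_neg, ← div_eq_mul_inv, mul_div_assoc', le_div_iff₀ (by positivity)]
  exact h

/-- product in the denominator -/
lemma prod_hi (l m : ℕ) : (∏ k ∈ Finset.range m, ((l : ℚ) + k + 1 / 2)) * (l.factorial : ℚ) ≤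
    ((l + m).factorial : ℚ) := by
  induction m with
  | zero => simp
  | succ m ih =>
    rw [Finset.prod_range_succ, ← add_assoc, Nat.factorial_succ]
    push_cast
    calc (∏ k ∈ Finset.range m, ((l : ℚ) + k + 1 / 2)) * ((l : ℚ) + m + 1 / 2) * (l.factorial : ℚ)
        = ((∏ k ∈ Finset.range m, ((l : ℚ) + k + 1 / 2)) * (l.factorial : ℚ)) * ((l : ℚ) + m + 1 / 2) := by ring
      _ ≤ ((l + m).factorial : ℚ) * ((l : ℚ) + m + 1) := by
          apply mul_le_mul ih (by linarith) (by positivity) (by positivity)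
      _ = _ := by ring

lemma wh_low (n l : ℕ) (hl : 1 ≤ l) :
    ((2 * n).factorial : ℚ) ^ 5 * (2 * l + 1 + 2 * n) * (l.factorial : ℚ) ^ 5 ≤
      wh n l * ((l + 2 * n + 1).factorial : ℚ) ^ 5 := by
  unfold wh
  have hl1 : (1 : ℚ) ≤ l := by exact_mod_cast hl
  have h1 := prod_hi l (2 * n + 1)
  rw [← add_assoc] at h1
  set P := ∏ k ∈ Finset.range (2 * n + 1), ((l : ℚ) + k + 1 / 2) with hP
  have hP0 : 0 < P := Finset.prod_pos fun k _ => by positivity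
  have hx : 1 ≤ xh n l := by
    unfold xh
    have : (0 : ℚ) ≤ n := by positivity
    nlinarith
  have h2 : (P * (l.factorial : ℚ)) ^ 5 ≤ ((l + 2 * n + 1).factorial : ℚ) ^ 5 :=
    pow_le_pow_left₀ (by positivity) h1 5
  have h3 : 1 ≤ xh n l ^ 7 := one_le_pow₀ hx
  rw [div_mul_eq_mul_div, div_mul_eq_mul_div, le_div_iff₀ (by positivity)]
  calc ((2 * n).factorial : ℚ) ^ 5 * (2 * l + 1 + 2 * n) * (l.factorial : ℚ) ^ 5 * P ^ 5
      = ((2 * n).factorial : ℚ) ^ 5 * (2 * l + 1 + 2 * n) * (P * (l.factorial : ℚ)) ^ 5 := by ring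
    _ ≤ ((2 * n).factorial : ℚ) ^ 5 * (2 * l + 1 + 2 * n) * ((l + 2 * n + 1).factorial : ℚ) ^ 5 := by gcongr
    _ = ((2 * n).factorial : ℚ) ^ 5 * (2 * l + 1 + 2 * n) * 1 * ((l + 2 * n + 1).factorial : ℚ) ^ 5 := by ring
    _ ≤ ((2 * n).factorial : ℚ) ^ 5 * (2 * l + 1 + 2 * n) * xh n l ^ 7 * ((l + 2 * n + 1).factorial : ℚ) ^ 5 := by gcongr

/-- the statement of `G5_ZE` -/
def GZE : Prop := ∀ {n T l : ℕ}, l < T →
    |(ZE n T l).eval (xh n l)| = (l.factorial : ℚ) * ((T - 1 - l).factorial : ℚ) * ((l + T + 2 * n).factorial : ℚ) /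
      (((l + 2 * n).factorial : ℚ) * (2 * l + 1 + 2 * n))

lemma claim1 (hZE : GZE) (N n : ℕ) (hN : 1 ≤ N) (hn : n = 24 * N + 1) :
    ((48 * N).factorial : ℚ) ^ 5 * ((24 * N).factorial : ℚ) ^ 7 * ((8 * N).factorial : ℚ) ^ 2 *
      ((104 * N).factorial : ℚ) ^ 2 ≤
    (wh n (24 * N) * ((ZE n (32 * N) (24 * N)).eval (xh n (24 * N))) ^ 2) * ((72 * N).factorial : ℚ) ^ 7 *
      (3 ^ 21 * 4 * (n : ℚ) ^ 24) := by
  have hn0 : (0 : ℚ) < n := by rw [hn]; positivity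
  have h1 := wh_low n (24 * N) (by omega)
  have h2 := hZE (n := n) (T := 32 * N) (l := 24 * N) (by omega)
  rw [← sq_abs ((ZE n (32 * N) (24 * N)).eval (xh n (24 * N))), h2]
  have e1 : 24 * N + 2 * n + 1 = 72 * N + 3 := by omega
  have e2 : 24 * N + 2 * n = 72 * N + 2 := by omega
  have e3 : 24 * N + 32 * N + 2 * n = 104 * N + 2 := by omega
  have e4 : 32 * N - 1 - 24 * N = 8 * N - 1 := by omega
  have e5 : 2 * n = 48 * N + 2 := by omega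
  rw [e1] at h1
  rw [e2, e3, e4]
  rw [e5] at h1
  set W := wh n (24 * N) with hW
  set D : ℚ := 2 * ((24 * N : ℕ) : ℚ) + 1 + 2 * n with hD
  have hD0 : 0 < D := by positivity
  have hD4 : D ≤ 4 * n := by
    rw [hD, hn]; push_cast; linarith
  have f1 : ((48 * N).factorial : ℚ) ≤ ((48 * N + 2).factorial : ℚ) := by
    exact_mod_cast Nat.factorial_le (by omega)
  have f2 : ((104 * N).factorial : ℚ) ≤ ((104 * N + 2).factorial : ℚ) := by
    exact_mod_cast Nat.factorial_le (by omega)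
  have f3 : ((8 * N).factorial : ℚ) ≤ ((8 * N - 1).factorial : ℚ) * n := by
    obtain ⟨M, hM⟩ : ∃ M, 8 * N = M + 1 := ⟨8 * N - 1, by omega⟩
    rw [hM, Nat.factorial_succ, Nat.add_sub_cancel]
    have : ((M + 1 : ℕ) : ℚ) ≤ n := by rw [← hM, hn]; exact_mod_cast (by omega)
    push_cast at this ⊢
    rw [mul_comm]
    apply mul_le_mul_of_nonneg_left this (by positivity)
  have f4 : ((72 * N + 3).factorial : ℚ) ≤ ((72 * N).factorial : ℚ) * (3 * n) ^ 3 := by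
    have h : (72 * N + 3).factorial = (72 * N + 3) * ((72 * N + 2) * ((72 * N + 1) * (72 * N).factorial)) := by
      rw [Nat.factorial_succ, Nat.factorial_succ, Nat.factorial_succ]
    have h' : 3 * n = 72 * N + 3 := by omega
    have h'' : (3 * (n : ℚ)) = ((72 * N + 3 : ℕ) : ℚ) := by rw [← h']; push_cast; ring
    rw [h'', h]
    have : (72 * N + 3) * ((72 * N + 2) * ((72 * N + 1) * (72 * N).factorial)) ≤ (72 * N).factorial * (72 * N + 3) ^ 3 := by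
      calc (72 * N + 3) * ((72 * N + 2) * ((72 * N + 1) * (72 * N).factorial))
          ≤ (72 * N + 3) * ((72 * N + 3) * ((72 * N + 3) * (72 * N).factorial)) := by gcongr <;> omega
        _ = _ := by ring
    exact_mod_cast this
  have f5 : ((72 * N + 2).factorial : ℚ) ≤ ((72 * N + 3).factorial : ℚ) := by
    exact_mod_cast Nat.factorial_le (by omega)
  have hW0 : 0 ≤ W := by
    rw [hW]; unfold wh xh; positivity
  -- collect
  set A := ((48 * N + 2).factorial : ℚ) with hA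
  set B := ((24 * N).factorial : ℚ) with hB
  set E := ((8 * N - 1).factorial : ℚ) with hE
  set F := ((104 * N + 2).factorial : ℚ) with hF
  set G2 := ((72 * N + 2).factorial : ℚ) with hG2
  set G3 := ((72 * N + 3).factorial : ℚ) with hG3
  have pA : 0 < A := by rw [hA]; positivity
  have pB : 0 < B := by rw [hB]; positivity
  have pE : 0 < E := by rw [hE]; positivity
  have pF : 0 < F := by rw [hF]; positivity
  have pG2 : 0 < G2 := by rw [hG2]; positivity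
  have pG3 : 0 < G3 := by rw [hG3]; positivity
  have g1 : A ^ 5 * B ^ 7 * E ^ 2 * F ^ 2 ≤ W * (B * E * F / (G2 * D)) ^ 2 * G3 ^ 7 * D := by
    have h3 : W * (B * E * F / (G2 * D)) ^ 2 * G3 ^ 7 * D = (W * G3 ^ 5) * (B * E * F) ^ 2 * (G3 ^ 2 / G2 ^ 2) / D := by
      field_simp
    rw [h3, le_div_iff₀ hD0]
    have h4 : 1 ≤ G3 ^ 2 / G2 ^ 2 := by
      rw [one_le_div (by positivity)]
      exact pow_le_pow_left₀ pG2.le f5 2
    calc A ^ 5 * B ^ 7 * E ^ 2 * F ^ 2 * D = (A ^ 5 * D * B ^ 5) * (B * E * F) ^ 2 * 1 := by ring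
      _ ≤ (W * G3 ^ 5) * (B * E * F) ^ 2 * (G3 ^ 2 / G2 ^ 2) := by gcongr
  have g2 : ((48 * N).factorial : ℚ) ^ 5 * B ^ 7 * ((8 * N).factorial : ℚ) ^ 2 * ((104 * N).factorial : ℚ) ^ 2 ≤
      A ^ 5 * B ^ 7 * (E * n) ^ 2 * F ^ 2 := by gcongr
  calc _ ≤ A ^ 5 * B ^ 7 * (E * n) ^ 2 * F ^ 2 := g2
    _ = (A ^ 5 * B ^ 7 * E ^ 2 * F ^ 2) * n ^ 2 := by ring
    _ ≤ (W * (B * E * F / (G2 * D)) ^ 2 * G3 ^ 7 * D) * n ^ 2 := by gcongr
    _ ≤ (W * (B * E * F / (G2 * D)) ^ 2 * (((72 * N).factorial : ℚ) * (3 * n) ^ 3) ^ 7 * (4 * n)) * n ^ 2 := by gcongr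
    _ = _ := by ring

/-- `k^k e^{-k}` -/
def Ef (k : ℕ) : ℝ := (k : ℝ) ^ k * Real.exp (-(k : ℝ))

lemma Ef_pos {k : ℕ} (hk : 1 ≤ k) : 0 < Ef k := by
  unfold Ef
  have : (0 : ℝ) < k := by exact_mod_cast hk
  positivity

lemma Ef_mul (c N : ℕ) (j : ℕ) : Ef (c * N) ^ j = ((c : ℝ) ^ (c * j)) ^ N * (N : ℝ) ^ (c * j * N) *
    Real.exp (-((c * j * N : ℕ) : ℝ)) := by
  unfold Ef
  rw [mul_pow, ← Real.exp_nat_mul]
  push_cast
  rw [mul_pow, mul_pow, ← pow_mul, ← pow_mul, ← pow_mul]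
  have e1 : c * N * j = c * j * N := by ring
  have e2 : (j : ℝ) * -(c * N) = -(c * j * N) := by ring
  rw [e1, e2]

set_option exponentiation.threshold 5000 in
lemma cert : (24 : ℝ) ^ 128 * (2 ^ 240 * (4 / 3) ^ 224 * (14 / 3) ^ 224 / (10 / 3) ^ 560) * 2 ^ 56 ≤
    (48 ^ 240 * 24 ^ 168 * 8 ^ 16 * 104 ^ 208 / 72 ^ 504) *
      (((∏ b ∈ Finset.range 4, q2 b ^ sg b : ℚ)) : ℝ) ^ 2 := by
  have h : (24 : ℚ) ^ 128 * (2 ^ 240 * (4 / 3) ^ 224 * (14 / 3) ^ 224 / (10 / 3) ^ 560) * 2 ^ 56 ≤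
    (48 ^ 240 * 24 ^ 168 * 8 ^ 16 * 104 ^ 208 / 72 ^ 504) *
      ((∏ b ∈ Finset.range 4, q2 b ^ sg b : ℚ)) ^ 2 := by
    simp only [Finset.prod_range_succ, Finset.prod_range_zero, q2, g1, g2, sg]
    norm_num
  have h' := (Rat.cast_le (K := ℝ)).mpr h
  simpa only [Rat.cast_mul, Rat.cast_pow, Rat.cast_div, Rat.cast_ofNat] using h'

/-- the constants -/
def A1 : ℝ := 48 ^ 240 * 24 ^ 168 * 8 ^ 16 * 104 ^ 208 / 72 ^ 504

/-- the constant of `Phi0` -/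
def P1 : ℝ := 2 ^ 240 * (4 / 3) ^ 224 * (14 / 3) ^ 224 / (10 / 3) ^ 560

/-- the constant of the nodes -/
def QB : ℚ := ∏ b ∈ Finset.range 4, q2 b ^ sg b

lemma A1_pos : 0 < A1 := by unfold A1; positivity

lemma QB_pos : 0 < QB := Finset.prod_pos fun b _ => by
  have := q2_pos b
  positivity

lemma P1_pos : 0 < P1 := by unfold P1; positivity

lemma cert' : (24 : ℝ) ^ 128 * P1 * 2 ^ 56 ≤ A1 * (QB : ℝ) ^ 2 := cert

lemma comb_aux (a b c d e A x : ℝ) (N : ℕ) (h : a * b * c * d = A * e) :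
    (a ^ N * x ^ (240 * N) * Real.exp (-((240 * N : ℕ) : ℝ))) *
      (b ^ N * x ^ (168 * N) * Real.exp (-((168 * N : ℕ) : ℝ))) *
      (c ^ N * x ^ (16 * N) * Real.exp (-((16 * N : ℕ) : ℝ))) *
      (d ^ N * x ^ (208 * N) * Real.exp (-((208 * N : ℕ) : ℝ))) =
    A ^ N * x ^ (128 * N) * Real.exp (-((128 * N : ℕ) : ℝ)) *
      (e ^ N * x ^ (504 * N) * Real.exp (-((504 * N : ℕ) : ℝ))) := by
  have h1 : a ^ N * b ^ N * c ^ N * d ^ N = A ^ N * e ^ N := by rw [← mul_pow, ← mul_pow, ← mul_pow, h, mul_pow]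
  have h2 : x ^ (240 * N) * x ^ (168 * N) * x ^ (16 * N) * x ^ (208 * N) = x ^ (128 * N) * x ^ (504 * N) := by
    rw [← pow_add, ← pow_add, ← pow_add, ← pow_add]
    congr 1; ring
  have h3 : Real.exp (-((240 * N : ℕ) : ℝ)) * Real.exp (-((168 * N : ℕ) : ℝ)) * Real.exp (-((16 * N : ℕ) : ℝ)) *
      Real.exp (-((208 * N : ℕ) : ℝ)) = Real.exp (-((128 * N : ℕ) : ℝ)) * Real.exp (-((504 * N : ℕ) : ℝ)) := by
    rw [← Real.exp_add, ← Real.exp_add, ← Real.exp_add, ← Real.exp_add]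
    congr 1; push_cast; ring
  calc _ = (a ^ N * b ^ N * c ^ N * d ^ N) * (x ^ (240 * N) * x ^ (168 * N) * x ^ (16 * N) * x ^ (208 * N)) *
        (Real.exp (-((240 * N : ℕ) : ℝ)) * Real.exp (-((168 * N : ℕ) : ℝ)) * Real.exp (-((16 * N : ℕ) : ℝ)) *
      Real.exp (-((208 * N : ℕ) : ℝ))) := by ring
    _ = _ := by rw [h1, h2, h3]; ring

set_option exponentiation.threshold 5000 in
lemma comb (N : ℕ) : Ef (48 * N) ^ 5 * Ef (24 * N) ^ 7 * Ef (8 * N) ^ 2 * Ef (104 * N) ^ 2 =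
    A1 ^ N * (N : ℝ) ^ (128 * N) * Real.exp (-((128 * N : ℕ) : ℝ)) * Ef (72 * N) ^ 7 := by
  rw [Ef_mul, Ef_mul, Ef_mul, Ef_mul, Ef_mul]
  apply comb_aux
  unfold A1
  have h : ((72 : ℕ) : ℝ) ^ (72 * 7) = 72 ^ 504 := by norm_num only
  rw [h, div_mul_cancel₀ _ (by positivity)]
  norm_num only

lemma exp_log_mul (k : ℕ) (a : ℝ) (ha : 0 < a) : Real.exp (k * Real.log a) = a ^ k := by
  rw [← Real.log_pow, Real.exp_log (by positivity)]

lemma exp_Phi : Real.exp (24 * Phi0) = P1 * Real.exp (-128) := by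
  have h : 24 * Phi0 = ((240 : ℕ) : ℝ) * Real.log 2 + ((224 : ℕ) : ℝ) * Real.log (4 / 3) +
      ((224 : ℕ) : ℝ) * Real.log (14 / 3) - ((560 : ℕ) : ℝ) * Real.log (10 / 3) + (-128) := by
    unfold Phi0; push_cast; ring
  rw [h, Real.exp_add, Real.exp_sub, Real.exp_add, Real.exp_add, exp_log_mul _ _ (by norm_num),
    exp_log_mul _ _ (by norm_num), exp_log_mul _ _ (by norm_num), exp_log_mul _ _ (by norm_num)]
  rfl

lemma BN_up (N n : ℕ) (hN : 1 ≤ N) (hn : n = 24 * N + 1) :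
    BN n N ≤ Real.exp 6 * Real.exp Phi0 * (n : ℝ) ^ (112 * N) * ((A1 ^ N * (N : ℝ) ^ (128 * N) *
      Real.exp (-((128 * N : ℕ) : ℝ))) * ((QB : ℝ) ^ 2) ^ N) := by
  have hN0 : (0 : ℝ) < N := by exact_mod_cast hN
  have h1 : (n : ℝ) ^ (128 * N) ≤ Real.exp 6 * ((24 : ℝ) ^ 128) ^ N * (N : ℝ) ^ (128 * N) := by
    have h2 : (n : ℝ) ≤ 24 * N * Real.exp (1 / (24 * N)) := by
      have h3 := Real.add_one_le_exp (1 / (24 * (N : ℝ)))
      calc (n : ℝ) = 24 * N * (1 / (24 * N) + 1) := by rw [hn]; push_cast; field_simp; ring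
        _ ≤ _ := by gcongr
    calc (n : ℝ) ^ (128 * N) ≤ (24 * N * Real.exp (1 / (24 * N))) ^ (128 * N) :=
          pow_le_pow_left₀ (by positivity) h2 _
      _ = ((24 : ℝ) ^ 128) ^ N * (N : ℝ) ^ (128 * N) * Real.exp (1 / (24 * N)) ^ (128 * N) := by
          rw [mul_pow, mul_pow, pow_mul]
      _ = ((24 : ℝ) ^ 128) ^ N * (N : ℝ) ^ (128 * N) * Real.exp (128 / 24) := by
          rw [← Real.exp_nat_mul]
          congr 2
          push_cast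
          field_simp
      _ ≤ ((24 : ℝ) ^ 128) ^ N * (N : ℝ) ^ (128 * N) * Real.exp 6 := by
          gcongr; norm_num
      _ = _ := by ring
  have h4 : Real.exp (n * Phi0) = Real.exp Phi0 * P1 ^ N * Real.exp (-((128 * N : ℕ) : ℝ)) := by
    have : (n : ℝ) * Phi0 = Phi0 + (N : ℕ) * (24 * Phi0) := by rw [hn]; push_cast; ring
    rw [this, Real.exp_add, Real.exp_nat_mul, exp_Phi, mul_pow, ← Real.exp_nat_mul, mul_assoc]
    congr 3
    push_cast; ring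
  have h5 : ((24 : ℝ) ^ 128) ^ N * P1 ^ N * 2 ^ (56 * N) ≤ A1 ^ N * ((QB : ℝ) ^ 2) ^ N := by
    have h6 := pow_le_pow_left₀ (by have := P1_pos; positivity) cert' N
    rw [mul_pow, mul_pow, mul_pow] at h6
    rw [pow_mul 2 56 N]
    exact h6
  unfold BN
  rw [h4]
  have hP := P1_pos
  calc (n : ℝ) ^ (128 * N) * (Real.exp Phi0 * P1 ^ N * Real.exp (-((128 * N : ℕ) : ℝ))) * (n : ℝ) ^ (112 * N) * 2 ^ (56 * N)
      ≤ (Real.exp 6 * ((24 : ℝ) ^ 128) ^ N * (N : ℝ) ^ (128 * N)) *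
        (Real.exp Phi0 * P1 ^ N * Real.exp (-((128 * N : ℕ) : ℝ))) * (n : ℝ) ^ (112 * N) * 2 ^ (56 * N) := by gcongr
    _ = Real.exp 6 * Real.exp Phi0 * (n : ℝ) ^ (112 * N) * ((N : ℝ) ^ (128 * N) * Real.exp (-((128 * N : ℕ) : ℝ))) *
        (((24 : ℝ) ^ 128) ^ N * P1 ^ N * 2 ^ (56 * N)) := by ring
    _ ≤ Real.exp 6 * Real.exp Phi0 * (n : ℝ) ^ (112 * N) * ((N : ℝ) ^ (128 * N) * Real.exp (-((128 * N : ℕ) : ℝ))) *
        (A1 ^ N * ((QB : ℝ) ^ 2) ^ N) := by gcongr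
    _ = _ := by ring

/-- the constant -/
def CC : ℝ := Real.exp 6 * Real.exp Phi0 * (4 * ((Real.exp 1 * 3) ^ 7 * (3 ^ 21 * 4)))

theorem main (hZE : GZE) : ∃ (C : ℝ) (K : ℕ), 0 < C ∧ ∀ N : ℕ, 100 ≤ N → ∀ n : ℕ, n = 24 * N + 1 →
    BN n N ≤ C * (n : ℝ) ^ K * Dz n N (24 * N) := by
  refine ⟨CC, 31, by unfold CC; positivity, ?_⟩
  intro N hN n hn
  have hN1 : 1 ≤ N := by omega
  have hn0 : (0 : ℝ) < n := by rw [hn]; positivity
  have h1 := claim1 hZE N n hN1 hn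
  have hH := HH_low N n hN1 hn
  have h1' := (Rat.cast_le (K := ℝ)).mpr h1
  have hH' := (Rat.cast_le (K := ℝ)).mpr hH
  set W := wh n (24 * N) with hW
  set Z := (ZE n (32 * N) (24 * N)).eval (xh n (24 * N)) with hZ
  set H := (HH n N).eval (xh n (24 * N)) with hHd
  have hW0 : 0 ≤ W := by
    rw [hW]; unfold wh xh; positivity
  have hW0' : (0 : ℝ) ≤ W := by exact_mod_cast hW0
  push_cast at h1' hH'
  have hDz : Dz n N (24 * N) = (W : ℝ) * (Z : ℝ) ^ 2 * (H : ℝ) ^ 2 := by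
    unfold Dz
    rw [← hW, ← hZ, ← hHd, abs_of_nonneg hW0']
    push_cast; ring
  rw [hDz]
  have hQ := QB_pos
  have hQ' : (0 : ℝ) < QB := by exact_mod_cast hQ
  have hH2 : (n : ℝ) ^ (112 * N) * ((QB : ℝ) ^ 2) ^ N ≤ 4 * (H : ℝ) ^ 2 := by
    have h2 : ((n : ℝ) ^ (56 * N) * (QB : ℝ) ^ N * (1 / 2)) ^ 2 ≤ (H : ℝ) ^ 2 := by
      apply pow_le_pow_left₀ (by positivity)
      refine le_trans (le_of_eq ?_) hH'
      unfold QB
      push_cast
      ring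
    have h3 : (n : ℝ) ^ (112 * N) * ((QB : ℝ) ^ 2) ^ N = 4 * ((n : ℝ) ^ (56 * N) * (QB : ℝ) ^ N * (1 / 2)) ^ 2 := by
      rw [mul_pow, mul_pow, ← pow_mul, ← pow_mul, ← pow_mul]
      have e1 : 56 * N * 2 = 112 * N := by ring
      have e2 : N * 2 = 2 * N := by ring
      rw [e1, e2]; ring
    rw [h3]; linarith
  have h72 : ((72 * N).factorial : ℝ) ≤ Real.exp 1 * (3 * n) * Ef (72 * N) := by
    refine (fac_hi (72 * N)).trans ?_
    unfold Ef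
    apply mul_le_mul_of_nonneg_right _ (by positivity)
    apply mul_le_mul_of_nonneg_left _ (by positivity)
    rw [hn]; push_cast; linarith
  have hE72 : 0 < Ef (72 * N) := Ef_pos (by omega)
  have hWZ : A1 ^ N * (N : ℝ) ^ (128 * N) * Real.exp (-((128 * N : ℕ) : ℝ)) ≤
      ((W : ℝ) * (Z : ℝ) ^ 2) * ((Real.exp 1 * (3 * n)) ^ 7 * (3 ^ 21 * 4 * (n : ℝ) ^ 24)) := by
    have h2 := comb N
    have h3 : Ef (48 * N) ^ 5 * Ef (24 * N) ^ 7 * Ef (8 * N) ^ 2 * Ef (104 * N) ^ 2 ≤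
        ((48 * N).factorial : ℝ) ^ 5 * ((24 * N).factorial : ℝ) ^ 7 * ((8 * N).factorial : ℝ) ^ 2 *
      ((104 * N).factorial : ℝ) ^ 2 := by
      have a1 := fac_lo (48 * N)
      have a2 := fac_lo (24 * N)
      have a3 := fac_lo (8 * N)
      have a4 := fac_lo (104 * N)
      have b1 : 0 < Ef (48 * N) := Ef_pos (by omega)
      have b2 : 0 < Ef (24 * N) := Ef_pos (by omega)
      have b3 : 0 < Ef (8 * N) := Ef_pos (by omega)
      have b4 : 0 < Ef (104 * N) := Ef_pos (by omega)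
      unfold Ef at *
      gcongr
    rw [h2] at h3
    have h4 : A1 ^ N * (N : ℝ) ^ (128 * N) * Real.exp (-((128 * N : ℕ) : ℝ)) * Ef (72 * N) ^ 7 ≤
        ((W : ℝ) * (Z : ℝ) ^ 2) * ((Real.exp 1 * (3 * n)) ^ 7 * (3 ^ 21 * 4 * (n : ℝ) ^ 24)) * Ef (72 * N) ^ 7 := by
      refine h3.trans (h1'.trans ?_)
      calc ((W : ℝ) * (Z : ℝ) ^ 2) * ((72 * N).factorial : ℝ) ^ 7 * (3 ^ 21 * 4 * (n : ℝ) ^ 24)
          ≤ ((W : ℝ) * (Z : ℝ) ^ 2) * (Real.exp 1 * (3 * n) * Ef (72 * N)) ^ 7 * (3 ^ 21 * 4 * (n : ℝ) ^ 24) := by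
            gcongr
        _ = _ := by ring
    exact le_of_mul_le_mul_right h4 (by positivity)
  refine (BN_up N n hN1 hn).trans ?_
  have hA := A1_pos
  calc Real.exp 6 * Real.exp Phi0 * (n : ℝ) ^ (112 * N) * ((A1 ^ N * (N : ℝ) ^ (128 * N) *
      Real.exp (-((128 * N : ℕ) : ℝ))) * ((QB : ℝ) ^ 2) ^ N)
      = Real.exp 6 * Real.exp Phi0 * ((A1 ^ N * (N : ℝ) ^ (128 * N) *
      Real.exp (-((128 * N : ℕ) : ℝ))) * ((n : ℝ) ^ (112 * N) * ((QB : ℝ) ^ 2) ^ N)) := by ring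
    _ ≤ Real.exp 6 * Real.exp Phi0 * ((((W : ℝ) * (Z : ℝ) ^ 2) *
        ((Real.exp 1 * (3 * n)) ^ 7 * (3 ^ 21 * 4 * (n : ℝ) ^ 24))) * (4 * (H : ℝ) ^ 2)) := by
        gcongr
    _ = CC * (n : ℝ) ^ 31 * ((W : ℝ) * (Z : ℝ) ^ 2 * (H : ℝ) ^ 2) := by
        unfold CC; ring

end G6b

theorem G6b_anchor : ∃ (C : ℝ) (K : ℕ), 0 < C ∧ ∀ N : ℕ, 100 ≤ N → ∀ n : ℕ, n = 24 * N + 1 →
    BN n N ≤ C * (n : ℝ) ^ K * Dz n N (24 * N) :=
  G6b.main fun {_ _ _} h => G5_ZE h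

end

end Pool.Agent.H216R2.BB
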