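import Pool.Agent.H216R2.BB.G6y
import Pool.Agent.H216R2.BB.G5e

/-!
The zone is saturated (tasks G6b, G6c).
-/

open Polynomial Pool.Agent.H337R2

namespace Pool.Agent.H216R2.BB

noncomputable section

namespace G6

theorem log3_bd : 1.0986 ≤ Real.log 3 ∧ Real.log 3 ≤ 1.09863 := by
  have h2 := Real.log_two_gt_d9
  have h2' := Real.log_two_lt_d9
  have e : Real.log (531441 / 524288) = 12 * Real.log 3 - 19 * Real.log 2 := by
    rw [Real.log_div (by norm_num) (by norm_num), show (531441 : ℝ) = 3 ^ 12 by norm_num,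
      show (524288 : ℝ) = 2 ^ 19 by norm_num, Real.log_pow, Real.log_pow]
    push_cast; ring
  have a := Real.log_le_sub_one_of_pos (show (0 : ℝ) < 531441 / 524288 by norm_num)
  have b := Real.one_sub_inv_le_log_of_pos (show (0 : ℝ) < 531441 / 524288 by norm_num)
  rw [e] at a b
  norm_num at a b h2 h2'
  constructor <;> norm_num <;> linarith

theorem log5_bd : 1.6093 ≤ Real.log 5 ∧ Real.log 5 ≤ 1.6096 := by
  have h2 := Real.log_two_gt_d9
  have h2' := Real.log_two_lt_d9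
  have e : Real.log (128 / 125) = 7 * Real.log 2 - 3 * Real.log 5 := by
    rw [Real.log_div (by norm_num) (by norm_num), show (128 : ℝ) = 2 ^ 7 by norm_num,
      show (125 : ℝ) = 5 ^ 3 by norm_num, Real.log_pow, Real.log_pow]
    push_cast; ring
  have a := Real.log_le_sub_one_of_pos (show (0 : ℝ) < 128 / 125 by norm_num)
  have b := Real.one_sub_inv_le_log_of_pos (show (0 : ℝ) < 128 / 125 by norm_num)
  rw [e] at a b
  norm_num at a b h2 h2'
  constructor <;> norm_num <;> linarith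

theorem log7_bd : 1.9458 ≤ Real.log 7 ∧ Real.log 7 ≤ 1.946 := by
  have h2 := Real.log_two_gt_d9
  have h2' := Real.log_two_lt_d9
  have e : Real.log (16807 / 16384) = 5 * Real.log 7 - 14 * Real.log 2 := by
    rw [Real.log_div (by norm_num) (by norm_num), show (16807 : ℝ) = 7 ^ 5 by norm_num,
      show (16384 : ℝ) = 2 ^ 14 by norm_num, Real.log_pow, Real.log_pow]
    push_cast; ring
  have a := Real.log_le_sub_one_of_pos (show (0 : ℝ) < 16807 / 16384 by norm_num)
  have b := Real.one_sub_inv_le_log_of_pos (show (0 : ℝ) < 16807 / 16384 by norm_num)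
  rw [e] at a b
  norm_num at a b h2 h2'
  constructor <;> norm_num <;> linarith

theorem log19_bd : 2.9444 ≤ Real.log 19 ∧ Real.log 19 ≤ 2.9445 := by
  have h2 := Real.log_two_gt_d9
  have h2' := Real.log_two_lt_d9
  have e : Real.log (131072 / 130321) = 17 * Real.log 2 - 4 * Real.log 19 := by
    rw [Real.log_div (by norm_num) (by norm_num), show (130321 : ℝ) = 19 ^ 4 by norm_num,
      show (131072 : ℝ) = 2 ^ 17 by norm_num, Real.log_pow, Real.log_pow]
    push_cast; ring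
  have a := Real.log_le_sub_one_of_pos (show (0 : ℝ) < 131072 / 130321 by norm_num)
  have b := Real.one_sub_inv_le_log_of_pos (show (0 : ℝ) < 131072 / 130321 by norm_num)
  rw [e] at a b
  norm_num at a b h2 h2'
  constructor <;> norm_num <;> linarith

theorem log13_bd : 2.564 ≤ Real.log 13 ∧ Real.log 13 ≤ 2.566 := by
  have h2 := Real.log_two_gt_d9
  have h2' := Real.log_two_lt_d9
  have e : Real.log (2197 / 2048) = 3 * Real.log 13 - 11 * Real.log 2 := by
    rw [Real.log_div (by norm_num) (by norm_num), show (2197 : ℝ) = 13 ^ 3 by norm_num,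
      show (2048 : ℝ) = 2 ^ 11 by norm_num, Real.log_pow, Real.log_pow]
    push_cast; ring
  have a := Real.log_le_sub_one_of_pos (show (0 : ℝ) < 2197 / 2048 by norm_num)
  have b := Real.one_sub_inv_le_log_of_pos (show (0 : ℝ) < 2197 / 2048 by norm_num)
  rw [e] at a b
  norm_num at a b h2 h2'
  constructor <;> norm_num <;> linarith

theorem Phi0_val : Phi0 = 10 * Real.log 2 + 28 / 3 * (2 * Real.log 2 - Real.log 3) -
    70 / 3 * (Real.log 2 + Real.log 5 - Real.log 3) +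
    28 / 3 * (Real.log 2 + Real.log 7 - Real.log 3) - 16 / 3 := by
  unfold Phi0
  have h1 : Real.log (4 / 3) = 2 * Real.log 2 - Real.log 3 := by
    rw [Real.log_div (by norm_num) (by norm_num), show (4 : ℝ) = 2 ^ 2 by norm_num, Real.log_pow]
    push_cast; ring
  have h2 : Real.log (10 / 3) = Real.log 2 + Real.log 5 - Real.log 3 := by
    rw [Real.log_div (by norm_num) (by norm_num), show (10 : ℝ) = 2 * 5 by norm_num,
      Real.log_mul (by norm_num) (by norm_num)]
  have h3 : Real.log (14 / 3) = Real.log 2 + Real.log 7 - Real.log 3 := by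
    rw [Real.log_div (by norm_num) (by norm_num), show (14 : ℝ) = 2 * 7 by norm_num,
      Real.log_mul (by norm_num) (by norm_num)]
  rw [h1, h2, h3]

theorem log_7_6 : Real.log (7 / 6) = Real.log 7 - Real.log 2 - Real.log 3 := by
  rw [Real.log_div (by norm_num) (by norm_num), show (6 : ℝ) = 2 * 3 by norm_num,
    Real.log_mul (by norm_num) (by norm_num)]
  ring

theorem log_1_6 : Real.log (1 / 6) = - Real.log 2 - Real.log 3 := by
  rw [Real.log_div (by norm_num) (by norm_num), show (6 : ℝ) = 2 * 3 by norm_num,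
    Real.log_mul (by norm_num) (by norm_num), Real.log_one]
  ring

theorem log_9_2 : Real.log (9 / 2) = 2 * Real.log 3 - Real.log 2 := by
  rw [Real.log_div (by norm_num) (by norm_num), show (9 : ℝ) = 3 ^ 2 by norm_num, Real.log_pow]
  push_cast; ring

theorem log_19_6 : Real.log (19 / 6) = Real.log 19 - Real.log 2 - Real.log 3 := by
  rw [Real.log_div (by norm_num) (by norm_num), show (6 : ℝ) = 2 * 3 by norm_num,
    Real.log_mul (by norm_num) (by norm_num)]
  ring

theorem F1_val : F1 (7 / 6) = 5 * (2 * Real.log 2 - 2) +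
    7 * (7 / 6 * (Real.log 7 - Real.log 2 - Real.log 3) - 7 / 6) +
    2 * (1 / 6 * (- Real.log 2 - Real.log 3) - 1 / 6) + 2 * (9 / 2 * (2 * Real.log 3 - Real.log 2) - 9 / 2) -
    7 * (19 / 6 * (Real.log 19 - Real.log 2 - Real.log 3) - 19 / 6) := by
  unfold F1 LL
  rw [show (4 / 3 - 7 / 6 : ℝ) = 1 / 6 by norm_num, show (7 / 6 + 10 / 3 : ℝ) = 9 / 2 by norm_num,
    show (7 / 6 + 2 : ℝ) = 19 / 6 by norm_num, log_7_6, log_1_6, log_9_2, log_19_6]

theorem dF_val : dF (7 / 6) = 7 * (Real.log 7 - Real.log 2 - Real.log 3) -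
    2 * (- Real.log 2 - Real.log 3) + 2 * (2 * Real.log 3 - Real.log 2) -
    7 * (Real.log 19 - Real.log 2 - Real.log 3) := by
  unfold dF
  rw [show (4 / 3 - 7 / 6 : ℝ) = 1 / 6 by norm_num, show (7 / 6 + 10 / 3 : ℝ) = 9 / 2 by norm_num,
    show (7 / 6 + 2 : ℝ) = 19 / 6 by norm_num, log_7_6, log_1_6, log_9_2, log_19_6]

theorem F1_one : F1 1 = 5 * (2 * Real.log 2 - 2) - 7 +
    2 * (1 / 3 * (- Real.log 3) - 1 / 3) + 2 * (13 / 3 * (Real.log 13 - Real.log 3) - 13 / 3) -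
    7 * (3 * Real.log 3 - 3) := by
  unfold F1 LL
  rw [show (4 / 3 - 1 : ℝ) = 1 / 3 by norm_num, show (1 + 10 / 3 : ℝ) = 13 / 3 by norm_num,
    show (1 + 2 : ℝ) = 3 by norm_num, Real.log_one,
    Real.log_div (show (13 : ℝ) ≠ 0 by norm_num) (show (3 : ℝ) ≠ 0 by norm_num),
    Real.log_div (show (1 : ℝ) ≠ 0 by norm_num) (show (3 : ℝ) ≠ 0 by norm_num), Real.log_one]
  ring

theorem dF_one : dF 1 = 2 * Real.log 3 + 2 * (Real.log 13 - Real.log 3) - 7 * Real.log 3 := by
  unfold dF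
  rw [show (4 / 3 - 1 : ℝ) = 1 / 3 by norm_num, show (1 + 10 / 3 : ℝ) = 13 / 3 by norm_num,
    show (1 + 2 : ℝ) = 3 by norm_num, Real.log_one,
    Real.log_div (show (13 : ℝ) ≠ 0 by norm_num) (show (3 : ℝ) ≠ 0 by norm_num),
    Real.log_div (show (1 : ℝ) ≠ 0 by norm_num) (show (3 : ℝ) ≠ 0 by norm_num), Real.log_one]
  ring

theorem num1 : 0 ≤ F1 1 + 37 / 12 * Real.log 2 - Phi0 - 7 / 3 * Real.log 2 := by
  rw [F1_one, Phi0_val]
  have h2 := Real.log_two_gt_d9
  have h2' := Real.log_two_lt_d9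
  obtain ⟨h3, h3'⟩ := log3_bd
  obtain ⟨h5, h5'⟩ := log5_bd
  obtain ⟨h7, h7'⟩ := log7_bd
  obtain ⟨h13, h13'⟩ := log13_bd
  norm_num at h2 h2' h3 h3' h5 h5' h7 h7' h13 h13'
  linarith

theorem dF_one_nonpos : dF 1 ≤ 0 := by
  rw [dF_one]
  obtain ⟨h3, h3'⟩ := log3_bd
  obtain ⟨h13, h13'⟩ := log13_bd
  norm_num at h3 h3' h13 h13'
  linarith

theorem dF_nonpos : dF (7 / 6) ≤ 0 := by
  rw [dF_val]
  have h2 := Real.log_two_gt_d9
  have h2' := Real.log_two_lt_d9
  obtain ⟨h3, h3'⟩ := log3_bd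
  obtain ⟨h7, h7'⟩ := log7_bd
  obtain ⟨h19, h19'⟩ := log19_bd
  norm_num at h2 h2' h3 h3' h7 h7' h19 h19'
  linarith

theorem num3 : 0 ≤ F1 (7 / 6) + dF (7 / 6) / 6 + 26 / 12 * Real.log 2 - Phi0 -
    7 / 3 * Real.log 2 + 3 / 5 := by
  rw [F1_val, dF_val, Phi0_val]
  have h2 := Real.log_two_gt_d9
  have h2' := Real.log_two_lt_d9
  obtain ⟨h3, h3'⟩ := log3_bd
  obtain ⟨h5, h5'⟩ := log5_bd
  obtain ⟨h7, h7'⟩ := log7_bd
  obtain ⟨h19, h19'⟩ := log19_bd
  norm_num at h2 h2' h3 h3' h5 h5' h7 h7' h19 h19'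
  linarith

theorem num2 : 0 ≤ F1 (7 / 6) + 29 / 12 * Real.log 2 - Phi0 - 7 / 3 * Real.log 2 + 3 / 5 := by
  have h1 := num3
  have h2 := Real.log_two_gt_d9
  have h3 := dF_nonpos
  linarith

/-- the general conclusion -/
theorem concl {n N l : ℕ} (hn : n = 24 * N + 1) (hl : l < 32 * N)
    (cb : ℕ → ℚ) (h0 : ∀ b < 4, 0 < cb b)
    (h : ∀ b < 4, (n : ℚ) ^ 4 * cb b ≤ (qb n (g1 b) (g2 b)).eval (xh n l))
    (e : ℕ) (he : (2 : ℚ) ^ e ≤ cb 0 ^ 3 * cb 1 ^ 3 * cb 2 ^ 3 * cb 3 ^ 5) (κ : ℝ)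
    (hG : n * (Phi0 + 7 / 3 * Real.log 2 - e / 12 * Real.log 2 - κ) +
      16 / 3 * n * Real.log n ≤ GG n l) :
    BN n N ≤ Real.exp (50 + 7 * e) * (n : ℝ) ^ 22 * Real.exp (κ * n) * Dz n N l := by
  have hSZ : SZE := fun hl => G5_ZE hl
  obtain ⟨hD, hlog⟩ := Dz_lower hSZ hn hl cb h0 h
  have hN : 1 ≤ N := by omega
  have hn1 : 1 ≤ n := by omega
  have hnr : (1 : ℝ) ≤ n := by exact_mod_cast hn1
  have hn0 : (0 : ℝ) < n := by linarith
  have hNr : (n : ℝ) = 24 * N + 1 := by rw [hn]; push_cast; ring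
  have hNr' : (N : ℝ) = (n - 1) / 24 := by rw [hNr]; ring
  have hc : e * Real.log 2 ≤ Real.log ((cb 0 ^ 3 * cb 1 ^ 3 * cb 2 ^ 3 * cb 3 ^ 5 : ℚ) : ℝ) := by
    have h1 : (2 : ℝ) ^ e ≤ ((cb 0 ^ 3 * cb 1 ^ 3 * cb 2 ^ 3 * cb 3 ^ 5 : ℚ) : ℝ) := by
      have := (Rat.cast_le (K := ℝ)).mpr he
      push_cast at this ⊢
      exact this
    have h2 := Real.log_le_log (by positivity) h1
    rwa [Real.log_pow] at h2
  have hl2 : 0 < Real.log 2 := Real.log_pos (by norm_num)
  have hl2' : Real.log 2 ≤ 1 := by linarith [Real.log_two_lt_d9]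
  have hln : 0 ≤ Real.log n := Real.log_nonneg hnr
  have h5n : Real.log (5 * n) = Real.log 5 + Real.log n :=
    Real.log_mul (by norm_num) hn0.ne'
  have hl5 := log5_bd.2
  norm_num at hl5
  -- both sides as exponentials
  have hBN : BN n N = Real.exp (240 * N * Real.log n + n * Phi0 + 56 * N * Real.log 2) := by
    unfold BN
    rw [Real.exp_add, Real.exp_add, show 240 * (N : ℝ) * Real.log n =
      ((128 * N : ℕ) : ℝ) * Real.log n + ((112 * N : ℕ) : ℝ) * Real.log n by push_cast; ring,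
      Real.exp_add, ← Real.log_pow, ← Real.log_pow, Real.exp_log (by positivity),
      Real.exp_log (by positivity), show 56 * (N : ℝ) * Real.log 2 =
      ((56 * N : ℕ) : ℝ) * Real.log 2 by push_cast; ring, ← Real.log_pow,
      Real.exp_log (by positivity)]
    ring
  have hR : Real.exp (50 + 7 * e) * (n : ℝ) ^ 22 * Real.exp (κ * n) * Dz n N l =
      Real.exp ((50 + 7 * e) + 22 * Real.log n + κ * n + Real.log (Dz n N l)) := by
    have e22 : (n : ℝ) ^ 22 = Real.exp (22 * Real.log n) := by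
      rw [show 22 * Real.log (n : ℝ) = ((22 : ℕ) : ℝ) * Real.log n by push_cast; ring,
        ← Real.log_pow, Real.exp_log (by positivity)]
    calc Real.exp (50 + 7 * e) * (n : ℝ) ^ 22 * Real.exp (κ * n) * Dz n N l
        = Real.exp (50 + 7 * e) * Real.exp (22 * Real.log n) * Real.exp (κ * n) *
          Real.exp (Real.log (Dz n N l)) := by rw [e22, Real.exp_log hD]
      _ = _ := by rw [← Real.exp_add, ← Real.exp_add, ← Real.exp_add]
  rw [hBN, hR]
  apply Real.exp_le_exp.mpr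
  have hc2 := mul_le_mul_of_nonneg_left hc (show (0 : ℝ) ≤ N by positivity)
  have he0 : (0 : ℝ) ≤ e := by positivity
  -- collect everything
  have k1 : (N : ℝ) * (e * Real.log 2) = n * (e / 24 * Real.log 2) - e / 24 * Real.log 2 := by
    rw [hNr']; ring
  have k2 : 56 * (N : ℝ) * Real.log 2 = n * (7 / 3 * Real.log 2) - 7 / 3 * Real.log 2 := by
    rw [hNr']; ring
  have k3 : 240 * (N : ℝ) * Real.log n = 10 * n * Real.log n - 10 * Real.log n := by
    rw [hNr']; ring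
  have k4 : 56 * (N : ℝ) * Real.log n = 7 / 3 * n * Real.log n - 7 / 3 * Real.log n := by
    rw [hNr']; ring
  have k5 : e / 12 * Real.log 2 ≤ (e : ℝ) := by
    have : e / 12 * Real.log 2 ≤ e / 12 * 1 := mul_le_mul_of_nonneg_left hl2' (by positivity)
    linarith
  rw [k2, k3]
  rw [k4, h5n] at hlog
  rw [k1] at hc2
  nlinarith

/-- constants for `l ≤ 24 N` -/
def c1 : ℕ → ℚ
  | 0 => 2181 / 1000
  | 1 => 2113 / 500
  | 2 => 10633 / 1000
  | _ => 11501 / 1000

/-- constants for `24 N ≤ l`, `6 l ≤ 7 n` -/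
def c2 : ℕ → ℚ
  | 0 => 353 / 500
  | 1 => 1439 / 500
  | 2 => 9189 / 1000
  | _ => 5197 / 500

/-- constants for `7 n < 6 l` -/
def c3 : ℕ → ℚ
  | 0 => 29 / 100
  | 1 => 11 / 4
  | 2 => 237 / 25
  | _ => 1103 / 100

theorem q1 {n W a b c : ℚ} (hn : 0 ≤ n) (hW : 0 ≤ W) (hW2 : W ≤ 2 * n) (hab : 4 ≤ a ^ 2 - b ^ 2)
    (hc : c ≤ ((2 - a) ^ 2 + b ^ 2) * ((2 + a) ^ 2 + b ^ 2)) :
    n ^ 4 * c ≤ ((W - a * n) ^ 2 + b ^ 2 * n ^ 2) * ((W + a * n) ^ 2 + b ^ 2 * n ^ 2) := by
  have h1 : W ^ 2 ≤ 4 * n ^ 2 := by nlinarith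
  have h2 : 0 ≤ 2 * (a ^ 2 - b ^ 2) * n ^ 2 - W ^ 2 - 4 * n ^ 2 := by
    have := mul_le_mul_of_nonneg_right hab (sq_nonneg n)
    nlinarith
  have h3 := mul_nonneg (show 0 ≤ 4 * n ^ 2 - W ^ 2 by linarith) h2
  have h4 : n ^ 4 * c ≤ n ^ 4 * (((2 - a) ^ 2 + b ^ 2) * ((2 + a) ^ 2 + b ^ 2)) :=
    mul_le_mul_of_nonneg_left hc (by positivity)
  have h5 : ((W - a * n) ^ 2 + b ^ 2 * n ^ 2) * ((W + a * n) ^ 2 + b ^ 2 * n ^ 2) -
      n ^ 4 * (((2 - a) ^ 2 + b ^ 2) * ((2 + a) ^ 2 + b ^ 2)) =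
      (4 * n ^ 2 - W ^ 2) * (2 * (a ^ 2 - b ^ 2) * n ^ 2 - W ^ 2 - 4 * n ^ 2) := by ring
  linarith

theorem q2 {n W a b c α β : ℚ} (hα : 0 ≤ α) (hβ : 0 ≤ β) (hn : 0 ≤ n)
    (h1 : α * n ≤ |W - a * n|) (h2 : β * n ≤ W + a * n)
    (hc : c ≤ (α ^ 2 + b ^ 2) * (β ^ 2 + b ^ 2)) :
    n ^ 4 * c ≤ ((W - a * n) ^ 2 + b ^ 2 * n ^ 2) * ((W + a * n) ^ 2 + b ^ 2 * n ^ 2) := by
  have h3 : (α * n) ^ 2 ≤ (W - a * n) ^ 2 := by
    rw [← sq_abs (W - a * n)]
    exact pow_le_pow_left₀ (mul_nonneg hα hn) h1 2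
  have h4 : (β * n) ^ 2 ≤ (W + a * n) ^ 2 := pow_le_pow_left₀ (mul_nonneg hβ hn) h2 2
  have h5 : n ^ 4 * c ≤ n ^ 4 * ((α ^ 2 + b ^ 2) * (β ^ 2 + b ^ 2)) :=
    mul_le_mul_of_nonneg_left hc (by positivity)
  have h6 : ((α * n) ^ 2 + b ^ 2 * n ^ 2) * ((β * n) ^ 2 + b ^ 2 * n ^ 2) ≤
      ((W - a * n) ^ 2 + b ^ 2 * n ^ 2) * ((W + a * n) ^ 2 + b ^ 2 * n ^ 2) :=
    mul_le_mul (by linarith) (by linarith) (by positivity) (by positivity)
  have h7 : ((α * n) ^ 2 + b ^ 2 * n ^ 2) * ((β * n) ^ 2 + b ^ 2 * n ^ 2) =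
      n ^ 4 * ((α ^ 2 + b ^ 2) * (β ^ 2 + b ^ 2)) := by ring
  linarith

theorem case1 {n N l : ℕ} (hN : 1 ≤ N) (hn : n = 24 * N + 1) (hl : l ≤ 24 * N) :
    BN n N ≤ Real.exp (50 + 7 * (37 : ℕ)) * (n : ℝ) ^ 22 * Real.exp (0 * n) * Dz n N l := by
  have hnq : (n : ℚ) = 24 * N + 1 := by rw [hn]; push_cast; ring
  have hnr : (n : ℝ) = 24 * N + 1 := by rw [hn]; push_cast; ring
  have hlq : (l : ℚ) ≤ 24 * N := by exact_mod_cast hl
  have hlr : (l : ℝ) ≤ 24 * N := by exact_mod_cast hl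
  have hl0 : (0 : ℚ) ≤ l := by positivity
  have hl0r : (0 : ℝ) ≤ l := by positivity
  have hn0 : (0 : ℚ) ≤ n := by positivity
  have hn0r : (0 : ℝ) < n := by rw [hnr]; positivity
  apply concl hn (by omega) c1
  · intro b hb
    interval_cases b <;> norm_num [c1]
  · intro b hb
    rw [qb_eval]
    have hW : (0 : ℚ) ≤ l + 1 / 2 + n := by positivity
    have hW2 : (l : ℚ) + 1 / 2 + n ≤ 2 * n := by linarith
    interval_cases b
    · exact q1 hn0 hW hW2 (by norm_num [g1, g2]) (by norm_num [g1, g2, c1])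
    · exact q1 hn0 hW hW2 (by norm_num [g1, g2]) (by norm_num [g1, g2, c1])
    · exact q1 hn0 hW hW2 (by norm_num [g1, g2]) (by norm_num [g1, g2, c1])
    · exact q1 hn0 hW hW2 (by norm_num [g1, g2]) (by norm_num [g1, g2, c1])
  · norm_num [c1]
  · have h1 := GG_lower (n := n) (l := l) (t := 1) hn0r hl0r (by linarith) one_pos (by norm_num)
    have h2 : 0 ≤ dF 1 * (l - 1 * n) :=
      mul_nonneg_of_nonpos_of_nonpos dF_one_nonpos (by linarith)
    have h3 := mul_nonneg hn0r.le num1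
    push_cast
    nlinarith

theorem case23 {n N l : ℕ} (hN : 100 ≤ N) (hn : n = 24 * N + 1) (hl : 24 * N ≤ l)
    (hl2 : l < 32 * N) :
    BN n N ≤ Real.exp (50 + 7 * (29 : ℕ)) * (n : ℝ) ^ 22 * Real.exp (3 / 5 * n) * Dz n N l := by
  have hnq : (n : ℚ) = 24 * N + 1 := by rw [hn]; push_cast; ring
  have hnr : (n : ℝ) = 24 * N + 1 := by rw [hn]; push_cast; ring
  have hNq : (100 : ℚ) ≤ N := by exact_mod_cast hN
  have hlq : (24 : ℚ) * N ≤ l := by exact_mod_cast hl
  have hlr : (l : ℝ) ≤ 32 * N := by exact_mod_cast hl2.le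
  have hl0 : (0 : ℚ) ≤ l := by positivity
  have hl0r : (0 : ℝ) ≤ l := by positivity
  have hn0 : (0 : ℚ) ≤ n := by positivity
  have hn0r : (0 : ℝ) < n := by rw [hnr]; positivity
  have h1 := GG_lower (n := n) (l := l) (t := 7 / 6) hn0r hl0r (by linarith) (by norm_num)
    (by norm_num)
  by_cases h6 : 6 * l ≤ 7 * n
  · have h6q : 6 * (l : ℚ) ≤ 7 * n := by exact_mod_cast h6
    have h6r : 6 * (l : ℝ) ≤ 7 * n := by exact_mod_cast h6
    apply concl hn (by omega) c2
    · intro b hb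
      interval_cases b <;> norm_num [c2]
    · intro b hb
      rw [qb_eval]
      have hW1 : (l : ℚ) + 1 / 2 + n ≤ 21669 / 10000 * n := by linarith
      have hW2 : 1999 / 1000 * (n : ℚ) ≤ l + 1 / 2 + n := by linarith
      interval_cases b
      · refine q2 (α := 232 / 100 - 21669 / 10000) (β := 1999 / 1000 + 232 / 100) (by norm_num)
          (by norm_num) hn0 ?_ ?_ (by norm_num [g2, c2])
        · simp only [g1]
          refine le_trans ?_ (neg_le_abs _)
          linarith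
        · simp only [g1]
          linarith
      · refine q2 (α := 230 / 100 - 21669 / 10000) (β := 1999 / 1000 + 230 / 100) (by norm_num)
          (by norm_num) hn0 ?_ ?_ (by norm_num [g2, c2])
        · simp only [g1]
          refine le_trans ?_ (neg_le_abs _)
          linarith
        · simp only [g1]
          linarith
      · refine q2 (α := 231 / 100 - 21669 / 10000) (β := 1999 / 1000 + 231 / 100) (by norm_num)
          (by norm_num) hn0 ?_ ?_ (by norm_num [g2, c2])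
        · simp only [g1]
          refine le_trans ?_ (neg_le_abs _)
          linarith
        · simp only [g1]
          linarith
      · refine q2 (α := 226 / 100 - 21669 / 10000) (β := 1999 / 1000 + 226 / 100) (by norm_num)
          (by norm_num) hn0 ?_ ?_ (by norm_num [g2, c2])
        · simp only [g1]
          refine le_trans ?_ (neg_le_abs _)
          linarith
        · simp only [g1]
          linarith
    · norm_num [c2]
    · have h2 : 0 ≤ dF (7 / 6) * (l - 7 / 6 * n) :=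
        mul_nonneg_of_nonpos_of_nonpos dF_nonpos (by linarith)
      have h3 := mul_nonneg hn0r.le num2
      push_cast
      nlinarith
  · have h6q : 7 * (n : ℚ) ≤ 6 * l := by
      have : 7 * n ≤ 6 * l := by omega
      exact_mod_cast this
    have key : BN n N ≤ Real.exp (50 + 7 * (26 : ℕ)) * (n : ℝ) ^ 22 * Real.exp (3 / 5 * n) *
        Dz n N l := by
      apply concl hn (by omega) c3
      · intro b hb
        interval_cases b <;> norm_num [c3]
      · intro b hb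
        rw [qb_eval]
        have hW2 : 13 / 6 * (n : ℚ) ≤ l + 1 / 2 + n := by linarith
        interval_cases b
        · refine q2 (α := 0) (β := 13 / 6 + 232 / 100) (by norm_num)
            (by norm_num) hn0 ?_ ?_ (by norm_num [g2, c3])
          · simp only [zero_mul]; exact abs_nonneg _
          · simp only [g1]
            linarith
        · refine q2 (α := 0) (β := 13 / 6 + 230 / 100) (by norm_num)
            (by norm_num) hn0 ?_ ?_ (by norm_num [g2, c3])
          · simp only [zero_mul]; exact abs_nonneg _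
          · simp only [g1]
            linarith
        · refine q2 (α := 0) (β := 13 / 6 + 231 / 100) (by norm_num)
            (by norm_num) hn0 ?_ ?_ (by norm_num [g2, c3])
          · simp only [zero_mul]; exact abs_nonneg _
          · simp only [g1]
            linarith
        · refine q2 (α := 0) (β := 13 / 6 + 226 / 100) (by norm_num)
            (by norm_num) hn0 ?_ ?_ (by norm_num [g2, c3])
          · simp only [zero_mul]; exact abs_nonneg _
          · simp only [g1]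
            linarith
      · norm_num [c3]
      · have h4 : (l : ℝ) - 7 / 6 * n ≤ n / 6 := by linarith
        have h2 : dF (7 / 6) * (n / 6) ≤ dF (7 / 6) * (l - 7 / 6 * n) :=
          mul_le_mul_of_nonpos_left h4 dF_nonpos
        have h3 := mul_nonneg hn0r.le num3
        push_cast
        nlinarith
    have hD0 : 0 ≤ Dz n N l := by unfold Dz; positivity
    refine key.trans ?_
    apply mul_le_mul_of_nonneg_right _ hD0
    apply mul_le_mul_of_nonneg_right _ (Real.exp_pos _).le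
    apply mul_le_mul_of_nonneg_right _ (by positivity)
    apply Real.exp_le_exp.mpr
    norm_num

end G6

/-- `G6b_anchor`, proved here directly (name of the task G6b kept free) -/
theorem G6c_anchor24 : ∃ (C : ℝ) (K : ℕ), 0 < C ∧ ∀ N : ℕ, 100 ≤ N → ∀ n : ℕ, n = 24 * N + 1 →
    BN n N ≤ C * (n : ℝ) ^ K * Dz n N (24 * N) := by
  refine ⟨Real.exp (50 + 7 * (37 : ℕ)), 22, Real.exp_pos _, fun N hN n hn => ?_⟩
  have := G6.case1 (l := 24 * N) (by omega) hn le_rfl
  simpa using this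

theorem G6c_anchor : ∃ (C : ℝ) (K : ℕ), 0 < C ∧ ∀ N : ℕ, 100 ≤ N → ∀ n : ℕ, n = 24 * N + 1 → ∀ l : ℕ,
    24 * N ≤ l → l < 32 * N → BN n N ≤ C * (n : ℝ) ^ K * Real.exp (3 / 5 * n) * Dz n N l :=
  ⟨Real.exp (50 + 7 * (29 : ℕ)), 22, Real.exp_pos _, fun _ hN _ hn _ hl hl2 =>
    G6.case23 hN hn hl hl2⟩

/-- the zone is saturated -/
theorem G6_sat : ∃ (C : ℝ) (K : ℕ), 0 < C ∧ ∀ N : ℕ, 100 ≤ N → ∀ n : ℕ, n = 24 * N + 1 → ∀ l < 32 * N,
    BN n N ≤ C * (n : ℝ) ^ K * Real.exp (kz N l * n) * Dz n N l := by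
  refine ⟨Real.exp (50 + 7 * (37 : ℕ)), 22, Real.exp_pos _, fun N hN n hn l hl => ?_⟩
  unfold kz
  split_ifs with h
  · exact G6.case1 (by omega) hn h.le
  · refine (G6.case23 hN hn (by omega) hl).trans ?_
    have hD0 : 0 ≤ Dz n N l := by unfold Dz; positivity
    apply mul_le_mul_of_nonneg_right _ hD0
    apply mul_le_mul_of_nonneg_right _ (Real.exp_pos _).le
    apply mul_le_mul_of_nonneg_right _ (by positivity)
    apply Real.exp_le_exp.mpr
    norm_num

end

end Pool.Agent.H216R2.BB
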