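import Pool.Agent.H216R2.BB.Defs

/-!
Analytic lemmas for the saturation of the zone (task G6).
-/

open Polynomial Pool.Agent.H337R2

namespace Pool.Agent.H216R2.BB

noncomputable section

namespace G6

/-- `x log x - x` -/
def LL (x : ℝ) : ℝ := x * Real.log x - x

theorem fac_lower (m : ℕ) : LL m ≤ Real.log (m.factorial : ℝ) := by
  unfold LL
  rcases Nat.eq_zero_or_pos m with h | h
  · subst h; simp
  · have h1 := Stirling.le_log_factorial_stirling h.ne'
    have h2 : 0 ≤ Real.log (m : ℝ) := Real.log_natCast_nonneg m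
    have h3 : 0 ≤ Real.log (2 * Real.pi) := Real.log_nonneg (by linarith [Real.pi_gt_three])
    linarith

theorem fac_upper (m : ℕ) (hm : 1 ≤ m) :
    Real.log (m.factorial : ℝ) ≤ LL m + Real.log m + 1 := by
  induction m, hm using Nat.le_induction with
  | base => simp [LL]
  | succ m hm ih =>
    have hm0 : (0 : ℝ) < m := by exact_mod_cast hm
    have h1 : Real.log ((m + 1).factorial : ℝ) = Real.log (m + 1) + Real.log (m.factorial : ℝ) := by
      rw [Nat.factorial_succ]
      push_cast
      rw [Real.log_mul (by positivity) (by positivity)]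
    rw [h1]
    unfold LL at ih ⊢
    push_cast
    have h2 : 1 / ((m : ℝ) + 1) ≤ Real.log (m + 1) - Real.log m := by
      have h3 := Real.log_le_sub_one_of_pos (show (0 : ℝ) < m / (m + 1) by positivity)
      rw [Real.log_div (by positivity) (by positivity)] at h3
      have h4 : (m : ℝ) / (m + 1) - 1 = - (1 / (m + 1)) := by field_simp; ring
      linarith
    have h5 : 1 ≤ ((m : ℝ) + 1) * (Real.log (m + 1) - Real.log m) := by
      have := mul_le_mul_of_nonneg_left h2 (show (0 : ℝ) ≤ (m : ℝ) + 1 by positivity)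
      rwa [mul_one_div_cancel (by positivity)] at this
    nlinarith

theorem LL_tangent {x y : ℝ} (hx : 0 ≤ x) (hy : 0 < y) :
    LL y + Real.log y * (x - y) ≤ LL x := by
  unfold LL
  rcases hx.eq_or_lt with h | h
  · subst h; simp; nlinarith
  · have h3 := Real.log_le_sub_one_of_pos (show (0 : ℝ) < y / x by positivity)
    rw [Real.log_div hy.ne' h.ne'] at h3
    have h4 := mul_le_mul_of_nonneg_left h3 h.le
    have h5 : x * (y / x - 1) = y - x := by field_simp
    nlinarith

theorem LL_diff_tangent {x y a : ℝ} (hx : 0 ≤ x) (hy : 0 < y) (ha : 0 < a) :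
    LL y - LL (y + a) + (Real.log y - Real.log (y + a)) * (x - y) ≤ LL x - LL (x + a) := by
  have hxa : 0 < x + a := by linarith
  have hya : 0 < y + a := by linarith
  have key : 0 ≤ x * (Real.log x - Real.log y) - (x + a) * (Real.log (x + a) - Real.log (y + a)) := by
    have e2 := Real.log_le_sub_one_of_pos (show (0 : ℝ) < (x + a) / (y + a) by positivity)
    rw [Real.log_div hxa.ne' hya.ne'] at e2
    have e3 := mul_le_mul_of_nonneg_left e2 ha.le
    have f3 : a * ((x + a) / (y + a) - 1) + x * ((y * (x + a)) / (x * (y + a)) - 1) ≤ 0 ∨ x = 0 := by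
      rcases hx.eq_or_lt with h | h
      · right; exact h.symm
      · left
        have : a * ((x + a) / (y + a) - 1) + x * ((y * (x + a)) / (x * (y + a)) - 1) = 0 := by
          field_simp
          ring
        exact this.le
    rcases hx.eq_or_lt with h | h
    · subst h
      simp only [zero_mul, zero_add, zero_sub]
      have h1 : Real.log a ≤ Real.log (y + a) := Real.log_le_log ha (by linarith)
      nlinarith
    · have e1 := Real.log_le_sub_one_of_pos
        (show (0 : ℝ) < (y * (x + a)) / (x * (y + a)) by positivity)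
      rw [Real.log_div (by positivity) (by positivity), Real.log_mul hy.ne' hxa.ne',
        Real.log_mul h.ne' hya.ne'] at e1
      have e4 := mul_le_mul_of_nonneg_left e1 h.le
      rcases f3 with f3 | f3
      · nlinarith
      · exact absurd f3 h.ne'
  unfold LL
  nlinarith

theorem LL_scale {n x : ℝ} (hn : 0 < n) (hx : 0 < x) :
    LL (n * x) = n * LL x + n * x * Real.log n := by
  unfold LL
  rw [Real.log_mul hn.ne' hx.ne']
  ring

/-- `LL (x + h) - h log (x + h) ≤ LL x` -/
theorem LL_shift {x h : ℝ} (hx : 0 ≤ x) (hh : 0 < h) :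
    LL (x + h) - h * Real.log (x + h) ≤ LL x := by
  have := LL_tangent hx (show 0 < x + h by linarith)
  have e : Real.log (x + h) * (x - (x + h)) = - (h * Real.log (x + h)) := by ring
  rw [e] at this
  linarith

/-- the sum of the logarithms -/
def GG (n l : ℝ) : ℝ :=
  5 * LL (2 * n) + 7 * LL l + 2 * LL (4 / 3 * n - l) + 2 * LL (l + 10 / 3 * n) - 7 * LL (l + 2 * n)

/-- value for `l = t n` -/
def F1 (t : ℝ) : ℝ :=
  5 * LL 2 + 7 * LL t + 2 * LL (4 / 3 - t) + 2 * LL (t + 10 / 3) - 7 * LL (t + 2)

/-- derivative -/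
def dF (t : ℝ) : ℝ :=
  7 * Real.log t - 2 * Real.log (4 / 3 - t) + 2 * Real.log (t + 10 / 3) - 7 * Real.log (t + 2)

theorem GG_lower {n l t : ℝ} (hn : 0 < n) (hl : 0 ≤ l) (hl2 : l ≤ 4 / 3 * n) (ht : 0 < t)
    (ht2 : t < 4 / 3) :
    n * F1 t + 16 / 3 * n * Real.log n + dF t * (l - t * n) ≤ GG n l := by
  have ht3 : 0 < 4 / 3 - t := by linarith
  have hnt : 0 < n * t := mul_pos hn ht
  have a1 := LL_diff_tangent (x := l) (y := n * t) (a := 2 * n) hl hnt (by linarith)
  have a2 := LL_tangent (x := 4 / 3 * n - l) (y := n * (4 / 3 - t)) (by linarith) (mul_pos hn ht3)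
  have a3 := LL_tangent (x := l + 10 / 3 * n) (y := n * (t + 10 / 3)) (by linarith)
    (mul_pos hn (by linarith))
  have e0 : n * t + 2 * n = n * (t + 2) := by ring
  rw [e0] at a1
  rw [LL_scale hn ht, LL_scale hn (show 0 < t + 2 by linarith), Real.log_mul hn.ne' ht.ne',
    Real.log_mul hn.ne' (show t + 2 ≠ 0 by linarith)] at a1
  rw [LL_scale hn ht3, Real.log_mul hn.ne' ht3.ne'] at a2
  rw [LL_scale hn (show 0 < t + 10 / 3 by linarith),
    Real.log_mul hn.ne' (show t + 10 / 3 ≠ 0 by linarith)] at a3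
  have a4 : LL (2 * n) = n * LL 2 + n * 2 * Real.log n := by
    rw [mul_comm 2 n, LL_scale hn (by norm_num)]
  unfold GG F1 dF
  rw [a4]
  nlinarith

end G6

end

end Pool.Agent.H216R2.BB
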