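import Pool.Agent.H216R2.BB.G6x

/-!
Lower bound of the diagonal entries of the zone rows (task G6).
-/

open Polynomial Pool.Agent.H337R2

namespace Pool.Agent.H216R2.BB

noncomputable section

namespace G6

theorem prod_asc (l m : ℕ) :
    (∏ k ∈ Finset.range m, ((l : ℚ) + k + 1)) * (l.factorial : ℚ) = ((l + m).factorial : ℚ) := by
  induction m with
  | zero => simp
  | succ m ih =>
    rw [Finset.prod_range_succ, mul_right_comm, ih, ← add_assoc, Nat.factorial_succ]
    push_cast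
    ring

theorem wh_lower (n l : ℕ) (hn : 1 ≤ n) :
    ((2 * n).factorial : ℚ) ^ 5 * (l.factorial : ℚ) ^ 5 / ((l + 2 * n + 1).factorial : ℚ) ^ 5
      ≤ |wh n l| := by
  have hn' : (1 : ℚ) ≤ n := by exact_mod_cast hn
  have hl' : (0 : ℚ) ≤ l := by positivity
  have hP0 : 0 < ∏ k ∈ Finset.range (2 * n + 1), ((l : ℚ) + k + 1 / 2) :=
    Finset.prod_pos fun k _ => by positivity
  have hP1 : ∏ k ∈ Finset.range (2 * n + 1), ((l : ℚ) + k + 1 / 2) ≤
      ((l + 2 * n + 1).factorial : ℚ) / (l.factorial : ℚ) := by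
    rw [le_div_iff₀ (by positivity)]
    have h1 := prod_asc l (2 * n + 1)
    rw [← add_assoc] at h1
    rw [← h1]
    apply mul_le_mul_of_nonneg_right _ (by positivity)
    apply Finset.prod_le_prod
    · intro k _; positivity
    · intro k _; linarith
  have hx : 1 ≤ xh n l := by
    unfold xh
    nlinarith [mul_nonneg hl' (show (0 : ℚ) ≤ n by linarith)]
  have hx7 : 1 ≤ xh n l ^ 7 := one_le_pow₀ hx
  have hD : (∏ k ∈ Finset.range (2 * n + 1), ((l : ℚ) + k + 1 / 2)) ^ 5 ≤
      (((l + 2 * n + 1).factorial : ℚ) / (l.factorial : ℚ)) ^ 5 :=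
    pow_le_pow_left₀ hP0.le hP1 5
  have hw : ((2 * n).factorial : ℚ) ^ 5 / (((l + 2 * n + 1).factorial : ℚ) / (l.factorial : ℚ)) ^ 5
      ≤ wh n l := by
    unfold wh
    calc ((2 * n).factorial : ℚ) ^ 5 / (((l + 2 * n + 1).factorial : ℚ) / (l.factorial : ℚ)) ^ 5
        ≤ ((2 * n).factorial : ℚ) ^ 5 * (2 * l + 1 + 2 * n) /
          (∏ k ∈ Finset.range (2 * n + 1), ((l : ℚ) + k + 1 / 2)) ^ 5 := by
          apply div_le_div₀ (by positivity) _ (pow_pos hP0 5) hD
          have : (1 : ℚ) ≤ 2 * l + 1 + 2 * n := by linarith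
          exact le_mul_of_one_le_right (by positivity) this
      _ ≤ _ := by
          apply le_mul_of_one_le_right _ hx7
          exact div_nonneg (by positivity) (pow_pos hP0 5).le
  refine le_trans (le_of_eq ?_) (hw.trans (le_abs_self _))
  rw [div_pow, div_div_eq_mul_div]

theorem qb_eval (n l : ℕ) (a b : ℚ) : (qb n a b).eval (xh n l) =
    (((l : ℚ) + 1 / 2 + n - a * n) ^ 2 + b ^ 2 * n ^ 2) *
      (((l : ℚ) + 1 / 2 + n + a * n) ^ 2 + b ^ 2 * n ^ 2) := by
  unfold qb xh
  simp only [eval_add, eval_sub, eval_mul, eval_pow, eval_X, eval_C]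
  ring

theorem HH_lower (n N l : ℕ) (cb : ℕ → ℚ) (h0 : ∀ b < 4, 0 < cb b)
    (h : ∀ b < 4, (n : ℚ) ^ 4 * cb b ≤ (qb n (g1 b) (g2 b)).eval (xh n l)) :
    (n : ℚ) ^ (56 * N) * (cb 0 ^ 3 * cb 1 ^ 3 * cb 2 ^ 3 * cb 3 ^ 5) ^ N ≤
      (HH n N).eval (xh n l) := by
  unfold HH
  rw [eval_prod]
  simp only [eval_pow]
  have h1 : ∏ b ∈ Finset.range 4, ((n : ℚ) ^ 4 * cb b) ^ (sg b * N) ≤
      ∏ b ∈ Finset.range 4, (qb n (g1 b) (g2 b)).eval (xh n l) ^ (sg b * N) := by
    apply Finset.prod_le_prod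
    · intro b hb
      have := h0 b (Finset.mem_range.mp hb)
      positivity
    · intro b hb
      have hb' := Finset.mem_range.mp hb
      have := h0 b hb'
      exact pow_le_pow_left₀ (by positivity) (h b hb') _
  refine le_trans (le_of_eq ?_) h1
  simp only [Finset.prod_range_succ, Finset.prod_range_zero, one_mul, sg]
  simp only [mul_pow, ← pow_mul]
  ring

/-- statement of `G5_ZE` -/
def SZE : Prop := ∀ {n T l : ℕ}, l < T →
    |(ZE n T l).eval (xh n l)| = (l.factorial : ℚ) * ((T - 1 - l).factorial : ℚ) *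
      ((l + T + 2 * n).factorial : ℚ) / (((l + 2 * n).factorial : ℚ) * (2 * l + 1 + 2 * n))

theorem Dz_lower (hZE : SZE) {n N l : ℕ} (hn : n = 24 * N + 1) (hl : l < 32 * N)
    (cb : ℕ → ℚ) (h0 : ∀ b < 4, 0 < cb b)
    (h : ∀ b < 4, (n : ℚ) ^ 4 * cb b ≤ (qb n (g1 b) (g2 b)).eval (xh n l)) :
    0 < Dz n N l ∧
    GG n l + 2 * (56 * N * Real.log n +
        N * Real.log ((cb 0 ^ 3 * cb 1 ^ 3 * cb 2 ^ 3 * cb 3 ^ 5 : ℚ) : ℝ))
      - 7 - 22 * Real.log (5 * n) ≤ Real.log (Dz n N l) := by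
  have hN : 1 ≤ N := by omega
  have hn1 : 1 ≤ n := by omega
  have hnr : (1 : ℝ) ≤ n := by exact_mod_cast hn1
  have hn0 : (0 : ℝ) < n := by linarith
  have hlr : (0 : ℝ) ≤ l := by positivity
  have hNr : (n : ℝ) = 24 * N + 1 := by rw [hn]; push_cast; ring
  -- the three factors
  have hw := wh_lower n l hn1
  have hz := hZE (n := n) (T := 32 * N) (l := l) hl
  have hH := HH_lower n N l cb h0 h
  have hwR : ((2 * n).factorial : ℝ) ^ 5 * (l.factorial : ℝ) ^ 5 /
      ((l + 2 * n + 1).factorial : ℝ) ^ 5 ≤ |((wh n l : ℚ) : ℝ)| := by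
    have := (Rat.cast_le (K := ℝ)).mpr hw
    push_cast at this
    exact this
  have hzR : |(((ZE n (32 * N) l).eval (xh n l) : ℚ) : ℝ)| = (l.factorial : ℝ) *
      ((32 * N - 1 - l).factorial : ℝ) * ((l + 32 * N + 2 * n).factorial : ℝ) /
        (((l + 2 * n).factorial : ℝ) * (2 * l + 1 + 2 * n)) := by
    have : ((|(ZE n (32 * N) l).eval (xh n l)| : ℚ) : ℝ) = (((l.factorial : ℚ) *
      ((32 * N - 1 - l).factorial : ℚ) * ((l + 32 * N + 2 * n).factorial : ℚ) /
        (((l + 2 * n).factorial : ℚ) * (2 * l + 1 + 2 * n)) : ℚ) : ℝ) := by rw [hz]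
    push_cast at this
    exact this
  set c : ℚ := cb 0 ^ 3 * cb 1 ^ 3 * cb 2 ^ 3 * cb 3 ^ 5 with hc
  have hc0 : 0 < c := by
    have a0 := h0 0 (by norm_num)
    have a1 := h0 1 (by norm_num)
    have a2 := h0 2 (by norm_num)
    have a3 := h0 3 (by norm_num)
    rw [hc]; positivity
  have hcR : (0 : ℝ) < (c : ℝ) := by exact_mod_cast hc0
  have hHR : (n : ℝ) ^ (56 * N) * (c : ℝ) ^ N ≤ (((HH n N).eval (xh n l) : ℚ) : ℝ) := by
    exact_mod_cast hH
  -- logarithms
  have L1 : 5 * Real.log ((2 * n).factorial : ℝ) + 5 * Real.log (l.factorial : ℝ) -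
      5 * Real.log ((l + 2 * n + 1).factorial : ℝ) ≤ Real.log |((wh n l : ℚ) : ℝ)| := by
    have := Real.log_le_log (by positivity) hwR
    rw [Real.log_div (by positivity) (by positivity), Real.log_mul (by positivity) (by positivity),
      Real.log_pow, Real.log_pow, Real.log_pow] at this
    push_cast at this
    linarith
  have L2 : Real.log |(((ZE n (32 * N) l).eval (xh n l) : ℚ) : ℝ)| = Real.log (l.factorial : ℝ) +
      Real.log ((32 * N - 1 - l).factorial : ℝ) + Real.log ((l + 32 * N + 2 * n).factorial : ℝ) -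
        (Real.log ((l + 2 * n).factorial : ℝ) + Real.log (2 * l + 1 + 2 * n)) := by
    rw [hzR, Real.log_div (by positivity) (by positivity), Real.log_mul (by positivity)
      (by positivity), Real.log_mul (by positivity) (by positivity),
      Real.log_mul (by positivity) (by positivity)]
  have L3 : 56 * N * Real.log n + N * Real.log c ≤
      Real.log (((HH n N).eval (xh n l) : ℚ) : ℝ) := by
    have := Real.log_le_log (by positivity) hHR
    rw [Real.log_mul (by positivity) (by positivity), Real.log_pow, Real.log_pow] at this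
    push_cast at this
    exact this
  have hwpos : 0 < |((wh n l : ℚ) : ℝ)| := lt_of_lt_of_le (by positivity) hwR
  have hzpos : 0 < |(((ZE n (32 * N) l).eval (xh n l) : ℚ) : ℝ)| := by
    rw [hzR]; positivity
  have hHpos : 0 < (((HH n N).eval (xh n l) : ℚ) : ℝ) := lt_of_lt_of_le (by positivity) hHR
  have hDz : Dz n N l = |((wh n l : ℚ) : ℝ)| *
      (|(((ZE n (32 * N) l).eval (xh n l) : ℚ) : ℝ)| ^ 2 *
        (((HH n N).eval (xh n l) : ℚ) : ℝ) ^ 2) := by
    unfold Dz
    push_cast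
    rw [sq_abs, mul_pow]
  have hDpos : 0 < Dz n N l := by
    rw [hDz]; positivity
  refine ⟨hDpos, ?_⟩
  have LD : Real.log (Dz n N l) = Real.log |((wh n l : ℚ) : ℝ)| +
      (2 * Real.log |(((ZE n (32 * N) l).eval (xh n l) : ℚ) : ℝ)| +
        2 * Real.log (((HH n N).eval (xh n l) : ℚ) : ℝ)) := by
    rw [hDz, Real.log_mul hwpos.ne' (by positivity), Real.log_mul (by positivity) (by positivity),
      Real.log_pow, Real.log_pow]
    push_cast
    ring
  rw [LD]
  -- factorials
  have hlN : (l : ℝ) + 1 ≤ 32 * N := by exact_mod_cast hl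
  have f1 : LL (2 * n) ≤ Real.log ((2 * n).factorial : ℝ) := by
    have := fac_lower (2 * n)
    push_cast at this
    exact this
  have f2 := fac_lower l
  have f3 : LL (4 / 3 * n - l) - 7 / 3 * Real.log (5 * n) ≤
      Real.log ((32 * N - 1 - l).factorial : ℝ) := by
    have h1 := fac_lower (32 * N - 1 - l)
    have hcast : ((32 * N - 1 - l : ℕ) : ℝ) = 32 * N - 1 - l := by
      rw [Nat.cast_sub (by omega), Nat.cast_sub (by omega)]
      push_cast
      ring
    rw [hcast] at h1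
    have h2 := LL_shift (x := 32 * N - 1 - (l : ℝ)) (h := 7 / 3) (by linarith) (by norm_num)
    have h3 : 32 * (N : ℝ) - 1 - l + 7 / 3 = 4 / 3 * n - l := by rw [hNr]; ring
    rw [h3] at h2
    have h4 : Real.log (4 / 3 * n - l) ≤ Real.log (5 * n) :=
      Real.log_le_log (by linarith) (by linarith)
    linarith
  have f4 : LL (l + 10 / 3 * n) - 4 / 3 * Real.log (5 * n) ≤
      Real.log ((l + 32 * N + 2 * n).factorial : ℝ) := by
    have h1 := fac_lower (l + 32 * N + 2 * n)
    push_cast at h1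
    have h2 := LL_shift (x := (l : ℝ) + 32 * N + 2 * n) (h := 4 / 3) (by positivity) (by norm_num)
    have h3 : (l : ℝ) + 32 * N + 2 * n + 4 / 3 = l + 10 / 3 * n := by rw [hNr]; ring
    rw [h3] at h2
    have h4 : Real.log (l + 10 / 3 * n) ≤ Real.log (5 * n) :=
      Real.log_le_log (by positivity) (by linarith)
    linarith
  have f5 : Real.log ((l + 2 * n).factorial : ℝ) ≤ LL (l + 2 * n) + Real.log (5 * n) + 1 := by
    have h1 := fac_upper (l + 2 * n) (by omega)
    push_cast at h1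
    have h4 : Real.log ((l : ℝ) + 2 * n) ≤ Real.log (5 * n) :=
      Real.log_le_log (by positivity) (by linarith)
    linarith
  have f6 : Real.log ((l + 2 * n + 1).factorial : ℝ) ≤ LL (l + 2 * n) + 2 * Real.log (5 * n) + 1 := by
    rw [Nat.factorial_succ]
    push_cast
    rw [Real.log_mul (by positivity) (by positivity)]
    have h4 : Real.log ((l : ℝ) + 2 * n + 1) ≤ Real.log (5 * n) :=
      Real.log_le_log (by positivity) (by linarith)
    linarith
  have f7 : Real.log (2 * (l : ℝ) + 1 + 2 * n) ≤ Real.log (5 * n) :=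
    Real.log_le_log (by positivity) (by linarith)
  have f8 : 0 ≤ Real.log (5 * n) := Real.log_nonneg (by linarith)
  unfold GG
  linarith

end G6

end

end Pool.Agent.H216R2.BB
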