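import Pool.Agent.H216R2.BB.G1m
import Pool.Agent.H216R2.BB.G2
import Pool.Agent.H216R2.BB.G3
import Pool.Agent.H216R2.BB.G7aPre

/-!
# The contour rows
-/

open Polynomial Pool.Agent.H337R2 Filter Topology

namespace Pool.Agent.H216R2.BB

noncomputable section

/-- the contour rows -/
theorem G7a_rows : ∃ (C : ℝ) (K : ℕ), 0 < C ∧ ∀ N : ℕ, 100 ≤ N → ∀ n : ℕ, n = 24 * N + 1 →
    ∃ (G : ℕ → ℚ[X]) (al : ℕ → ℝ), (∀ j < 28 * N, (G j).Monic ∧ (G j).natDegree = j) ∧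
    (∀ j < 28 * N, ∀ y : ℝ, wt n N y * ‖aeval (xz n (32 * N) y) (ZZ n (32 * N) * G j)‖ ^ 2 ≤ Real.exp (al j)) ∧
    (∀ y : ℝ, wt n N y * ‖aeval (xz n (32 * N) y) (ZZ n (32 * N) * HH n N)‖ ^ 2 ≤ C * (n : ℝ) ^ K * BN n N) ∧
    ∑ j ∈ Finset.range (28 * N), al j ≤ 28 * N * (Real.log C + K * Real.log n + n * Phi0 + 128 * N * Real.log n) +
      2 * (28 * N) ^ 2 * Real.log n + 528 * (N : ℝ) ^ 2 * Real.log 2 :=
  G7a_rows_of G1_main (fun hN hn y b => G2_qb hN hn y b) G3_cert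

end

end Pool.Agent.H216R2.BB
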