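import Pool.Agent.H216R2.BB.Defs
import Pool.Agent.H336R2.HD.A3
import Pool.Agent.H216R2.BB.A7
import Pool.Agent.H216R2.BB.B1
import Pool.Agent.H216R2.BB.B2

open Polynomial Pool.Agent.H337R2 Filter Topology MeasureTheory

namespace Pool.Agent.H216R2.BB

noncomputable section

namespace G7b

lemma qb_aux (p : ℚ[X]) (hp : p.Monic) (hd : p.natDegree = 1) (c d : ℚ) :
    (p ^ 2 - C c * p + C d).Monic ∧ (p ^ 2 - C c * p + C d).natDegree = 2 := by
  have h1 : (p ^ 2).Monic := hp.pow 2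
  have h2 : (p ^ 2).natDegree = 2 := by rw [hp.natDegree_pow, hd]
  have h3 : (- C c * p + C d).natDegree < (p ^ 2).natDegree := by
    rw [h2]
    have e1 : (- C c * p).natDegree ≤ 1 := by
      have e2 : - C c * p = C (-c) * p := by rw [C_neg]
      rw [e2]
      exact (natDegree_C_mul_le _ _).trans hd.le
    have e3 : (C d : ℚ[X]).natDegree ≤ 1 := by rw [natDegree_C]; omega
    have := natDegree_add_le_of_degree_le e1 e3
    omega
  have h4 : p ^ 2 - C c * p + C d = p ^ 2 + (- C c * p + C d) := by ring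
  rw [h4]
  refine ⟨h1.add_of_left (degree_lt_degree h3), ?_⟩
  rw [natDegree_add_eq_left_of_natDegree_lt h3, h2]

lemma qb_spec (n : ℕ) (a b : ℚ) : (qb n a b).Monic ∧ (qb n a b).natDegree = 2 :=
  qb_aux (X + C ((n : ℚ) ^ 2)) (monic_X_add_C _) (natDegree_X_add_C _) _ _

lemma HH_spec (n N : ℕ) : (HH n N).Monic ∧ (HH n N).natDegree = 28 * N := by
  unfold HH
  have h1 : ∀ b ∈ Finset.range 4, (qb n (g1 b) (g2 b) ^ (sg b * N)).Monic := fun b _ =>
    (qb_spec n _ _).1.pow _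
  refine ⟨monic_prod_of_monic _ _ h1, ?_⟩
  rw [natDegree_prod_of_monic _ _ h1]
  have h2 : ∀ b ∈ Finset.range 4, (qb n (g1 b) (g2 b) ^ (sg b * N)).natDegree = sg b * (2 * N) := by
    intro b _
    rw [(qb_spec n _ _).1.natDegree_pow, (qb_spec n _ _).2]; ring
  rw [Finset.sum_congr rfl h2, ← Finset.sum_mul]
  have h3 : ∑ i ∈ Finset.range 4, sg i = 14 := by decide
  rw [h3]; ring

lemma ZZ_spec (n T : ℕ) : (ZZ n T).Monic ∧ (ZZ n T).natDegree = T := by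
  unfold ZZ
  refine ⟨monic_prod_of_monic _ _ fun i _ => monic_X_sub_C _, ?_⟩
  rw [natDegree_prod_of_monic _ _ fun i _ => monic_X_sub_C _]
  simp

lemma ZE_spec (n T : ℕ) {l : ℕ} (hl : l < T) : (ZE n T l).Monic ∧ (ZE n T l).natDegree = T - 1 := by
  unfold ZE
  refine ⟨monic_prod_of_monic _ _ fun i _ => monic_X_sub_C _, ?_⟩
  rw [natDegree_prod_of_monic _ _ fun i _ => monic_X_sub_C _]
  simp [Finset.card_erase_of_mem (Finset.mem_range.2 hl)]

lemma ZZ_eq (n T : ℕ) {l : ℕ} (hl : l < T) : ZZ n T = (X - C (xh n l)) * ZE n T l := by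
  unfold ZZ ZE
  exact (Finset.mul_prod_erase (Finset.range T) (fun l => (X - C (xh n l) : ℚ[X])) (Finset.mem_range.2 hl)).symm

lemma ZZ_eval (n T : ℕ) {t : ℕ} (ht : t < T) : (ZZ n T).eval (xh n t) = 0 := by
  rw [ZZ_eq n T ht]; simp

lemma ZE_eval (n T : ℕ) {l t : ℕ} (ht : t < T) (h : t ≠ l) : (ZE n T l).eval (xh n t) = 0 := by
  unfold ZE
  rw [eval_prod]
  apply Finset.prod_eq_zero (Finset.mem_erase.2 ⟨h, Finset.mem_range.2 ht⟩)
  simp

lemma xh_lt (n : ℕ) {i j : ℕ} (h : i < j) : xh n i < xh n j := by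
  unfold xh
  have h' : (i : ℚ) + 1 ≤ j := by exact_mod_cast h
  have h0 : (0 : ℚ) ≤ i := by positivity
  have h1 : (0 : ℚ) ≤ n := by positivity
  nlinarith

lemma xh_ne (n : ℕ) {i j : ℕ} (h : i ≠ j) : xh n i ≠ xh n j := by
  rcases lt_or_gt_of_ne h with h1 | h1
  · exact (xh_lt n h1).ne
  · exact (xh_lt n h1).ne'

/-- the line stays away from the zone points -/
lemma xz_sub (n T : ℕ) {l : ℕ} (hl : l < T) (y : ℝ) :
    1 / 2 ≤ ‖aeval (xz n T y) (X - C (xh n l) : ℚ[X])‖ := by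
  have e : aeval (xz n T y) (X - C (xh n l) : ℚ[X]) =
      (zt T y - (((l : ℝ) + 1 / 2 : ℝ) : ℂ)) * (zt T y + (((l : ℝ) + 1 / 2 + 2 * n : ℝ) : ℂ)) := by
    simp only [map_sub, aeval_X, aeval_C, eq_ratCast]
    unfold xz xh
    push_cast
    ring
  rw [e, norm_mul]
  have hT : (l : ℝ) + 1 ≤ T := by exact_mod_cast hl
  have hl0 : (0 : ℝ) ≤ l := by positivity
  have hn0 : (0 : ℝ) ≤ n := by positivity
  have h1 : 1 / 2 ≤ ‖zt T y - (((l : ℝ) + 1 / 2 : ℝ) : ℂ)‖ := by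
    refine le_trans ?_ (Complex.re_le_norm _)
    unfold zt
    simp
    linarith
  have h2 : 1 ≤ ‖zt T y + (((l : ℝ) + 1 / 2 + 2 * n : ℝ) : ℂ)‖ := by
    refine le_trans ?_ (Complex.re_le_norm _)
    unfold zt
    simp
    linarith
  nlinarith [norm_nonneg (zt T y - (((l : ℝ) + 1 / 2 : ℝ) : ℂ))]

lemma wt_nonneg (n N : ℕ) (y : ℝ) : 0 ≤ wt n N y := by unfold wt; positivity

/-- the rows -/
def Pr (n N : ℕ) (G : ℕ → ℚ[X]) (i : ℕ) : ℚ[X] :=
  if i < 32 * N then ZE n (32 * N) i * HH n N else ZZ n (32 * N) * G (i - 32 * N)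

/-- bounds for the rows on the line -/
def br (N : ℕ) (al : ℕ → ℝ) (BH : ℝ) (i : ℕ) : ℝ :=
  if i < 32 * N then 4 * BH else Real.exp (al (i - 32 * N))

/-- the bounds for the determinant -/
def Ar (n N : ℕ) (al : ℕ → ℝ) (BH : ℝ) (i : ℕ) : ℝ :=
  if i < 32 * N then Dz n N i + 16 * BH else 4 * Real.exp (al (i - 32 * N))

lemma Dz_nonneg (n N i : ℕ) : 0 ≤ Dz n N i := by unfold Dz; positivity

lemma br_nonneg {N : ℕ} {al : ℕ → ℝ} {BH : ℝ} (hBH : 0 ≤ BH) (i : ℕ) : 0 ≤ br N al BH i := by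
  unfold br; split_ifs <;> positivity

lemma br_le_Ar {n N : ℕ} {al : ℕ → ℝ} {BH : ℝ} (i : ℕ) :
    4 * br N al BH i ≤ Ar n N al BH i := by
  unfold br Ar
  split_ifs
  · have := Dz_nonneg n N i
    linarith
  · exact le_refl _

lemma Ar_nonneg {n N : ℕ} {al : ℕ → ℝ} {BH : ℝ} (hBH : 0 ≤ BH) (i : ℕ) : 0 ≤ Ar n N al BH i := by
  have h1 := br_le_Ar (n := n) (N := N) (al := al) (BH := BH) i
  have h2 := br_nonneg (N := N) (al := al) hBH i
  linarith

lemma Pr_deg {n N : ℕ} {G : ℕ → ℚ[X]} (hG : ∀ j < 28 * N, (G j).Monic ∧ (G j).natDegree = j)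
    {i : ℕ} (hi : i < 60 * N) : (Pr n N G i).natDegree ≤ 60 * N - 1 := by
  unfold Pr
  split_ifs with h
  · rw [(ZE_spec n (32 * N) h).1.natDegree_mul (HH_spec n N).1, (ZE_spec n (32 * N) h).2, (HH_spec n N).2]
    omega
  · have h1 := hG (i - 32 * N) (by omega)
    rw [(ZZ_spec n (32 * N)).1.natDegree_mul h1.1, (ZZ_spec n (32 * N)).2, h1.2]
    omega

lemma Pr_bound {n N : ℕ} {G : ℕ → ℚ[X]} {al : ℕ → ℝ} {BH : ℝ}
    (hal : ∀ j < 28 * N, ∀ y : ℝ, wt n N y * ‖aeval (xz n (32 * N) y) (ZZ n (32 * N) * G j)‖ ^ 2 ≤ Real.exp (al j))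
    (hH : ∀ y : ℝ, wt n N y * ‖aeval (xz n (32 * N) y) (ZZ n (32 * N) * HH n N)‖ ^ 2 ≤ BH)
    {i : ℕ} (hi : i < 60 * N) (y : ℝ) :
    wt n N y * ‖aeval (xz n (32 * N) y) (Pr n N G i)‖ ^ 2 ≤ br N al BH i := by
  unfold Pr br
  split_ifs with h
  · have h1 := hH y
    rw [ZZ_eq n (32 * N) h, mul_assoc, map_mul, norm_mul, mul_pow] at h1
    have h2 := xz_sub n (32 * N) h y
    set A := ‖aeval (xz n (32 * N) y) (X - C (xh n i) : ℚ[X])‖ with hA
    set B := ‖aeval (xz n (32 * N) y) (ZE n (32 * N) i * HH n N)‖ with hB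
    have hw := wt_nonneg n N y
    have h3 : 1 / 4 ≤ A ^ 2 := by nlinarith
    have h4 : 0 ≤ wt n N y * B ^ 2 := by positivity
    nlinarith
  · exact hal _ (by omega) y

/-- the zone sums -/
lemma zone_sum {n N : ℕ} {G : ℕ → ℚ[X]} (i j : ℕ) :
    |((∑ t ∈ Finset.range (32 * N), (-1) ^ t * wh n t * (Pr n N G i * Pr n N G j).eval (xh n t) : ℚ) : ℝ)| =
      if i = j ∧ i < 32 * N then Dz n N i else 0 := by
  have hz : ∀ i t, t < 32 * N → ¬ (i < 32 * N ∧ t = i) → (Pr n N G i).eval (xh n t) = 0 := by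
    intro i t ht h
    unfold Pr
    split_ifs with h1
    · rw [eval_mul, ZE_eval n (32 * N) ht (by intro h2; exact h ⟨h1, h2⟩), zero_mul]
    · rw [eval_mul, ZZ_eval n (32 * N) ht, zero_mul]
  split_ifs with h
  · obtain ⟨rfl, h2⟩ := h
    rw [Finset.sum_eq_single i]
    · unfold Dz
      rw [eval_mul]
      unfold Pr
      rw [if_pos h2]
      push_cast
      rw [abs_mul, abs_mul, abs_pow, abs_neg, abs_one, one_pow, one_mul, ← pow_two, abs_pow, sq_abs, eval_mul]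
      push_cast
      ring
    · intro t ht hti
      rw [eval_mul, hz i t (Finset.mem_range.1 ht) (fun h => hti h.2), zero_mul, mul_zero]
    · intro h3
      exact absurd (Finset.mem_range.2 h2) h3
  · rw [Finset.sum_eq_zero]
    · simp
    · intro t ht
      rw [eval_mul]
      rw [Finset.mem_range] at ht
      by_cases h1 : i < 32 * N ∧ t = i
      · rw [hz j t ht (fun h3 => h ⟨h1.2.symm.trans h3.2, h1.1⟩), mul_zero, mul_zero]
      · rw [hz i t ht h1, zero_mul, mul_zero]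

lemma entry {n N : ℕ} (hN : 100 ≤ N) (hn : n = 24 * N + 1) (u : ℕ → ℚ)
    (hB2 : ∀ Q : ℚ[X], Q.natDegree ≤ 5 * n - 7 → ∀ B : ℝ,
      (∀ y : ℝ, ‖Rn n (32 * N) y‖ * ‖xz n (32 * N) y‖ ^ 7 * ‖aeval (xz n (32 * N) y) Q‖ *
        Real.exp (-(Real.pi * |y|)) ≤ B * (1 + y ^ 2)⁻¹) →
      |((NL n u Q - ∑ t ∈ Finset.range (32 * N), (-1) ^ t * wh n t * Q.eval (xh n t) : ℚ) : ℝ)| ≤ 4 * B)
    (G : ℕ → ℚ[X]) (al : ℕ → ℝ) (BH : ℝ) (hBH : 0 ≤ BH)
    (hG : ∀ j < 28 * N, (G j).Monic ∧ (G j).natDegree = j)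
    (hal : ∀ j < 28 * N, ∀ y : ℝ, wt n N y * ‖aeval (xz n (32 * N) y) (ZZ n (32 * N) * G j)‖ ^ 2 ≤ Real.exp (al j))
    (hH : ∀ y : ℝ, wt n N y * ‖aeval (xz n (32 * N) y) (ZZ n (32 * N) * HH n N)‖ ^ 2 ≤ BH)
    {i j : ℕ} (hi : i < 60 * N) (hj : j < 60 * N) :
    |((NL n u (Pr n N G i * Pr n N G j) : ℚ) : ℝ)| ^ 2 ≤ Ar n N al BH i * Ar n N al BH j := by
  have hbi := br_nonneg (N := N) (al := al) hBH i
  have hbj := br_nonneg (N := N) (al := al) hBH j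
  set B := Real.sqrt (br N al BH i * br N al BH j) with hB
  have hB0 : 0 ≤ B := Real.sqrt_nonneg _
  have hBsq : B ^ 2 = br N al BH i * br N al BH j := Real.sq_sqrt (mul_nonneg hbi hbj)
  have key : |((NL n u (Pr n N G i * Pr n N G j) -
      ∑ t ∈ Finset.range (32 * N), (-1) ^ t * wh n t * (Pr n N G i * Pr n N G j).eval (xh n t) : ℚ) : ℝ)| ≤ 4 * B := by
    apply hB2
    · have h1 := Pr_deg (n := n) hG hi
      have h2 := Pr_deg (n := n) hG hj
      have h3 := natDegree_mul_le (p := Pr n N G i) (q := Pr n N G j)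
      omega
    · intro y
      have hy : (0 : ℝ) < 1 + y ^ 2 := by positivity
      rw [← div_eq_mul_inv, le_div_iff₀ hy, map_mul, norm_mul]
      have p1 := Pr_bound (G := G) hal hH hi y
      have p2 := Pr_bound (G := G) hal hH hj y
      have hw := wt_nonneg n N y
      have e1 : ‖Rn n (32 * N) y‖ * ‖xz n (32 * N) y‖ ^ 7 *
          (‖aeval (xz n (32 * N) y) (Pr n N G i)‖ * ‖aeval (xz n (32 * N) y) (Pr n N G j)‖) *
          Real.exp (-(Real.pi * |y|)) * (1 + y ^ 2) =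
          wt n N y * (‖aeval (xz n (32 * N) y) (Pr n N G i)‖ * ‖aeval (xz n (32 * N) y) (Pr n N G j)‖) := by
        unfold wt; ring
      rw [e1]
      apply le_of_pow_le_pow_left₀ two_ne_zero hB0
      rw [hBsq]
      calc (wt n N y * (‖aeval (xz n (32 * N) y) (Pr n N G i)‖ * ‖aeval (xz n (32 * N) y) (Pr n N G j)‖)) ^ 2
          = (wt n N y * ‖aeval (xz n (32 * N) y) (Pr n N G i)‖ ^ 2) *
            (wt n N y * ‖aeval (xz n (32 * N) y) (Pr n N G j)‖ ^ 2) := by ring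
        _ ≤ _ := mul_le_mul p1 p2 (by positivity) hbi
  have hzs := zone_sum (n := n) (N := N) (G := G) i j
  set x : ℝ := ((NL n u (Pr n N G i * Pr n N G j) : ℚ) : ℝ) with hx
  set z : ℝ := ((∑ t ∈ Finset.range (32 * N), (-1) ^ t * wh n t *
    (Pr n N G i * Pr n N G j).eval (xh n t) : ℚ) : ℝ) with hz
  have key' : |x - z| ≤ 4 * B := by
    rw [hx, hz, ← Rat.cast_sub]
    exact key
  have hxz : |x| ≤ |x - z| + |z| := by
    have := abs_add_le (x - z) z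
    rwa [sub_add_cancel] at this
  have hAi := br_le_Ar (n := n) (N := N) (al := al) (BH := BH) i
  have hAj := br_le_Ar (n := n) (N := N) (al := al) (BH := BH) j
  by_cases h : i = j ∧ i < 32 * N
  · rw [if_pos h] at hzs
    obtain ⟨rfl, h2⟩ := h
    have hB' : B = br N al BH i := by
      rw [hB]
      exact Real.sqrt_mul_self hbi
    have h3 : |x| ≤ Ar n N al BH i := by
      rw [hB'] at key'
      unfold Ar
      unfold br at key'
      rw [if_pos h2] at key' ⊢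
      linarith
    have h4 := pow_le_pow_left₀ (abs_nonneg x) h3 2
    rw [pow_two (Ar n N al BH i)] at h4
    exact h4
  · rw [if_neg h] at hzs
    have h3 : |x| ≤ 4 * B := by linarith
    calc |x| ^ 2 ≤ (4 * B) ^ 2 := pow_le_pow_left₀ (abs_nonneg x) h3 2
      _ = (4 * br N al BH i) * (4 * br N al BH j) := by rw [mul_pow, hBsq]; ring
      _ ≤ _ := mul_le_mul hAi hAj (by positivity) (by linarith)

end G7b

/-- the determinant inequality, from the two ingredients -/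
theorem G7b_core {n N : ℕ} (hN : 100 ≤ N) (hn : n = 24 * N + 1) (u : ℕ → ℚ)
    (hA7 : ∀ (H : ℚ[X]), H.Monic → H.natDegree + 32 * N = 60 * N → ∀ G : ℕ → ℚ[X],
      (∀ j, 32 * N + j < 60 * N → (G j).Monic ∧ (G j).natDegree = j) → ∀ P : ℕ → ℚ[X],
      (∀ i < 32 * N, P i = (∏ l ∈ (Finset.range (32 * N)).erase i, (X - C (xh n l))) * H) →
      (∀ i, 32 * N ≤ i → i < 60 * N → P i = (∏ l ∈ Finset.range (32 * N), (X - C (xh n l))) * G (i - 32 * N)) →
      |(Matrix.of fun i j : Fin (60 * N) => NL n u (P i * P j)).det| =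
        |(Matrix.of fun i j : Fin (60 * N) => NL n u (X ^ (i.1 + j.1))).det| *
        |∏ i ∈ Finset.range (32 * N), ∏ l ∈ (Finset.range (32 * N)).erase i, (xh n i - xh n l)| *
        (∏ i ∈ Finset.range (32 * N), H.eval (xh n i)) ^ 2)
    (hB2 : ∀ Q : ℚ[X], Q.natDegree ≤ 5 * n - 7 → ∀ B : ℝ,
      (∀ y : ℝ, ‖Rn n (32 * N) y‖ * ‖xz n (32 * N) y‖ ^ 7 * ‖aeval (xz n (32 * N) y) Q‖ *
        Real.exp (-(Real.pi * |y|)) ≤ B * (1 + y ^ 2)⁻¹) →
      |((NL n u Q - ∑ t ∈ Finset.range (32 * N), (-1) ^ t * wh n t * Q.eval (xh n t) : ℚ) : ℝ)| ≤ 4 * B)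
    (G : ℕ → ℚ[X]) (al : ℕ → ℝ) (BH : ℝ) (hBH : 0 ≤ BH)
    (hG : ∀ j < 28 * N, (G j).Monic ∧ (G j).natDegree = j)
    (hal : ∀ j < 28 * N, ∀ y : ℝ, wt n N y * ‖aeval (xz n (32 * N) y) (ZZ n (32 * N) * G j)‖ ^ 2 ≤ Real.exp (al j))
    (hH : ∀ y : ℝ, wt n N y * ‖aeval (xz n (32 * N) y) (ZZ n (32 * N) * HH n N)‖ ^ 2 ≤ BH) :
    |((DET n u (60 * N) : ℚ) : ℝ)| * |((VD n (32 * N) : ℚ) : ℝ)| *
        ((∏ l ∈ Finset.range (32 * N), (HH n N).eval (xh n l) : ℚ) : ℝ) ^ 2 ≤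
      ((60 * N).factorial : ℝ) * (∏ l ∈ Finset.range (32 * N), (Dz n N l + 16 * BH)) *
        ∏ j ∈ Finset.range (28 * N), (4 * Real.exp (al j)) := by
  have h7 := hA7 (HH n N) (G7b.HH_spec n N).1 (by rw [(G7b.HH_spec n N).2]; ring) G
    (fun j hj => hG j (by omega)) (G7b.Pr n N G)
    (fun i hi => by unfold G7b.Pr; rw [if_pos hi]; rfl)
    (fun i h1 h2 => by unfold G7b.Pr; rw [if_neg (by omega)]; rfl)
  have hVD : ∏ i ∈ Finset.range (32 * N), ∏ l ∈ (Finset.range (32 * N)).erase i, (xh n i - xh n l) =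
      VD n (32 * N) := by
    unfold VD ZE
    apply Finset.prod_congr rfl
    intro i _
    rw [eval_prod]
    simp
  rw [hVD] at h7
  have hdet : |((DET n u (60 * N) : ℚ) : ℝ)| * |((VD n (32 * N) : ℚ) : ℝ)| *
        ((∏ l ∈ Finset.range (32 * N), (HH n N).eval (xh n l) : ℚ) : ℝ) ^ 2 =
      |(Matrix.of fun i j : Fin (60 * N) => ((NL n u (G7b.Pr n N G i * G7b.Pr n N G j) : ℚ) : ℝ)).det| := by
    have h8 : ((|(Matrix.of fun i j : Fin (60 * N) => NL n u (G7b.Pr n N G i * G7b.Pr n N G j)).det| : ℚ) : ℝ) =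
        ((|DET n u (60 * N)| * |VD n (32 * N)| *
          (∏ l ∈ Finset.range (32 * N), (HH n N).eval (xh n l)) ^ 2 : ℚ) : ℝ) := by
      rw [h7]
      rfl
    rw [Rat.cast_mul, Rat.cast_mul, Rat.cast_pow, Rat.cast_abs, Rat.cast_abs, Rat.cast_abs] at h8
    rw [← h8]
    congr 1
    have := RingHom.map_det (Rat.castHom ℝ)
      (Matrix.of fun i j : Fin (60 * N) => NL n u (G7b.Pr n N G i * G7b.Pr n N G j))
    simp only [Rat.coe_castHom] at this
    rw [this]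
    congr 1
  rw [hdet]
  have hA4 := Pool.Agent.H336R2.HD.A4_abs_det (60 * N)
    (Matrix.of fun i j : Fin (60 * N) => ((NL n u (G7b.Pr n N G i * G7b.Pr n N G j) : ℚ) : ℝ))
    (G7b.Ar n N al BH) (fun i => G7b.Ar_nonneg hBH i) (by
      intro i j
      simp only [Matrix.of_apply]
      exact G7b.entry hN hn u hB2 G al BH hBH hG hal hH i.2 j.2)
  refine hA4.trans (le_of_eq ?_)
  have e : 60 * N = 32 * N + 28 * N := by ring
  rw [mul_assoc]
  congr 1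
  rw [e, Finset.prod_range_add]
  congr 1
  · apply Finset.prod_congr rfl
    intro i hi
    unfold G7b.Ar
    rw [if_pos (Finset.mem_range.1 hi)]
  · apply Finset.prod_congr rfl
    intro i _
    unfold G7b.Ar
    rw [if_neg (by omega), Nat.add_sub_cancel_left]

/-- the determinant inequality -/
theorem G7b_bound {n N : ℕ} (hN : 100 ≤ N) (hn : n = 24 * N + 1) (u : ℕ → ℚ) (h2 : lamB 2 = (u 2 : ℝ))
    (h4 : lamB 4 = (u 4 : ℝ)) (G : ℕ → ℚ[X]) (al : ℕ → ℝ) (BH : ℝ) (hBH : 0 ≤ BH)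
    (hG : ∀ j < 28 * N, (G j).Monic ∧ (G j).natDegree = j)
    (hal : ∀ j < 28 * N, ∀ y : ℝ, wt n N y * ‖aeval (xz n (32 * N) y) (ZZ n (32 * N) * G j)‖ ^ 2 ≤ Real.exp (al j))
    (hH : ∀ y : ℝ, wt n N y * ‖aeval (xz n (32 * N) y) (ZZ n (32 * N) * HH n N)‖ ^ 2 ≤ BH) :
    |((DET n u (60 * N) : ℚ) : ℝ)| * |((VD n (32 * N) : ℚ) : ℝ)| *
        ((∏ l ∈ Finset.range (32 * N), (HH n N).eval (xh n l) : ℚ) : ℝ) ^ 2 ≤
      ((60 * N).factorial : ℝ) * (∏ l ∈ Finset.range (32 * N), (Dz n N l + 16 * BH)) *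
        ∏ j ∈ Finset.range (28 * N), (4 * Real.exp (al j)) := by
  refine G7b_core hN hn u ?_ ?_ G al BH hBH hG hal hH
  · intro H hH1 hH2 G' hG' P hP1 hP2
    exact A7_gram_zone (NL n u) (60 * N) (32 * N) (xh n) (fun i _ j _ h => G7b.xh_ne n h) H hH1 hH2 G' hG' P hP1 hP2
  · intro Q hQ B hB
    exact B2_NL_le_of u Q (B1_split (by omega) (by omega) u h2 h4 Q hQ) B hB

end

end Pool.Agent.H216R2.BB
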