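import Pool.Agent.H216R2.BB.G7pre
import Pool.Agent.H216R2.BB.G7a
import Pool.Agent.H216R2.BB.G7b
import Pool.Agent.H216R2.BB.G5
import Pool.Agent.H216R2.BB.G6c

open Polynomial Pool.Agent.H337R2 Filter Topology

namespace Pool.Agent.H216R2.BB

noncomputable section

theorem G7_arch : ∀ ε : ℝ, 0 < ε → ∀ᶠ N : ℕ in atTop, ∀ n : ℕ, n = 24 * N + 1 → ∀ u : ℕ → ℚ,
    lamB 2 = (u 2 : ℝ) → lamB 4 = (u 4 : ℝ) → DET n u (60 * N) ≠ 0 →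
    Real.log |((DET n u (60 * N) : ℚ) : ℝ)| ≤
      25 / 2 * (n : ℝ) ^ 2 * Real.log n + (ZT + 7 / 6 * Phi0 + 1 / 5 + 11 / 12 * Real.log 2 + ε) * (n : ℝ) ^ 2 :=
  G7_arch_of G5_zone G6_sat G7a_rows G7b_bound

end

end Pool.Agent.H216R2.BB
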