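import Pool.Agent.H216R2.BB.Defs

/-! The archimedean bound `G7_arch` from `G5_zone`, `G6_sat`, `G7a_rows`, `G7b_bound` (taken as hypotheses). -/

open Polynomial Pool.Agent.H337R2 Filter Topology MeasureTheory

namespace Pool.Agent.H216R2.BB

noncomputable section

namespace G7

lemma final_ev (c : ℝ) (K : ℕ) (ε : ℝ) (hε : 0 < ε) :
    ∀ᶠ n : ℕ in atTop, (n : ℝ) * (c + K * Real.log n) ≤ ε * (n : ℝ) ^ 2 := by
  have h1 : Tendsto (fun n : ℕ => Real.log (n : ℝ) / n) atTop (𝓝 0) := by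
    have := Real.isLittleO_log_id_atTop.tendsto_div_nhds_zero
    exact this.comp tendsto_natCast_atTop_atTop
  have h2 : Tendsto (fun n : ℕ => c / (n : ℝ)) atTop (𝓝 0) := tendsto_const_div_atTop_nhds_zero_nat c
  have h3 : Tendsto (fun n : ℕ => (c / (n : ℝ) + K * (Real.log (n : ℝ) / n))) atTop (𝓝 0) := by
    have := (h2.add (h1.const_mul (K : ℝ)))
    simpa using this
  have h4 := h3.eventually (gt_mem_nhds hε)
  filter_upwards [h4, eventually_gt_atTop 0] with n hn hn0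
  have hn' : (0 : ℝ) < n := by exact_mod_cast hn0
  have e : (n : ℝ) * (c + K * Real.log n) = (c / (n : ℝ) + K * (Real.log (n : ℝ) / n)) * (n : ℝ) ^ 2 := by
    field_simp
  rw [e]
  exact mul_le_mul_of_nonneg_right hn.le (by positivity)

lemma sum_kz (N : ℕ) : ∑ l ∈ Finset.range (32 * N), kz N l = 24 / 5 * N := by
  have e : 32 * N = 24 * N + 8 * N := by ring
  rw [e, Finset.sum_range_add]
  have h1 : ∑ l ∈ Finset.range (24 * N), kz N l = 0 := by
    apply Finset.sum_eq_zero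
    intro l hl
    rw [Finset.mem_range] at hl
    unfold kz
    rw [if_pos hl]
  have h2 : ∑ l ∈ Finset.range (8 * N), kz N (24 * N + l) = 24 / 5 * N := by
    have : ∀ l ∈ Finset.range (8 * N), kz N (24 * N + l) = 3 / 5 := by
      intro l _
      unfold kz
      rw [if_neg (by omega)]
    rw [Finset.sum_congr rfl this, Finset.sum_const, Finset.card_range, nsmul_eq_mul]
    push_cast
    ring
  rw [h1, h2, zero_add]

lemma kz_nonneg (N l : ℕ) : 0 ≤ kz N l := by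
  unfold kz
  split_ifs <;> norm_num

lemma prod_Dz (n N : ℕ) :
    ∏ l ∈ Finset.range (32 * N), Dz n N l =
      (∏ l ∈ Finset.range (32 * N), |((wh n l : ℚ) : ℝ)|) * |((VD n (32 * N) : ℚ) : ℝ)| ^ 2 *
      ((∏ l ∈ Finset.range (32 * N), (HH n N).eval (xh n l) : ℚ) : ℝ) ^ 2 := by
  unfold Dz
  rw [Finset.prod_mul_distrib, Finset.prod_pow, sq_abs, mul_assoc, ← mul_pow]
  congr 2
  unfold VD
  push_cast
  rw [Finset.prod_mul_distrib]

lemma core {n N : ℕ} (hn : n = 24 * N + 1) {C1 C2 : ℝ} {K1 K2 : ℕ} (hC1 : 0 < C1)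
    (hC2 : 0 < C2)
    (hS : ∀ l < 32 * N, BN n N ≤ C1 * (n : ℝ) ^ K1 * Real.exp (kz N l * n) * Dz n N l)
    (al : ℕ → ℝ) (D : ℝ) (hD : D ≠ 0)
    (hB : |D| * |((VD n (32 * N) : ℚ) : ℝ)| *
        ((∏ l ∈ Finset.range (32 * N), (HH n N).eval (xh n l) : ℚ) : ℝ) ^ 2 ≤
      ((60 * N).factorial : ℝ) *
        (∏ l ∈ Finset.range (32 * N), (Dz n N l + 16 * (C2 * (n : ℝ) ^ K2 * BN n N))) *
        ∏ j ∈ Finset.range (28 * N), (4 * Real.exp (al j))) :
    Real.log |D| ≤ Real.log ((60 * N).factorial : ℝ) +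
      32 * N * (Real.log (1 + 16 * (C1 * C2)) + ((K1 : ℝ) + K2) * Real.log n) + 24 / 5 * N * n +
      (Real.log (∏ l ∈ Finset.range (32 * N), |((wh n l : ℚ) : ℝ)|) +
        Real.log |((VD n (32 * N) : ℚ) : ℝ)|) +
      28 * N * Real.log 4 + ∑ j ∈ Finset.range (28 * N), al j := by
  have hn1 : (1 : ℝ) ≤ n := by exact_mod_cast (by omega : 1 ≤ n)
  have hn0 : (0 : ℝ) < n := by linarith
  have hBN : 0 < BN n N := by unfold BN; positivity
  have hDz : ∀ l < 32 * N, 0 < Dz n N l := by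
    intro l hl
    by_contra hc
    push Not at hc
    have h1 := hS l hl
    have h2 : C1 * (n : ℝ) ^ K1 * Real.exp (kz N l * n) * Dz n N l ≤ 0 :=
      mul_nonpos_of_nonneg_of_nonpos (by positivity) hc
    linarith
  set c : ℝ := (1 + 16 * (C1 * C2)) * (n : ℝ) ^ (K1 + K2) with hc
  have hc0 : 0 < c := by rw [hc]; positivity
  have hstep : ∀ l < 32 * N, Dz n N l + 16 * (C2 * (n : ℝ) ^ K2 * BN n N) ≤
      c * Real.exp (kz N l * n) * Dz n N l := by
    intro l hl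
    have h1 := hS l hl
    have h2 : 16 * (C2 * (n : ℝ) ^ K2 * BN n N) ≤
        16 * (C2 * (n : ℝ) ^ K2 * (C1 * (n : ℝ) ^ K1 * Real.exp (kz N l * n) * Dz n N l)) := by
      apply mul_le_mul_of_nonneg_left _ (by norm_num)
      exact mul_le_mul_of_nonneg_left h1 (by positivity)
    have h3 : Dz n N l ≤ (n : ℝ) ^ (K1 + K2) * Real.exp (kz N l * n) * Dz n N l := by
      have e1 : (1 : ℝ) ≤ (n : ℝ) ^ (K1 + K2) := one_le_pow₀ hn1
      have e2 : (1 : ℝ) ≤ Real.exp (kz N l * n) :=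
        Real.one_le_exp (mul_nonneg (kz_nonneg N l) hn0.le)
      have e3 : (1 : ℝ) ≤ (n : ℝ) ^ (K1 + K2) * Real.exp (kz N l * n) :=
        one_le_mul_of_one_le_of_one_le e1 e2
      have := mul_le_mul_of_nonneg_right e3 (hDz l hl).le
      linarith
    have e : c * Real.exp (kz N l * n) * Dz n N l =
        (n : ℝ) ^ (K1 + K2) * Real.exp (kz N l * n) * Dz n N l +
        16 * (C2 * (n : ℝ) ^ K2 * (C1 * (n : ℝ) ^ K1 * Real.exp (kz N l * n) * Dz n N l)) := by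
      rw [hc, pow_add]; ring
    rw [e]
    linarith
  have hprod : ∏ l ∈ Finset.range (32 * N), (Dz n N l + 16 * (C2 * (n : ℝ) ^ K2 * BN n N)) ≤
      c ^ (32 * N) * Real.exp (24 / 5 * N * n) * ∏ l ∈ Finset.range (32 * N), Dz n N l := by
    have h1 : ∏ l ∈ Finset.range (32 * N), (Dz n N l + 16 * (C2 * (n : ℝ) ^ K2 * BN n N)) ≤
        ∏ l ∈ Finset.range (32 * N), (c * Real.exp (kz N l * n) * Dz n N l) := by
      apply Finset.prod_le_prod
      · intro l hl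
        rw [Finset.mem_range] at hl
        have := (hDz l hl).le
        positivity
      · intro l hl
        rw [Finset.mem_range] at hl
        exact hstep l hl
    refine h1.trans (le_of_eq ?_)
    rw [Finset.prod_mul_distrib, Finset.prod_mul_distrib, Finset.prod_const, Finset.card_range,
      ← Real.exp_sum, ← Finset.sum_mul, sum_kz]
  rw [prod_Dz] at hprod
  have hpos : 0 < ∏ l ∈ Finset.range (32 * N), Dz n N l := by
    apply Finset.prod_pos
    intro l hl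
    rw [Finset.mem_range] at hl
    exact hDz l hl
  rw [prod_Dz] at hpos
  set W : ℝ := ∏ l ∈ Finset.range (32 * N), |((wh n l : ℚ) : ℝ)| with hW
  set V : ℝ := |((VD n (32 * N) : ℚ) : ℝ)| with hV
  set P : ℝ := ((∏ l ∈ Finset.range (32 * N), (HH n N).eval (xh n l) : ℚ) : ℝ) with hP
  have hW0 : 0 ≤ W := by rw [hW]; positivity
  have hV0 : 0 ≤ V := abs_nonneg _
  have hWp : 0 < W := by
    rcases hW0.lt_or_eq with h | h
    · exact h
    · rw [← h] at hpos; simp at hpos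
  have hVp : 0 < V := by
    rcases hV0.lt_or_eq with h | h
    · exact h
    · rw [← h] at hpos; simp at hpos
  have hPp : 0 < P ^ 2 := by
    have : P ≠ 0 := by
      intro h
      rw [h] at hpos; simp at hpos
    positivity
  have hX : ∏ j ∈ Finset.range (28 * N), (4 * Real.exp (al j)) =
      4 ^ (28 * N) * Real.exp (∑ j ∈ Finset.range (28 * N), al j) := by
    rw [Finset.prod_mul_distrib, Finset.prod_const, Finset.card_range, Real.exp_sum]
  rw [hX] at hB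
  set X : ℝ := 4 ^ (28 * N) * Real.exp (∑ j ∈ Finset.range (28 * N), al j) with hXX
  have hX0 : 0 < X := by rw [hXX]; positivity
  set F : ℝ := ((60 * N).factorial : ℝ) with hF
  have hF0 : 0 < F := by rw [hF]; exact_mod_cast Nat.factorial_pos _
  set E : ℝ := Real.exp (24 / 5 * N * n) with hE
  have hE0 : 0 < E := Real.exp_pos _
  have h1 : |D| * (V * P ^ 2) ≤ (F * c ^ (32 * N) * E * W * V * X) * (V * P ^ 2) := by
    calc |D| * (V * P ^ 2) = |D| * V * P ^ 2 := by ring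
      _ ≤ _ := hB
      _ ≤ F * (c ^ (32 * N) * E * (W * V ^ 2 * P ^ 2)) * X := by
          apply mul_le_mul_of_nonneg_right _ hX0.le
          exact mul_le_mul_of_nonneg_left hprod hF0.le
      _ = _ := by ring
  have h2 : |D| ≤ F * c ^ (32 * N) * E * W * V * X := le_of_mul_le_mul_right h1 (by positivity)
  have hDp : 0 < |D| := abs_pos.2 hD
  have h3 := Real.log_le_log hDp h2
  have hlogc : Real.log c = Real.log (1 + 16 * (C1 * C2)) + ((K1 : ℝ) + K2) * Real.log n := by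
    rw [hc, Real.log_mul (by positivity) (by positivity), Real.log_pow]
    push_cast
    ring
  have hlogX : Real.log X = 28 * N * Real.log 4 + ∑ j ∈ Finset.range (28 * N), al j := by
    rw [hXX, Real.log_mul (by positivity) (by positivity), Real.log_pow, Real.log_exp]
    push_cast
    ring
  rw [Real.log_mul (by positivity) (by positivity), Real.log_mul (by positivity) (by positivity),
    Real.log_mul (by positivity) (by positivity), Real.log_mul (by positivity) (by positivity),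
    Real.log_mul (by positivity) (by positivity), Real.log_pow, hlogc, hlogX, hE, Real.log_exp] at h3
  push_cast at h3
  linarith

end G7

/-- the statement `G7_arch` from the four inputs -/
theorem G7_arch_of
    (HZ : ∀ ε : ℝ, 0 < ε → ∀ᶠ N : ℕ in atTop, ∀ n : ℕ, n = 24 * N + 1 →
      Real.log (∏ l ∈ Finset.range (32 * N), |((wh n l : ℚ) : ℝ)|) +
        Real.log |((VD n (32 * N) : ℚ) : ℝ)| ≤
      32 / 9 * (n : ℝ) ^ 2 * Real.log n + (ZT + ε) * (n : ℝ) ^ 2)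
    (HS : ∃ (C : ℝ) (K : ℕ), 0 < C ∧ ∀ N : ℕ, 100 ≤ N → ∀ n : ℕ, n = 24 * N + 1 → ∀ l < 32 * N,
      BN n N ≤ C * (n : ℝ) ^ K * Real.exp (kz N l * n) * Dz n N l)
    (HR : ∃ (C : ℝ) (K : ℕ), 0 < C ∧ ∀ N : ℕ, 100 ≤ N → ∀ n : ℕ, n = 24 * N + 1 →
      ∃ (G : ℕ → ℚ[X]) (al : ℕ → ℝ), (∀ j < 28 * N, (G j).Monic ∧ (G j).natDegree = j) ∧
      (∀ j < 28 * N, ∀ y : ℝ,
        wt n N y * ‖aeval (xz n (32 * N) y) (ZZ n (32 * N) * G j)‖ ^ 2 ≤ Real.exp (al j)) ∧
      (∀ y : ℝ, wt n N y * ‖aeval (xz n (32 * N) y) (ZZ n (32 * N) * HH n N)‖ ^ 2 ≤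
        C * (n : ℝ) ^ K * BN n N) ∧
      ∑ j ∈ Finset.range (28 * N), al j ≤
        28 * N * (Real.log C + K * Real.log n + n * Phi0 + 128 * N * Real.log n) +
        2 * (28 * N) ^ 2 * Real.log n + 528 * (N : ℝ) ^ 2 * Real.log 2)
    (HB : ∀ {n N : ℕ} (_ : 100 ≤ N) (_ : n = 24 * N + 1) (u : ℕ → ℚ) (_ : lamB 2 = (u 2 : ℝ))
      (_ : lamB 4 = (u 4 : ℝ)) (G : ℕ → ℚ[X]) (al : ℕ → ℝ) (BH : ℝ) (_ : 0 ≤ BH)
      (_ : ∀ j < 28 * N, (G j).Monic ∧ (G j).natDegree = j)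
      (_ : ∀ j < 28 * N, ∀ y : ℝ,
        wt n N y * ‖aeval (xz n (32 * N) y) (ZZ n (32 * N) * G j)‖ ^ 2 ≤ Real.exp (al j))
      (_ : ∀ y : ℝ, wt n N y * ‖aeval (xz n (32 * N) y) (ZZ n (32 * N) * HH n N)‖ ^ 2 ≤ BH),
      |((DET n u (60 * N) : ℚ) : ℝ)| * |((VD n (32 * N) : ℚ) : ℝ)| *
        ((∏ l ∈ Finset.range (32 * N), (HH n N).eval (xh n l) : ℚ) : ℝ) ^ 2 ≤
      ((60 * N).factorial : ℝ) * (∏ l ∈ Finset.range (32 * N), (Dz n N l + 16 * BH)) *
        ∏ j ∈ Finset.range (28 * N), (4 * Real.exp (al j))) :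
    ∀ ε : ℝ, 0 < ε → ∀ᶠ N : ℕ in atTop, ∀ n : ℕ, n = 24 * N + 1 → ∀ u : ℕ → ℚ,
    lamB 2 = (u 2 : ℝ) → lamB 4 = (u 4 : ℝ) → DET n u (60 * N) ≠ 0 →
    Real.log |((DET n u (60 * N) : ℚ) : ℝ)| ≤
      25 / 2 * (n : ℝ) ^ 2 * Real.log n +
        (ZT + 7 / 6 * Phi0 + 1 / 5 + 11 / 12 * Real.log 2 + ε) * (n : ℝ) ^ 2 := by
  intro ε hε
  obtain ⟨C1, K1, hC1, hS⟩ := HS
  obtain ⟨C2, K2, hC2, hR⟩ := HR
  set c : ℝ := 3 * Real.log 3 + 2 * |Real.log (1 + 16 * (C1 * C2))| + 2 * Real.log 4 +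
    2 * |Real.log C2| + 2 * |Phi0| with hc
  have hev := G7.final_ev c (3 + 2 * (K1 + K2) + 2 * K2) (ε / 2) (by positivity)
  have htd : Tendsto (fun N : ℕ => 24 * N + 1) atTop atTop := by
    apply tendsto_atTop_mono (fun N => _) tendsto_id
    intro N
    show N ≤ 24 * N + 1
    omega
  filter_upwards [htd.eventually hev, eventually_ge_atTop 100, HZ (ε / 2) (by positivity)] with
    N hN hN5 hZ n hn u h2 h4 hD
  obtain ⟨G, al, hG, hal, hHH, hsum⟩ := hR N hN5 n hn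
  have hn1 : (1 : ℝ) ≤ n := by exact_mod_cast (by omega : 1 ≤ n)
  have hn0 : (0 : ℝ) < n := by linarith
  have hBN : 0 < BN n N := by unfold BN; positivity
  have hB := HB hN5 hn u h2 h4 G al (C2 * (n : ℝ) ^ K2 * BN n N) (by positivity) hG hal hHH
  have hcore := G7.core hn hC1 hC2 (fun l hl => hS N hN5 n hn l hl) al
    ((DET n u (60 * N) : ℚ) : ℝ) (by exact_mod_cast hD) hB
  have hZ' := hZ n hn
  rw [← hn] at hN
  have hl : 0 ≤ Real.log n := Real.log_natCast_nonneg n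
  have hl2 : 0 ≤ Real.log 2 := Real.log_nonneg (by norm_num)
  have hl3 : 0 ≤ Real.log 3 := Real.log_nonneg (by norm_num)
  have hl4 : 0 ≤ Real.log 4 := Real.log_nonneg (by norm_num)
  have hNn : (n : ℝ) = 24 * N + 1 := by rw [hn]; push_cast; ring
  have hN0 : (0 : ℝ) ≤ N := by positivity
  have hNle : 24 * (N : ℝ) ≤ n := by linarith
  have hNsq : (N : ℝ) ^ 2 ≤ (n : ℝ) ^ 2 / 576 := by
    have h := pow_le_pow_left₀ (by positivity : 0 ≤ 24 * (N : ℝ)) hNle 2
    rw [mul_pow] at h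
    linarith only [h]
  -- factorial
  have p1 : Real.log ((60 * N).factorial : ℝ) ≤ 3 * n * Real.log 3 + 3 * n * Real.log n := by
    have hf : (0 : ℝ) < ((60 * N).factorial : ℝ) := by exact_mod_cast Nat.factorial_pos _
    have hm0 : (0 : ℝ) < ((60 * N : ℕ) : ℝ) := by exact_mod_cast (by omega : 0 < 60 * N)
    have hfac : Real.log ((60 * N).factorial : ℝ) ≤ (60 * N : ℕ) * Real.log (60 * N : ℕ) := by
      rw [← Real.log_pow]
      apply Real.log_le_log hf
      exact_mod_cast Nat.factorial_le_pow (60 * N)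
    have h60 : ((60 * N : ℕ) : ℝ) ≤ 3 * n := by
      have : 60 * N ≤ 3 * n := by omega
      exact_mod_cast this
    have hlog : Real.log ((60 * N : ℕ) : ℝ) ≤ Real.log 3 + Real.log n := by
      rw [← Real.log_mul (by norm_num) (by positivity)]
      exact Real.log_le_log hm0 h60
    calc Real.log ((60 * N).factorial : ℝ) ≤ (60 * N : ℕ) * Real.log (60 * N : ℕ) := hfac
      _ ≤ (60 * N : ℕ) * (Real.log 3 + Real.log n) := mul_le_mul_of_nonneg_left hlog hm0.le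
      _ ≤ 3 * n * (Real.log 3 + Real.log n) := mul_le_mul_of_nonneg_right h60 (by positivity)
      _ = _ := by ring
  have p2 : 32 * (N : ℝ) * (Real.log (1 + 16 * (C1 * C2)) + ((K1 : ℝ) + K2) * Real.log n) ≤
      2 * n * |Real.log (1 + 16 * (C1 * C2))| + 2 * n * (((K1 : ℝ) + K2) * Real.log n) := by
    have h32 : 32 * (N : ℝ) ≤ 2 * n := by linarith
    calc 32 * (N : ℝ) * (Real.log (1 + 16 * (C1 * C2)) + ((K1 : ℝ) + K2) * Real.log n)
        ≤ 32 * (N : ℝ) * (|Real.log (1 + 16 * (C1 * C2))| + ((K1 : ℝ) + K2) * Real.log n) := by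
          apply mul_le_mul_of_nonneg_left _ (by positivity)
          linarith [le_abs_self (Real.log (1 + 16 * (C1 * C2)))]
      _ ≤ 2 * n * (|Real.log (1 + 16 * (C1 * C2))| + ((K1 : ℝ) + K2) * Real.log n) :=
          mul_le_mul_of_nonneg_right h32 (by positivity)
      _ = _ := by ring
  have p3 : 24 / 5 * (N : ℝ) * n ≤ 1 / 5 * (n : ℝ) ^ 2 := by
    have := mul_le_mul_of_nonneg_right hNle hn0.le
    linarith only [this, sq (n : ℝ)]
  have p4 : 28 * (N : ℝ) * Real.log 4 ≤ 2 * n * Real.log 4 := by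
    apply mul_le_mul_of_nonneg_right _ hl4
    linarith
  have p5 : 28 * (N : ℝ) * (Real.log C2) ≤ 2 * n * |Real.log C2| := by
    calc 28 * (N : ℝ) * (Real.log C2) ≤ 28 * (N : ℝ) * |Real.log C2| :=
          mul_le_mul_of_nonneg_left (le_abs_self _) (by positivity)
      _ ≤ _ := mul_le_mul_of_nonneg_right (by linarith) (abs_nonneg _)
  have p6 : 28 * (N : ℝ) * (K2 * Real.log n) ≤ 2 * n * (K2 * Real.log n) :=
    mul_le_mul_of_nonneg_right (by linarith) (by positivity)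
  have p7 : 28 * (N : ℝ) * (n * Phi0) ≤ 7 / 6 * Phi0 * (n : ℝ) ^ 2 + 2 * n * |Phi0| := by
    have e : 28 * (N : ℝ) = 7 / 6 * (n - 1) := by rw [hNn]; ring
    rw [e]
    have h1 : - (7 / 6 * (n : ℝ) * Phi0) ≤ 2 * n * |Phi0| := by
      have h2 : - (7 / 6 * Phi0) ≤ 2 * |Phi0| := by
        linarith only [neg_abs_le Phi0, abs_nonneg Phi0]
      have h3 := mul_le_mul_of_nonneg_left h2 hn0.le
      linarith only [h3]
    have h4 : 7 / 6 * ((n : ℝ) - 1) * (n * Phi0) = 7 / 6 * Phi0 * (n : ℝ) ^ 2 - 7 / 6 * (n : ℝ) * Phi0 := by ring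
    rw [h4]
    linarith only [h1]
  have p8 : 28 * (N : ℝ) * (128 * N * Real.log n) + 2 * (28 * (N : ℝ)) ^ 2 * Real.log n ≤
      161 / 18 * (n : ℝ) ^ 2 * Real.log n := by
    have e : 28 * (N : ℝ) * (128 * N * Real.log n) + 2 * (28 * (N : ℝ)) ^ 2 * Real.log n =
        (5152 * (N : ℝ) ^ 2) * Real.log n := by ring
    rw [e]
    apply mul_le_mul_of_nonneg_right _ hl
    linarith only [hNsq]
  have p9 : 528 * (N : ℝ) ^ 2 * Real.log 2 ≤ 11 / 12 * Real.log 2 * (n : ℝ) ^ 2 := by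
    have h := mul_le_mul_of_nonneg_right hNsq hl2
    linarith only [h]
  have hN' : (n : ℝ) * (c + (3 + 2 * ((K1 : ℝ) + K2) + 2 * K2) * Real.log n) ≤ ε / 2 * (n : ℝ) ^ 2 := by
    have := hN
    push_cast at this
    exact this
  rw [hc] at hN'
  have e0 : 28 * (N : ℝ) * (Real.log C2 + K2 * Real.log n + n * Phi0 + 128 * N * Real.log n) +
        2 * (28 * N) ^ 2 * Real.log n + 528 * (N : ℝ) ^ 2 * Real.log 2 =
      28 * (N : ℝ) * (Real.log C2) + 28 * (N : ℝ) * (K2 * Real.log n) + 28 * (N : ℝ) * (n * Phi0) +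
      (28 * (N : ℝ) * (128 * N * Real.log n) + 2 * (28 * (N : ℝ)) ^ 2 * Real.log n) +
      528 * (N : ℝ) ^ 2 * Real.log 2 := by ring
  rw [e0] at hsum
  have e2 : (n : ℝ) * (3 * Real.log 3 + 2 * |Real.log (1 + 16 * (C1 * C2))| + 2 * Real.log 4 +
      2 * |Real.log C2| + 2 * |Phi0| + (3 + 2 * ((K1 : ℝ) + K2) + 2 * K2) * Real.log n) =
      3 * n * Real.log 3 + 3 * n * Real.log n + 2 * n * |Real.log (1 + 16 * (C1 * C2))| +
      2 * n * (((K1 : ℝ) + K2) * Real.log n) + 2 * n * Real.log 4 + 2 * n * |Real.log C2| +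
      2 * n * (K2 * Real.log n) + 2 * n * |Phi0| := by ring
  have e3 : 25 / 2 * (n : ℝ) ^ 2 * Real.log n +
        (ZT + 7 / 6 * Phi0 + 1 / 5 + 11 / 12 * Real.log 2 + ε) * (n : ℝ) ^ 2 =
      32 / 9 * (n : ℝ) ^ 2 * Real.log n + 161 / 18 * (n : ℝ) ^ 2 * Real.log n +
      (ZT + ε / 2) * (n : ℝ) ^ 2 + 7 / 6 * Phi0 * (n : ℝ) ^ 2 + 1 / 5 * (n : ℝ) ^ 2 +
      11 / 12 * Real.log 2 * (n : ℝ) ^ 2 + ε / 2 * (n : ℝ) ^ 2 := by ring
  rw [e2] at hN'
  rw [e3]
  linarith only [hcore, hsum, hZ', p1, p2, p3, p4, p5, p6, p7, p8, p9, hN']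

end

end Pool.Agent.H216R2.BB
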