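import Pool.Agent.H216R2.BB.Defs

/-!
# H1: the alternating sums `bsZ` modulo `p`
-/

open Polynomial Pool.Agent.H337R2

namespace Pool.Agent.H216R2.BB

noncomputable section

/-- general form: `M` and `b` are such that the `l < M` with `p ∣ 2 l + 1` are the
`l = (p - 1) / 2 + c p`, `c < b` -/
lemma H1_gen {p : ℕ} [Fact p.Prime] (M b i : ℕ) (hi : 1 ≤ i) (hodd : p % 2 = 1)
    (hMb : ∀ c : ℕ, (p - 1) / 2 + c * p < M ↔ c < b) :
    padicNorm p ((p : ℚ) ^ i * bsZ i (M : ℤ) - (-1) ^ ((p - 1) / 2) * bsZ i (b : ℤ)) ≤ (p : ℚ)⁻¹ := by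
  classical
  have hp : p.Prime := Fact.out
  have hp0 : (p : ℚ) ≠ 0 := by exact_mod_cast hp.ne_zero
  set f : ℕ → ℚ := fun l => (p : ℚ) ^ i * ((-1) ^ l / ((l : ℚ) + 1 / 2) ^ i) with hf
  have h1 : (p : ℚ) ^ i * bsZ i (M : ℤ) = ∑ l ∈ Finset.range M, f l := by
    rw [bsZ_nat, Finset.mul_sum]
  have h2 := Finset.sum_filter_add_sum_filter_not (Finset.range M) (fun l => p ∣ 2 * l + 1) f
  have h3 : ∑ l ∈ (Finset.range M).filter (fun l => p ∣ 2 * l + 1), f l =
      (-1) ^ ((p - 1) / 2) * bsZ i (b : ℤ) := by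
    rw [bsZ_nat, Finset.mul_sum]
    symm
    apply Finset.sum_bij (fun c _ => (p - 1) / 2 + c * p)
    · intro c hc
      rw [Finset.mem_range] at hc
      rw [Finset.mem_filter, Finset.mem_range]
      refine ⟨(hMb c).2 hc, 2 * c + 1, ?_⟩
      have e1 : p * (2 * c + 1) = 2 * (c * p) + p := by ring
      rw [e1]
      omega
    · intro c₁ _ c₂ _ h
      have h6 : c₁ * p = c₂ * p := by omega
      exact Nat.eq_of_mul_eq_mul_right hp.pos h6
    · intro m hm
      rw [Finset.mem_filter, Finset.mem_range] at hm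
      obtain ⟨hm1, c, hc⟩ := hm
      have hc1 : c % 2 = 1 := by
        rcases Nat.even_or_odd c with h | h
        · exfalso
          have h5 : Even (p * c) := h.mul_left p
          rw [← hc] at h5
          have := h5.two_dvd
          omega
        · exact Nat.odd_iff.1 h
      obtain ⟨d, rfl⟩ : ∃ d, c = 2 * d + 1 := ⟨c / 2, by omega⟩
      have e1 : p * (2 * d + 1) = 2 * (d * p) + p := by ring
      rw [e1] at hc
      have e2 : (p - 1) / 2 + d * p = m := by omega
      refine ⟨d, ?_, e2⟩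
      rw [Finset.mem_range]
      apply (hMb d).1
      omega
    · intro c hc
      rw [hf]
      simp only
      have e3 : (((p - 1) / 2 + c * p : ℕ) : ℚ) + 1 / 2 = p * ((c : ℚ) + 1 / 2) := by
        have e4 : 2 * (((p - 1) / 2 : ℕ) : ℚ) + 1 = p := by
          have : 2 * ((p - 1) / 2) + 1 = p := by omega
          exact_mod_cast this
        push_cast
        linarith
      rw [e3, mul_pow, pow_add, mul_comm c p, pow_mul]
      have e5 : ((-1 : ℚ)) ^ p = -1 := Odd.neg_one_pow (Nat.odd_iff.2 hodd)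
      rw [e5]
      have hl0 : ((c : ℚ) + 1 / 2) ^ i ≠ 0 := pow_ne_zero _ (by positivity)
      have hpe : (p : ℚ) ^ i ≠ 0 := pow_ne_zero _ hp0
      field_simp
  rw [h1, ← h2, h3, add_sub_cancel_left]
  apply padicNorm.sum_le' _ (by positivity)
  intro l hl
  rw [Finset.mem_filter] at hl
  rw [hf]
  simp only
  rw [padicNorm.mul, padicNorm.div, padicNorm_pow', padicNorm_pow', padicNorm_pow']
  have h4 : padicNorm p ((l : ℚ) + 1 / 2) = 1 := by
    have h5 := (padicNorm.nat_eq_one_iff (p := p) (2 * l + 1)).2 hl.2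
    have h6 : padicNorm p (2 : ℚ) = 1 := by
      have := (padicNorm.nat_eq_one_iff (p := p) 2).2 (by
        intro h
        have := Nat.le_of_dvd (by norm_num) h
        have := hp.two_le
        omega)
      exact_mod_cast this
    have e : (l : ℚ) + 1 / 2 = ((2 * l + 1 : ℕ) : ℚ) / 2 := by push_cast; ring
    rw [e, padicNorm.div, h5, h6, div_one]
  have h7 : padicNorm p (-1 : ℚ) = 1 := by rw [padicNorm.neg, padicNorm.one]
  rw [h4, h7, padicNorm.padicNorm_p hp.one_lt, one_pow, one_pow, div_one, mul_one]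
  have h5 : ((p : ℚ)⁻¹) ^ i ≤ ((p : ℚ)⁻¹) ^ 1 := by
    apply pow_le_pow_of_le_one (by positivity) _ hi
    apply inv_le_one_of_one_le₀
    exact_mod_cast hp.one_lt.le
  simpa using h5

theorem H1_bs {p : ℕ} [Fact p.Prime] (r a i : ℕ) (hi : 1 ≤ i) (hr : 2 * r < p) (ha : 2 * a + 1 < p) :
    padicNorm p ((p : ℚ) ^ i * bsZ i ((a * p + r : ℕ) : ℤ) - (-1) ^ ((p - 1) / 2) * bsZ i (a : ℤ)) ≤ (p : ℚ)⁻¹ := by
  have hp : p.Prime := Fact.out
  rcases hp.eq_two_or_odd with h | h
  · have h1 : a = 0 := by omega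
    have h2 : r = 0 := by omega
    subst h1; subst h2
    simp [bsZ]
  · apply H1_gen _ _ i hi h
    intro c
    constructor
    · intro h1
      by_contra h2
      have h3 : a * p ≤ c * p := Nat.mul_le_mul_right p (by omega)
      omega
    · intro h1
      have h3 : (c + 1) * p ≤ a * p := Nat.mul_le_mul_right p h1
      have h4 : (c + 1) * p = c * p + p := by ring
      omega

theorem H1_bs' {p : ℕ} [Fact p.Prime] (r a i : ℕ) (hi : 1 ≤ i) (hr : p < 2 * r) (hr2 : r < p) (ha : 2 * a + 1 < p) :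
    padicNorm p ((p : ℚ) ^ i * bsZ i ((a * p + r : ℕ) : ℤ) - (-1) ^ ((p - 1) / 2) * bsZ i ((a + 1 : ℕ) : ℤ)) ≤
      (p : ℚ)⁻¹ := by
  have hp : p.Prime := Fact.out
  rcases hp.eq_two_or_odd with h | h
  · omega
  · apply H1_gen _ _ i hi h
    intro c
    constructor
    · intro h1
      by_contra h2
      have h3 : (a + 1) * p ≤ c * p := Nat.mul_le_mul_right p (by omega)
      have h4 : (a + 1) * p = a * p + p := by ring
      omega
    · intro h1
      have h3 : c * p ≤ a * p := Nat.mul_le_mul_right p (by omega)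
      omega

end

end Pool.Agent.H216R2.BB
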