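import Pool.Agent.H216R2.BB.Defs
import Pool.Agent.H336R2.HD.H2

/-!
# Task H2: principal coefficients in the classes `±r`
-/

open Polynomial Pool.Agent.H337R2

namespace Pool.Agent.H216R2.BB

noncomputable section

namespace H2aux

open Pool.Agent.H336R2.HD.H2aux

set_option linter.unusedSectionVars false

variable {p : ℕ} [hp : Fact p.Prime]

/-- the exact part -/
def Fx (p : ℕ) (j e : ℕ) : PowerSeries ℚ :=
  (∏ b ∈ (Finset.range 2).erase j, iv (((b : ℚ) - j) * p) ^ 5) *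
  (PowerSeries.X + PowerSeries.C (-(j : ℚ) * p)) ^ e

lemma card_erase {j : ℕ} (hj : j ≤ 1) : ((Finset.range 2).erase j).card = 1 := by
  rw [Finset.card_erase_of_mem (by rw [Finset.mem_range]; omega)]; rfl

lemma Fx_eq (hp0 : (p : ℚ) ≠ 0) {j : ℕ} (hj : j ≤ 1) (e : ℕ) : Fx p j e =
    PowerSeries.C (((p : ℚ)⁻¹) ^ 5 * (p : ℚ) ^ e) *
      PowerSeries.rescale ((p : ℚ)⁻¹) (ser j e) := by
  have hprod : ∏ b ∈ (Finset.range 2).erase j, iv (((b : ℚ) - j) * p) ^ 5 =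
      PowerSeries.C ((p : ℚ)⁻¹) ^ 5 * PowerSeries.rescale ((p : ℚ)⁻¹)
        (∏ b ∈ (Finset.range 2).erase j, iv ((b : ℚ) - j) ^ 5) := by
    rw [map_prod]
    have h1 : PowerSeries.C ((p : ℚ)⁻¹) ^ 5 =
        ∏ b ∈ (Finset.range 2).erase j, (PowerSeries.C ((p : ℚ)⁻¹) ^ 5 : PowerSeries ℚ) := by
      rw [Finset.prod_const, card_erase hj, pow_one]
    rw [h1, ← Finset.prod_mul_distrib]
    apply Finset.prod_congr rfl
    intro b _
    rw [iv_rescale hp0, mul_pow, map_pow]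
  unfold Fx ser
  rw [hprod, lin_rescale hp0]
  generalize (∏ b ∈ (Finset.range 2).erase j, iv ((b : ℚ) - j) ^ 5) = PI0
  simp only [map_mul, map_pow]
  ring

lemma Fx_coeff (hp0 : (p : ℚ) ≠ 0) {j : ℕ} (hj : j ≤ 1) (e l : ℕ) :
    PowerSeries.coeff l (Fx p j e) =
    ((p : ℚ)⁻¹) ^ 5 * (p : ℚ) ^ e * (((p : ℚ)⁻¹) ^ l * PowerSeries.coeff l (ser j e)) := by
  rw [Fx_eq hp0 hj, PowerSeries.coeff_C_mul, PowerSeries.coeff_rescale]

lemma Fx_PB (hp30 : 30 ≤ p) {j : ℕ} (hj : j ≤ 1) (e : ℕ) :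
    PB p (p : ℚ) ((p : ℚ) ^ 5 * ((p : ℚ)⁻¹) ^ e) (Fx p j e) := by
  have hp0 : (0 : ℚ) ≤ p := p_pos'.le
  have hinv : (0 : ℚ) ≤ (p : ℚ)⁻¹ := inv_nonneg.2 hp0
  have e1 : PB p (p : ℚ) (p : ℚ)⁻¹ (PowerSeries.X + PowerSeries.C (-(j : ℚ) * p)) :=
    PB_linp (-(j : ℤ)) (by push_cast; ring)
  have f2 : PB p (p : ℚ) (∏ b ∈ (Finset.range 2).erase j, (p : ℚ) ^ 5)
      (∏ b ∈ (Finset.range 2).erase j, iv (((b : ℚ) - j) * p) ^ 5) := by
    apply PB.prod _ _ _ hp0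
    · intro b _; positivity
    · intro b hb
      rw [Finset.mem_erase, Finset.mem_range] at hb
      apply PB.pow hp0 hp0
      apply PB_ivp (a := (b : ℤ) - j) (by push_cast; ring)
      exact not_dvd_of_lt (by omega) (by omega) (by omega)
  have f3 := PB.pow hp0 hinv e1 e
  rw [Finset.prod_const, card_erase hj, pow_one] at f2
  exact PB.mul hp0 (by positivity) (by positivity) f2 f3

/-! ### the unit part -/

def S3 (p r : ℕ) : Finset ℕ := ((Finset.range (2 * p + 1)).erase r).erase (r + p)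

/-- the constant -/
def w0 (p r : ℕ) : ℚ :=
  (-2 * (r : ℚ)) *
  ((-(r : ℚ)) * (2 * p - r)) ^ 7 *
  (∏ r' ∈ (Finset.Icc 1 ((p - 1) / 2)).erase r, (((r' : ℚ) - r) * (2 * p - r' - r)) ^ 10) *
  ∏ m ∈ S3 p r, (((m : ℚ) - r)⁻¹) ^ 5

/-- the unit part -/
def Gx (p r k e : ℕ) : PowerSeries ℚ :=
  (PowerSeries.C 2 * PowerSeries.X + PowerSeries.C (2 * -(k : ℚ) + 2 * p)) *
  ((PowerSeries.X + PowerSeries.C (-(k : ℚ))) *
    (PowerSeries.X + PowerSeries.C (-(k : ℚ) + 2 * p))) ^ 7 *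
  (∏ r' ∈ (Finset.Icc 1 ((p - 1) / 2)).erase r,
    ((PowerSeries.X + PowerSeries.C (-(k : ℚ) + r')) *
      (PowerSeries.X + PowerSeries.C (-(k : ℚ) + (2 * p - r')))) ^ 10) *
  (∏ m ∈ S3 p r, iv (-(k : ℚ) + m) ^ 5) *
  (PowerSeries.X + PowerSeries.C (-(k : ℚ) + (2 * p - r))) ^ e

lemma S3_not_dvd {r m : ℕ} (hr1 : 1 ≤ r) (hr2 : 2 * r < p) (hm : m ∈ S3 p r) :
    ¬ (p : ℤ) ∣ (m : ℤ) - r := by
  unfold S3 at hm
  rw [Finset.mem_erase, Finset.mem_erase, Finset.mem_range] at hm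
  obtain ⟨h1, h2, h3⟩ := hm
  rintro ⟨c, hc⟩
  have hpp : (0 : ℤ) < p := by exact_mod_cast hp.out.pos
  have hc1 : c < 2 := by
    by_contra h
    have h5 : (p : ℤ) * 2 ≤ p * c := mul_le_mul_of_nonneg_left (by omega) hpp.le
    omega
  have hc2 : -1 < c := by
    by_contra h
    have h5 : (p : ℤ) * c ≤ p * (-1) := mul_le_mul_of_nonneg_left (by omega) hpp.le
    omega
  have hc3 : c = 0 ∨ c = 1 := by omega
  rcases hc3 with rfl | rfl
  · apply h2; omega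
  · apply h1; omega

lemma Gx_UC (hp30 : 30 ≤ p) {r : ℕ} (hr1 : 1 ≤ r) (hr2 : 2 * r < p) (j e : ℕ) :
    UC p (Gx p r (r + j * p) e) (w0 p r * (-2 * (r : ℚ)) ^ e) := by
  have n2r : ¬ (p : ℤ) ∣ -2 * (r : ℤ) := not_dvd_of_lt (by omega) (by omega) (by omega)
  unfold Gx w0
  refine UC.mul (UC.mul (UC.mul (UC.mul ?_ ?_) ?_) ?_) ?_
  · apply UC.lin2 (a := 2 * -((r + j * p : ℕ) : ℤ) + 2 * p) (a0 := -2 * (r : ℤ))
    · push_cast; ring
    · push_cast; ring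
    · exact n2r
    · refine ⟨2 - 2 * j, ?_⟩
      push_cast; ring
  · apply UC.pow
    apply UC.mul
    · apply UC.lin (a := -((r + j * p : ℕ) : ℤ)) (a0 := -(r : ℤ))
      · push_cast; ring
      · push_cast; ring
      · exact not_dvd_of_lt (by omega) (by omega) (by omega)
      · refine ⟨-j, ?_⟩
        push_cast; ring
    · apply UC.lin (a := -((r + j * p : ℕ) : ℤ) + 2 * p) (a0 := 2 * (p : ℤ) - r)
      · push_cast; ring
      · push_cast; ring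
      · intro h
        have h1 : (p : ℤ) ∣ 2 * (p : ℤ) := Dvd.intro_left _ rfl
        have h2 := dvd_sub h1 h
        rw [sub_sub_cancel] at h2
        exact not_dvd_of_lt (by omega) (by omega) (by omega) h2
      · refine ⟨-j, ?_⟩
        push_cast; ring
  · apply UC.prod
    intro r' hr'
    rw [Finset.mem_erase, Finset.mem_Icc] at hr'
    apply UC.pow
    apply UC.mul
    · apply UC.lin (a := -((r + j * p : ℕ) : ℤ) + r') (a0 := (r' : ℤ) - r)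
      · push_cast; ring
      · push_cast; ring
      · exact not_dvd_of_lt (by omega) (by omega) (by omega)
      · refine ⟨-j, ?_⟩
        push_cast; ring
    · apply UC.lin (a := -((r + j * p : ℕ) : ℤ) + (2 * p - r')) (a0 := 2 * (p : ℤ) - r' - r)
      · push_cast; ring
      · push_cast; ring
      · intro h
        have h1 : (p : ℤ) ∣ 2 * (p : ℤ) := Dvd.intro_left _ rfl
        have h2 := dvd_sub h1 h
        have h3 : 2 * (p : ℤ) - (2 * (p : ℤ) - r' - r) = r' + r := by ring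
        rw [h3] at h2
        exact not_dvd_of_lt (by omega) (by omega) (by omega) h2
      · refine ⟨-j, ?_⟩
        push_cast; ring
  · apply UC.prod
    intro m hm
    apply UC.pow
    apply UC.iv (a := -((r + j * p : ℕ) : ℤ) + m) (a0 := (m : ℤ) - r)
    · push_cast; ring
    · push_cast; ring
    · exact S3_not_dvd hr1 hr2 hm
    · refine ⟨-j, ?_⟩
      push_cast; ring
  · apply UC.pow
    apply UC.lin (a := -((r + j * p : ℕ) : ℤ) + (2 * p - r)) (a0 := -2 * (r : ℤ))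
    · push_cast; ring
    · push_cast; ring
    · exact n2r
    · refine ⟨2 - j, ?_⟩
      push_cast; ring

/-! ### the numerator -/

lemma nd_comp (n r : ℕ) : (nd n r).comp (xp n) = (X + C (r : ℚ)) * (X + C (2 * (n : ℚ) - r)) := by
  unfold nd xp
  rw [Polynomial.add_comp, Polynomial.X_comp, Polynomial.C_comp]
  push_cast
  simp only [map_mul, map_sub]
  ring

lemma TS_lin2' (c a : ℚ) : TS c (C 2 * X + C a) =
    PowerSeries.C 2 * PowerSeries.X + PowerSeries.C (2 * c + a) := by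
  have h : (C 2 * X + C a : ℚ[X]) = 2 * X + C a := by rw [map_ofNat]
  rw [h, TS_lin2]

lemma TS_num (p r e k : ℕ) : TS (-(k : ℚ)) (PPn p * EE p (nd p r ^ e *
      ∏ r' ∈ (Finset.Icc 1 ((p - 1) / 2)).erase r, nd p r' ^ 10)) =
    PowerSeries.C (((2 * p).factorial : ℚ) ^ 5) *
    (PowerSeries.C 2 * PowerSeries.X + PowerSeries.C (2 * -(k : ℚ) + 2 * p)) *
    (((PowerSeries.X + PowerSeries.C (-(k : ℚ))) *
      (PowerSeries.X + PowerSeries.C (-(k : ℚ) + 2 * p))) ^ 7 *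
    (((PowerSeries.X + PowerSeries.C (-(k : ℚ) + r)) *
      (PowerSeries.X + PowerSeries.C (-(k : ℚ) + (2 * p - r)))) ^ e *
    ∏ r' ∈ (Finset.Icc 1 ((p - 1) / 2)).erase r,
      ((PowerSeries.X + PowerSeries.C (-(k : ℚ) + r')) *
        (PowerSeries.X + PowerSeries.C (-(k : ℚ) + (2 * p - r')))) ^ 10)) := by
  unfold EE
  simp only [Polynomial.mul_comp, Polynomial.pow_comp, Polynomial.prod_comp, nd_comp,
    Polynomial.X_comp]
  have hxp : xp p = X * (X + C (2 * (p : ℚ))) := by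
    unfold xp
    push_cast
    rfl
  have hPP : PPn p = C (((2 * p).factorial : ℚ) ^ 5) * (C 2 * X + C (2 * (p : ℚ))) := by
    unfold PPn
    push_cast
    rfl
  rw [hxp, hPP]
  generalize (2 : ℚ) * (p : ℚ) = d
  generalize (((2 * p).factorial : ℚ) ^ 5) = d'
  simp only [map_mul, map_pow, map_prod, TS_C, TS_lin, TS_X, TS_lin2']

lemma VV_den (hp30 : 30 ≤ p) {r : ℕ} (hr1 : 1 ≤ r) (hr2 : 2 * r < p) {j : ℕ} (hj : j ≤ 1) :
    VV ((sB p).erase (r + j * p)) m5 (-((r + j * p : ℕ) : ℚ)) =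
      (∏ m ∈ S3 p r, iv (-((r + j * p : ℕ) : ℚ) + m) ^ 5) *
      ∏ b ∈ (Finset.range 2).erase j, iv (((b : ℚ) - j) * p) ^ 5 := by
  unfold VV m5 sB S3
  have hj' : j = 0 ∨ j = 1 := by omega
  rcases hj' with rfl | rfl
  · have h1 : (Finset.range 2).erase 0 = {1} := by decide
    rw [h1, Finset.prod_singleton, zero_mul, add_zero,
      ← Finset.prod_erase_mul _ _ (show r + p ∈ (Finset.range (2 * p + 1)).erase r by
        rw [Finset.mem_erase, Finset.mem_range]; omega)]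
    congr 3
    push_cast
    ring
  · have h1 : (Finset.range 2).erase 1 = {0} := by decide
    rw [h1, Finset.prod_singleton, one_mul, Finset.erase_right_comm,
      ← Finset.prod_erase_mul _ _ (show r ∈ (Finset.range (2 * p + 1)).erase (r + p) by
        rw [Finset.mem_erase, Finset.mem_range]; omega)]
    congr 3
    push_cast
    ring

/-- the factorisation -/
lemma factor (hp30 : 30 ≤ p) {r : ℕ} (hr1 : 1 ≤ r) (hr2 : 2 * r < p) {j : ℕ} (hj : j ≤ 1) (e : ℕ) :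
    TS (-((r + j * p : ℕ) : ℚ)) (PPn p * EE p (nd p r ^ e *
      ∏ r' ∈ (Finset.Icc 1 ((p - 1) / 2)).erase r, nd p r' ^ 10)) *
      VV ((sB p).erase (r + j * p)) m5 (-((r + j * p : ℕ) : ℚ)) =
    PowerSeries.C (((2 * p).factorial : ℚ) ^ 5) * (Fx p j e * Gx p r (r + j * p) e) := by
  rw [TS_num, VV_den hp30 hr1 hr2 hj]
  have v1 : -((r + j * p : ℕ) : ℚ) + (r : ℚ) = -(j : ℚ) * p := by push_cast; ring
  rw [v1]
  unfold Fx Gx
  generalize ∏ m ∈ S3 p r, iv (-((r + j * p : ℕ) : ℚ) + m) ^ 5 = a3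
  generalize ∏ b ∈ (Finset.range 2).erase j, iv (((b : ℚ) - j) * p) ^ 5 = a4
  generalize ∏ r' ∈ (Finset.Icc 1 ((p - 1) / 2)).erase r,
    ((PowerSeries.X + PowerSeries.C (-((r + j * p : ℕ) : ℚ) + r')) *
        (PowerSeries.X + PowerSeries.C (-((r + j * p : ℕ) : ℚ) + (2 * p - r')))) ^ 10 = a5
  rw [mul_pow (PowerSeries.X + PowerSeries.C (-(j : ℚ) * p)) _ e]
  generalize (PowerSeries.X + PowerSeries.C (-(j : ℚ) * p)) ^ e = a6
  generalize (PowerSeries.X + PowerSeries.C (-((r + j * p : ℕ) : ℚ) + (2 * (p : ℚ) - r))) ^ e = a7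
  ring

end H2aux

open Pool.Agent.H336R2.HD.H2aux (UC coeff_mul_UC)
open H2aux

theorem H2_pa {p : ℕ} [Fact p.Prime] (hp : 30 ≤ p) (r : ℕ) (hr1 : 1 ≤ r) (hr2 : 2 * r < p) :
    ∃ w : ℚ, padicNorm p w = 1 ∧ ∀ e j i : ℕ, e ≤ 8 → j ≤ 1 → 1 ≤ i → i ≤ 5 →
      padicNorm p (pa (sB p) m5 (PPn p * EE p (nd p r ^ e *
        ∏ r' ∈ (Finset.Icc 1 ((p - 1) / 2)).erase r, nd p r' ^ 10)) (r + j * p) i / (p : ℚ) ^ (i + e) -
        w * (-2 * r) ^ e * PowerSeries.coeff (5 - i) (ser j e)) ≤ (p : ℚ)⁻¹ := by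
  have hp0 : (p : ℚ) ≠ 0 := p_pos'.ne'
  have hpp : (0 : ℚ) < p := p_pos'
  set cc : ℚ := ((2 * p).factorial : ℚ) ^ 5 with hcc
  have hcst : padicNorm p cc = ((p : ℚ)⁻¹) ^ 10 := by
    have hd1 : 2 * p / p = 2 := by rw [mul_comm]; exact Nat.mul_div_cancel_left 2 (by omega)
    rw [hcc, padicNorm_pow', norm_factorial (by nlinarith), hd1, zpow_neg, zpow_natCast, ← inv_pow, ← pow_mul]
  refine ⟨cc / (p : ℚ) ^ 10 * w0 p r, ?_, ?_⟩
  · have h0 := (Gx_UC hp hr1 hr2 0 0).1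
    rw [pow_zero, mul_one] at h0
    rw [padicNorm.mul, padicNorm.div, hcst, h0, padicNorm_pow', padicNorm.padicNorm_p_of_prime, mul_one]
    exact div_self (by positivity)
  · intro e j i he hj hi1 hi5
    have hmu : m5 (r + j * p) = 5 := rfl
    unfold pa
    rw [hmu, if_pos hi5]
    unfold pfc
    rw [factor hp hr1 hr2 hj e, PowerSeries.coeff_C_mul]
    have h1 := coeff_mul_UC (p := p) (by positivity) (Fx_PB hp hj e) (Gx_UC hp hr1 hr2 j e) (5 - i)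
    have h2 := Fx_coeff hp0 hj e (5 - i)
    rw [← hcc]
    set X1 := PowerSeries.coeff (5 - i) (Fx p j e * Gx p r (r + j * p) e) with hX1
    set X2 := PowerSeries.coeff (5 - i) (Fx p j e) with hX2
    have hpow : ((p : ℚ)⁻¹) ^ 5 * (p : ℚ) ^ e * ((p : ℚ)⁻¹) ^ (5 - i) * (p : ℚ) ^ 10 =
        (p : ℚ) ^ (i + e) := by
      have h3 : ((p : ℚ)⁻¹) ^ (5 - i) * (p : ℚ) ^ 5 = (p : ℚ) ^ i := by
        have h4 : (p : ℚ) ^ 5 = (p : ℚ) ^ (5 - i) * (p : ℚ) ^ i := by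
          rw [← pow_add, Nat.sub_add_cancel hi5]
        rw [h4, ← mul_assoc, ← mul_pow, inv_mul_cancel₀ hp0, one_pow, one_mul]
      have h5 : ((p : ℚ)⁻¹) ^ 5 * (p : ℚ) ^ 5 = 1 := by
        rw [← mul_pow, inv_mul_cancel₀ hp0, one_pow]
      calc ((p : ℚ)⁻¹) ^ 5 * (p : ℚ) ^ e * ((p : ℚ)⁻¹) ^ (5 - i) * (p : ℚ) ^ 10
          = (((p : ℚ)⁻¹) ^ 5 * (p : ℚ) ^ 5) * (p : ℚ) ^ e * (((p : ℚ)⁻¹) ^ (5 - i) * (p : ℚ) ^ 5) := by
            ring
        _ = (p : ℚ) ^ (i + e) := by rw [h3, h5, pow_add]; ring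
    have h6 : cc * X1 / (p : ℚ) ^ (i + e) -
        cc / (p : ℚ) ^ 10 * w0 p r * (-2 * (r : ℚ)) ^ e * PowerSeries.coeff (5 - i) (ser j e) =
        cc / (p : ℚ) ^ (i + e) * (X1 - X2 * (w0 p r * (-2 * (r : ℚ)) ^ e)) := by
      rw [h2, mul_sub]
      congr 1
      · ring
      · rw [← hpow]
        have h7 : ((p : ℚ)⁻¹) ^ 5 ≠ 0 := by positivity
        have h8 : ((p : ℚ)⁻¹) ^ (5 - i) ≠ 0 := by positivity
        generalize ((p : ℚ)⁻¹) ^ 5 = c1 at *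
        generalize ((p : ℚ)⁻¹) ^ (5 - i) = c2 at *
        field_simp
    rw [h6, padicNorm.mul, padicNorm.div, hcst, padicNorm_pow', padicNorm.padicNorm_p_of_prime]
    calc ((p : ℚ)⁻¹) ^ 10 / ((p : ℚ)⁻¹) ^ (i + e) *
          padicNorm p (X1 - X2 * (w0 p r * (-2 * (r : ℚ)) ^ e))
        ≤ ((p : ℚ)⁻¹) ^ 10 / ((p : ℚ)⁻¹) ^ (i + e) *
          ((p : ℚ) ^ 5 * ((p : ℚ)⁻¹) ^ e * (p : ℚ)⁻¹ * (p : ℚ) ^ (5 - i)) :=
          mul_le_mul_of_nonneg_left h1 (by positivity)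
      _ = (p : ℚ)⁻¹ := by
        have h9 : (p : ℚ) ^ (5 - i) * ((p : ℚ)⁻¹) ^ 5 = ((p : ℚ)⁻¹) ^ i := by
          have h4 : ((p : ℚ)⁻¹) ^ 5 = ((p : ℚ)⁻¹) ^ (5 - i) * ((p : ℚ)⁻¹) ^ i := by
            rw [← pow_add, Nat.sub_add_cancel hi5]
          rw [h4, ← mul_assoc, ← mul_pow, mul_inv_cancel₀ hp0, one_pow, one_mul]
        have h5 : ((p : ℚ)⁻¹) ^ 5 * (p : ℚ) ^ 5 = 1 := by
          rw [← mul_pow, inv_mul_cancel₀ hp0, one_pow]
        have h10 : ((p : ℚ)⁻¹) ^ (i + e) ≠ 0 := by positivity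
        rw [div_mul_eq_mul_div, div_eq_iff h10]
        calc ((p : ℚ)⁻¹) ^ 10 *
            ((p : ℚ) ^ 5 * ((p : ℚ)⁻¹) ^ e * (p : ℚ)⁻¹ * (p : ℚ) ^ (5 - i))
            = (((p : ℚ)⁻¹) ^ 5 * (p : ℚ) ^ 5) * ((p : ℚ) ^ (5 - i) * ((p : ℚ)⁻¹) ^ 5) *
              (((p : ℚ)⁻¹) ^ e * (p : ℚ)⁻¹) := by ring
          _ = (p : ℚ)⁻¹ * ((p : ℚ)⁻¹) ^ (i + e) := by
            rw [h5, h9, pow_add]; ring

end

end Pool.Agent.H216R2.BB
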