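import Pool.Agent.H216R2.BB.H3pre
import Pool.Agent.H216R2.BB.C1
import Pool.Agent.H216R2.BB.H1
import Pool.Agent.H216R2.BB.H2

/-! Task H3 (helper541). -/

open Polynomial Pool.Agent.H337R2

namespace Pool.Agent.H216R2.BB

theorem H3_diag {p : ℕ} [Fact p.Prime] (hp : 30 ≤ p) (u : ℕ → ℚ) (hu : ∀ i, padicNorm p (u i) ≤ 1)
    (r : ℕ) (hr1 : 1 ≤ r) (hr2 : 2 * r < p) :
    ∃ w : ℚ, padicNorm p w = 1 ∧ ∀ e : ℕ, e ≤ 8 →
      padicNorm p ((p : ℚ) ^ (-(e : ℤ)) * NL p u (nd p r ^ e *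
        ∏ r' ∈ (Finset.Icc 1 ((p - 1) / 2)).erase r, nd p r' ^ 10) -
        w * (-2 * r) ^ e * Fm e) ≤ (p : ℚ)⁻¹ := by
  refine H3_of ?_ ⟨?_, ?_⟩ hp u hu r hr1 hr2 (H2_pa hp r hr1 hr2)
  · intro E k hk A hA hE i
    exact C1_pa_mul (by nlinarith) E hk A hA hE i
  · intro r a i hi hr ha
    exact H1_bs r a i hi hr ha
  · intro r a i hi hr hr' ha
    exact H1_bs' r a i hi hr hr' ha

end Pool.Agent.H216R2.BB
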