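import Pool.Agent.H216R2.BB.Defs
import Pool.Agent.H336R2.HD.H3pre

/-! Task H3 (helper541): the diagonal blocks; `C1_pa_mul`, `H1_bs`, `H1_bs'` and `H2_pa` enter as
hypotheses. -/

open Polynomial Pool.Agent.H337R2
open Pool.Agent.H336R2.HD.H3 (inv0 PB_lin1 PB_linp nadd nsub nmul norm_ppow norm_int_le norm_sgn
  exists_rep)

namespace Pool.Agent.H216R2.BB.H3

noncomputable section

/-! ### reflection -/

/-- The reflection symmetry of partial fraction coefficients, odd case. -/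
theorem pfc_reflect_odd (s : Finset ℕ) (μ : ℕ → ℕ) (P : ℚ[X]) (H : ℕ)
    (hsH : ∀ k ∈ s, k ≤ H ∧ H - k ∈ s) (hμ : ∀ k ∈ s, μ (H - k) = μ k)
    (hP : P.comp (-X - C (H : ℚ)) = -P) (hodd : Odd (∑ m ∈ s, μ m)) {k : ℕ} (hk : k ∈ s)
    {j : ℕ} (hj : j < μ k) :
    pfc s μ P (H - k) j = (-1) ^ (μ k - j) * pfc s μ P k j := by
  have hkH := (hsH k hk).1
  have hVV : VV (s.erase (H - k)) μ (-((H - k : ℕ) : ℚ))
      = (-1) ^ (∑ m ∈ s.erase k, μ m) * PowerSeries.rescale (-1 : ℚ) (VV (s.erase k) μ (-(k : ℚ))) := by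
    unfold VV
    rw [map_prod, ← Finset.prod_pow_eq_pow_sum, ← Finset.prod_mul_distrib]
    symm
    apply Finset.prod_bij (fun m _ => H - m)
    · intro m hm
      rw [Finset.mem_erase] at hm ⊢
      have := hsH m hm.2
      refine ⟨?_, this.2⟩
      intro h
      apply hm.1; omega
    · intro m1 hm1 m2 hm2 h
      rw [Finset.mem_erase] at hm1 hm2
      have := hsH m1 hm1.2
      have := hsH m2 hm2.2
      omega
    · intro m hm
      rw [Finset.mem_erase] at hm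
      have := hsH m hm.2
      refine ⟨H - m, ?_, by omega⟩
      rw [Finset.mem_erase]
      refine ⟨?_, this.2⟩
      intro h
      apply hm.1; omega
    · intro m hm
      rw [Finset.mem_erase] at hm
      have h1 := hsH m hm.2
      rw [hμ m hm.2, map_pow, ← mul_pow]
      congr 1
      have h2 : -((H - k : ℕ) : ℚ) + ((H - m : ℕ) : ℚ) = -(-(k : ℚ) + m) := by
        rw [Nat.cast_sub hkH, Nat.cast_sub h1.1]; ring
      rw [h2, iv_neg]
      simp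
  have hT : TS (-((H - k : ℕ) : ℚ)) P = - PowerSeries.rescale (-1 : ℚ) (TS (-(k : ℚ)) P) := by
    have h2 : -((H - k : ℕ) : ℚ) = -(H : ℚ) - (-(k : ℚ)) := by
      rw [Nat.cast_sub hkH]; ring
    rw [h2, TS_reflect, hP, map_neg, map_neg]
  have hsum : ∑ m ∈ s, μ m = μ k + ∑ m ∈ s.erase k, μ m := (Finset.add_sum_erase s μ hk).symm
  unfold pfc
  rw [hVV, hT]
  have h3 : -(PowerSeries.rescale (-1 : ℚ)) (TS (-(k : ℚ)) P) * ((-1) ^ (∑ m ∈ s.erase k, μ m) *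
      (PowerSeries.rescale (-1 : ℚ)) (VV (s.erase k) μ (-(k : ℚ))))
      = PowerSeries.C ((-1 : ℚ) * (-1) ^ (∑ m ∈ s.erase k, μ m)) * PowerSeries.rescale (-1 : ℚ)
        (TS (-(k : ℚ)) P * VV (s.erase k) μ (-(k : ℚ))) := by
    rw [map_mul, map_mul, map_pow]
    simp only [map_neg, map_one]
    ring
  rw [h3, PowerSeries.coeff_C_mul, PowerSeries.coeff_rescale]
  rw [hsum] at hodd
  have h4 : -(((-1 : ℚ)) ^ (∑ m ∈ s.erase k, μ m) * (-1) ^ j) = (-1) ^ (μ k - j) := by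
    rw [← pow_add]
    have h5 : Odd ((∑ m ∈ s.erase k, μ m) + j + (μ k - j)) := by
      convert hodd using 1; omega
    have h6 : ((-1 : ℚ)) ^ ((∑ m ∈ s.erase k, μ m) + j + (μ k - j)) = -1 := h5.neg_one_pow
    rw [pow_add] at h6
    rcases neg_one_pow_eq_or ℚ (μ k - j) with h | h <;> rw [h] at h6 ⊢ <;> linarith
  calc _ = -((-1 : ℚ) ^ (∑ m ∈ s.erase k, μ m) * (-1) ^ j) *
        (PowerSeries.coeff j) (TS (-(k : ℚ)) P * VV (s.erase k) μ (-(k : ℚ))) := by ring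
    _ = _ := by rw [h4]

theorem EE_reflect (n : ℕ) (Q : ℚ[X]) : (EE n Q).comp (-X - C ((2 * n : ℕ) : ℚ)) = EE n Q := by
  unfold EE
  rw [Polynomial.comp_assoc]
  congr 1
  unfold xp
  simp only [Polynomial.mul_comp, Polynomial.add_comp, Polynomial.X_comp, Polynomial.C_comp]
  ring

theorem PPn_reflect (n : ℕ) : (PPn n).comp (-X - C ((2 * n : ℕ) : ℚ)) = -PPn n := by
  unfold PPn
  simp only [Polynomial.mul_comp, Polynomial.add_comp, Polynomial.X_comp, Polynomial.C_comp]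
  have : (C (2 : ℚ) : ℚ[X]) = 2 := Polynomial.C_ofNat 2
  rw [this]
  ring

theorem sum_m5 (n : ℕ) : ∑ m ∈ sB n, m5 m = 5 * (2 * n + 1) := by
  unfold sB m5
  rw [Finset.sum_const, Finset.card_range, smul_eq_mul]
  ring

/-- reflection of the coefficients -/
theorem pa_reflect (n : ℕ) (Q : ℚ[X]) {k i : ℕ} (hk : k ≤ 2 * n) (hi : 1 ≤ i) :
    pa (sB n) m5 (PPn n * EE n Q) (2 * n - k) i =
      (-1) ^ i * pa (sB n) m5 (PPn n * EE n Q) k i := by
  unfold pa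
  by_cases h : i ≤ 5
  · rw [if_pos (show i ≤ m5 (2 * n - k) from h), if_pos (show i ≤ m5 k from h)]
    have h5 := pfc_reflect_odd (sB n) m5 (PPn n * EE n Q) (2 * n)
      (fun k hk => by
        unfold sB at hk ⊢
        rw [Finset.mem_range] at hk ⊢
        omega)
      (fun k _ => rfl)
      (by rw [Polynomial.mul_comp, EE_reflect, PPn_reflect, neg_mul])
      (by
        rw [sum_m5]
        exact ⟨5 * n + 2, by ring⟩)
      (k := k) (by unfold sB; rw [Finset.mem_range]; omega) (j := 5 - i)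
      (by unfold m5; omega)
    have e : m5 k - (5 - i) = i := by
      unfold m5
      omega
    rw [e] at h5
    exact h5
  · rw [if_neg (show ¬ i ≤ m5 (2 * n - k) from h), if_neg (show ¬ i ≤ m5 k from h), mul_zero]

variable {p : ℕ} [hp : Fact p.Prime]

/-! ### the exponent `eB` -/

theorem cnt_two (k : ℕ) : (cnt p 0 (2 * p) k : ℤ) = if (p : ℤ) ∣ (k : ℤ) then 3 else 2 := by
  have hp0 : 0 < p := hp.out.pos
  have hpz : (p : ℤ) ≠ 0 := by exact_mod_cast hp0.ne'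
  have hpz' : (0 : ℤ) < p := by exact_mod_cast hp0
  rw [cnt_eq p 0 (2 * p) k hp0 (by omega)]
  push_cast
  rw [show (2 : ℤ) * p - k = -(k : ℤ) + 2 * p by ring, Int.add_mul_ediv_right _ _ hpz]
  have h1 := succ_ediv' (p : ℤ) hpz' (-1 - (k : ℤ))
  rw [show (-1 - (k : ℤ) + 1) = -(k : ℤ) by ring] at h1
  rw [h1]
  simp only [dvd_neg]
  split_ifs <;> ring

theorem eB_zero (k : ℕ) (hk : ¬ (p : ℤ) ∣ (k : ℤ)) : eB p p k = 0 := by
  have hp0 : 0 < p := hp.out.pos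
  unfold eB
  rw [cnt_two, if_neg hk, Nat.mul_div_cancel _ hp0]
  norm_num

theorem eB_five (k : ℕ) (hk : (p : ℤ) ∣ (k : ℤ)) : eB p p k = 5 := by
  have hp0 : 0 < p := hp.out.pos
  unfold eB
  rw [cnt_two, if_pos hk, Nat.mul_div_cancel _ hp0]
  norm_num

/-! ### the numerator -/

theorem nd_comp (n r : ℕ) : (nd n r).comp (xp n) = (X + C (r : ℚ)) * (X + C (2 * (n : ℚ) - r)) := by
  unfold nd xp
  rw [Polynomial.add_comp, Polynomial.X_comp, Polynomial.C_comp, Nat.cast_mul, map_mul C (r : ℚ),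
    map_sub, Nat.cast_ofNat]
  ring

theorem xp_eq (n : ℕ) : xp n = (X + C (0 : ℚ)) * (X + C (2 * (n : ℚ))) := by
  unfold xp
  push_cast
  simp

/-- the polynomial -/
def Qr (p r e : ℕ) : ℚ[X] := nd p r ^ e * ∏ r' ∈ (Finset.Icc 1 ((p - 1) / 2)).erase r, nd p r' ^ 10

omit hp in
theorem EE_Qr (r e : ℕ) : EE p (Qr p r e) = xp p ^ 7 * ((nd p r).comp (xp p) ^ e *
    ∏ r' ∈ (Finset.Icc 1 ((p - 1) / 2)).erase r, (nd p r').comp (xp p) ^ 10) := by
  unfold EE Qr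
  simp only [Polynomial.mul_comp, Polynomial.pow_comp, Polynomial.prod_comp, Polynomial.X_comp]

theorem PB_nd (r k : ℕ) : PB p (p : ℚ) 1 (TS (-(k : ℚ)) ((nd p r).comp (xp p))) := by
  rw [nd_comp, map_mul]
  have h1 := PB_lin1 (p := p) (r : ℤ) k
  have h2 := PB_lin1 (p := p) (2 * (p : ℤ) - r) k
  push_cast at h1 h2
  have h3 := PB.mul p_pos'.le zero_le_one zero_le_one h1 h2
  rwa [one_mul] at h3

theorem PB_ndp (r k : ℕ) (h : (p : ℤ) ∣ (k : ℤ) - r ∨ (p : ℤ) ∣ (k : ℤ) + r) :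
    PB p (p : ℚ) (p : ℚ)⁻¹ (TS (-(k : ℚ)) ((nd p r).comp (xp p))) := by
  rw [nd_comp, map_mul]
  rcases h with h | h
  · have h1 := PB_linp (p := p) (r : ℤ) k (by
      rw [show (r : ℤ) - k = -((k : ℤ) - r) by ring, dvd_neg]; exact h)
    have h2 := PB_lin1 (p := p) (2 * (p : ℤ) - r) k
    push_cast at h1 h2
    have h3 := PB.mul p_pos'.le inv0 zero_le_one h1 h2
    rwa [mul_one] at h3
  · have h1 := PB_lin1 (p := p) (r : ℤ) k
    have h2 := PB_linp (p := p) (2 * (p : ℤ) - r) k (by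
      rw [show 2 * (p : ℤ) - r - k = (p : ℤ) * 2 - ((k : ℤ) + r) by ring]
      exact dvd_sub (dvd_mul_right _ _) h)
    push_cast at h1 h2
    have h3 := PB.mul p_pos'.le zero_le_one inv0 h1 h2
    rwa [one_mul] at h3

theorem PB_xp (k : ℕ) : PB p (p : ℚ) 1 (TS (-(k : ℚ)) (xp p)) := by
  rw [xp_eq, map_mul]
  have h1 := PB_lin1 (p := p) 0 k
  have h2 := PB_lin1 (p := p) (2 * (p : ℤ)) k
  push_cast at h1 h2
  have h3 := PB.mul p_pos'.le zero_le_one zero_le_one h1 h2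
  rwa [one_mul] at h3

theorem PB_xpp (k : ℕ) (h : (p : ℤ) ∣ (k : ℤ)) :
    PB p (p : ℚ) ((p : ℚ)⁻¹ * (p : ℚ)⁻¹) (TS (-(k : ℚ)) (xp p)) := by
  rw [xp_eq, map_mul]
  have h1 := PB_linp (p := p) 0 k (by rw [zero_sub, dvd_neg]; exact h)
  have h2 := PB_linp (p := p) (2 * (p : ℤ)) k (dvd_sub (dvd_mul_left _ _) h)
  push_cast at h1 h2
  exact PB.mul p_pos'.le inv0 inv0 h1 h2

/-- all factors of `EE` with individual bounds -/
theorem PB_EE (r e k : ℕ) (a0 ar : ℚ) (a : ℕ → ℚ) (h0 : 0 ≤ a0) (hr : 0 ≤ ar) (ha : ∀ r', 0 ≤ a r')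
    (b0 : PB p (p : ℚ) a0 (TS (-(k : ℚ)) (xp p)))
    (br : PB p (p : ℚ) ar (TS (-(k : ℚ)) ((nd p r).comp (xp p))))
    (b : ∀ r' ∈ (Finset.Icc 1 ((p - 1) / 2)).erase r,
      PB p (p : ℚ) (a r') (TS (-(k : ℚ)) ((nd p r').comp (xp p)))) :
    PB p (p : ℚ) (a0 ^ 7 * (ar ^ e * ∏ r' ∈ (Finset.Icc 1 ((p - 1) / 2)).erase r, a r' ^ 10))
      (TS (-(k : ℚ)) (EE p (Qr p r e))) := by
  rw [EE_Qr, map_mul, map_mul, map_pow, map_pow, map_prod]
  simp only [map_pow]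
  have h1 := PB.prod (p := p) ((Finset.Icc 1 ((p - 1) / 2)).erase r) (fun r' => a r' ^ 10)
    (fun r' => (TS (-(k : ℚ)) ((nd p r').comp (xp p))) ^ 10) p_pos'.le
    (fun r' _ => pow_nonneg (ha r') _) (fun r' hr' => PB.pow p_pos'.le (ha r') (b r' hr') 10)
  exact PB.mul p_pos'.le (pow_nonneg h0 _) (mul_nonneg (pow_nonneg hr _)
    (Finset.prod_nonneg fun r' _ => pow_nonneg (ha r') _)) (PB.pow p_pos'.le h0 b0 7)
    (PB.mul p_pos'.le (pow_nonneg hr _) (Finset.prod_nonneg fun r' _ => pow_nonneg (ha r') _)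
      (PB.pow p_pos'.le hr br e) h1)

theorem PB_near (r e k : ℕ) (h : (p : ℤ) ∣ (k : ℤ) - r ∨ (p : ℤ) ∣ (k : ℤ) + r) :
    PB p (p : ℚ) ((p : ℚ)⁻¹ ^ e) (TS (-(k : ℚ)) (EE p (Qr p r e))) := by
  have := PB_EE (p := p) r e k 1 (p : ℚ)⁻¹ (fun _ => 1) zero_le_one inv0 (fun _ => zero_le_one)
    (PB_xp k) (PB_ndp r k h) (fun r' _ => PB_nd r' k)
  simpa using this

theorem PB_zero (r e k : ℕ) (h : (p : ℤ) ∣ (k : ℤ)) :
    PB p (p : ℚ) ((p : ℚ)⁻¹ ^ 14) (TS (-(k : ℚ)) (EE p (Qr p r e))) := by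
  have := PB_EE (p := p) r e k ((p : ℚ)⁻¹ * (p : ℚ)⁻¹) 1 (fun _ => 1) (mul_nonneg inv0 inv0)
    zero_le_one (fun _ => zero_le_one) (PB_xpp k h) (PB_nd r k) (fun r' _ => PB_nd r' k)
  rw [show ((p : ℚ)⁻¹ ^ 14) = ((p : ℚ)⁻¹ * (p : ℚ)⁻¹) ^ 7 * (1 ^ e *
    ∏ r' ∈ (Finset.Icc 1 ((p - 1) / 2)).erase r, (1 : ℚ) ^ 10) by
      simp only [one_pow, Finset.prod_const_one, mul_one]
      rw [← pow_two, ← pow_mul]]
  exact this

theorem PB_far (r e k r'' : ℕ) (hr'' : r'' ∈ Finset.Icc 1 ((p - 1) / 2)) (hne : r'' ≠ r)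
    (h : (p : ℤ) ∣ (k : ℤ) - r'' ∨ (p : ℤ) ∣ (k : ℤ) + r'') :
    PB p (p : ℚ) ((p : ℚ)⁻¹ ^ 10) (TS (-(k : ℚ)) (EE p (Qr p r e))) := by
  classical
  have := PB_EE (p := p) r e k 1 1 (fun r' => if r' = r'' then (p : ℚ)⁻¹ else 1) zero_le_one
    zero_le_one (fun r' => by split_ifs; exacts [inv0, zero_le_one]) (PB_xp k) (PB_nd r k)
    (fun r' _ => by
      split_ifs with h'
      · rw [h']; exact PB_ndp r'' k h
      · exact PB_nd r' k)
  have h2 : ∏ r' ∈ (Finset.Icc 1 ((p - 1) / 2)).erase r, (if r' = r'' then (p : ℚ)⁻¹ else 1) ^ 10 =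
      (p : ℚ)⁻¹ ^ 10 := by
    rw [Finset.prod_eq_single r'']
    · rw [if_pos rfl]
    · intro b _ hb
      rw [if_neg hb, one_pow]
    · intro h3
      exact absurd (Finset.mem_erase.2 ⟨hne, hr''⟩) h3
  rw [h2] at this
  simpa using this

/-- statement of `C1_pa_mul` at `n = p` -/
def C1st (p : ℕ) : Prop := ∀ (E : ℚ[X]) {k : ℕ}, k ≤ 2 * p → ∀ A : ℚ, 0 ≤ A →
    PB p (p : ℚ) A (TS (-(k : ℚ)) E) → ∀ i : ℕ,
    padicNorm p (pa (sB p) m5 (PPn p * E) k i) ≤ (p : ℚ) ^ (eB p p k - i : ℤ) * A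

/-- bound of the coefficients in the classes `±r` -/
theorem pa_near (hC1 : C1st p) (r e k i : ℕ) (hk : k ≤ 2 * p)
    (hk0 : ¬ (p : ℤ) ∣ (k : ℤ))
    (h : (p : ℤ) ∣ (k : ℤ) - r ∨ (p : ℤ) ∣ (k : ℤ) + r) :
    padicNorm p (pa (sB p) m5 (PPn p * EE p (Qr p r e)) k i) ≤ (p : ℚ) ^ (-(i : ℤ) - e) := by
  have h1 := hC1 (EE p (Qr p r e)) hk _ (pow_nonneg inv0 e) (PB_near r e k h) i
  refine h1.trans (le_of_eq ?_)
  rw [eB_zero k hk0, inv_pow, ← zpow_natCast, ← zpow_neg, ← zpow_add₀ p_pos'.ne']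
  congr 1
  ring

/-- bound of the coefficients in the other classes -/
theorem pa_far (hC1 : C1st p) (hp30 : 30 ≤ p) (r e k i : ℕ) (hk : k ≤ 2 * p)
    (h : ¬ ((p : ℤ) ∣ (k : ℤ) - r ∨ (p : ℤ) ∣ (k : ℤ) + r)) :
    padicNorm p (pa (sB p) m5 (PPn p * EE p (Qr p r e)) k i) ≤ (p : ℚ) ^ (-(i : ℤ) - 9) := by
  by_cases hk0 : (p : ℤ) ∣ (k : ℤ)
  · have h1 := hC1 (EE p (Qr p r e)) hk _ (pow_nonneg inv0 14) (PB_zero r e k hk0) i
    refine h1.trans (le_of_eq ?_)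
    rw [inv_pow, ← zpow_natCast, ← zpow_neg, ← zpow_add₀ p_pos'.ne', eB_five k hk0]
    congr 1
    push_cast
    ring
  · obtain ⟨r'', hr'', h''⟩ := exists_rep (p := p) (by omega) k hk0
    have h1 := hC1 (EE p (Qr p r e)) hk _
      (pow_nonneg inv0 10) (PB_far r e k r'' hr'' (fun e => h (e ▸ h'')) h'') i
    refine h1.trans ?_
    rw [eB_zero k hk0, inv_pow, ← zpow_natCast, ← zpow_neg, ← zpow_add₀ p_pos'.ne']
    apply zpow_le_zpow_right₀ p_one'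
    push_cast
    linarith

/-! ### splitting the sum over the poles -/

omit hp in
theorem near_filter {r : ℕ} (hr1 : 1 ≤ r) (hr2 : 2 * r < p) :
    (sB p).filter (fun k : ℕ => (p : ℤ) ∣ (k : ℤ) - r ∨ (p : ℤ) ∣ (k : ℤ) + r) =
      {r, r + p, 2 * p - r, p - r} := by
  ext k
  unfold sB
  rw [Finset.mem_filter, Finset.mem_range]
  simp only [Finset.mem_insert, Finset.mem_singleton]
  have hpz : (0 : ℤ) < p := by
    have : 0 < p := by omega
    exact_mod_cast this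
  constructor
  · rintro ⟨hk, ⟨m, hm⟩ | ⟨m, hm⟩⟩
    · have h1 : m < 2 := by
        by_contra hcon
        push Not at hcon
        have := mul_le_mul_of_nonneg_left hcon hpz.le
        omega
      have h2 : -1 < m := by
        by_contra hcon
        push Not at hcon
        have := mul_le_mul_of_nonneg_left hcon hpz.le
        omega
      obtain rfl | rfl : m = 0 ∨ m = 1 := by omega
      · left; omega
      · right; left; omega
    · have h1 : m < 3 := by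
        by_contra hcon
        push Not at hcon
        have := mul_le_mul_of_nonneg_left hcon hpz.le
        omega
      have h2 : 0 < m := by
        by_contra hcon
        push Not at hcon
        have := mul_le_mul_of_nonneg_left hcon hpz.le
        omega
      obtain rfl | rfl : m = 1 ∨ m = 2 := by omega
      · right; right; right; omega
      · right; right; left; omega
  · rintro (rfl | rfl | rfl | rfl)
    · exact ⟨by omega, Or.inl ⟨0, by ring⟩⟩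
    · exact ⟨by omega, Or.inl ⟨1, by push_cast; ring⟩⟩
    · exact ⟨by omega, Or.inr ⟨2, by rw [Nat.cast_sub (by omega)]; push_cast; ring⟩⟩
    · exact ⟨by omega, Or.inr ⟨1, by rw [Nat.cast_sub (by omega)]; ring⟩⟩

omit hp in
theorem sum_split {r : ℕ} (hr1 : 1 ≤ r) (hr2 : 2 * r < p) (g : ℕ → ℚ) : ∑ k ∈ sB p, g k =
      (∑ j ∈ Finset.range 2, (g (r + j * p) + g (2 * p - (r + j * p)))) +
      ∑ k ∈ (sB p).filter (fun k : ℕ => ¬ ((p : ℤ) ∣ (k : ℤ) - r ∨ (p : ℤ) ∣ (k : ℤ) + r)), g k := by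
  rw [← Finset.sum_filter_add_sum_filter_not (sB p)
    (fun k : ℕ => (p : ℤ) ∣ (k : ℤ) - r ∨ (p : ℤ) ∣ (k : ℤ) + r) g, near_filter hr1 hr2]
  congr 1
  rw [Finset.sum_insert, Finset.sum_insert, Finset.sum_insert, Finset.sum_singleton,
    Finset.sum_range_succ, Finset.sum_range_one, zero_mul, one_mul, add_zero,
    show 2 * p - (r + p) = p - r by omega]
  · ring
  · simp only [Finset.mem_singleton]
    omega
  · simp only [Finset.mem_insert, Finset.mem_singleton]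
    omega
  · simp only [Finset.mem_insert, Finset.mem_singleton]
    omega

/-! ### small facts on norms -/

theorem norm_pzpow' (e : ℕ) : padicNorm p ((p : ℚ) ^ (-(e : ℤ))) = (p : ℚ) ^ (e : ℤ) := by
  rw [zpow_neg, zpow_natCast, ← one_div, padicNorm.div, norm_ppow, padicNorm.one, zpow_neg,
    one_div, inv_inv, zpow_natCast]

/-- statement of `H1_bs` and `H1_bs'` -/
def H1st (p : ℕ) : Prop := (∀ (r a i : ℕ), 1 ≤ i → 2 * r < p → 2 * a + 1 < p →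
    padicNorm p ((p : ℚ) ^ i * bsZ i ((a * p + r : ℕ) : ℤ) -
      (-1) ^ ((p - 1) / 2) * bsZ i (a : ℤ)) ≤ (p : ℚ)⁻¹) ∧
    (∀ (r a i : ℕ), 1 ≤ i → p < 2 * r → r < p → 2 * a + 1 < p →
    padicNorm p ((p : ℚ) ^ i * bsZ i ((a * p + r : ℕ) : ℤ) -
      (-1) ^ ((p - 1) / 2) * bsZ i ((a + 1 : ℕ) : ℤ)) ≤ (p : ℚ)⁻¹)

/-- statement of `H2_pa` -/
def H2st (p r : ℕ) : Prop :=
    ∃ w : ℚ, padicNorm p w = 1 ∧ ∀ e j i : ℕ, e ≤ 8 → j ≤ 1 → 1 ≤ i → i ≤ 5 →
      padicNorm p (pa (sB p) m5 (PPn p * EE p (nd p r ^ e *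
        ∏ r' ∈ (Finset.Icc 1 ((p - 1) / 2)).erase r, nd p r' ^ 10)) (r + j * p) i / (p : ℚ) ^ (i + e) -
        w * (-2 * r) ^ e * PowerSeries.coeff (5 - i) (ser j e)) ≤ (p : ℚ)⁻¹

/-- the contribution of one pair of poles -/
theorem pair_term (hC1 : C1st p) (hH1 : H1st p) (hp30 : 30 ≤ p) (u : ℕ → ℚ)
    (hu : ∀ i, padicNorm p (u i) ≤ 1)
    {r e i j : ℕ} (hr1 : 1 ≤ r) (hr2 : 2 * r < p) (hj : j ≤ 1)
    (hi1 : 1 ≤ i) (α : ℚ)
    (hα : padicNorm p (pa (sB p) m5 (PPn p * EE p (Qr p r e)) (r + j * p) i /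
      (p : ℚ) ^ (i + e) - α) ≤ (p : ℚ)⁻¹) :
    padicNorm p ((p : ℚ) ^ (-(e : ℤ)) *
      ((-1) ^ (r + j * p) * (pa (sB p) m5 (PPn p * EE p (Qr p r e)) (r + j * p) i *
        (u i - bsZ i ((r + j * p : ℕ) : ℤ))) +
      (-1) ^ (2 * p - (r + j * p)) *
        (pa (sB p) m5 (PPn p * EE p (Qr p r e)) (2 * p - (r + j * p)) i *
        (u i - bsZ i ((2 * p - (r + j * p) : ℕ) : ℤ)))) +
      (-1) ^ r * (-1) ^ j * (-1) ^ ((p - 1) / 2) * α *
        (bsZ i (j : ℤ) + (-1) ^ i * bsZ i ((2 - j : ℕ) : ℤ))) ≤ (p : ℚ)⁻¹ := by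
  have hp0 := hp.out.pos
  have hodd : Odd p := hp.out.odd_of_ne_two (by omega)
  have hjp : j * p ≤ p := by
    calc j * p ≤ 1 * p := Nat.mul_le_mul_right p hj
      _ = p := one_mul p
  have hkle : r + j * p ≤ 2 * p := by omega
  have e1 : r + j * p = j * p + r := by ring
  have e2 : 2 * p - (r + j * p) = (1 - j) * p + (p - r) := by
    have : (1 - j) * p + j * p = p := by
      rw [← Nat.add_mul]
      have : 1 - j + j = 1 := by omega
      rw [this, one_mul]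
    omega
  have hk0 : ¬ (p : ℤ) ∣ ((r + j * p : ℕ) : ℤ) := by
    rintro ⟨m, hm⟩
    have h1 : (p : ℤ) ∣ (r : ℤ) := ⟨m - j, by push_cast at hm; linarith⟩
    have h2 : p ∣ r := by exact_mod_cast h1
    have := Nat.le_of_dvd hr1 h2
    omega
  have hka := pa_near (p := p) hC1 r e (r + j * p) i hkle hk0
    (Or.inl ⟨j, by push_cast; ring⟩)
  rw [pa_reflect p (Qr p r e) (k := r + j * p) (i := i) hkle hi1]
  -- signs
  have hsg1 : ((-1 : ℚ)) ^ (r + j * p) = (-1) ^ r * (-1) ^ j := by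
    rw [pow_add, mul_comm j p, pow_mul, hodd.neg_one_pow]
  have hsg2 : ((-1 : ℚ)) ^ (2 * p - (r + j * p)) = (-1) ^ r * (-1) ^ j := by
    rw [← hsg1]
    have h5 : Even ((2 * p - (r + j * p)) + (r + j * p)) := by
      rw [Nat.sub_add_cancel hkle]
      exact even_two_mul p
    have h6 : ((-1 : ℚ)) ^ ((2 * p - (r + j * p)) + (r + j * p)) = 1 := h5.neg_one_pow
    rw [pow_add] at h6
    rcases neg_one_pow_eq_or ℚ (r + j * p) with h | h <;> rw [h] at h6 ⊢ <;> linarith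
  rw [hsg1, hsg2]
  set a := pa (sB p) m5 (PPn p * EE p (Qr p r e)) (r + j * p) i with ha
  have hpi : (p : ℚ) ^ (i + e) ≠ 0 := pow_ne_zero _ p_pos'.ne'
  -- normalised coefficient
  set A := a / (p : ℚ) ^ (i + e) with hA
  have hA1 : padicNorm p A ≤ 1 := by
    rw [hA, padicNorm.div, norm_ppow, div_le_one (zpow_pos p_pos' _)]
    refine hka.trans (le_of_eq ?_)
    congr 1
    push_cast
    ring
  have haA : (p : ℚ) ^ (-(e : ℤ)) * a = A * (p : ℚ) ^ i := by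
    rw [hA, zpow_neg, zpow_natCast, pow_add]
    have h1 : (p : ℚ) ^ i ≠ 0 := pow_ne_zero _ p_pos'.ne'
    have h2 : (p : ℚ) ^ e ≠ 0 := pow_ne_zero _ p_pos'.ne'
    field_simp
  have hb := hH1.1 r j i hi1 hr2 (by omega)
  have hb' := hH1.2 (p - r) (1 - j) i hi1 (by omega) (by omega) (by omega)
  rw [← e1] at hb
  rw [← e2, show 1 - j + 1 = 2 - j by omega] at hb'
  have hH := bsZ_norm_small (p := p) i (j : ℤ) (by
    rw [abs_of_nonneg (by positivity)]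
    omega)
  have hH' := bsZ_norm_small (p := p) i ((2 - j : ℕ) : ℤ) (by
    rw [abs_of_nonneg (by positivity)]
    omega)
  set s : ℚ := (-1) ^ ((p - 1) / 2) with hs
  have hsn : padicNorm p s ≤ 1 := norm_sgn _
  set b := (p : ℚ) ^ i * bsZ i ((r + j * p : ℕ) : ℤ) with hbd
  set b' := (p : ℚ) ^ i * bsZ i ((2 * p - (r + j * p) : ℕ) : ℤ) with hbd'
  set H := bsZ i (j : ℤ) with hHd
  set H' := bsZ i ((2 - j : ℕ) : ℤ) with hHd'
  set σ : ℚ := (-1) ^ r * (-1) ^ j with hσ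
  have hσn : padicNorm p σ ≤ 1 := by
    have := nmul (norm_sgn (p := p) r) (norm_sgn (p := p) j)
    rwa [one_mul] at this
  have key : (p : ℚ) ^ (-(e : ℤ)) *
      (σ * (a * (u i - bsZ i ((r + j * p : ℕ) : ℤ))) +
      σ * ((-1) ^ i * a * (u i - bsZ i ((2 * p - (r + j * p) : ℕ) : ℤ)))) +
      σ * s * α * (H + (-1) ^ i * H') =
      σ * ((((p : ℚ) ^ (-(e : ℤ)) * a * u i + (-1) ^ i * ((p : ℚ) ^ (-(e : ℤ)) * a * u i)) -
      (A * (b - s * H) + (-1) ^ i * (A * (b' - s * H')))) -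
        s * ((A - α) * (H + (-1) ^ i * H'))) := by
    have h1 : (p : ℚ) ^ (-(e : ℤ)) * a * bsZ i ((r + j * p : ℕ) : ℤ) = A * b := by
      rw [haA, hbd]; ring
    have h2 : (p : ℚ) ^ (-(e : ℤ)) * a * bsZ i ((2 * p - (r + j * p) : ℕ) : ℤ) = A * b' := by
      rw [haA, hbd']; ring
    linear_combination (-σ) * h1 - σ * (-1) ^ i * h2
  rw [key]
  have hu1 : padicNorm p ((p : ℚ) ^ (-(e : ℤ)) * a * u i) ≤ (p : ℚ)⁻¹ := by
    have h1 : padicNorm p ((p : ℚ) ^ (-(e : ℤ)) * a) ≤ (p : ℚ) ^ (e : ℤ) *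
        (p : ℚ) ^ (-(i : ℤ) - e) := nmul (norm_pzpow' e).le hka
    rw [← zpow_add₀ p_pos'.ne'] at h1
    have h2 := nmul h1 (hu i)
    rw [mul_one] at h2
    refine h2.trans ?_
    rw [← zpow_neg_one]
    apply zpow_le_zpow_right₀ p_one'
    omega
  have hs1 := norm_sgn (p := p) i
  have hle : ∀ {y x : ℚ}, padicNorm p y ≤ 1 → padicNorm p x ≤ (p : ℚ)⁻¹ →
      padicNorm p (y * x) ≤ (p : ℚ)⁻¹ := fun {y x} hy hx => by
    have := nmul hy hx
    rwa [one_mul] at this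
  have hHH : padicNorm p (H + (-1) ^ i * H') ≤ 1 := by
    refine nadd hH ?_
    have := nmul hs1 hH'
    rwa [one_mul] at this
  apply hle hσn
  refine nsub (nsub (nadd hu1 (hle hs1 hu1)) (nadd (hle hA1 hb) (hle hs1 (hle hA1 hb')))) ?_
  apply hle hsn
  have := nmul hα hHH
  rwa [mul_one] at this

/-- the contribution of the other poles -/
theorem rest_term (hC1 : C1st p) (hp30 : 30 ≤ p) (u : ℕ → ℚ) (hu : ∀ i, padicNorm p (u i) ≤ 1)
    {r e i k : ℕ} (he : e ≤ 8) (hk : k ≤ 2 * p)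
    (hrest : ¬ ((p : ℤ) ∣ (k : ℤ) - r ∨ (p : ℤ) ∣ (k : ℤ) + r)) :
    padicNorm p ((p : ℚ) ^ (-(e : ℤ)) *
      ((-1) ^ k * (pa (sB p) m5 (PPn p * EE p (Qr p r e)) k i * (u i - bsZ i (k : ℤ))))) ≤
      (p : ℚ)⁻¹ := by
  have h1 := pa_far (p := p) hC1 hp30 r e k i hk hrest
  have h2 := bsZ_norm_med (p := p) i (k : ℤ) (by
    rw [abs_of_nonneg (by positivity)]
    have h3 : (k : ℤ) ≤ 2 * p := by exact_mod_cast hk
    have h4 : (30 : ℤ) ≤ p := by exact_mod_cast hp30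
    nlinarith)
  have h3 : padicNorm p (u i - bsZ i (k : ℤ)) ≤ (p : ℚ) ^ i :=
    nsub ((hu i).trans (one_le_pow₀ p_one')) h2
  have h4 := nmul (norm_pzpow' (p := p) e).le (nmul (norm_sgn (p := p) k) (nmul h1 h3))
  refine h4.trans ?_
  rw [one_mul, ← zpow_natCast (p : ℚ) i, ← zpow_add₀ p_pos'.ne', ← zpow_add₀ p_pos'.ne',
    ← zpow_neg_one]
  apply zpow_le_zpow_right₀ p_one'
  omega

end

end Pool.Agent.H216R2.BB.H3

namespace Pool.Agent.H216R2.BB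

open H3

theorem H3_of {p : ℕ} [Fact p.Prime] (hC1 : C1st p) (h1s : H1st p) (hp : 30 ≤ p) (u : ℕ → ℚ)
    (hu : ∀ i, padicNorm p (u i) ≤ 1) (r : ℕ) (hr1 : 1 ≤ r) (hr2 : 2 * r < p) (h2s : H2st p r) :
    ∃ w : ℚ, padicNorm p w = 1 ∧ ∀ e : ℕ, e ≤ 8 →
      padicNorm p ((p : ℚ) ^ (-(e : ℤ)) * NL p u (nd p r ^ e *
        ∏ r' ∈ (Finset.Icc 1 ((p - 1) / 2)).erase r, nd p r' ^ 10) -
        w * (-2 * r) ^ e * Fm e) ≤ (p : ℚ)⁻¹ := by
  obtain ⟨w, hw1, hw⟩ := h2s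
  have hsn : ∀ i : ℕ, padicNorm p ((-1 : ℚ) ^ i) = 1 := by
    intro i
    rw [padicNorm_pow', padicNorm.neg, padicNorm.one, one_pow]
  refine ⟨(-1) ^ r * (-1) ^ ((p - 1) / 2) * w, by
    rw [padicNorm.mul, padicNorm.mul, hsn, hsn, hw1, one_mul, one_mul], fun e he => ?_⟩
  show padicNorm p ((p : ℚ) ^ (-(e : ℤ)) * NL p u (Qr p r e) -
    (-1) ^ r * (-1) ^ ((p - 1) / 2) * w * (-2 * r) ^ e * Fm e) ≤ _
  have hN : (p : ℚ) ^ (-(e : ℤ)) * NL p u (Qr p r e) -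
      (-1) ^ r * (-1) ^ ((p - 1) / 2) * w * (-2 * r) ^ e * Fm e =
      ∑ i ∈ Finset.Icc 1 5,
      ((∑ j ∈ Finset.range 2, ((p : ℚ) ^ (-(e : ℤ)) *
      ((-1) ^ (r + j * p) * (pa (sB p) m5 (PPn p * EE p (Qr p r e)) (r + j * p) i *
        (u i - bsZ i ((r + j * p : ℕ) : ℤ))) +
      (-1) ^ (2 * p - (r + j * p)) *
        (pa (sB p) m5 (PPn p * EE p (Qr p r e)) (2 * p - (r + j * p)) i *
        (u i - bsZ i ((2 * p - (r + j * p) : ℕ) : ℤ)))) +
      (-1) ^ r * (-1) ^ j * (-1) ^ ((p - 1) / 2) *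
        (w * (-2 * r) ^ e * PowerSeries.coeff (5 - i) (ser j e)) *
        (bsZ i (j : ℤ) + (-1) ^ i * bsZ i ((2 - j : ℕ) : ℤ)))) +
      ∑ k ∈ (sB p).filter (fun k : ℕ => ¬ ((p : ℤ) ∣ (k : ℤ) - r ∨ (p : ℤ) ∣ (k : ℤ) + r)),
        (p : ℚ) ^ (-(e : ℤ)) *
      ((-1) ^ k * (pa (sB p) m5 (PPn p * EE p (Qr p r e)) k i *
        (u i - bsZ i (k : ℤ))))) := by
    have h1 : (-1) ^ r * (-1) ^ ((p - 1) / 2) * w * (-2 * (r : ℚ)) ^ e * Fm e =
        -∑ i ∈ Finset.Icc 1 5, ∑ j ∈ Finset.range 2,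
        ((-1) ^ r * (-1) ^ j * (-1) ^ ((p - 1) / 2) *
        (w * (-2 * r) ^ e * PowerSeries.coeff (5 - i) (ser j e)) *
        (bsZ i (j : ℤ) + (-1) ^ i * bsZ i ((2 - j : ℕ) : ℤ))) := by
      unfold Fm
      rw [mul_neg, Finset.sum_comm, Finset.mul_sum]
      congr 1
      refine Finset.sum_congr rfl fun i _ => ?_
      rw [Finset.mul_sum]
      refine Finset.sum_congr rfl fun j _ => ?_
      ring
    have h2 : NL p u (Qr p r e) = ∑ i ∈ Finset.Icc 1 5,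
        ∑ k ∈ sB p, (-1) ^ k * (pa (sB p) m5 (PPn p * EE p (Qr p r e)) k i *
        (u i - bsZ i (k : ℤ))) := by
      rw [NL_apply]
      unfold xf
      refine Finset.sum_congr rfl fun i _ => ?_
      rw [Finset.sum_mul, ← Finset.sum_sub_distrib]
      refine Finset.sum_congr rfl fun k _ => ?_
      ring
    rw [h1, sub_neg_eq_add, h2, Finset.mul_sum, ← Finset.sum_add_distrib]
    refine Finset.sum_congr rfl fun i _ => ?_
    rw [sum_split hr1 hr2]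
    simp only [Finset.sum_add_distrib, ← Finset.mul_sum]
    ring
  rw [hN]
  apply padicNorm.sum_le' _ inv0
  intro i hi
  rw [Finset.mem_Icc] at hi
  refine nadd ?_ ?_
  · apply padicNorm.sum_le' _ inv0
    intro j hj
    have hj1 : j ≤ 1 := by
      rw [Finset.mem_range] at hj
      omega
    exact pair_term hC1 h1s hp u hu hr1 hr2 hj1 hi.1 _ (hw e j i he hj1 hi.1 hi.2)
  · apply padicNorm.sum_le' _ inv0
    intro k hk
    rw [Finset.mem_filter] at hk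
    have hk2 : k ≤ 2 * p := by
      have := hk.1
      unfold sB at this
      rw [Finset.mem_range] at this
      omega
    exact rest_term hC1 hp u hu he hk2 hk.2

end Pool.Agent.H216R2.BB
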