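import Pool.Agent.H216R2.BB.Defs

/-!
# The local Hankel determinant is nonzero (task H5)
-/

set_option autoImplicit false

open Polynomial Pool.Agent.H337R2

namespace Pool.Agent.H216R2.BB

namespace H5

/-- coefficients of `iv a ^ 5` -/
def B5 (a : ℚ) : List ℚ :=
  [1 / a ^ 5, -5 / a ^ 6, 15 / a ^ 7, -35 / a ^ 8, 70 / a ^ 9]

theorem rep_iv (a : ℚ) (ha : a ≠ 0) (d : ℕ) (hd : d < 5) :
    PowerSeries.coeff d (iv a ^ 5) = (B5 a).getD d 0 := by
  rw [show (5 : ℕ) = 4 + 1 from rfl, coeff_iv_pow ha]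
  interval_cases d <;> simp [B5, Nat.choose] <;> ring

theorem coeff_lin_pow (c : ℚ) (n d : ℕ) :
    PowerSeries.coeff d ((PowerSeries.X + PowerSeries.C c) ^ n : PowerSeries ℚ) =
      c ^ (n - d) * (n.choose d : ℚ) := by
  have h : ((PowerSeries.X + PowerSeries.C c) ^ n : PowerSeries ℚ) =
      (((X + C c : ℚ[X]) ^ n : ℚ[X]) : PowerSeries ℚ) := by
    rw [Polynomial.coe_pow, Polynomial.coe_add, Polynomial.coe_X, Polynomial.coe_C]
  rw [h, Polynomial.coeff_coe, Polynomial.coeff_X_add_C_pow]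

/-- the coefficient lists -/
def sc (j e d : ℕ) : ℚ :=
  ((List.range (d + 1)).map fun m => (-(j : ℚ)) ^ (e - m) * (e.choose m : ℚ) *
    (B5 (1 - 2 * (j : ℚ))).getD (d - m) 0).sum

theorem sum_range_list (f : ℕ → ℚ) (n : ℕ) :
    ((List.range n).map f).sum = ∑ m ∈ Finset.range n, f m := by
  induction n with
  | zero => simp
  | succ n ih => rw [List.range_succ, List.map_append, List.sum_append, ih, Finset.sum_range_succ]; simp

theorem coeff_ser (j e d : ℕ) (hj : j < 2) (hd : d < 5) :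
    PowerSeries.coeff d (ser j e) = sc j e d := by
  have h1 : (∏ b ∈ (Finset.range 2).erase j, iv ((b : ℚ) - j) ^ 5) = iv (1 - 2 * (j : ℚ)) ^ 5 := by
    interval_cases j
    · rw [show (Finset.range 2).erase 0 = {1} by decide, Finset.prod_singleton]; norm_num
    · rw [show (Finset.range 2).erase 1 = {0} by decide, Finset.prod_singleton]; norm_num
  unfold ser sc
  rw [h1, mul_comm, sum_range_list, PowerSeries.coeff_mul,
    Finset.Nat.sum_antidiagonal_eq_sum_range_succ
      (fun i k => PowerSeries.coeff i ((PowerSeries.X + PowerSeries.C (-(j : ℚ))) ^ e) *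
        PowerSeries.coeff k (iv (1 - 2 * (j : ℚ)) ^ 5)) d]
  apply Finset.sum_congr rfl
  intro m hm
  rw [Finset.mem_range] at hm
  rw [coeff_lin_pow, rep_iv _ _ (d - m) (by omega)]
  interval_cases j <;> norm_num

/-- the values of `bsZ` -/
def bv (i j : ℕ) : ℚ := ((List.range j).map fun l : ℕ => fz i (l : ℤ)).sum

theorem bsZ_eq (i j : ℕ) : bsZ i (j : ℤ) = bv i j := by
  unfold bv
  induction j with
  | zero => simp [bsZ]
  | succ j ih =>
    rw [List.range_succ, List.map_append, List.sum_append, ← ih]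
    push_cast
    rw [bsZ_succ]
    simp

/-- computable version -/
def FC (e : ℕ) : ℚ :=
  - (((List.range 2).map fun j => ((List.range 5).map fun i => (-1) ^ j *
    (sc j e (5 - (i + 1)) * (bv (i + 1) j + (-1) ^ (i + 1) * bv (i + 1) (2 - j)))).sum).sum)

theorem Fm_eq (e : ℕ) : Fm e = FC e := by
  unfold Fm FC
  rw [sum_range_list]
  congr 1
  apply Finset.sum_congr rfl
  intro j hj
  rw [Finset.mem_range] at hj
  rw [sum_range_list, show (Finset.Icc 1 5 : Finset ℕ) = (Finset.range 5).image (· + 1) by decide,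
    Finset.sum_image (by intro a _ b _ h; simpa using h)]
  apply Finset.sum_congr rfl
  intro i hi
  rw [Finset.mem_range] at hi
  rw [coeff_ser j e _ hj (by omega), bsZ_eq, bsZ_eq]

/-- the numerators, common denominator `243` -/
def NN : List ℤ := [1024, 32484, -31716, 20844, -9396, 0, 7776, -15552, 25272]

theorem FC_val : ∀ e < 9, FC e * 243 = ((NN.getD e 0 : ℤ) : ℚ) := by
  decide +kernel

/-- the integer matrix -/
def Nm : Matrix (Fin 5) (Fin 5) ℤ := Matrix.of fun l l' => NN.getD (l.1 + l'.1) 0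

theorem det_Nm : Nm.det ≠ 0 := by
  decide +kernel

end H5

open H5 in
theorem H5_local : (Matrix.of fun l l' : Fin 5 => Fm (l.1 + l'.1)).det ≠ 0 := by
  intro h
  apply det_Nm
  have h1 : Nm.map (Int.cast : ℤ → ℚ) =
      (243 : ℚ) • (Matrix.of fun l l' : Fin 5 => Fm (l.1 + l'.1)) := by
    ext l l'
    have h2 := FC_val (l.1 + l'.1) (by omega)
    rw [← Fm_eq] at h2
    show ((NN.getD (l.1 + l'.1) 0 : ℤ) : ℚ) = 243 * Fm (l.1 + l'.1)
    rw [← h2, mul_comm]
  have h3 : (Nm.map (Int.cast : ℤ → ℚ)).det = 0 := by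
    rw [h1, Matrix.det_smul, h, mul_zero]
  have h4 := (Int.castRingHom ℚ).map_det Nm
  have h5 : ((Nm.det : ℤ) : ℚ) = 0 := by
    rw [← h3]
    exact h4
  exact_mod_cast h5

end Pool.Agent.H216R2.BB
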