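import Pool.Agent.H216R2.BB.Defs
import Pool.Agent.H336R2.HD.A5

/-! Task H6 (adapted from H336R2/HD/H6pre): non-vanishing of the determinant, from A2, H3, H4, H5 (as hypotheses). -/

open Polynomial Pool.Agent.H337R2 Filter Topology

namespace Pool.Agent.H216R2.BB

noncomputable section

/-! ### auxiliary lemmas -/

/-- a nonzero rational is a `p`-adic unit for large `p` -/
lemma H6_unit (x : ℚ) (hx : x ≠ 0) : ∃ p0 : ℕ, ∀ p : ℕ, p0 ≤ p → p.Prime → padicNorm p x = 1 := by
  refine ⟨x.num.natAbs + x.den + 1, fun p hp hpp => ?_⟩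
  have : Fact p.Prime := ⟨hpp⟩
  have h1 : padicNorm p ((x.num : ℤ) : ℚ) = 1 := by
    rw [padicNorm.int_eq_one_iff]
    intro h
    have h2 : p ∣ x.num.natAbs := Int.natCast_dvd.1 h
    have h3 : x.num.natAbs ≠ 0 := by
      rw [Int.natAbs_ne_zero]
      exact Rat.num_ne_zero.2 hx
    have := Nat.le_of_dvd (Nat.pos_of_ne_zero h3) h2
    omega
  have h2 : padicNorm p ((x.den : ℕ) : ℚ) = 1 := by
    rw [padicNorm.nat_eq_one_iff]
    intro h
    have := Nat.le_of_dvd x.den_pos h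
    omega
  have h3 : x = (x.num : ℚ) / (x.den : ℚ) := (Rat.num_div_den x).symm
  rw [h3, padicNorm.div, h1, h2, div_one]

lemma H6_int (x : ℚ) : ∃ p0 : ℕ, ∀ p : ℕ, p0 ≤ p → p.Prime → padicNorm p x ≤ 1 := by
  by_cases hx : x = 0
  · refine ⟨0, fun p _ hpp => ?_⟩
    have : Fact p.Prime := ⟨hpp⟩
    rw [hx]
    simp
  · obtain ⟨p0, h⟩ := H6_unit x hx
    exact ⟨p0, fun p hp hpp => (h p hp hpp).le⟩

lemma H6_nd_natDegree (n r : ℕ) : (nd n r).natDegree ≤ 1 := by
  unfold nd
  exact (natDegree_X_add_C _).le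

/-- the test polynomials -/
def H6_P (p r l : ℕ) : ℚ[X] :=
  nd p r ^ l * ∏ r' ∈ (Finset.Icc 1 ((p - 1) / 2)).erase r, nd p r' ^ 5

lemma H6_P_natDegree (p r l : ℕ) (hr1 : 1 ≤ r) (hr2 : 2 * r < p) (hl : l < 5) (hp : 30 ≤ p)
    (hodd : p % 2 = 1) : (H6_P p r l).natDegree < 5 * ((p - 1) / 2) := by
  have h1 : (nd p r ^ l).natDegree ≤ l := by
    refine natDegree_pow_le.trans ?_
    have := H6_nd_natDegree p r
    nlinarith
  have h2 : (∏ r' ∈ (Finset.Icc 1 ((p - 1) / 2)).erase r, nd p r' ^ 5).natDegree ≤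
      5 * ((p - 1) / 2 - 1) := by
    refine (natDegree_prod_le _ _).trans ?_
    have h3 : ∀ r' ∈ (Finset.Icc 1 ((p - 1) / 2)).erase r, (nd p r' ^ 5).natDegree ≤ 5 := by
      intro r' _
      refine natDegree_pow_le.trans ?_
      have := H6_nd_natDegree p r'
      omega
    refine (Finset.sum_le_sum h3).trans ?_
    rw [Finset.sum_const, Finset.card_erase_of_mem, Nat.card_Icc, smul_eq_mul]
    · omega
    · rw [Finset.mem_Icc]
      omega
  unfold H6_P
  refine (natDegree_mul_le).trans_lt ?_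
  omega

lemma H6_P_mul (p r l l' : ℕ) : H6_P p r l * H6_P p r l' =
    nd p r ^ (l + l') * ∏ r' ∈ (Finset.Icc 1 ((p - 1) / 2)).erase r, nd p r' ^ 10 := by
  unfold H6_P
  rw [pow_add]
  have h : ∏ r' ∈ (Finset.Icc 1 ((p - 1) / 2)).erase r, nd p r' ^ 10 =
      (∏ r' ∈ (Finset.Icc 1 ((p - 1) / 2)).erase r, nd p r' ^ 5) *
      (∏ r' ∈ (Finset.Icc 1 ((p - 1) / 2)).erase r, nd p r' ^ 5) := by
    rw [← Finset.prod_mul_distrib]
    refine Finset.prod_congr rfl fun r' _ => ?_
    rw [← pow_add]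
  rw [h]
  ring

/-- determinant after scaling of rows and columns -/
lemma H6_det_scale {α : Type} [Fintype α] [DecidableEq α] (c : α → ℚ) (M : Matrix α α ℚ) :
    (Matrix.of fun a b => c a * c b * M a b).det = (∏ a, c a) * ((∏ a, c a) * M.det) := by
  have h1 : (Matrix.of fun a b => c a * c b * M a b) =
      Matrix.of fun a b => c a * (Matrix.of fun a b => c b * M a b) a b := by
    ext a b
    simp only [Matrix.of_apply]
    ring
  rw [h1, Matrix.det_mul_column, Matrix.det_mul_row]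

/-- statement of A2 -/
def H6_A2 : Prop := ∀ (N : ℚ[X] →ₗ[ℚ] ℚ) (m : ℕ) {α : Type} [Fintype α] [DecidableEq α] (_e : α ≃ Fin m)
    (P : α → ℚ[X]) (_hP : ∀ a, (P a).natDegree < m)
    (_h : (Matrix.of fun a b : α => N (P a * P b)).det ≠ 0),
    (Matrix.of fun i j : Fin m => N (X ^ (i.1 + j.1))).det ≠ 0

/-- statement of H3 -/
def H6_H3 : Prop := ∀ {p : ℕ} [Fact p.Prime] (_hp : 30 ≤ p) (u : ℕ → ℚ) (_hu : ∀ i, padicNorm p (u i) ≤ 1)
    (r : ℕ) (_hr1 : 1 ≤ r) (_hr2 : 2 * r < p),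
    ∃ w : ℚ, padicNorm p w = 1 ∧ ∀ e : ℕ, e ≤ 8 →
      padicNorm p ((p : ℚ) ^ (-(e : ℤ)) * NL p u (nd p r ^ e *
        ∏ r' ∈ (Finset.Icc 1 ((p - 1) / 2)).erase r, nd p r' ^ 10) -
        w * (-2 * r) ^ e * Fm e) ≤ (p : ℚ)⁻¹

/-- statement of H4 -/
def H6_H4 : Prop := ∀ {p : ℕ} [Fact p.Prime] (_hp : 30 ≤ p) (u : ℕ → ℚ) (_hu : ∀ i, padicNorm p (u i) ≤ 1)
    (r s l l' : ℕ) (_hr1 : 1 ≤ r) (_hr2 : 2 * r < p) (_hs1 : 1 ≤ s) (_hs2 : 2 * s < p) (_hrs : r ≠ s)
    (_hl : l < 5) (_hl' : l' < 5),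
    padicNorm p ((p : ℚ) ^ (-(l : ℤ) - (l' : ℤ)) * NL p u
      ((nd p r ^ l * ∏ r' ∈ (Finset.Icc 1 ((p - 1) / 2)).erase r, nd p r' ^ 5) *
       (nd p s ^ l' * ∏ r' ∈ (Finset.Icc 1 ((p - 1) / 2)).erase s, nd p r' ^ 5))) ≤ (p : ℚ)⁻¹

/-- statement of H5 -/
def H6_H5 : Prop := (Matrix.of fun l l' : Fin 5 => Fm (l.1 + l'.1)).det ≠ 0

theorem H6_of (A2_gram_ne : H6_A2) (H3_diag : H6_H3) (H4_offdiag : H6_H4) (H5_local : H6_H5)
    (u : ℕ → ℚ) (q : ℕ) (hu : UInt q u) : ∃ p0 : ℕ, ∀ p : ℕ, p0 ≤ p → p.Prime →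
    DET p u (5 * ((p - 1) / 2)) ≠ 0 := by
  -- bounds on the constants
  obtain ⟨p1, hp1⟩ := H6_unit _ H5_local
  have hF : ∃ p2 : ℕ, ∀ e ∈ Finset.range 9, ∀ p : ℕ, p2 ≤ p → p.Prime → padicNorm p (Fm e) ≤ 1 := by
    choose f hf using fun e : ℕ => H6_int (Fm e)
    refine ⟨(Finset.range 9).sup f, fun e he p hp hpp => hf e p ?_ hpp⟩
    exact (Finset.le_sup (f := f) he).trans hp
  obtain ⟨p2, hp2⟩ := hF
  refine ⟨p1 + p2 + q + 30, fun p hp hpp => ?_⟩
  have : Fact p.Prime := ⟨hpp⟩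
  have hp30 : 30 ≤ p := by omega
  have hodd : p % 2 = 1 := by
    rcases hpp.eq_two_or_odd with h | h
    · omega
    · exact h
  have hq0 : 0 < q := hu.1
  have hup : ∀ i, padicNorm p (u i) ≤ 1 := by
    intro i
    obtain ⟨z, hz⟩ := hu.2 i
    have h1 : padicNorm p ((q : ℕ) : ℚ) = 1 := by
      rw [padicNorm.nat_eq_one_iff]
      intro h
      have := Nat.le_of_dvd hq0 h
      omega
    have h2 : padicNorm p ((q : ℚ) * u i) ≤ 1 := by
      rw [hz]
      exact padicNorm.of_int z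
    rw [padicNorm.mul] at h2
    rw [h1, one_mul] at h2
    exact h2
  set h := (p - 1) / 2 with hh
  have hph : p = 2 * h + 1 := by omega
  -- choose the units
  have hw : ∀ r : Fin h, ∃ w : ℚ, padicNorm p w = 1 ∧ ∀ e : ℕ, e ≤ 8 →
      padicNorm p ((p : ℚ) ^ (-(e : ℤ)) * NL p u (nd p (r.1 + 1) ^ e *
        ∏ r' ∈ (Finset.Icc 1 ((p - 1) / 2)).erase (r.1 + 1), nd p r' ^ 10) -
        w * (-2 * ((r.1 + 1 : ℕ) : ℚ)) ^ e * Fm e) ≤ (p : ℚ)⁻¹ := by
    intro r
    have hr := r.2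
    exact H3_diag hp30 u hup (r.1 + 1) (by omega) (by omega)
  choose w hw1 hw2 using hw
  -- the Gram matrix
  set G : Matrix (Fin 5 × Fin h) (Fin 5 × Fin h) ℚ :=
    Matrix.of fun a b => NL p u (H6_P p (a.2.1 + 1) a.1.1 * H6_P p (b.2.1 + 1) b.1.1) with hG
  have key : G.det ≠ 0 := by
    set c : Fin 5 × Fin h → ℚ := fun a => (p : ℚ) ^ (-(a.1.1 : ℤ)) with hc
    set M : Matrix (Fin 5 × Fin h) (Fin 5 × Fin h) ℚ :=
      Matrix.of fun a b => c a * c b * G a b with hM
    set Bl : Fin h → Matrix (Fin 5) (Fin 5) ℚ := fun r =>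
      Matrix.of fun l l' => w r * (-2 * ((r.1 + 1 : ℕ) : ℚ)) ^ (l.1 + l'.1) * Fm (l.1 + l'.1) with hBl
    have hp0 : (p : ℚ) ≠ 0 := by exact_mod_cast hpp.ne_zero
    have hcc : ∀ a b : Fin 5 × Fin h, c a * c b = (p : ℚ) ^ (-(a.1.1 : ℤ) - (b.1.1 : ℤ)) := by
      intro a b
      simp only [hc]
      rw [← zpow_add₀ hp0]
      congr 1
    have hM0 : M.det ≠ 0 := by
      apply Pool.Agent.H336R2.HD.A6_det_congr p M (Matrix.blockDiagonal Bl)
      · intro a b
        rw [Matrix.blockDiagonal_apply]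
        split_ifs with hab
        · simp only [hBl, Matrix.of_apply]
          have ha := a.1.2
          have hb := b.1.2
          have h1 : padicNorm p (Fm (a.1.1 + b.1.1)) ≤ 1 :=
            hp2 _ (Finset.mem_range.2 (by omega)) p (by omega) hpp
          have h2 : padicNorm p ((-2 * ((a.2.1 + 1 : ℕ) : ℚ)) ^ (a.1.1 + b.1.1)) ≤ 1 := by
            have h3 : ((-2 * ((a.2.1 + 1 : ℕ) : ℚ)) ^ (a.1.1 + b.1.1)) =
                (((-2 * ((a.2.1 + 1 : ℕ) : ℤ)) ^ (a.1.1 + b.1.1) : ℤ) : ℚ) := by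
              push_cast
              ring
            rw [h3]
            exact padicNorm.of_int _
          rw [padicNorm.mul, padicNorm.mul, hw1, one_mul]
          exact mul_le_one₀ h2 (padicNorm.nonneg _) h1
        · simp
      · intro a b
        rw [Matrix.blockDiagonal_apply]
        have ha := a.1.2
        have hb := b.1.2
        have ha2 := a.2.2
        have hb2 := b.2.2
        have hMab : M a b = (p : ℚ) ^ (-(a.1.1 : ℤ) - (b.1.1 : ℤ)) *
            NL p u (H6_P p (a.2.1 + 1) a.1.1 * H6_P p (b.2.1 + 1) b.1.1) := by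
          simp only [hM, hG, Matrix.of_apply]
          rw [hcc]
        split_ifs with hab
        · rw [hMab, ← hab, H6_P_mul]
          have h1 := hw2 a.2 (a.1.1 + b.1.1) (by omega)
          have h2 : (-((a.1.1 + b.1.1 : ℕ) : ℤ)) = -(a.1.1 : ℤ) - (b.1.1 : ℤ) := by
            push_cast
            ring
          rw [h2] at h1
          exact h1
        · rw [hMab, sub_zero]
          apply H4_offdiag hp30 u hup (a.2.1 + 1) (b.2.1 + 1) a.1.1 b.1.1 (by omega) (by omega)
            (by omega) (by omega) _ ha hb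
          intro h1
          apply hab
          ext
          omega
      · rw [Matrix.det_blockDiagonal]
        have hdet : ∀ r : Fin h, padicNorm p (Bl r).det = 1 := by
          intro r
          have hr := r.2
          have h1 : Bl r = Matrix.of fun l l' => (w r) *
              (Matrix.of fun l l' : Fin 5 => ((-2 * ((r.1 + 1 : ℕ) : ℚ)) ^ l.1) *
                ((-2 * ((r.1 + 1 : ℕ) : ℚ)) ^ l'.1) *
                (Matrix.of fun l l' : Fin 5 => Fm (l.1 + l'.1)) l l') l l' := by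
            ext l l'
            simp only [hBl, Matrix.of_apply]
            ring
          rw [h1, Matrix.det_mul_column (fun _ => w r), H6_det_scale]
          have h2 : padicNorm p (-2 * ((r.1 + 1 : ℕ) : ℚ)) = 1 := by
            have h3 : (-2 * ((r.1 + 1 : ℕ) : ℚ)) = ((-(2 * (r.1 + 1) : ℕ) : ℤ) : ℚ) := by
              push_cast
              ring
            rw [h3, padicNorm.int_eq_one_iff]
            intro h4
            rw [Int.dvd_neg, Int.natCast_dvd_natCast] at h4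
            have := Nat.le_of_dvd (by omega) h4
            omega
          have hprod : ∀ f : Fin 5 → ℚ, (∀ i, padicNorm p (f i) = 1) → padicNorm p (∏ i, f i) = 1 := by
            intro f hf
            have h4 : padicNorm p (∏ i, f i) = ∏ i, padicNorm p (f i) := by
              exact map_prod (⟨⟨fun x => padicNorm p x, padicNorm.one⟩, fun x y => padicNorm.mul x y⟩ :
                ℚ →* ℚ) f Finset.univ
            rw [h4]
            exact Finset.prod_eq_one fun i _ => hf i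
          have h5 : ∀ i : Fin 5, padicNorm p ((-2 * ((r.1 + 1 : ℕ) : ℚ)) ^ i.1) = 1 := by
            intro i
            have h6 : ∀ k : ℕ, padicNorm p ((-2 * ((r.1 + 1 : ℕ) : ℚ)) ^ k) = 1 := by
              intro k
              induction k with
              | zero => simp
              | succ k ih => rw [pow_succ, padicNorm.mul, ih, h2, one_mul]
            exact h6 i.1
          rw [padicNorm.mul, padicNorm.mul, padicNorm.mul, hprod _ (fun _ => hw1 r), hprod _ h5,
            hp1 p (by omega) hpp]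
          norm_num
        have hprod2 : padicNorm p (∏ r, (Bl r).det) = ∏ r, padicNorm p (Bl r).det := by
          exact map_prod (⟨⟨fun x => padicNorm p x, padicNorm.one⟩, fun x y => padicNorm.mul x y⟩ :
            ℚ →* ℚ) (fun r => (Bl r).det) Finset.univ
        rw [hprod2]
        exact Finset.prod_eq_one fun r _ => hdet r
    intro h0
    apply hM0
    rw [hM, H6_det_scale, h0, mul_zero, mul_zero]
  -- conclusion
  have hcard : Fintype.card (Fin 5 × Fin h) = Fintype.card (Fin (5 * ((p - 1) / 2))) := by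
    simp only [Fintype.card_prod, Fintype.card_fin]
    omega
  obtain ⟨e⟩ := Fintype.card_eq.1 hcard
  unfold DET
  apply A2_gram_ne (NL p u) (5 * ((p - 1) / 2)) e (fun a => H6_P p (a.2.1 + 1) a.1.1)
  · intro a
    have ha := a.1.2
    have ha2 := a.2.2
    exact H6_P_natDegree p _ _ (by omega) (by omega) ha hp30 hodd
  · exact key

end

end Pool.Agent.H216R2.BB
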