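import Pool.Agent.H216R2.BB.Defs
import Pool.Agent.H336R2.HD.A1
import Pool.Agent.H336R2.HD.A3
import Pool.Agent.H336R2.HD.A5
import Pool.Agent.H336R2.HD.F1
import Pool.Agent.H336R2.HD.G1a

/-! STUBS of the project "one of β(2), β(4) is irrational". Never import this file in a finished module.

Already proved and reusable (namespace `Pool.Agent.H336R2.HD`): `A1_det_monic`, `A2_gram_ne`, `A3_padic_det`,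
`A4_abs_det`, `A5_prod_formula`, `A6_det_congr`, `F1_tent`, `F1_const`, `G1_block`. -/

open Polynomial Pool.Agent.H337R2 Filter Topology MeasureTheory

namespace Pool.Agent.H216R2.BB

noncomputable section

/-! ### A. Linear algebra -/

theorem A7_gram_zone (N : ℚ[X] →ₗ[ℚ] ℚ) (m T : ℕ) (xs : ℕ → ℚ)
    (hxs : ∀ i < T, ∀ j < T, i ≠ j → xs i ≠ xs j) (H : ℚ[X]) (hH : H.Monic) (hHd : H.natDegree + T = m)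
    (G : ℕ → ℚ[X]) (hG : ∀ j, T + j < m → (G j).Monic ∧ (G j).natDegree = j)
    (P : ℕ → ℚ[X]) (hP1 : ∀ i < T, P i = (∏ l ∈ (Finset.range T).erase i, (X - C (xs l))) * H)
    (hP2 : ∀ i, T ≤ i → i < m → P i = (∏ l ∈ Finset.range T, (X - C (xs l))) * G (i - T)) :
    |(Matrix.of fun i j : Fin m => N (P i * P j)).det| =
      |(Matrix.of fun i j : Fin m => N (X ^ (i.1 + j.1))).det| *
      |∏ i ∈ Finset.range T, ∏ l ∈ (Finset.range T).erase i, (xs i - xs l)| *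
      (∏ i ∈ Finset.range T, H.eval (xs i)) ^ 2 := by
  sorry

/-! ### B. The linear form and the integral -/

theorem B0_kernel (y : ℝ) :
    HasSum (fun j : ℤ => li (2 * (j : ℝ) + 1 / 2) y - li (2 * (j : ℝ) + 3 / 2) y)
      ((Real.pi / Real.cosh (Real.pi * y) : ℝ) : ℂ) := by
  sorry

theorem B0_sech {A i : ℕ} (hA : 1 ≤ A) (hi : 1 ≤ i) :
    Integrable (fun y : ℝ => li (A : ℝ) y ^ i * (((Real.cosh (Real.pi * y))⁻¹ : ℝ) : ℂ)) ∧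
    ((lamB i - ((bsZ i (A : ℤ) : ℚ) : ℝ) : ℝ) : ℂ) =
      (1 / 2) * (-1) ^ A * ∫ y : ℝ, li (A : ℝ) y ^ i * (((Real.cosh (Real.pi * y))⁻¹ : ℝ) : ℂ) := by
  sorry

theorem B1_sym (n : ℕ) (Q : ℚ[X]) {i : ℕ} (hi : Odd i) :
    ∑ k ∈ sB n, (-1) ^ k * pa (sB n) m5 (PPn n * EE n Q) k i = 0 := by
  sorry

theorem B1_split {n T : ℕ} (hn : 2 ≤ n) (hT : 1 ≤ T) (u : ℕ → ℚ) (h2 : lamB 2 = (u 2 : ℝ))
    (h4 : lamB 4 = (u 4 : ℝ)) (Q : ℚ[X]) (hQ : Q.natDegree ≤ 5 * n - 7) :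
    (((NL n u Q - ∑ t ∈ Finset.range T, (-1) ^ t * wh n t * Q.eval (xh n t) : ℚ) : ℝ) : ℂ) =
      (1 / 2) * (-1) ^ T * ∫ y : ℝ, Rn n T y * xz n T y ^ 7 * aeval (xz n T y) Q *
        (((Real.cosh (Real.pi * y))⁻¹ : ℝ) : ℂ) := by
  sorry

theorem B2_NL_le {n T : ℕ} (hn : 2 ≤ n) (hT : 1 ≤ T) (u : ℕ → ℚ) (h2 : lamB 2 = (u 2 : ℝ))
    (h4 : lamB 4 = (u 4 : ℝ)) (Q : ℚ[X]) (hQ : Q.natDegree ≤ 5 * n - 7) (B : ℝ)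
    (hB : ∀ y : ℝ, ‖Rn n T y‖ * ‖xz n T y‖ ^ 7 * ‖aeval (xz n T y) Q‖ * Real.exp (-(Real.pi * |y|)) ≤
      B * (1 + y ^ 2)⁻¹) :
    |((NL n u Q - ∑ t ∈ Finset.range T, (-1) ^ t * wh n t * Q.eval (xh n t) : ℚ) : ℝ)| ≤ 4 * B := by
  sorry

/-! ### C. p-adic size of the entries -/

theorem C1_pa_mul {n p : ℕ} [Fact p.Prime] (hp2 : 4 * n < p ^ 2) (E : ℚ[X]) {k : ℕ}
    (hk : k ≤ 2 * n) (A : ℚ) (hA : 0 ≤ A) (hE : PB p (p : ℚ) A (TS (-(k : ℚ)) E)) (i : ℕ) :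
    padicNorm p (pa (sB n) m5 (PPn n * E) k i) ≤ (p : ℚ) ^ (eB p n k - i : ℤ) * A := by
  sorry

theorem C1_pa_mul_int {n p : ℕ} [Fact p.Prime] (E : ℚ[X]) {k : ℕ}
    (hk : k ≤ 2 * n) (A : ℚ) (hA : 0 ≤ A) (hE : PB p 1 A (TS (-(k : ℚ)) E)) (i : ℕ)
    (hno : ∀ k' ≤ 2 * n, k' ≠ k → ¬ (p : ℤ) ∣ (k' : ℤ) - k) :
    padicNorm p (pa (sB n) m5 (PPn n * E) k i) ≤ padicNorm p (((2 * n).factorial : ℕ) : ℚ) ^ 5 * A := by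
  sorry

theorem C2_entry {n p : ℕ} [Fact p.Prime] (hodd : p ≠ 2) (hp2 : 4 * n < p ^ 2) (q : ℕ) (u : ℕ → ℚ)
    (hu : UInt q u) (E : ℚ[X]) (hEd : E.natDegree ≤ 10 * n + 3) (W : ℚ) (A : ℕ → ℚ) (hA : ∀ k, 0 ≤ A k)
    (hE : ∀ k ≤ 2 * n, PB p (p : ℚ) (A k) (TS (-(k : ℚ)) E))
    (hE1 : ∀ k ≤ 2 * n, PB p 1 1 (TS (-(k : ℚ)) E))
    (hc : padicNorm p (((2 * n).factorial : ℕ) : ℚ) ^ 5 ≤ W)
    (h : ∀ k ≤ 2 * n, (p : ℚ) ^ (eB p n k) * A k ≤ W ∨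
      ((∀ k' ≤ 2 * n, k' ≠ k → ¬ (p : ℤ) ∣ (k' : ℤ) - k) ∧
        (2 * k < p ∨ (p < 2 * k ∧ 2 * k < 3 * p ∧ E.eval ((p : ℚ) / 2 - k) = 0)))) :
    padicNorm p ((q : ℚ) * xf n u (PPn n * E)) ≤ W := by
  sorry

theorem C2_entry_all {n p : ℕ} [Fact p.Prime] (hodd : p ≠ 2) (hp2 : 4 * n < p ^ 2) (q : ℕ) (u : ℕ → ℚ)
    (hu : UInt q u) (E : ℚ[X]) (W : ℚ) (hW : 0 ≤ W) (A : ℕ → ℚ) (hA : ∀ k, 0 ≤ A k)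
    (hE : ∀ k ≤ 2 * n, PB p (p : ℚ) (A k) (TS (-(k : ℚ)) E))
    (h : ∀ k ≤ 2 * n, (p : ℚ) ^ (eB p n k) * A k ≤ W) :
    padicNorm p ((q : ℚ) * xf n u (PPn n * E)) ≤ W := by
  sorry

theorem C3_xf_crude {n p : ℕ} [Fact p.Prime] (hn : 1 ≤ n) (q : ℕ) (u : ℕ → ℚ) (hu : UInt q u)
    (E : ℚ[X]) (A : ℚ) (hA : 0 ≤ A)
    (hE : ∀ k ≤ 2 * n, PB p ((5 * n + 1 : ℕ) : ℚ) A (TS (-(k : ℚ)) E)) :
    padicNorm p ((q : ℚ) * xf n u (PPn n * E)) ≤ ((5 * n + 1 : ℕ) : ℚ) ^ 16 * A := by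
  sorry

theorem C4_CP (n i : ℕ) : (CP n i).Monic ∧ (CP n i).natDegree = i := by
  sorry

theorem C4_CP_PB {n p : ℕ} [Fact p.Prime] (hn : 1 ≤ n) (ρ : ℚ) (hρ1 : 1 ≤ ρ)
    (hρ : ∀ l : ℕ, 1 ≤ l → l ≤ 5 * n → (padicNorm p (l : ℚ))⁻¹ ≤ ρ) (i j : ℕ) (hi : 2 * i ≤ 5 * n)
    (hj : 2 * j ≤ 5 * n) (k : ℕ) :
    PB p ρ (padicNorm p (((2 * i - 1).factorial : ℕ) : ℚ) * padicNorm p (((2 * j - 1).factorial : ℕ) : ℚ))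
      (TS (-(k : ℚ)) (EE n (CP n i * CP n j))) := by
  sorry

/-! ### D. p-adic size of the determinant -/

theorem D1_greedy' {K : Type} [DecidableEq K] (S : Finset K) (hS : S.Nonempty) (h : K → ℕ → ℤ) (μ : ℤ) (m : ℕ) :
    ∃ (κ : ℕ → K) (s : ℕ → ℤ), (∀ i, κ i ∈ S) ∧ (∀ i, μ ≤ s i) ∧
      (∑ i ∈ Finset.range m, s i ≤ m * μ + ∑ k ∈ S, ∑ j ∈ Finset.range m, max 0 (h k j - μ)) ∧
      ∀ k ∈ S, ∀ i, h k ((Finset.range i).filter fun l => κ l = k).card ≤ s i := by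
  sorry

theorem D1_TT_sum (y : ℤ) (m : ℕ) : ∑ j ∈ Finset.range m, max 0 (y - 2 * (j : ℤ)) ≤ TT y := by
  sorry

theorem D2_kap_mem {n p k : ℕ} (hp : 0 < p) (hk : k ≤ 2 * n) : kap n p k ∈ Kset n p := by
  sorry

theorem D2_eB_kap {n p k : ℕ} (hp : 0 < p) (hk : k ≤ 2 * n) : eB p n (kap n p k) = eB p n k := by
  sorry

/-- Taylor expansion of the node polynomial at a pole of its class pair -/
theorem D2_nd {n p k κ : ℕ} [Fact p.Prime] (hk : k ≤ 2 * n) (hκ : kap n p k = κ) :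
    PB p (p : ℚ) (p : ℚ)⁻¹ (TS (-(k : ℚ)) ((nd n κ).comp (xp n))) := by
  sorry

theorem D3_det_padic {n p : ℕ} [Fact p.Prime] (hodd : p ≠ 2) (hn : 1 ≤ n) (hp2 : 4 * n < p ^ 2) (q : ℕ)
    (u : ℕ → ℚ) (hu : UInt q u) (m : ℕ) (μ : ℤ) :
    padicNorm p ((q : ℚ) ^ m * DET n u m) ≤ (p : ℚ) ^ (m * μ + ∑ κ ∈ Kset n p, TT (eB p n κ - μ)) := by
  sorry

theorem D5_det_defect {n p : ℕ} [Fact p.Prime] (hodd : p ≠ 2) (hn : 8 ≤ n) (hp1 : n < p) (hp2 : 4 * n < p ^ 2)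
    (q : ℕ) (u : ℕ → ℚ) (hu : UInt q u) (m : ℕ) (hm : 2 * m + 5 ≤ 5 * n) :
    padicNorm p ((q : ℚ) ^ m * DET n u m) ≤
      (p : ℚ) ^ (-(5 * ((2 * n / p : ℕ) : ℤ)) * m + ∑ κ ∈ Sf n p, TT (eB p n κ + 5 * ((2 * n / p : ℕ) : ℤ)) +
        5 * ((Df n p).card : ℤ)) := by
  sorry

theorem D4_small_med {n p : ℕ} [Fact p.Prime] (hodd : p ≠ 2) (hn : 1 ≤ n) (hp2 : 5 * n < p ^ 2) (q : ℕ)
    (u : ℕ → ℚ) (hu : UInt q u) (m : ℕ) (hm : 2 * m ≤ 5 * n) :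
    padicNorm p ((q : ℚ) ^ m * DET n u m) ≤
      ((p : ℚ) ^ 5) ^ m * ∏ i ∈ Finset.range m, padicNorm p (((2 * i - 1).factorial : ℕ) : ℚ) ^ 2 := by
  sorry

theorem D4_small_crude {n p : ℕ} [Fact p.Prime] (hn : 1 ≤ n) (q : ℕ) (u : ℕ → ℚ)
    (hu : UInt q u) (m : ℕ) (hm : 2 * m ≤ 5 * n) :
    padicNorm p ((q : ℚ) ^ m * DET n u m) ≤
      (((5 * n + 1 : ℕ) : ℚ) ^ 16) ^ m * ∏ i ∈ Finset.range m, padicNorm p (((2 * i - 1).factorial : ℕ) : ℚ) ^ 2 := by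
  sorry

/-! ### E. Class sums -/

theorem E1_Kset_sum {n p : ℕ} (hp : p.Prime) (hp2 : p ≠ 2) (f : ℕ → ℤ) (M : ℤ) (hM : 0 ≤ M)
    (hf : ∀ r < p, f r = f ((2 * n + p - r) % p)) (hfM : ∀ r < p, f r ≤ M) :
    2 * ∑ r ∈ Kset n p, f r ≤ ∑ r ∈ Finset.range p, f r + M := by
  sorry

theorem E2_cnt {n p r : ℕ} (hp : 0 < p) (hr : r < p) :
    cnt p 0 (2 * n) r = if r ≤ 2 * n % p then 2 * n / p + 1 else 2 * n / p := by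
  sorry

theorem E3_A : ∃ K0 : ℝ, ∀ n p m : ℕ, p.Prime → p ≠ 2 → n < 20 * p → p ≤ n → 2 * m + 5 = 5 * n →
    ((((m : ℤ) * (1 - 5 * ((2 * n / p : ℕ) : ℤ)) +
      ∑ κ ∈ Kset n p, TT (eB p n κ - (1 - 5 * ((2 * n / p : ℕ) : ℤ))) : ℤ)) : ℝ) ≤ EA n p + K0 := by
  sorry

theorem E3_B : ∃ K0 : ℝ, ∀ n p m : ℕ, p.Prime → 8 ≤ n → n < p → p < 2 * n → 2 * m + 5 = 5 * n →
    (((-(5 * ((2 * n / p : ℕ) : ℤ)) * m + ∑ κ ∈ Sf n p, TT (eB p n κ + 5 * ((2 * n / p : ℕ) : ℤ)) +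
        5 * ((Df n p).card : ℤ) : ℤ)) : ℝ) ≤ EB n p + K0 := by
  sorry

theorem E3_C : ∃ K0 : ℝ, ∀ n p m : ℕ, p.Prime → 8 ≤ n → 2 * n < p → p < 4 * n →
    (((-(5 * ((2 * n / p : ℕ) : ℤ)) * m + ∑ κ ∈ Sf n p, TT (eB p n κ + 5 * ((2 * n / p : ℕ) : ℤ)) +
        5 * ((Df n p).card : ℤ) : ℤ)) : ℝ) ≤ EC n p + K0 := by
  sorry

/-- p-adic size of the determinant, all primes `p > n/20` -/
theorem E4_padic : ∃ K0 : ℝ, 0 ≤ K0 ∧ ∀ n m : ℕ, 8 ≤ n → 2 * m + 5 = 5 * n → ∀ p : ℕ, p.Prime → n < 20 * p →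
    5 * n < p ^ 2 → ∀ (q : ℕ) (u : ℕ → ℚ), UInt q u →
    ((padicNorm p ((q : ℚ) ^ m * DET n u m) : ℚ) : ℝ) ≤
      if p < 4 * n then (p : ℝ) ^ (EW n p + K0) else 1 := by
  sorry

/-! ### F. Prime number theorem sums -/

theorem F1_id (lo hi : ℚ) (h0 : 0 < lo) (h1 : lo ≤ hi) (h2 : hi ≤ 12) :
    Tendsto (fun n : ℕ => (∑ p ∈ PS lo hi n, (p : ℝ) * Real.log p) / (n : ℝ) ^ 2) atTop
      (𝓝 ((((hi ^ 2 - lo ^ 2) / 2 : ℚ)) : ℝ)) := by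
  sorry

theorem F2_cell (K : ℕ) (hK : 2 ≤ K) (hK2 : K ≤ 39) :
    Tendsto (fun n : ℕ => (∑ p ∈ cell K n, EA n p * Real.log p) / (n : ℝ) ^ 2)
      atTop (𝓝 ((LAc K : ℚ) : ℝ)) := by
  sorry

theorem F2_B : Tendsto (fun n : ℕ => (∑ p ∈ PS 1 2 n, EB n p * Real.log p) / (n : ℝ) ^ 2) atTop (𝓝 (-11 / 6)) := by
  sorry

theorem F2_C : Tendsto (fun n : ℕ => (∑ p ∈ PS 2 4 n, EC n p * Real.log p) / (n : ℝ) ^ 2) atTop (𝓝 5) := by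
  sorry

theorem F2_U : Tendsto (fun n : ℕ => (∑ p ∈ PS (1 / 20) 5 n, (∑ j ∈ J, tn (5 * n) j p) * Real.log p) / (n : ℝ) ^ 2)
    atTop (𝓝 (LU : ℝ)) := by
  sorry

theorem F3_numeric : ∑ K ∈ Finset.Icc 2 39, LAc K + LU ≤ 16739 / 1000 := by
  sorry

/-- small primes: trivial exponents -/
theorem F4_small : ∀ ε : ℝ, 0 < ε → ∀ᶠ n : ℕ in atTop,
    5 / 2 * (n : ℝ) * (∑ p ∈ (Finset.range (n + 1)).filter (fun p : ℕ => p.Prime ∧ p ^ 2 ≤ 5 * n),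
        16 * Real.log (5 * n + 1) +
      ∑ p ∈ (Finset.range (n + 1)).filter (fun p : ℕ => p.Prime ∧ 20 * p ≤ n), 5 * Real.log p) ≤
    (5 / 8 + ε) * (n : ℝ) ^ 2 := by
  sorry

/-- factorials: the small prime part -/
theorem F5_fact : ∀ᶠ n : ℕ in atTop, ∀ m : ℕ, 2 * m + 5 = 5 * n →
    ∑ p ∈ (Finset.range (n + 1)).filter (fun p : ℕ => p.Prime ∧ 20 * p ≤ n), ∑ i ∈ Finset.range m,
      Real.log ((padicNorm p (((2 * i - 1).factorial : ℕ) : ℚ) ^ 2 : ℚ) : ℝ) ≤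
    - 2 * ∑ i ∈ Finset.range m, Real.log ((2 * i - 1).factorial : ℝ) +
      ∑ p ∈ PS (1 / 20) 5 n, (∑ j ∈ J, tn (5 * n) j p) * Real.log p := by
  sorry

theorem F6_superfac : ∀ ε : ℝ, 0 < ε → ∀ᶠ n : ℕ in atTop, ∀ m : ℕ, 2 * m + 5 = 5 * n →
    25 / 2 * (n : ℝ) ^ 2 * Real.log n + (25 / 2 * Real.log 5 - 75 / 4 - ε) * (n : ℝ) ^ 2 ≤
      2 * ∑ i ∈ Finset.range m, Real.log ((2 * i - 1).factorial : ℝ) := by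
  sorry

/-! ### G. The archimedean part -/

theorem G1_zero : ∃ (C : ℝ) (K : ℕ), 0 < C ∧ ∀ N : ℕ, 1 ≤ N → ∀ n : ℕ, n = 24 * N + 1 →
    ‖Rn n (32 * N) 0‖ * ‖aeval (xz n (32 * N) 0) (ZZ n (32 * N))‖ ^ 2 ≤
      C * (n : ℝ) ^ K * (n : ℝ) ^ (128 * N) * Real.exp (n * Phi0) := by
  sorry

/-- comparison with the product over all half integers -/
theorem G1_ratio {n T : ℕ} (hn : 1 ≤ n) (hT : 1 ≤ T) (y : ℝ) (M : ℕ) (hM : 2 * T + 2 * n ≤ M) :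
    (‖Rn n T y‖ * ‖aeval (xz n T y) (ZZ n T)‖ ^ 2 * Real.exp (-(Real.pi * |y|))) ^ 2 *
      ((∏ m ∈ Finset.Ioc T (T + 2 * n), (1 + y ^ 2 / ((m : ℝ) - 1 / 2) ^ 2) ^ 7) *
       (∏ m ∈ Finset.Ioc (2 * T + 2 * n) M, (1 + y ^ 2 / ((m : ℝ) - 1 / 2) ^ 2) ^ 2)) ≤
    (‖Rn n T 0‖ * ‖aeval (xz n T 0) (ZZ n T)‖ ^ 2) ^ 2 * (1 + y ^ 2) := by
  sorry

theorem G1_main : ∃ (C : ℝ) (K : ℕ), 0 < C ∧ ∀ N : ℕ, 1 ≤ N → ∀ n : ℕ, n = 24 * N + 1 → ∀ y : ℝ,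
    ‖Rn n (32 * N) y‖ * ‖xz n (32 * N) y‖ ^ 7 * ‖aeval (xz n (32 * N) y) (ZZ n (32 * N))‖ ^ 2 *
      Real.exp (-(Real.pi * |y|)) * (1 + y ^ 2) ^ 5 * FXp ((y / n) ^ 2) ^ N ≤
      C * (n : ℝ) ^ K * (n : ℝ) ^ (128 * N) * Real.exp (n * Phi0) := by
  sorry

theorem G2_qb {n N : ℕ} (hN : 100 ≤ N) (hn : n = 24 * N + 1) (y : ℝ) (b : ℕ) :
    ‖aeval (xz n (32 * N) y) (qb n (g1 b) (g2 b))‖ ^ 2 ≤ (n : ℝ) ^ 8 * Gb (g1 b) (g2 b) ((y / n) ^ 2) := by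
  sorry

theorem G3_cert (b : ℕ) (hb : b ≤ 4) (v : ℝ) (hv : 0 ≤ v) :
    ∏ i ∈ Finset.range b, Gb (g1 i) (g2 i) v ^ sg i ≤ 2 ^ tb b * FXp v := by
  sorry

theorem G5_super (a b : ℕ) (ha : 1 ≤ a) : ∀ ε : ℝ, 0 < ε → ∀ᶠ N : ℕ in atTop, ∀ n : ℕ, n = 24 * N + 1 →
    |∑ l ∈ Finset.range (a * N + b), Real.log (l.factorial : ℝ) -
      (((a : ℝ) / 24) ^ 2 / 2 * Real.log n + SS ((a : ℝ) / 24)) * (n : ℝ) ^ 2| ≤ ε * (n : ℝ) ^ 2 := by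
  sorry

theorem G5_zone : ∀ ε : ℝ, 0 < ε → ∀ᶠ N : ℕ in atTop, ∀ n : ℕ, n = 24 * N + 1 →
    Real.log (∏ l ∈ Finset.range (32 * N), |((wh n l : ℚ) : ℝ)|) + Real.log |((VD n (32 * N) : ℚ) : ℝ)| ≤
      32 / 9 * (n : ℝ) ^ 2 * Real.log n + (ZT + ε) * (n : ℝ) ^ 2 := by
  sorry

theorem G5_ZE {n T l : ℕ} (hl : l < T) :
    |(ZE n T l).eval (xh n l)| = (l.factorial : ℚ) * ((T - 1 - l).factorial : ℚ) * ((l + T + 2 * n).factorial : ℚ) /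
      (((l + 2 * n).factorial : ℚ) * (2 * l + 1 + 2 * n)) := by
  sorry

theorem G6a_mono {n N l : ℕ} (hN : 100 ≤ N) (hn : n = 24 * N + 1) (hl : l < 24 * N) :
    Dz n N (l + 1) ≤ Dz n N l := by
  sorry

theorem G6b_anchor : ∃ (C : ℝ) (K : ℕ), 0 < C ∧ ∀ N : ℕ, 100 ≤ N → ∀ n : ℕ, n = 24 * N + 1 →
    BN n N ≤ C * (n : ℝ) ^ K * Dz n N (24 * N) := by
  sorry

theorem G6c_anchor : ∃ (C : ℝ) (K : ℕ), 0 < C ∧ ∀ N : ℕ, 100 ≤ N → ∀ n : ℕ, n = 24 * N + 1 → ∀ l : ℕ,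
    24 * N ≤ l → l < 32 * N → BN n N ≤ C * (n : ℝ) ^ K * Real.exp (3 / 5 * n) * Dz n N l := by
  sorry

/-- the zone is saturated -/
theorem G6_sat : ∃ (C : ℝ) (K : ℕ), 0 < C ∧ ∀ N : ℕ, 100 ≤ N → ∀ n : ℕ, n = 24 * N + 1 → ∀ l < 32 * N,
    BN n N ≤ C * (n : ℝ) ^ K * Real.exp (kz N l * n) * Dz n N l := by
  sorry

/-- the contour rows -/
theorem G7a_rows : ∃ (C : ℝ) (K : ℕ), 0 < C ∧ ∀ N : ℕ, 100 ≤ N → ∀ n : ℕ, n = 24 * N + 1 →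
    ∃ (G : ℕ → ℚ[X]) (al : ℕ → ℝ), (∀ j < 28 * N, (G j).Monic ∧ (G j).natDegree = j) ∧
    (∀ j < 28 * N, ∀ y : ℝ, wt n N y * ‖aeval (xz n (32 * N) y) (ZZ n (32 * N) * G j)‖ ^ 2 ≤ Real.exp (al j)) ∧
    (∀ y : ℝ, wt n N y * ‖aeval (xz n (32 * N) y) (ZZ n (32 * N) * HH n N)‖ ^ 2 ≤ C * (n : ℝ) ^ K * BN n N) ∧
    ∑ j ∈ Finset.range (28 * N), al j ≤ 28 * N * (Real.log C + K * Real.log n + n * Phi0 + 128 * N * Real.log n) +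
      2 * (28 * N) ^ 2 * Real.log n + 528 * (N : ℝ) ^ 2 * Real.log 2 := by
  sorry

/-- the determinant inequality -/
theorem G7b_bound {n N : ℕ} (hN : 100 ≤ N) (hn : n = 24 * N + 1) (u : ℕ → ℚ) (h2 : lamB 2 = (u 2 : ℝ))
    (h4 : lamB 4 = (u 4 : ℝ)) (G : ℕ → ℚ[X]) (al : ℕ → ℝ) (BH : ℝ) (hBH : 0 ≤ BH)
    (hG : ∀ j < 28 * N, (G j).Monic ∧ (G j).natDegree = j)
    (hal : ∀ j < 28 * N, ∀ y : ℝ, wt n N y * ‖aeval (xz n (32 * N) y) (ZZ n (32 * N) * G j)‖ ^ 2 ≤ Real.exp (al j))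
    (hH : ∀ y : ℝ, wt n N y * ‖aeval (xz n (32 * N) y) (ZZ n (32 * N) * HH n N)‖ ^ 2 ≤ BH) :
    |((DET n u (60 * N) : ℚ) : ℝ)| * |((VD n (32 * N) : ℚ) : ℝ)| *
        ((∏ l ∈ Finset.range (32 * N), (HH n N).eval (xh n l) : ℚ) : ℝ) ^ 2 ≤
      ((60 * N).factorial : ℝ) * (∏ l ∈ Finset.range (32 * N), (Dz n N l + 16 * BH)) *
        ∏ j ∈ Finset.range (28 * N), (4 * Real.exp (al j)) := by
  sorry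

/-- total archimedean bound -/
theorem G7_arch : ∀ ε : ℝ, 0 < ε → ∀ᶠ N : ℕ in atTop, ∀ n : ℕ, n = 24 * N + 1 → ∀ u : ℕ → ℚ,
    lamB 2 = (u 2 : ℝ) → lamB 4 = (u 4 : ℝ) → DET n u (60 * N) ≠ 0 →
    Real.log |((DET n u (60 * N) : ℚ) : ℝ)| ≤
      25 / 2 * (n : ℝ) ^ 2 * Real.log n + (ZT + 7 / 6 * Phi0 + 1 / 5 + 11 / 12 * Real.log 2 + ε) * (n : ℝ) ^ 2 := by
  sorry

/-! ### H. Non-vanishing -/

theorem H1_bs {p : ℕ} [Fact p.Prime] (r a i : ℕ) (hi : 1 ≤ i) (hr : 2 * r < p) (ha : 2 * a + 1 < p) :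
    padicNorm p ((p : ℚ) ^ i * bsZ i ((a * p + r : ℕ) : ℤ) - (-1) ^ ((p - 1) / 2) * bsZ i (a : ℤ)) ≤ (p : ℚ)⁻¹ := by
  sorry

theorem H1_bs' {p : ℕ} [Fact p.Prime] (r a i : ℕ) (hi : 1 ≤ i) (hr : p < 2 * r) (hr2 : r < p) (ha : 2 * a + 1 < p) :
    padicNorm p ((p : ℚ) ^ i * bsZ i ((a * p + r : ℕ) : ℤ) - (-1) ^ ((p - 1) / 2) * bsZ i ((a + 1 : ℕ) : ℤ)) ≤
      (p : ℚ)⁻¹ := by
  sorry

/-- principal coefficients in the classes `±r` -/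
theorem H2_pa {p : ℕ} [Fact p.Prime] (hp : 30 ≤ p) (r : ℕ) (hr1 : 1 ≤ r) (hr2 : 2 * r < p) :
    ∃ w : ℚ, padicNorm p w = 1 ∧ ∀ e j i : ℕ, e ≤ 8 → j ≤ 1 → 1 ≤ i → i ≤ 5 →
      padicNorm p (pa (sB p) m5 (PPn p * EE p (nd p r ^ e *
        ∏ r' ∈ (Finset.Icc 1 ((p - 1) / 2)).erase r, nd p r' ^ 10)) (r + j * p) i / (p : ℚ) ^ (i + e) -
        w * (-2 * r) ^ e * PowerSeries.coeff (5 - i) (ser j e)) ≤ (p : ℚ)⁻¹ := by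
  sorry

theorem H3_diag {p : ℕ} [Fact p.Prime] (hp : 30 ≤ p) (u : ℕ → ℚ) (hu : ∀ i, padicNorm p (u i) ≤ 1)
    (r : ℕ) (hr1 : 1 ≤ r) (hr2 : 2 * r < p) :
    ∃ w : ℚ, padicNorm p w = 1 ∧ ∀ e : ℕ, e ≤ 8 →
      padicNorm p ((p : ℚ) ^ (-(e : ℤ)) * NL p u (nd p r ^ e *
        ∏ r' ∈ (Finset.Icc 1 ((p - 1) / 2)).erase r, nd p r' ^ 10) -
        w * (-2 * r) ^ e * Fm e) ≤ (p : ℚ)⁻¹ := by
  sorry

theorem H4_offdiag {p : ℕ} [Fact p.Prime] (hp : 30 ≤ p) (u : ℕ → ℚ) (hu : ∀ i, padicNorm p (u i) ≤ 1)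
    (r s l l' : ℕ) (hr1 : 1 ≤ r) (hr2 : 2 * r < p) (hs1 : 1 ≤ s) (hs2 : 2 * s < p) (hrs : r ≠ s)
    (hl : l < 5) (hl' : l' < 5) :
    padicNorm p ((p : ℚ) ^ (-(l : ℤ) - (l' : ℤ)) * NL p u
      ((nd p r ^ l * ∏ r' ∈ (Finset.Icc 1 ((p - 1) / 2)).erase r, nd p r' ^ 5) *
       (nd p s ^ l' * ∏ r' ∈ (Finset.Icc 1 ((p - 1) / 2)).erase s, nd p r' ^ 5))) ≤ (p : ℚ)⁻¹ := by
  sorry

theorem H5_local : (Matrix.of fun l l' : Fin 5 => Fm (l.1 + l'.1)).det ≠ 0 := by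
  sorry

theorem H6_nonvanish (u : ℕ → ℚ) (q : ℕ) (hu : UInt q u) : ∃ p0 : ℕ, ∀ p : ℕ, p0 ≤ p → p.Prime →
    DET p u (5 * ((p - 1) / 2)) ≠ 0 := by
  sorry

/-! ### Z. Assembly -/

theorem Z1_split (n : ℕ) (hn : 100 ≤ n) (hnp : n.Prime) (K0 : ℝ) (hK0 : 0 ≤ K0) :
    ∑ p ∈ ((Finset.range (4 * n)).filter Nat.Prime).filter (fun p => ¬ 20 * p ≤ n), (EW n p + K0) * Real.log p ≤
      ∑ K ∈ Finset.Icc (2 : ℕ) 39, ∑ p ∈ cell K n, EA n p * Real.log p +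
      ∑ p ∈ PS 1 2 n, EB n p * Real.log p + ∑ p ∈ PS 2 4 n, EC n p * Real.log p + K0 * (Real.log 4 * (4 * n)) := by
  sorry

theorem Z2_num : ZT + 7 / 6 * Phi0 + 1 / 5 + 11 / 12 * Real.log 2 - (25 / 2 * Real.log 5 - 75 / 4) + 5 / 8 +
    16739 / 1000 - 11 / 6 + 5 + 1 / 10 < 0 := by
  sorry

theorem Z_main : Irrational (lamB 2) ∨ Irrational (lamB 4) := by
  sorry

end

end Pool.Agent.H216R2.BB
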