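import Pool.Agent.H216R2.BB.Defs

/-! Task Z1: splitting of the sum over the primes. -/

open Polynomial Filter Topology

namespace Pool.Agent.H216R2.BB

noncomputable section

lemma Z1_mem_cell {K n p : ℕ} (hK : 1 ≤ K) (hn : 0 < n) : p ∈ cell K n ↔
    p.Prime ∧ 2 * n < (K + 1) * p ∧ K * p < 2 * n := by
  have hK0 : (0 : ℝ) < K := by exact_mod_cast hK
  have hn0 : (0 : ℝ) < n := by exact_mod_cast hn
  unfold cell PS Pool.Agent.H336R2.HD.PS
  simp only [Finset.mem_filter, Finset.mem_range]
  push_cast
  have e1 : (2 / ((K : ℝ) + 1) * n < p) ↔ 2 * n < (K + 1) * p := by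
    rw [div_mul_eq_mul_div, div_lt_iff₀ (by positivity)]
    constructor
    · intro h
      have : (2 : ℝ) * n < (K + 1) * p := by linarith
      exact_mod_cast this
    · intro h
      have : (2 : ℝ) * n < (K + 1) * p := by exact_mod_cast h
      linarith
  have e2 : ((p : ℝ) < 2 / (K : ℝ) * n) ↔ K * p < 2 * n := by
    rw [div_mul_eq_mul_div, lt_div_iff₀ hK0]
    constructor
    · intro h
      have : (K : ℝ) * p < 2 * n := by linarith
      exact_mod_cast this
    · intro h
      have : (K : ℝ) * p < 2 * n := by exact_mod_cast h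
      linarith
  rw [e1, e2]
  constructor
  · rintro ⟨_, h1, h2, h3⟩
    exact ⟨h1, h2, h3⟩
  · rintro ⟨h1, h2, h3⟩
    refine ⟨?_, h1, h2, h3⟩
    have : 1 * p ≤ K * p := Nat.mul_le_mul_right p hK
    omega

theorem Z1_split (n : ℕ) (hn : 100 ≤ n) (hnp : n.Prime) (K0 : ℝ) (hK0 : 0 ≤ K0) :
    ∑ p ∈ ((Finset.range (4 * n)).filter Nat.Prime).filter (fun p => ¬ 20 * p ≤ n), (EW n p + K0) * Real.log p ≤
      ∑ K ∈ Finset.Icc (2 : ℕ) 39, ∑ p ∈ cell K n, EA n p * Real.log p +
      ∑ p ∈ PS 1 2 n, EB n p * Real.log p + ∑ p ∈ PS 2 4 n, EC n p * Real.log p + K0 * (Real.log 4 * (4 * n)) := by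
  classical
  have hn0 : (0 : ℝ) < n := by exact_mod_cast (by omega : 0 < n)
  simp only [add_mul, Finset.sum_add_distrib]
  apply add_le_add
  · set T := ((Finset.range (4 * n)).filter Nat.Prime).filter (fun p => ¬ 20 * p ≤ n) with hT
    have e1 : T.filter (fun p => p < n) = (Finset.Icc (2 : ℕ) 39).biUnion (fun K => cell K n) := by
      ext p
      rw [hT]
      simp only [Finset.mem_filter, Finset.mem_range, Finset.mem_biUnion, Finset.mem_Icc]
      constructor
      · rintro ⟨⟨⟨h1, h2⟩, h3⟩, h4⟩
        have hp0 : 0 < p := h2.pos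
        have hd1 : 2 * n / p * p ≤ 2 * n := Nat.div_mul_le_self _ _
        have hd2 : 2 * n < (2 * n / p + 1) * p := by
          have := Nat.lt_div_mul_add (a := 2 * n) hp0
          rw [add_mul, one_mul]
          exact this
        have hK2 : 2 ≤ 2 * n / p := by
          rw [Nat.le_div_iff_mul_le hp0]
          omega
        have hK39 : 2 * n / p < 40 := by
          rw [Nat.div_lt_iff_lt_mul hp0]
          omega
        refine ⟨2 * n / p, ⟨hK2, by omega⟩, (Z1_mem_cell (by omega) (by omega)).2 ⟨h2, hd2, ?_⟩⟩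
        refine lt_of_le_of_ne hd1 ?_
        intro he
        have hdvd : p ∣ 2 * n := Dvd.intro_left (2 * n / p) he
        rcases (Nat.Prime.dvd_mul h2).1 hdvd with h | h
        · have := (Nat.prime_dvd_prime_iff_eq h2 Nat.prime_two).1 h
          omega
        · have := (Nat.prime_dvd_prime_iff_eq h2 hnp).1 h
          omega
      · rintro ⟨K, ⟨hK1, hK2⟩, hp⟩
        rw [Z1_mem_cell (by omega) (by omega)] at hp
        obtain ⟨h1, h2, h3⟩ := hp
        have h4 : 2 * p ≤ K * p := Nat.mul_le_mul_right p hK1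
        have h5 : (K + 1) * p ≤ 40 * p := Nat.mul_le_mul_right p (by omega)
        refine ⟨⟨⟨by omega, h1⟩, by omega⟩, by omega⟩
    have hdis : ((Finset.Icc (2 : ℕ) 39 : Finset ℕ) : Set ℕ).PairwiseDisjoint
        (fun K => cell K n) := by
      intro K hK K' hK' hne
      rw [Function.onFun, Finset.disjoint_left]
      intro p hp hp'
      simp only [Finset.coe_Icc, Set.mem_Icc] at hK hK'
      rw [Z1_mem_cell (by omega) (by omega)] at hp hp'
      apply hne
      have a1 : K * p < (K' + 1) * p := lt_trans hp.2.2 hp'.2.1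
      have a2 : K' * p < (K + 1) * p := lt_trans hp'.2.2 hp.2.1
      have a3 := lt_of_mul_lt_mul_right a1 (Nat.zero_le p)
      have a4 := lt_of_mul_lt_mul_right a2 (Nat.zero_le p)
      omega
    have e2 : PS 1 2 n = ((T.filter (fun p => ¬ p < n)).filter (fun p => ¬ p = n)).filter
        (fun p => p < 2 * n) := by
      ext p
      unfold PS Pool.Agent.H336R2.HD.PS
      rw [hT]
      simp only [Finset.mem_filter, Finset.mem_range]
      constructor
      · rintro ⟨h1, h2, h3, h4⟩
        have h5 : n < p := by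
          have : (n : ℝ) < p := by linarith
          exact_mod_cast this
        have h6 : p < 2 * n := by exact_mod_cast h4
        exact ⟨⟨⟨⟨⟨by omega, h2⟩, by omega⟩, by omega⟩, by omega⟩, h6⟩
      · rintro ⟨⟨⟨⟨⟨h1, h2⟩, h3⟩, h4⟩, h5⟩, h6⟩
        refine ⟨by omega, h2, ?_, by exact_mod_cast h6⟩
        have : (n : ℝ) < p := by exact_mod_cast (by omega : n < p)
        linarith
    have e3 : PS 2 4 n = ((T.filter (fun p => ¬ p < n)).filter (fun p => ¬ p = n)).filter
        (fun p => ¬ p < 2 * n) := by
      ext p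
      unfold PS Pool.Agent.H336R2.HD.PS
      rw [hT]
      simp only [Finset.mem_filter, Finset.mem_range]
      constructor
      · rintro ⟨h1, h2, h3, h4⟩
        have h5 : 2 * n < p := by exact_mod_cast h3
        have h6 : p < 4 * n := by exact_mod_cast h4
        exact ⟨⟨⟨⟨⟨by omega, h2⟩, by omega⟩, by omega⟩, by omega⟩, by omega⟩
      · rintro ⟨⟨⟨⟨⟨h1, h2⟩, h3⟩, h4⟩, h5⟩, h6⟩
        refine ⟨by omega, h2, ?_, by exact_mod_cast h1⟩
        have h7 : 2 * n ≠ p := by
          rintro rfl
          exact Nat.not_prime_mul (by norm_num) (by omega) h2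
        exact_mod_cast (by omega : 2 * n < p)
    have s1 : ∑ p ∈ T.filter (fun p => p < n), EW n p * Real.log p =
        ∑ K ∈ Finset.Icc (2 : ℕ) 39, ∑ p ∈ cell K n, EA n p * Real.log p := by
      rw [e1, Finset.sum_biUnion hdis]
      refine Finset.sum_congr rfl fun K hK => Finset.sum_congr rfl fun p hp => ?_
      rw [Finset.mem_Icc] at hK
      rw [Z1_mem_cell (by omega) (by omega)] at hp
      have h4 : 2 * p ≤ K * p := Nat.mul_le_mul_right p hK.1
      unfold EW
      rw [if_pos (by omega)]
    have s2 : ∑ p ∈ (T.filter (fun p => ¬ p < n)).filter (fun p => p = n),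
        EW n p * Real.log p ≤ 0 := by
      apply Finset.sum_nonpos
      intro p hp
      rw [Finset.mem_filter] at hp
      have hpn : p = n := hp.2
      subst hpn
      have hl : 0 ≤ Real.log p := Real.log_nonneg (by exact_mod_cast hnp.one_lt.le)
      apply mul_nonpos_of_nonpos_of_nonneg _ hl
      unfold EW
      rw [if_pos le_rfl]
      unfold EA
      have hd : 2 * p / p = 2 := Nat.mul_div_cancel 2 hnp.pos
      rw [hd]
      have ht2 : T5 2 = 25 := by decide
      have ht3 : T5 (2 + 1) = 56 := by decide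
      rw [ht2, ht3]
      push_cast
      nlinarith
    have s3 : ∑ p ∈ ((T.filter (fun p => ¬ p < n)).filter (fun p => ¬ p = n)).filter
        (fun p => p < 2 * n), EW n p * Real.log p = ∑ p ∈ PS 1 2 n, EB n p * Real.log p := by
      rw [e2]
      refine Finset.sum_congr rfl fun p hp => ?_
      simp only [Finset.mem_filter] at hp
      unfold EW
      rw [if_neg (by omega), if_pos hp.2]
    have s4 : ∑ p ∈ ((T.filter (fun p => ¬ p < n)).filter (fun p => ¬ p = n)).filter
        (fun p => ¬ p < 2 * n), EW n p * Real.log p = ∑ p ∈ PS 2 4 n, EC n p * Real.log p := by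
      rw [e3]
      refine Finset.sum_congr rfl fun p hp => ?_
      have hp4 : p < 4 * n := by
        rw [hT] at hp
        simp only [Finset.mem_filter, Finset.mem_range] at hp
        exact hp.1.1.1.1.1
      simp only [Finset.mem_filter] at hp
      unfold EW
      rw [if_neg (by omega), if_neg hp.2, if_pos hp4]
    have t1 := Finset.sum_filter_add_sum_filter_not T (fun p => p < n)
      (fun p => EW n p * Real.log p)
    have t2 := Finset.sum_filter_add_sum_filter_not (T.filter (fun p => ¬ p < n)) (fun p => p = n)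
      (fun p => EW n p * Real.log p)
    have t3 := Finset.sum_filter_add_sum_filter_not
      ((T.filter (fun p => ¬ p < n)).filter (fun p => ¬ p = n)) (fun p => p < 2 * n)
      (fun p => EW n p * Real.log p)
    linarith
  · rw [← Finset.mul_sum]
    apply mul_le_mul_of_nonneg_left _ hK0
    refine le_trans ?_ (Chebyshev.theta_le_log4_mul_x (x := 4 * n) (by positivity))
    unfold Chebyshev.theta
    apply Finset.sum_le_sum_of_subset_of_nonneg
    · intro p hp
      rw [Finset.mem_filter, Finset.mem_filter, Finset.mem_range] at hp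
      rw [Finset.mem_filter, Finset.mem_Ioc]
      refine ⟨⟨hp.1.2.pos, ?_⟩, hp.1.2⟩
      rw [Nat.le_floor_iff (by positivity)]
      have : ((p : ℕ) : ℝ) ≤ ((4 * n : ℕ) : ℝ) := by exact_mod_cast hp.1.1.le
      push_cast at this
      exact this
    · intro p hp _
      rw [Finset.mem_filter] at hp
      exact Real.log_nonneg (by exact_mod_cast hp.2.one_lt.le)

end

end Pool.Agent.H216R2.BB
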