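import Pool.Agent.H216R2.BB.Defs

/-! The final numerical inequality. -/

namespace Pool.Agent.H216R2.BB

noncomputable section

theorem Z2_num : ZT + 7 / 6 * Phi0 + 1 / 5 + 11 / 12 * Real.log 2 - (25 / 2 * Real.log 5 - 75 / 4) + 5 / 8 +
    16739 / 1000 - 11 / 6 + 5 + 1 / 10 < 0 := by
  have h2 := Real.log_two_gt_d9
  have h2' := Real.log_two_lt_d9
  have l43 : Real.log (4 / 3) = 2 * Real.log 2 - Real.log 3 := by
    rw [Real.log_div (by norm_num) (by norm_num), show (4 : ℝ) = 2 ^ 2 by norm_num, Real.log_pow]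
    push_cast; ring
  have l103 : Real.log (10 / 3) = Real.log 2 + Real.log 5 - Real.log 3 := by
    rw [Real.log_div (by norm_num) (by norm_num), show (10 : ℝ) = 2 * 5 by norm_num,
      Real.log_mul (by norm_num) (by norm_num)]
  have l143 : Real.log (14 / 3) = Real.log 2 + Real.log 7 - Real.log 3 := by
    rw [Real.log_div (by norm_num) (by norm_num), show (14 : ℝ) = 2 * 7 by norm_num,
      Real.log_mul (by norm_num) (by norm_num)]
  have cmp : ∀ (a b x y : ℕ), 1 ≤ x → (x : ℝ) ^ a ≤ (y : ℝ) ^ b →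
      a * Real.log x ≤ b * Real.log y := by
    intro a b x y hx h
    have hx' : (0 : ℝ) < (x : ℝ) := by exact_mod_cast hx
    have := Real.log_le_log (by positivity) h
    rw [Real.log_pow, Real.log_pow] at this
    exact this
  have h3 := cmp 41 65 3 2 (by norm_num) (by norm_num)
  have h5 := cmp 65 28 2 5 (by norm_num) (by norm_num)
  have h7 := cmp 26 73 7 2 (by norm_num) (by norm_num)
  push_cast at h3 h5 h7
  unfold ZT SS Phi0
  rw [l43, l103, l143]
  linarith

end

end Pool.Agent.H216R2.BB
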