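import Pool.Agent.H216R2.BB.D4
import Pool.Agent.H216R2.BB.E4
import Pool.Agent.H216R2.BB.F1
import Pool.Agent.H216R2.BB.F2
import Pool.Agent.H216R2.BB.F3
import Pool.Agent.H216R2.BB.F4
import Pool.Agent.H216R2.BB.F5
import Pool.Agent.H216R2.BB.F6
import Pool.Agent.H216R2.BB.G7
import Pool.Agent.H216R2.BB.H6
import Pool.Agent.H216R2.BB.Z1
import Pool.Agent.H216R2.BB.Z2
import Pool.Agent.H336R2.HD.A5

open Polynomial Pool.Agent.H337R2 Filter Topology

namespace Pool.Agent.H216R2.BB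

noncomputable section

/-- bound of the local factor -/
def Bf (n m p : ℕ) (K0 : ℝ) : ℝ :=
  if 20 * p ≤ n then
    (if p ^ 2 ≤ 5 * n then ((((5 * n + 1 : ℕ) : ℝ) ^ 16) ^ m) else ((p : ℝ) ^ 5) ^ m) *
      ∏ i ∈ Finset.range m, ((padicNorm p (((2 * i - 1).factorial : ℕ) : ℚ) ^ 2 : ℚ) : ℝ)
  else (p : ℝ) ^ (EW n p + K0)

lemma norm_fac_pos (p N : ℕ) (hp : p.Prime) : 0 < ((padicNorm p ((N.factorial : ℕ) : ℚ) ^ 2 : ℚ) : ℝ) := by
  have : Fact p.Prime := ⟨hp⟩
  have : 0 < padicNorm p ((N.factorial : ℕ) : ℚ) :=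
    lt_of_le_of_ne (padicNorm.nonneg _) (Ne.symm (padicNorm.nonzero (by exact_mod_cast Nat.factorial_ne_zero N)))
  exact_mod_cast pow_pos this 2

lemma Bf_pos (n m p : ℕ) (K0 : ℝ) (hp : p.Prime) : 0 < Bf n m p K0 := by
  have hp0 : (0 : ℝ) < p := by exact_mod_cast hp.pos
  unfold Bf
  split_ifs
  · apply mul_pos (by positivity)
    exact Finset.prod_pos fun i _ => norm_fac_pos p _ hp
  · apply mul_pos (by positivity)
    exact Finset.prod_pos fun i _ => norm_fac_pos p _ hp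
  · exact Real.rpow_pos_of_pos hp0 _

/-- the log of the local factor, small primes -/
lemma log_Bf_small (n m p : ℕ) (K0 : ℝ) (hm : 2 * m + 5 = 5 * n) (hp : p.Prime) (h : 20 * p ≤ n) :
    Real.log (Bf n m p K0) ≤ 5 / 2 * (n : ℝ) * ((if p ^ 2 ≤ 5 * n then 16 * Real.log (5 * n + 1) else 0) + 5 * Real.log p) +
      ∑ i ∈ Finset.range m, Real.log ((padicNorm p (((2 * i - 1).factorial : ℕ) : ℚ) ^ 2 : ℚ) : ℝ) := by
  have hp0 : (0 : ℝ) < p := by exact_mod_cast hp.pos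
  have hlp : 0 ≤ Real.log p := Real.log_nonneg (by exact_mod_cast hp.one_lt.le)
  have hn0 : (0 : ℝ) ≤ n := by positivity
  have hl : 0 ≤ Real.log (5 * (n : ℝ) + 1) := Real.log_nonneg (by linarith)
  have hprod : Real.log (∏ i ∈ Finset.range m, ((padicNorm p (((2 * i - 1).factorial : ℕ) : ℚ) ^ 2 : ℚ) : ℝ))
      = ∑ i ∈ Finset.range m, Real.log ((padicNorm p (((2 * i - 1).factorial : ℕ) : ℚ) ^ 2 : ℚ) : ℝ) :=
    Real.log_prod (fun i _ => (norm_fac_pos p _ hp).ne')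
  have hpp : 0 < ∏ i ∈ Finset.range m, ((padicNorm p (((2 * i - 1).factorial : ℕ) : ℚ) ^ 2 : ℚ) : ℝ) :=
    Finset.prod_pos fun i _ => norm_fac_pos p _ hp
  have hm' : (m : ℝ) ≤ 5 / 2 * n := by
    have : ((2 * m + 5 : ℕ) : ℝ) = ((5 * n : ℕ) : ℝ) := by exact_mod_cast hm
    push_cast at this
    linarith
  unfold Bf
  rw [if_pos h, Real.log_mul (by split_ifs <;> positivity) hpp.ne', hprod]
  apply add_le_add_left
  split_ifs with h2
  · rw [Real.log_pow, Real.log_pow]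
    push_cast
    have h4 : (m : ℝ) * (16 * Real.log (5 * (n : ℝ) + 1)) ≤ 5 / 2 * n * (16 * Real.log (5 * (n : ℝ) + 1)) :=
      mul_le_mul_of_nonneg_right hm' (by positivity)
    have h5 : 0 ≤ 5 / 2 * (n : ℝ) * (5 * Real.log p) := by positivity
    nlinarith
  · rw [Real.log_pow, Real.log_pow]
    push_cast
    have h4 : (m : ℝ) * (5 * Real.log p) ≤ 5 / 2 * n * (5 * Real.log p) :=
      mul_le_mul_of_nonneg_right hm' (by positivity)
    linarith

lemma log_Bf_large (n m p : ℕ) (K0 : ℝ) (hp : p.Prime) (h : ¬ 20 * p ≤ n) :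
    Real.log (Bf n m p K0) = (EW n p + K0) * Real.log p := by
  unfold Bf
  rw [if_neg h, Real.log_rpow (by exact_mod_cast hp.pos)]

lemma norm_le_Bf (n m p : ℕ) (K0 : ℝ) (hm : 2 * m + 5 = 5 * n) (hp : p.Prime) (q : ℕ) (u : ℕ → ℚ) (hu : UInt q u)
    (hE : n < 20 * p → 5 * n < p ^ 2 → ((padicNorm p ((q : ℚ) ^ m * DET n u m) : ℚ) : ℝ) ≤
      if p < 4 * n then (p : ℝ) ^ (EW n p + K0) else 1) (hn2 : 4800 ≤ n) (hp4 : p < 4 * n) :
    ((padicNorm p ((q : ℚ) ^ m * DET n u m) : ℚ) : ℝ) ≤ Bf n m p K0 := by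
  have : Fact p.Prime := ⟨hp⟩
  unfold Bf
  by_cases h : 20 * p ≤ n
  · rw [if_pos h]
    by_cases h2 : p ^ 2 ≤ 5 * n
    · rw [if_pos h2]
      have := D4_small_crude (p := p) (by omega : 1 ≤ n) q u hu m (by omega)
      have h3 : ((padicNorm p ((q : ℚ) ^ m * DET n u m) : ℚ) : ℝ) ≤
        (((((5 * n + 1 : ℕ) : ℚ) ^ 16) ^ m * ∏ i ∈ Finset.range m, padicNorm p (((2 * i - 1).factorial : ℕ) : ℚ) ^ 2 : ℚ) : ℝ) := by
        exact_mod_cast this
      refine h3.trans (le_of_eq ?_)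
      push_cast
      rfl
    · rw [if_neg h2]
      have hodd : p ≠ 2 := by
        rintro rfl
        omega
      have := D4_small_med (p := p) hodd (by omega : 1 ≤ n) (by omega) q u hu m (by omega)
      have h3 : ((padicNorm p ((q : ℚ) ^ m * DET n u m) : ℚ) : ℝ) ≤
        ((((p : ℚ) ^ 5) ^ m * ∏ i ∈ Finset.range m, padicNorm p (((2 * i - 1).factorial : ℕ) : ℚ) ^ 2 : ℚ) : ℝ) := by
        exact_mod_cast this
      refine h3.trans (le_of_eq ?_)
      push_cast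
      rfl
  · rw [if_neg h]
    have := hE (by omega) (by nlinarith)
    rw [if_pos hp4] at this
    exact this

lemma ev_of_tendsto {f : ℕ → ℝ} {L : ℝ} (h : Tendsto (fun n : ℕ => f n / (n : ℝ) ^ 2) atTop (𝓝 L)) (ε : ℝ) (hε : 0 < ε) :
    ∀ᶠ n : ℕ in atTop, f n ≤ (L + ε) * (n : ℝ) ^ 2 := by
  filter_upwards [h.eventually_lt_const (show L < L + ε by linarith), eventually_ge_atTop 1] with n h1 hn
  have hn0 : (0 : ℝ) < (n : ℝ) ^ 2 := by
    have : (0 : ℝ) < n := by exact_mod_cast hn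
    positivity
  rw [div_lt_iff₀ hn0] at h1
  exact h1.le

lemma cells_tendsto : Tendsto (fun n : ℕ => (∑ K ∈ Finset.Icc (2 : ℕ) 39, ∑ p ∈ cell K n, EA n p * Real.log p) / (n : ℝ) ^ 2)
    atTop (𝓝 (((∑ K ∈ Finset.Icc (2 : ℕ) 39, LAc K : ℚ)) : ℝ)) := by
  have e : (fun n : ℕ => (∑ K ∈ Finset.Icc (2 : ℕ) 39, ∑ p ∈ cell K n, EA n p * Real.log p) / (n : ℝ) ^ 2) =
      fun n : ℕ => ∑ K ∈ Finset.Icc (2 : ℕ) 39, ((∑ p ∈ cell K n, EA n p * Real.log p) / (n : ℝ) ^ 2) := by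
    funext n
    rw [Finset.sum_div]
  rw [e]
  push_cast
  apply tendsto_finsetSum
  intro K hK
  rw [Finset.mem_Icc] at hK
  exact F2_cell K hK.1 hK.2

theorem Z_main : Irrational (lamB 2) ∨ Irrational (lamB 4) := by
  by_contra hcon
  push Not at hcon
  obtain ⟨hc2, hc4⟩ := hcon
  unfold Irrational at hc2 hc4
  rw [not_not] at hc2 hc4
  obtain ⟨a, ha⟩ := hc2
  obtain ⟨b, hb⟩ := hc4
  set u : ℕ → ℚ := fun i => if i = 2 then a else if i = 4 then b else 0 with hu_def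
  have hu2 : lamB 2 = (u 2 : ℝ) := by rw [← ha]; simp [hu_def]
  have hu4 : lamB 4 = (u 4 : ℝ) := by rw [← hb]; simp [hu_def]
  set q : ℕ := a.den * b.den with hq_def
  have hq0 : 0 < q := Nat.mul_pos a.den_pos b.den_pos
  have hu : UInt q u := by
    refine ⟨hq0, fun i => ?_⟩
    by_cases h3 : i = 2
    · refine ⟨b.den * a.num, ?_⟩
      have : (a.den : ℚ) * a = a.num := by rw [mul_comm]; exact Rat.mul_den_eq_num a
      simp only [hu_def, h3, if_true, hq_def]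
      push_cast
      rw [← this]; ring
    · by_cases h5 : i = 4
      · refine ⟨a.den * b.num, ?_⟩
        have : (b.den : ℚ) * b = b.num := by rw [mul_comm]; exact Rat.mul_den_eq_num b
        have hui : u i = b := by simp [hu_def, h5]
        rw [hui, hq_def]
        push_cast
        rw [← this]; ring
      · exact ⟨0, by simp [hu_def, h3, h5]⟩
  obtain ⟨K0, hK0, hE4⟩ := E4_padic
  obtain ⟨p0, hH6⟩ := H6_nonvanish u q hu
  have hF3 : ((∑ K ∈ Finset.Icc (2 : ℕ) 39, LAc K + LU : ℚ) : ℝ) ≤ 16739 / 1000 := by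
    have h := (Rat.cast_le (K := ℝ)).2 F3_numeric
    refine h.trans (le_of_eq ?_)
    norm_num
  have hnum := Z2_num
  -- the eventual inequalities
  have hε : (0 : ℝ) < 1 / 100 := by norm_num
  have ev1 := G7_arch (1 / 100) hε
  have ev2 := ev_of_tendsto cells_tendsto (1 / 100) hε
  have ev3 := ev_of_tendsto F2_B (1 / 100) hε
  have ev4 := ev_of_tendsto F2_C (1 / 100) hε
  have ev5 := ev_of_tendsto F2_U (1 / 100) hε
  have ev6 := F4_small (1 / 100) hε
  have ev7 := F5_fact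
  have ev8 := F6_superfac (1 / 100) hε
  have ev9 : ∀ᶠ n : ℕ in atTop, 5 / 2 * Real.log q + K0 * (Real.log 4 * 4) ≤ 1 / 100 * n := by
    have := (tendsto_natCast_atTop_atTop (R := ℝ)).const_mul_atTop hε
    exact this.eventually_ge_atTop _
  obtain ⟨N1, hN1⟩ := eventually_atTop.1 ev1
  obtain ⟨N2, hN2⟩ := eventually_atTop.1 (ev2.and (ev3.and (ev4.and (ev5.and (ev6.and (ev7.and (ev8.and ev9)))))))
  obtain ⟨n, hnp, hngt, hnmod⟩ := Nat.exists_prime_gt_modEq_one (k := 24) (24 * N1 + N2 + p0 + 4800) (by norm_num)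
  obtain ⟨N, hN⟩ : ∃ N, n = 24 * N + 1 := by
    have h1 : n % 24 = 1 := hnmod
    exact ⟨n / 24, by omega⟩
  set m : ℕ := 60 * N with hm_def
  have hm : 2 * m + 5 = 5 * n := by omega
  have hDne : DET n u m ≠ 0 := by
    have h := hH6 n (by omega) hnp
    have e : 5 * ((n - 1) / 2) = m := by omega
    rwa [e] at h
  have g1 := hN1 N (by omega) n hN u hu2 hu4 hDne
  obtain ⟨g2, g3, g4, g5, g6, g7', g8', g9⟩ := hN2 n (by omega)
  have g7 := g7' m hm
  have g8 := g8' m hm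
  have hn8 : 8 ≤ n := by omega
  have hn0 : (0 : ℝ) < n := by exact_mod_cast (by omega : 0 < n)
  set D := DET n u m with hD
  set z : ℚ := (q : ℚ) ^ m * D with hz
  have hqr : (0 : ℝ) < q := by exact_mod_cast hq0
  have hz0 : z ≠ 0 := mul_ne_zero (by positivity) hDne
  set S := (Finset.range (4 * n)).filter Nat.Prime with hS
  have hpf := Pool.Agent.H336R2.HD.A5_prod_formula z hz0 S (fun p hp => (Finset.mem_filter.1 hp).2) (fun p => Bf n m p K0)
    (fun p hp => by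
      rw [hS, Finset.mem_filter, Finset.mem_range] at hp
      exact norm_le_Bf n m p K0 hm hp.2 q u hu (fun h1 h2 => hE4 n m hn8 hm p hp.2 h1 h2 q u hu) (by omega) hp.1)
    (fun p hp hpS => by
      rw [hS, Finset.mem_filter, Finset.mem_range] at hpS
      have h1 : 4 * n ≤ p := by
        by_contra h; exact hpS ⟨by omega, hp⟩
      have h2 := hE4 n m hn8 hm p hp (by omega) (by nlinarith) q u hu
      rw [if_neg (by omega)] at h2
      have h3 : padicNorm p ((q : ℚ) ^ m * DET n u m) ≤ 1 := by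
        exact_mod_cast h2
      exact h3)
  have hprodpos : 0 < ∏ p ∈ S, Bf n m p K0 :=
    Finset.prod_pos fun p hp => Bf_pos n m p K0 (Finset.mem_filter.1 hp).2
  have hzabs : 0 < |(z : ℝ)| := abs_pos.2 (by exact_mod_cast hz0)
  have hlog := Real.log_nonneg hpf
  rw [Real.log_mul hzabs.ne' hprodpos.ne', Real.log_prod (fun p hp => (Bf_pos n m p K0 (Finset.mem_filter.1 hp).2).ne')] at hlog
  have hzlog : Real.log |(z : ℝ)| = (m : ℝ) * Real.log q + Real.log |((D : ℚ) : ℝ)| := by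
    rw [hz]
    push_cast
    rw [abs_mul, Real.log_mul (by positivity) (abs_pos.2 (by exact_mod_cast hDne)).ne', abs_of_pos (by positivity), Real.log_pow]
  have hlq : 0 ≤ Real.log q := Real.log_nonneg (by exact_mod_cast hq0)
  have hmr : (m : ℝ) ≤ 5 / 2 * n := by
    have : ((2 * m + 5 : ℕ) : ℝ) = ((5 * n : ℕ) : ℝ) := by exact_mod_cast hm
    push_cast at this
    linarith
  have hmq : (m : ℝ) * Real.log q ≤ 5 / 2 * n * Real.log q := mul_le_mul_of_nonneg_right hmr hlq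
  -- split of the sum
  rw [← Finset.sum_filter_add_sum_filter_not S (fun p => 20 * p ≤ n)] at hlog
  have hsmall : ∑ p ∈ S.filter (fun p => 20 * p ≤ n), Real.log (Bf n m p K0) ≤
      5 / 2 * (n : ℝ) * (∑ p ∈ (Finset.range (n + 1)).filter (fun p : ℕ => p.Prime ∧ p ^ 2 ≤ 5 * n),
        16 * Real.log (5 * n + 1) +
      ∑ p ∈ (Finset.range (n + 1)).filter (fun p : ℕ => p.Prime ∧ 20 * p ≤ n), 5 * Real.log p) +
      ∑ p ∈ (Finset.range (n + 1)).filter (fun p : ℕ => p.Prime ∧ 20 * p ≤ n), ∑ i ∈ Finset.range m,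
      Real.log ((padicNorm p (((2 * i - 1).factorial : ℕ) : ℚ) ^ 2 : ℚ) : ℝ) := by
    have e1 : S.filter (fun p => 20 * p ≤ n) = (Finset.range (n + 1)).filter (fun p : ℕ => p.Prime ∧ 20 * p ≤ n) := by
      ext p
      rw [hS]
      simp only [Finset.mem_filter, Finset.mem_range]
      constructor
      · rintro ⟨⟨h1, h2⟩, h3⟩; exact ⟨by omega, h2, h3⟩
      · rintro ⟨h1, h2, h3⟩; exact ⟨⟨by omega, h2⟩, h3⟩
    rw [e1]
    calc _ ≤ ∑ p ∈ (Finset.range (n + 1)).filter (fun p : ℕ => p.Prime ∧ 20 * p ≤ n),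
          (5 / 2 * (n : ℝ) * ((if p ^ 2 ≤ 5 * n then 16 * Real.log (5 * n + 1) else 0) + 5 * Real.log p) +
          ∑ i ∈ Finset.range m, Real.log ((padicNorm p (((2 * i - 1).factorial : ℕ) : ℚ) ^ 2 : ℚ) : ℝ)) := by
          apply Finset.sum_le_sum
          intro p hp
          rw [Finset.mem_filter] at hp
          exact log_Bf_small n m p K0 hm hp.2.1 hp.2.2
      _ ≤ _ := by
          rw [Finset.sum_add_distrib, ← Finset.mul_sum, Finset.sum_add_distrib]
          apply add_le_add_left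
          apply mul_le_mul_of_nonneg_left _ (by positivity)
          apply add_le_add_left
          rw [← Finset.sum_filter]
          apply Finset.sum_le_sum_of_subset_of_nonneg
          · intro p hp
            simp only [Finset.mem_filter, Finset.mem_range] at hp ⊢
            exact ⟨hp.1.1, hp.1.2.1, hp.2⟩
          · intro p _ _
            have : 0 ≤ Real.log (5 * (n : ℝ) + 1) := Real.log_nonneg (by linarith)
            positivity
  have hlarge : ∑ p ∈ S.filter (fun p => ¬ 20 * p ≤ n), Real.log (Bf n m p K0) ≤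
      ∑ K ∈ Finset.Icc (2 : ℕ) 39, ∑ p ∈ cell K n, EA n p * Real.log p +
      ∑ p ∈ PS 1 2 n, EB n p * Real.log p + ∑ p ∈ PS 2 4 n, EC n p * Real.log p + K0 * (Real.log 4 * (4 * n)) := by
    refine le_trans (le_of_eq ?_) (Z1_split n (by omega) hnp K0 hK0)
    apply Finset.sum_congr rfl
    intro p hp
    rw [hS, Finset.mem_filter, Finset.mem_filter] at hp
    exact log_Bf_large n m p K0 hp.1.2 hp.2
  have hfin : 5 / 2 * (n : ℝ) * Real.log q + K0 * (Real.log 4 * (4 * n)) ≤ 1 / 100 * (n : ℝ) ^ 2 := by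
    have := mul_le_mul_of_nonneg_right g9 hn0.le
    nlinarith
  have hn2 : (0 : ℝ) < (n : ℝ) ^ 2 := by positivity
  have hcast : (((∑ K ∈ Finset.Icc (2 : ℕ) 39, LAc K : ℚ)) : ℝ) + (LU : ℝ) ≤ 16739 / 1000 := by
    have := hF3
    rw [Rat.cast_add] at this
    exact this
  set LR : ℝ := (((∑ K ∈ Finset.Icc (2 : ℕ) 39, LAc K : ℚ)) : ℝ) with hLR
  have htot : 0 ≤ ((ZT + 7 / 6 * Phi0 + 1 / 5 + 11 / 12 * Real.log 2) - (25 / 2 * Real.log 5 - 75 / 4) + 5 / 8 +
      (LR + (LU : ℝ)) - 11 / 6 + 5 + 8 / 100) * (n : ℝ) ^ 2 := by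
    linarith
  have hneg : ((ZT + 7 / 6 * Phi0 + 1 / 5 + 11 / 12 * Real.log 2) - (25 / 2 * Real.log 5 - 75 / 4) + 5 / 8 +
      (LR + (LU : ℝ)) - 11 / 6 + 5 + 8 / 100) * (n : ℝ) ^ 2 < 0 := by
    apply mul_neg_of_neg_of_pos _ hn2
    linarith
  linarith

/-- the concrete form -/
theorem Z_final : Irrational (∑' j : ℕ, (-1 : ℝ) ^ j / (2 * (j : ℝ) + 1) ^ 2) ∨
    Irrational (∑' j : ℕ, (-1 : ℝ) ^ j / (2 * (j : ℝ) + 1) ^ 4) := by
  rcases Z_main with h | h
  · left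
    rw [lamB_even (le_refl 2)] at h
    have h4 : Irrational (((4 : ℚ) : ℝ) * ∑' j : ℕ, (-1 : ℝ) ^ j / (2 * (j : ℝ) + 1) ^ 2) := by
      convert h using 2
      norm_num
    exact Irrational.of_ratCast_mul 4 h4
  · right
    rw [lamB_even (by norm_num : 2 ≤ 4)] at h
    have h4 : Irrational (((16 : ℚ) : ℝ) * ∑' j : ℕ, (-1 : ℝ) ^ j / (2 * (j : ℝ) + 1) ^ 4) := by
      convert h using 2
      norm_num
    exact Irrational.of_ratCast_mul 16 h4

end

end Pool.Agent.H216R2.BB
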